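import Pool.Agent.Lib.MP_3d7595_co.Setup

set_option autoImplicit false

namespace Pool.Agent.MP3d

/-- the two-sided near set of the base vertex over `a` on floor `g ≥ 1` -/
def nbF (p : Par) {V : Type} (nd : ℕ → Bool → ℕ → ℕ → V) (R g a : ℕ) : Set V :=
  nearBase p (nd g false) R a ∪ nearBase p (nd (g-1) true) R a

namespace B0L

variable {p : Par} {V : Type} [Finite V] {G : SimpleGraph V} {nd : ℕ → Bool → ℕ → ℕ → V}

/-- the cells of level `N+1` -/
def topc (p : Par) {V : Type} (nd : ℕ → ℕ → V) (v : ℕ) : Set V :=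
  cellSet nd p.L (p.row0 (p.N+1) 0) (v * p.L ^ (p.N+1)) (p.L ^ (p.N+1))

theorem top_lt {v z : ℕ} (hv : v < p.n0) (hz : z < p.L ^ (p.N+1)) :
    v * p.L ^ (p.N+1) + z < p.Xm := by
  unfold Par.Xm
  calc v * p.L ^ (p.N+1) + z < v * p.L ^ (p.N+1) + p.L ^ (p.N+1) := by omega
    _ = (v + 1) * p.L ^ (p.N+1) := by ring
    _ ≤ p.n0 * p.L ^ (p.N+1) := Nat.mul_le_mul_right _ hv

theorem top_div {v z : ℕ} (hz : z < p.L ^ (p.N+1)) :
    (v * p.L ^ (p.N+1) + z) / p.L ^ (p.N+1) = v := by
  rw [mul_comm, Nat.mul_add_div (by omega), Nat.div_eq_of_lt hz, add_zero]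

/-- rows of top cells -/
theorem top_row {v s : ℕ} (hv : v < p.n0) (hs : s < p.L) :
    0 < p.row0 (p.N+1) 0 + s ∧ p.row0 (p.N+1) 0 + s < p.T ∧
      ∀ x, p.pres (p.lev (p.row0 (p.N+1) 0 + s)) x := by
  obtain ⟨-, h2, h3⟩ := p.res_cell (p.N+1) 0 s _ (top_cell hv) hs
  refine ⟨?_, h3, ?_⟩
  · have h4 : 0 < p.o (p.N+1) :=
      lt_of_le_of_lt (Nat.zero_le _) (p.o_strictMono (show 0 < p.N+1 by omega))
    rw [p.row0_zero]
    omega
  · intro x
    rw [h2]
    exact p.pres_top _ _ (by omega)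

omit [Finite V] in
theorem topc_col (fam : Fam p G nd) : ∃ col : V → ℕ, ∀ f < p.k, ∀ v < p.n0,
    (∀ u ∈ topc p (nd f false) v, col u = v) ∧
    (∀ s, ∀ u ∈ region p (nd f s) p.N (v * p.L ^ (p.N+1)), col u = v) := by
  obtain ⟨col, hcol⟩ := fam.col
  refine ⟨col, fun f hf v hv => ⟨?_, ?_⟩⟩
  · rintro u ⟨s, z, hs, hz, rfl⟩
    obtain ⟨-, h2, h3⟩ := top_row hv hs
    rw [hcol f false _ _ hf h2 (top_lt hv hz) (h3 _), top_div hz]
  · rintro s u ⟨δ, x, hδ, h1, h2, hp, rfl⟩
    obtain ⟨z, rfl⟩ := Nat.exists_eq_add_of_le h1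
    have hz : z < p.L ^ (p.N+1) := by omega
    have hT : δ < p.T := lt_of_lt_of_le hδ (Nat.le_add_right _ _)
    rw [hcol f s δ _ hf hT (top_lt hv hz) hp, top_div hz]

omit [Finite V] in
theorem topc_stor (fam : Fam p G nd) : ∃ st : V → ℕ, ∀ f < p.k, ∀ v < p.n0,
    ∀ u ∈ topc p (nd f false) v, st u = f := by
  obtain ⟨st, hst⟩ := fam.stor
  refine ⟨st, fun f hf v hv => ?_⟩
  rintro u ⟨s, z, hs, hz, rfl⟩
  obtain ⟨h1, h2, h3⟩ := top_row hv hs
  exact hst f false _ _ hf h1 h2 (top_lt hv hz) (h3 _)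

theorem four_dvd_L (hlam : 2 ≤ p.lam) : 4 ∣ p.L := by
  have : (4 : ℕ) = 2 ^ 2 := by norm_num
  rw [this]
  exact pow_dvd_pow 2 hlam

/-- a column all of whose top cells are good, with few points of `Z` in the hats below -/
structure Exc (p : Par) {V : Type} (nd : ℕ → Bool → ℕ → ℕ → V) (Z : Set V) (θ v : ℕ) : Prop where
  lt : v < p.n0
  good : ∀ f < p.k, good p (nd f false) Z (p.N+1) 0 (v * p.L ^ (p.N+1))
  few : ∀ f < p.k, ∀ s, (Z ∩ region p (nd f s) p.N (v * p.L ^ (p.N+1))).ncard ≤ θ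

theorem Exc.mono {Z X : Set V} {θ v : ℕ} (h : Exc p nd Z θ v) (hX : X ⊆ Z) : Exc p nd X θ v := by
  refine ⟨h.lt, fun f hf => ?_, fun f hf s => ?_⟩
  · have h1 := h.good f hf
    unfold Pool.Agent.MP3d.good Good at h1 ⊢
    have h2 := Set.ncard_le_ncard (Set.inter_subset_inter_left
      (cellSet (nd f false) p.L (p.row0 (p.N+1) 0) (v * p.L ^ (p.N+1)) (p.L ^ (p.N+1))) hX)
      (Set.toFinite _)
    omega
  · exact (Set.ncard_le_ncard (Set.inter_subset_inter_left _ hX) (Set.toFinite _)).trans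
      (h.few f hf s)

theorem exists_exc (fam : Fam p G nd) {Z : Set V} {β κ : ℕ} (hZ : Z.ncard ≤ β * p.L)
    (hlam : 2 ≤ p.lam) (hκl : κ ≤ p.lam) (hn0 : 4 * β + β * 2 ^ κ < p.n0) :
    ∃ v, Exc p nd Z (2 ^ (p.lam - κ)) v := by
  classical
  obtain ⟨col, hcol⟩ := topc_col fam
  have hLpos := p.L_pos
  obtain ⟨q, hq⟩ := four_dvd_L hlam
  -- first kind of bad columns
  set B1 := (Finset.range p.n0).filter
    (fun v => ∃ f < p.k, ¬ good p (nd f false) Z (p.N+1) 0 (v * p.L ^ (p.N+1))) with hB1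
  have h1 : B1.card * q ≤ β * p.L := by
    apply count_disjoint B1 (fun v => ⋃ f ∈ Set.Iio p.k, topc p (nd f false) v) Z q _ hZ
    · intro v hv v' hv' hne
      rw [hB1, Finset.mem_filter, Finset.mem_range] at hv hv'
      rw [Set.disjoint_left]
      intro u hu hu'
      simp only [Set.mem_iUnion] at hu hu'
      obtain ⟨f, hf, hu⟩ := hu
      obtain ⟨f', hf', hu'⟩ := hu'
      exact hne (((hcol f hf v hv.1).1 u hu).symm.trans ((hcol f' hf' v' hv'.1).1 u hu'))
    · intro v hv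
      rw [hB1, Finset.mem_filter] at hv
      obtain ⟨-, f, hf, hng⟩ := hv
      have hng' : ¬ (4 * (Z ∩ topc p (nd f false) v).ncard < p.L) := hng
      have h2 : (Z ∩ topc p (nd f false) v).ncard ≤
          (Z ∩ ⋃ f ∈ Set.Iio p.k, topc p (nd f false) v).ncard := by
        apply Set.ncard_le_ncard _ (Set.toFinite _)
        apply Set.inter_subset_inter_right
        intro u hu
        simp only [Set.mem_iUnion]
        exact ⟨f, hf, hu⟩
      omega
  set B2 := (Finset.range p.n0).filter (fun v => ∃ f < p.k, ∃ s,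
    2 ^ (p.lam - κ) < (Z ∩ region p (nd f s) p.N (v * p.L ^ (p.N+1))).ncard) with hB2
  have h2 : B2.card * (2 ^ (p.lam - κ) + 1) ≤ β * p.L := by
    apply count_disjoint B2
      (fun v => ⋃ f ∈ Set.Iio p.k, ⋃ s, region p (nd f s) p.N (v * p.L ^ (p.N+1))) Z _ _ hZ
    · intro v hv v' hv' hne
      rw [hB2, Finset.mem_filter, Finset.mem_range] at hv hv'
      rw [Set.disjoint_left]
      intro u hu hu'
      simp only [Set.mem_iUnion] at hu hu'
      obtain ⟨f, hf, s, hu⟩ := hu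
      obtain ⟨f', hf', s', hu'⟩ := hu'
      exact hne (((hcol f hf v hv.1).2 s u hu).symm.trans ((hcol f' hf' v' hv'.1).2 s' u hu'))
    · intro v hv
      rw [hB2, Finset.mem_filter] at hv
      obtain ⟨-, f, hf, s, hng⟩ := hv
      have h3 : (Z ∩ region p (nd f s) p.N (v * p.L ^ (p.N+1))).ncard ≤
          (Z ∩ ⋃ f ∈ Set.Iio p.k, ⋃ s, region p (nd f s) p.N (v * p.L ^ (p.N+1))).ncard := by
        apply Set.ncard_le_ncard _ (Set.toFinite _)
        apply Set.inter_subset_inter_right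
        intro u hu
        simp only [Set.mem_iUnion]
        exact ⟨f, hf, s, hu⟩
      omega
  have hc1 : B1.card ≤ 4 * β := by
    have hq0 : 0 < q := by omega
    rw [hq] at h1
    have h3 : B1.card * q ≤ (4 * β) * q := by linarith
    exact Nat.le_of_mul_le_mul_right h3 hq0
  have hc2 : B2.card ≤ β * 2 ^ κ := by
    by_contra hcon
    push Not at hcon
    have hL : p.L = 2 ^ κ * 2 ^ (p.lam - κ) := by
      rw [← pow_add]
      unfold Par.L
      congr 1
      omega
    rw [hL] at h2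
    have h3 : (β * 2 ^ κ + 1) * (2 ^ (p.lam - κ) + 1) ≤ B2.card * (2 ^ (p.lam - κ) + 1) :=
      Nat.mul_le_mul_right _ hcon
    have h4 := Nat.zero_le (β * 2 ^ κ)
    have h5 := Nat.zero_le (2 ^ (p.lam - κ))
    linarith
  have hex : ∃ v ∈ Finset.range p.n0, v ∉ B1 ∪ B2 := by
    by_contra hcon
    push Not at hcon
    have h3 := Finset.card_le_card (show Finset.range p.n0 ⊆ B1 ∪ B2 from hcon)
    have h4 := Finset.card_union_le B1 B2
    rw [Finset.card_range] at h3
    omega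
  obtain ⟨v, hv, hvB⟩ := hex
  rw [Finset.mem_union, not_or, hB1, hB2, Finset.mem_filter, Finset.mem_filter] at hvB
  obtain ⟨hv1, hv2⟩ := hvB
  refine ⟨v, Finset.mem_range.mp hv, fun f hf => ?_, fun f hf s => ?_⟩
  · by_contra hng
    exact hv1 ⟨hv, f, hf, hng⟩
  · by_contra hng
    exact hv2 ⟨hv, f, hf, s, not_le.mp hng⟩

/-- a storey all of whose top cells are good -/
theorem exists_storey (fam : Fam p G nd) {Z : Set V} {β : ℕ} (hZ : Z.ncard ≤ β * p.L)
    (hlam : 2 ≤ p.lam) (hk : 4 * β < p.k) :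
    ∃ f < p.k, ∀ v < p.n0, good p (nd f false) Z (p.N+1) 0 (v * p.L ^ (p.N+1)) := by
  classical
  obtain ⟨st, hst⟩ := topc_stor fam
  have hLpos := p.L_pos
  obtain ⟨q, hq⟩ := four_dvd_L hlam
  by_contra hcon
  push Not at hcon
  have h1 : (Finset.range p.k).card * q ≤ β * p.L := by
    apply count_disjoint (Finset.range p.k)
      (fun f => ⋃ v ∈ Set.Iio p.n0, topc p (nd f false) v) Z q _ hZ
    · intro f hf f' hf' hne
      rw [Finset.mem_range] at hf hf'
      rw [Set.disjoint_left]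
      intro u hu hu'
      simp only [Set.mem_iUnion] at hu hu'
      obtain ⟨v, hv, hu⟩ := hu
      obtain ⟨v', hv', hu'⟩ := hu'
      exact hne ((hst f hf v hv u hu).symm.trans (hst f' hf' v' hv' u hu'))
    · intro f hf
      rw [Finset.mem_range] at hf
      obtain ⟨v, hv, hng⟩ := hcon f hf
      have hng' : ¬ (4 * (Z ∩ topc p (nd f false) v).ncard < p.L) := hng
      have h2 : (Z ∩ topc p (nd f false) v).ncard ≤
          (Z ∩ ⋃ v ∈ Set.Iio p.n0, topc p (nd f false) v).ncard := by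
        apply Set.ncard_le_ncard _ (Set.toFinite _)
        apply Set.inter_subset_inter_right
        intro u hu
        simp only [Set.mem_iUnion]
        exact ⟨v, hv, hu⟩
      omega
  rw [Finset.card_range, hq] at h1
  have hq0 : 0 < q := by omega
  have h3 : p.k * q ≤ (4 * β) * q := by linarith
  have := Nat.le_of_mul_le_mul_right h3 hq0
  omega

/-- in a storey all of whose top cells are good, the owner is constant -/
theorem storey_all (fam : Fam p G nd) {Z A : Set V} (hA : Cl G Z A) {f : ℕ} (hf : f < p.k)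
    (hg : ∀ v < p.n0, good p (nd f false) Z (p.N+1) 0 (v * p.L ^ (p.N+1))) (v : ℕ)
    (hv : v < p.n0) :
    own p (nd f false) A (p.N+1) 0 (v * p.L ^ (p.N+1)) ↔
      own p (nd f false) A (p.N+1) 0 (0 * p.L ^ (p.N+1)) := by
  induction v with
  | zero => rfl
  | succ v ih =>
    rw [← ih (by omega)]
    exact (lateral_top (fam.hs f false hf) hA hv (hg v (by omega)) (hg (v+1) hv)).symm

/-- top cells seen from both sides -/
theorem own_sides (fam : Fam p G nd) (A : Set V) {f v : ℕ} (hf : f < p.k) (hv : v < p.n0) :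
    own p (nd f true) A (p.N+1) 0 (v * p.L ^ (p.N+1)) ↔
      own p (nd f false) A (p.N+1) 0 (v * p.L ^ (p.N+1)) := by
  unfold own
  apply own_reverse
  intro s hs z hz
  exact fam.mirror f s _ hf hs (top_lt hv hz)

theorem good_sides (fam : Fam p G nd) (X : Set V) {f v : ℕ} (hf : f < p.k) (hv : v < p.n0) :
    good p (nd f true) X (p.N+1) 0 (v * p.L ^ (p.N+1)) ↔
      good p (nd f false) X (p.N+1) 0 (v * p.L ^ (p.N+1)) := by
  unfold good Good
  rw [cellSet_reverse (nd := nd f false) (δ := p.row0 (p.N+1) 0)]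
  intro s hs z hz
  exact fam.mirror f s _ hf hs (top_lt hv hz)

/-- from a top cell to a base vertex below it -/
theorem top_base {y : V → ℕ} {c R : ℕ} {X A : Set V} {nd : ℕ → ℕ → V} (hs : HS p G nd)
    (hy : Lip G y) (hX : Thin y c X) (hR : 2 * c * (2 * R + 5) ≤ 2 ^ R) (hRl : R < p.lam)
    (hA : Cl G X A) {v a : ℕ} (hv : v < p.n0)
    (hc : 4 * (X ∩ region p nd p.N (v * p.L ^ (p.N+1))).ncard < p.L)
    (hgood : good p nd X (p.N+1) 0 (v * p.L ^ (p.N+1))) (ha : p.BaseOK a)
    (h1 : v * p.L ^ (p.N+1) ≤ a) (h2 : a < v * p.L ^ (p.N+1) + p.L ^ (p.N+1))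
    (hd : Disjoint (nearBase p nd R a) X) :
    own p nd A (p.N+1) 0 (v * p.L ^ (p.N+1)) ↔ nd 0 a ∈ A := by
  have hh := top_hat (p := p) hv
  obtain ⟨h3, h4⟩ := giant hs hy hX hR hRl hA p.hN hh hc ha h1 h2
  rw [hat_parent hs hy hX hR hRl hA p.hN hh hc hgood, ← h4, base_up hs hy hX hR hRl hA ha h3 hd]

end B0L

open B0L in
/-- the starting region: for some half storey `(f,s)` whose floor `g` is not the bottom or top one -/
theorem b0 {p : Par} {V W : Type} [Finite V] [DecidableEq W] {G : SimpleGraph V}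
    {H : SimpleGraph W} {h : V → W} {y : V → ℕ} {c R β κ : ℕ}
    (st : Setup p G H h y c R β κ) {nd : ℕ → Bool → ℕ → ℕ → V} (fam : Fam p G nd)
    (hconn : G.Connected) :
    ∃ (A : Set V) (S : Finset W) (g : ℕ) (s : Bool) (h0 : ℕ), 1 ≤ g ∧ g < p.k ∧
      Region G H h A S ∧ p.HatOK p.N h0 ∧
      ({v | h v ∈ S} ∩ region p (nd (if s then g - 1 else g) s) p.N h0).ncard ≤ 2 ^ (p.lam - κ) ∧
      own p (nd (if s then g - 1 else g) s) A p.N 0 h0 ∧
      ∀ a, p.BaseOK a → h0 ≤ a → a < h0 + p.L ^ (p.N+1) →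
        ¬ Disjoint (nbF p nd R g a) {v | h v ∈ S} := by
  classical
  by_contra hcon
  have hfail : ∀ (A : Set V) (S : Finset W) (g : ℕ) (s : Bool) (h0 : ℕ), 1 ≤ g → g < p.k →
      Region G H h A S → p.HatOK p.N h0 →
      ({v | h v ∈ S} ∩ region p (nd (if s then g - 1 else g) s) p.N h0).ncard ≤
        2 ^ (p.lam - κ) →
      own p (nd (if s then g - 1 else g) s) A p.N 0 h0 →
      ∃ a, p.BaseOK a ∧ h0 ≤ a ∧ a < h0 + p.L ^ (p.N+1) ∧
        Disjoint (nbF p nd R g a) {v | h v ∈ S} := by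
    intro A S g s h0 h1 h2 h3 h4 h5 h6
    by_contra h7
    push Not at h7
    exact hcon ⟨A, S, g, s, h0, h1, h2, h3, h4, h5, h6, h7⟩
  have hLpos := p.L_pos
  have hθ : 4 * 2 ^ (p.lam - κ) < p.L := by
    have hL : p.L = 2 ^ κ * 2 ^ (p.lam - κ) := by
      rw [← pow_add]
      unfold Par.L
      congr 1
      have := st.hκl
      omega
    have h1 : 2 ^ 3 ≤ 2 ^ κ := Nat.pow_le_pow_right (by norm_num) st.hκ
    have h2 : 0 < 2 ^ (p.lam - κ) := by positivity
    rw [hL]
    nlinarith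
  -- ownership of the excellent column is the same in all storeys
  have hstep : ∀ (A : Set V) (S : Finset W), Region G H h A S → S.card ≤ 3 → ∀ v,
      Exc p nd {v | h v ∈ S} (2 ^ (p.lam - κ)) v → ∀ g, g + 1 < p.k →
      (own p (nd (g+1) false) A (p.N+1) 0 (v * p.L ^ (p.N+1)) ↔
        own p (nd g false) A (p.N+1) 0 (v * p.L ^ (p.N+1))) := by
    intro A S hReg hS v hv g hg
    set X := {v | h v ∈ S} with hX
    have hA : Cl G X A := hReg.comp.cl
    have hthin := st.thin S hS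
    have hh := top_hat (p := p) hv.lt
    have hgood1 := hv.good (g+1) hg
    have hgood2 : good p (nd g true) X (p.N+1) 0 (v * p.L ^ (p.N+1)) :=
      (good_sides fam X (by omega) hv.lt).mpr (hv.good g (by omega))
    have hfew1 := hv.few (g+1) hg false
    have hfew2 := hv.few g (by omega) true
    have hc1 : 4 * (X ∩ region p (nd (g+1) false) p.N (v * p.L ^ (p.N+1))).ncard < p.L := by omega
    have hc2 : 4 * (X ∩ region p (nd g true) p.N (v * p.L ^ (p.N+1))).ncard < p.L := by omega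
    have hs1 := fam.hs (g+1) false hg
    have hs2 := fam.hs g true (by omega)
    have key : (∃ a, p.BaseOK a ∧ v * p.L ^ (p.N+1) ≤ a ∧
        a < v * p.L ^ (p.N+1) + p.L ^ (p.N+1) ∧ Disjoint (nbF p nd R (g+1) a) X) →
        (own p (nd (g+1) false) A (p.N+1) 0 (v * p.L ^ (p.N+1)) ↔
          own p (nd g true) A (p.N+1) 0 (v * p.L ^ (p.N+1))) := by
      rintro ⟨a, ha, h1, h2, hd⟩
      unfold nbF at hd
      rw [Nat.add_sub_cancel, Set.disjoint_union_left] at hd
      rw [top_base hs1 st.lip hthin st.hR st.hRl hA hv.lt hc1 hgood1 ha h1 h2 hd.1,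
        top_base hs2 st.lip hthin st.hR st.hRl hA hv.lt hc2 hgood2 ha h1 h2 hd.2,
        fam.floor g a]
    rw [← own_sides fam A (show g < p.k by omega) hv.lt]
    constructor
    · intro ho
      have ho' := (hat_parent hs1 st.lip hthin st.hR st.hRl hA p.hN hh hc1 hgood1).mp ho
      exact (key (hfail A S (g+1) false _ (by omega) hg hReg hh hfew1 ho')).mp ho
    · intro ho
      have ho' := (hat_parent hs2 st.lip hthin st.hR st.hRl hA p.hN hh hc2 hgood2).mp ho
      exact (key (hfail A S (g+1) true _ (by omega) hg hReg hh hfew2 ho')).mpr ho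
  have hall : ∀ (A : Set V) (S : Finset W), Region G H h A S → S.card ≤ 3 → ∀ v,
      Exc p nd {v | h v ∈ S} (2 ^ (p.lam - κ)) v → ∀ g, g < p.k →
      (own p (nd g false) A (p.N+1) 0 (v * p.L ^ (p.N+1)) ↔
        own p (nd 0 false) A (p.N+1) 0 (v * p.L ^ (p.N+1))) := by
    intro A S hReg hS v hv g hg
    induction g with
    | zero => rfl
    | succ g ih => rw [hstep A S hReg hS v hv g hg, ih (by omega)]
  -- infinite descent
  have hmain : ∀ n : ℕ, ∀ A : Set V, A.ncard = n →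
      (∃ S, Region G H h A S ∧ ∃ f < p.k, ∀ v < p.n0,
        own p (nd f false) A (p.N+1) 0 (v * p.L ^ (p.N+1))) → False := by
    intro n
    induction n using Nat.strong_induction_on with
    | _ n ih =>
      rintro A hAn ⟨S, hReg, f, hf, hown⟩
      obtain ⟨d, hd, hstepd⟩ := step st.noK4 st.hom hReg
      have hcard : (insert d S).card ≤ 3 := by
        have := Finset.card_insert_le d S
        have := hReg.card
        omega
      have hXZ : {v | h v ∈ S} ⊆ {v | h v ∈ insert d S} := by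
        intro v hv
        exact Finset.mem_insert_of_mem hv
      have hZ := st.small _ hcard
      obtain ⟨f', hf', hgood⟩ := exists_storey fam hZ st.hlam st.hk
      obtain ⟨v, hv⟩ := exists_exc fam hZ st.hlam st.hκl st.hn0
      have hvX := hv.mono hXZ
      have hS3 : S.card ≤ 3 := hReg.card.trans (by norm_num)
      have ho : own p (nd f' false) A (p.N+1) 0 (v * p.L ^ (p.N+1)) := by
        rw [hall A S hReg hS3 v hvX f' hf', ← hall A S hReg hS3 v hvX f hf]
        exact hown v hv.lt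
      have hgr := gridAt (fam.hs f' false hf') (top_cell hv.lt)
      have hLp := p.L_le_pow (p.N+1) (by omega)
      obtain ⟨C, hC, hoC⟩ := exists_comp hgr (hgood v hv.lt) hLpos hLp
      have hCA : C ⊆ A := comp_sub hgr hXZ hLpos (by positivity) hReg.comp.cl hC ho hoC
      obtain ⟨S', -, -, hReg'⟩ := hstepd C hC hCA
      have hlt : C.ncard < A.ncard := by
        apply Set.ncard_lt_ncard _ (Set.toFinite _)
        refine ⟨hCA, fun hAC => ?_⟩
        obtain ⟨a, ha, rfl⟩ := hd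
        have h1 := hAC ha
        exact (Set.disjoint_left.mp hC.disj h1) (Finset.mem_insert_self _ _)
      refine ih C.ncard (by omega) C rfl ⟨S', hReg', f', hf', fun v' hv' => ?_⟩
      rw [storey_all fam hC.cl hf' hgood v' hv', ← storey_all fam hC.cl hf' hgood v hv.lt]
      exact hoC
  refine hmain _ Set.univ rfl ⟨∅, ⟨⟨?_, ?_, ?_⟩, ?_, ?_⟩, 0, p.hk, ?_⟩
  · exact (SimpleGraph.induceUnivIso G).connected_iff.mpr hconn
  · rw [Set.disjoint_left]
    intro v _ hv
    exact absurd hv (Finset.notMem_empty _)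
  · intro a _ b _ _
    exact Set.mem_univ b
  · simp
  · intro x hx
    exact absurd hx (Finset.notMem_empty _)
  · intro v _
    unfold own Own
    have h1 : {s | s < p.L ∧ rowIn (nd 0 false) Set.univ (p.row0 (p.N+1) 0 + s)
        (v * p.L ^ (p.N+1)) (p.L ^ (p.N+1))} = Set.Iio p.L := by
      ext s
      simp [rowIn]
    rw [h1, Set.ncard_eq_toFinset_card']
    simp only [Set.toFinset_Iio, Nat.card_Iio]
    omega

end Pool.Agent.MP3d
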