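import Mathlib

set_option autoImplicit false

namespace Pool.Agent.MP3d

/-! ## parameters and the row table -/

/-- parameters of the construction -/
structure Par where
  N : ℕ
  k : ℕ
  lam : ℕ
  nu : ℕ
  n0 : ℕ
  hN : 1 ≤ N
  hk : 1 ≤ k
  hlam : 1 ≤ lam
  hnu : nu ≤ lam
  hn0 : 1 ≤ n0

namespace Par

variable (p : Par)

/-- side length of the cells -/
def L : ℕ := 2 ^ p.lam

/-- length of one period of level `i` -/
def q (i : ℕ) : ℕ := p.L + 2 * (p.lam * i) - 1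

/-- first row of level `i` -/
def o : ℕ → ℕ
  | 0 => 0
  | 1 => p.lam
  | (i+2) => o (i+1) + p.k * p.q (i+1)

/-- level of the row at depth `δ` -/
def lev (δ : ℕ) : ℕ := Nat.findGreatest (fun i => p.o i ≤ δ) (p.N + 1)

/-- binary logarithm of the width of the blocks of the row at depth `δ` -/
def res (δ : ℕ) : ℕ :=
  if p.lev δ = 0 then p.lam - δ
  else if p.lev δ = p.N + 1 then 0
  else if (δ - p.o (p.lev δ)) % p.q (p.lev δ) < p.L then 0
  else min ((δ - p.o (p.lev δ)) % p.q (p.lev δ) - p.L + 1)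
    (2 * (p.lam * p.lev δ) - 1 - ((δ - p.o (p.lev δ)) % p.q (p.lev δ) - p.L))

/-- decorated digits -/
def dec (v : ℕ) : Prop := v ≠ 0 ∧ 2 ^ (p.lam - p.nu) ∣ v

/-- the column `x` is present at level `i` -/
def pres (i x : ℕ) : Prop := ∀ i', i < i' → i' ≤ p.N → p.dec ((x / p.L ^ i') % p.L)

/-- depth of a half storey (rows `0, …, T-1`) -/
def T : ℕ := p.o (p.N + 1) + p.L

/-- height of a storey -/
def P : ℕ := 2 * p.o (p.N + 1) + p.L - 1

/-- number of unit columns -/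
def Xm : ℕ := p.n0 * p.L ^ (p.N + 1)

/-- the row of rail `j` of level `i` -/
def rr (i j : ℕ) : ℕ := p.o i + j * p.q i + p.L + p.lam * i - 1

end Par

/-! ## regions -/

/-- `A` is (the vertex set of) a component of `G - X` -/
structure IsComp {V : Type} (G : SimpleGraph V) (X A : Set V) : Prop where
  conn : (G.induce A).Connected
  disj : Disjoint A X
  closed : ∀ a ∈ A, ∀ b, G.Adj a b → b ∉ X → b ∈ A

/-- closed under moving outside `X`, and disjoint from `X` -/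
structure Cl {V : Type} (G : SimpleGraph V) (X A : Set V) : Prop where
  disj : Disjoint A X
  closed : ∀ a ∈ A, ∀ b, G.Adj a b → b ∉ X → b ∈ A

/-- the label `x` is adjacent to the set `A` -/
def AdjLab {V W : Type} (G : SimpleGraph V) (h : V → W) (A : Set V) (x : W) : Prop :=
  ∃ a ∈ A, ∃ v, G.Adj a v ∧ h v = x

/-- regions -/
structure Region {V W : Type} (G : SimpleGraph V) (H : SimpleGraph W) (h : V → W)
    (A : Set V) (S : Finset W) : Prop where
  comp : IsComp G {v | h v ∈ S} A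
  card : S.card ≤ 2
  link : ∀ x ∈ S, ∀ e ∈ S, x ≠ e → AdjLab G h A x → AdjLab G h A e →
    ∃ Q : Set W, (H.induce Q).Connected ∧ x ∈ Q ∧ e ∈ Q ∧ Disjoint Q (h '' A)

/-- `y` is a layering -/
def Lip {V : Type} (G : SimpleGraph V) (y : V → ℕ) : Prop :=
  ∀ u v, G.Adj u v → y u ≤ y v + 1 ∧ y v ≤ y u + 1

/-- `X` has few points in every interval of layers -/
def Thin {V : Type} (y : V → ℕ) (c : ℕ) (X : Set V) : Prop :=
  ∀ m t, {u ∈ X | m ≤ y u + t ∧ y u ≤ m + t}.ncard ≤ c * (2 * t + 1)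

/-! ## half storeys, abstractly -/

/-- `nd δ x` is the vertex of a half storey at depth `δ` over the unit column `x` -/
structure HS (p : Par) {V : Type} (G : SimpleGraph V) (nd : ℕ → ℕ → V) : Prop where
  vert : ∀ δ x, δ + 1 < p.T → x < p.Xm → p.pres (p.lev δ) x → G.Adj (nd δ x) (nd (δ+1) x)
  horiz : ∀ δ x, 0 < δ → δ < p.T → x + 1 < p.Xm → p.pres (p.lev δ) x →
    (p.lev δ = p.N + 1 ∨ ¬ p.L ^ (p.lev δ + 1) ∣ x + 1) →
      nd δ x = nd δ (x+1) ∨ G.Adj (nd δ x) (nd δ (x+1))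
  inj : ∀ δ δ' x x', δ < p.T → δ' < p.T → x < p.Xm → x' < p.Xm →
    p.pres (p.lev δ) x → p.pres (p.lev δ') x' → nd δ x = nd δ' x' →
      δ = δ' ∧ x / 2 ^ (p.res δ) = x' / 2 ^ (p.res δ)
  same : ∀ δ x x', δ < p.T → x < p.Xm → x' < p.Xm → p.pres (p.lev δ) x → p.pres (p.lev δ) x' →
    x / 2 ^ (p.res δ) = x' / 2 ^ (p.res δ) → nd δ x = nd δ x'

/-! ## cells -/

/-- the vertices in rows `δ, …, δ+L-1` and columns `x, …, x+w-1` -/
def cellSet {V : Type} (nd : ℕ → ℕ → V) (L δ x w : ℕ) : Set V :=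
  {v | ∃ s y, s < L ∧ y < w ∧ v = nd (δ+s) (x+y)}

/-- `X` has less than `L/4` points in the cell -/
def Good {V : Type} (nd : ℕ → ℕ → V) (L : ℕ) (X : Set V) (δ x w : ℕ) : Prop :=
  4 * (X ∩ cellSet nd L δ x w).ncard < L

/-- the row segment lies in `A` -/
def rowIn {V : Type} (nd : ℕ → ℕ → V) (A : Set V) (δ x w : ℕ) : Prop :=
  ∀ y, y < w → nd δ (x+y) ∈ A

/-- more than half of the rows of the cell lie in `A` -/
def Own {V : Type} (nd : ℕ → ℕ → V) (L : ℕ) (A : Set V) (δ x w : ℕ) : Prop :=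
  L < 2 * {s | s < L ∧ rowIn nd A (δ+s) x w}.ncard

/-- the cell is a grid -/
structure GridAt {V : Type} (G : SimpleGraph V) (nd : ℕ → ℕ → V) (L δ x w : ℕ) : Prop where
  vert : ∀ s y, s + 1 < L → y < w → G.Adj (nd (δ+s) (x+y)) (nd (δ+(s+1)) (x+y))
  horiz : ∀ s y, s < L → y + 1 < w → G.Adj (nd (δ+s) (x+y)) (nd (δ+s) (x+(y+1)))
  inj : ∀ s y s' y', s < L → y < w → s' < L → y' < w →
    nd (δ+s) (x+y) = nd (δ+s') (x+y') → s = s' ∧ y = y'

/-- a binary expansion of a hub: `hn t z` is the vertex at depth `t` over column `z < 2^E` -/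
structure Hub {V : Type} (G : SimpleGraph V) (hn : ℕ → ℕ → V) (E : ℕ) : Prop where
  vert : ∀ t z, t < E → z < 2 ^ E → G.Adj (hn t z) (hn (t+1) z)
  inj : ∀ t z z', t ≤ E → z < 2 ^ E → z' < 2 ^ E → hn t z = hn t z' →
    z / 2 ^ (E-t) = z' / 2 ^ (E-t)
  same : ∀ t z z', t ≤ E → z < 2 ^ E → z' < 2 ^ E →
    z / 2 ^ (E-t) = z' / 2 ^ (E-t) → hn t z = hn t z'

/-- the part of a hub of depth at most `R` -/
def near {V : Type} (hn : ℕ → ℕ → V) (R E : ℕ) : Set V :=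
  {v | ∃ t z, t ≤ R ∧ z < 2 ^ E ∧ v = hn t z}

namespace Par
variable (p : Par)

/-- the first row of the handle `j` of level `i` -/
def row0 (i j : ℕ) : ℕ := p.o i + j * p.q i

/-- `(i,j,x)` is a cell -/
def CellOK (i j x : ℕ) : Prop :=
  ((1 ≤ i ∧ i ≤ p.N ∧ j < p.k) ∨ (i = p.N + 1 ∧ j = 0)) ∧ p.L ^ i ∣ x ∧ x < p.Xm ∧ p.pres i x

/-- `(i,h)` is a hat -/
def HatOK (i h : ℕ) : Prop := i ≤ p.N ∧ p.L ^ (i+1) ∣ h ∧ h < p.Xm ∧ p.pres i h

/-- `a` is (the first column of) a base vertex -/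
def BaseOK (a : ℕ) : Prop := p.L ∣ a ∧ a < p.Xm ∧ p.pres 0 a

end Par

section geo
variable {V : Type} (p : Par) (nd : ℕ → ℕ → V)

def good (X : Set V) (i j x : ℕ) : Prop := Good nd p.L X (p.row0 i j) x (p.L ^ i)

def own (A : Set V) (i j x : ℕ) : Prop := Own nd p.L A (p.row0 i j) x (p.L ^ i)

/-- the near set of the rail vertex `(i,j,x)` -/
def nearRail (R i j x : ℕ) : Set V :=
  near (fun t z => nd (p.rr i j + t) (x+z)) R (p.lam * i) ∪
    near (fun t z => nd (p.rr i j - t) (x+z)) R (p.lam * i)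

/-- the near set of a base vertex on one side -/
def nearBase (R a : ℕ) : Set V := near (fun t z => nd t (a+z)) R p.lam

/-- everything in the hat `(i,h)`, including the nested hats and the base vertices -/
def region (i h : ℕ) : Set V :=
  {v | ∃ δ x, δ < p.o (i+1) ∧ h ≤ x ∧ x < h + p.L ^ (i+1) ∧ p.pres (p.lev δ) x ∧ v = nd δ x}

end geo

/-- the family of all half storeys `(f,s)`, `f < k` -/
structure Fam (p : Par) {V : Type} (G : SimpleGraph V) (nd : ℕ → Bool → ℕ → ℕ → V) : Prop where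
  hs : ∀ f s, f < p.k → HS p G (nd f s)
  mirror : ∀ f s x, f < p.k → s < p.L → x < p.Xm →
    nd f true (p.row0 (p.N+1) 0 + s) x = nd f false (p.row0 (p.N+1) 0 + (p.L - 1 - s)) x
  floor : ∀ f x, nd f true 0 x = nd (f+1) false 0 x
  col : ∃ col : V → ℕ, ∀ f s δ x, f < p.k → δ < p.T → x < p.Xm → p.pres (p.lev δ) x →
    col (nd f s δ x) = x / p.L ^ (p.N+1)
  stor : ∃ st : V → ℕ, ∀ f s δ x, f < p.k → 0 < δ → δ < p.T → x < p.Xm →
    p.pres (p.lev δ) x → st (nd f s δ x) = f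

end Pool.Agent.MP3d
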