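import Pool.Agent.Lib.MP_3d7595_co.Graph

set_option autoImplicit false

namespace Pool.Agent.MP3d

/-- there is a walk of length at most `n` -/
def Within {V : Type} (G : SimpleGraph V) (n : ℕ) (u v : V) : Prop :=
  ∃ w : G.Walk u v, w.length ≤ n

theorem Within.lip {V : Type} {G : SimpleGraph V} {n : ℕ} {u v : V} (h : Within G n u v)
    {y : V → ℕ} (hy : Lip G y) : y u ≤ y v + n ∧ y v ≤ y u + n := by
  obtain ⟨w, hw⟩ := h
  have key : y u ≤ y v + w.length ∧ y v ≤ y u + w.length := by
    clear hw
    induction w with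
    | nil => simp
    | @cons u v w hadj t ih =>
      have h1 := hy u v hadj
      rw [SimpleGraph.Walk.length_cons]
      omega
  omega

theorem Within.trans {V : Type} {G : SimpleGraph V} {n m : ℕ} {u v w : V}
    (h : Within G n u v) (h' : Within G m v w) : Within G (n + m) u w := by
  obtain ⟨a, ha⟩ := h
  obtain ⟨b, hb⟩ := h'
  exact ⟨a.append b, by rw [SimpleGraph.Walk.length_append]; omega⟩

theorem Within.symm {V : Type} {G : SimpleGraph V} {n : ℕ} {u v : V}
    (h : Within G n u v) : Within G n v u := by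
  obtain ⟨a, ha⟩ := h
  exact ⟨a.reverse, by rwa [SimpleGraph.Walk.length_reverse]⟩

theorem Within.refl {V : Type} {G : SimpleGraph V} (n : ℕ) (u : V) : Within G n u u :=
  ⟨SimpleGraph.Walk.nil, Nat.zero_le _⟩

theorem Within.mono {V : Type} {G : SimpleGraph V} {n m : ℕ} {u v : V}
    (h : Within G n u v) (hnm : n ≤ m) : Within G m u v := by
  obtain ⟨a, ha⟩ := h
  exact ⟨a, ha.trans hnm⟩

theorem Within.of_adj {V : Type} {G : SimpleGraph V} {u v : V}
    (h : G.Adj u v) : Within G 1 u v :=
  ⟨SimpleGraph.Walk.cons h SimpleGraph.Walk.nil, by simp⟩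

theorem Within.of_eq_or_adj {V : Type} {G : SimpleGraph V} {u v : V}
    (h : u = v ∨ G.Adj u v) : Within G 1 u v := by
  rcases h with rfl | h
  · exact Within.refl 1 u
  · exact Within.of_adj h

namespace Par
variable (p : Par)

theorem within_of_Ed {u v : p.VT} (h : p.Ed u.1 v.1) : Within p.G 1 u v := by
  apply Within.of_eq_or_adj
  by_cases huv : u = v
  · exact Or.inl huv
  · exact Or.inr ((p.adj_iff u v).2 ⟨huv, Or.inl h⟩)

theorem within_side (f : ℕ) (hf : f ≤ p.k) :
    Within p.G f ⟨Vx.side f, hf⟩ p.root := by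
  induction f with
  | zero => exact Within.refl 0 _
  | succ f ih =>
    have h1 : Within p.G 1 (⟨Vx.side f, (by omega : f ≤ p.k)⟩ : p.VT) ⟨Vx.side (f+1), hf⟩ :=
      p.within_of_Ed (Ed.spine f)
    exact (h1.symm.trans (ih (by omega))).mono (by omega)

theorem within_item (f : ℕ) (hf : f ≤ p.k) (n : ℕ) : ∀ x (hx : x ∈ p.GI),
    (p.GI.filter (fun z => z < x)).card ≤ n →
    Within p.G (n + 1 + f) ⟨Vx.item f x, hf, hx⟩ p.root := by
  classical
  induction n with
  | zero =>
    intro x hx hn
    have h0 : x = 0 := by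
      by_contra hx0
      have h1 : 0 ∈ p.GI.filter (fun z => z < x) :=
        Finset.mem_filter.2 ⟨p.zero_mem_GI, Nat.pos_of_ne_zero hx0⟩
      have h2 := Finset.card_pos.2 ⟨0, h1⟩
      omega
    subst h0
    have h1 : Within p.G 1 (⟨Vx.side f, hf⟩ : p.VT) ⟨Vx.item f 0, hf, hx⟩ :=
      p.within_of_Ed (Ed.side f)
    exact (h1.symm.trans (p.within_side f hf)).mono (by omega)
  | succ n ih =>
    intro x hx hn
    by_cases hx0 : x = 0
    · subst hx0
      have h1 : Within p.G 1 (⟨Vx.side f, hf⟩ : p.VT) ⟨Vx.item f 0, hf, hx⟩ :=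
        p.within_of_Ed (Ed.side f)
      exact (h1.symm.trans (p.within_side f hf)).mono (by omega)
    · have hne : (p.GI.filter (fun z => z < x)).Nonempty :=
        ⟨0, Finset.mem_filter.2 ⟨p.zero_mem_GI, Nat.pos_of_ne_zero hx0⟩⟩
      set z := (p.GI.filter (fun z => z < x)).max' hne with hz
      have hzm : z ∈ p.GI.filter (fun z => z < x) := Finset.max'_mem _ _
      have hzm' := Finset.mem_filter.1 hzm
      have hcons : p.consec z x := by
        refine ⟨hzm'.1, hx, hzm'.2, fun w hw => ?_⟩
        rcases Nat.lt_or_ge w x with h1 | h1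
        · exact Or.inl (Finset.le_max' _ _ (Finset.mem_filter.2 ⟨hw, h1⟩))
        · exact Or.inr h1
      have h1 : Within p.G 1 (⟨Vx.item f z, hf, hzm'.1⟩ : p.VT) ⟨Vx.item f x, hf, hx⟩ :=
        p.within_of_Ed (Ed.ground f z x hcons)
      have h2 : (p.GI.filter (fun w => w < z)).card ≤ n := by
        have h3 : (p.GI.filter (fun w => w < z)).card < (p.GI.filter (fun w => w < x)).card := by
          refine Finset.card_lt_card ?_
          rw [Finset.ssubset_iff_of_subset]
          · exact ⟨z, hzm, fun h => lt_irrefl z (Finset.mem_filter.1 h).2⟩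
          · intro w hw
            rw [Finset.mem_filter] at hw ⊢
            exact ⟨hw.1, hw.2.trans hzm'.2⟩
        omega
      exact (h1.symm.trans (ih z hzm'.1 h2)).mono (by omega)

theorem within_item' (f x : ℕ) (h : p.ok (Vx.item f x)) :
    Within p.G (p.n0 * 2 ^ (p.nu * p.N) + 1 + p.k) ⟨Vx.item f x, h⟩ p.root := by
  have h1 := p.within_item f h.1 (p.n0 * 2 ^ (p.nu * p.N)) x h.2
    ((Finset.card_filter_le _ _).trans p.card_GI)
  exact h1.mono (by have := h.1; omega)

theorem within_pil (f : ℕ) (s : Bool) (i x j : ℕ) (h : p.ok (Vx.pil f s i x j)) :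
    Within p.G (j + (p.n0 * 2 ^ (p.nu * p.N) + 2 + p.k)) ⟨Vx.pil f s i x j, h⟩ p.root := by
  induction j with
  | zero =>
    have hG : x ∈ p.GI := p.hat_mem_GI i x h.2.2.1
    cases s with
    | false =>
      have hok : p.ok (Vx.item f x) := ⟨le_of_lt h.1, hG⟩
      have h1 : Within p.G 1 (⟨Vx.item f x, hok⟩ : p.VT) ⟨Vx.pil f false i x 0, h⟩ :=
        p.within_of_Ed (Ed.foot0 f i x)
      exact (h1.symm.trans (p.within_item' f x hok)).mono (by omega)
    | true =>
      have hok : p.ok (Vx.item (f+1) x) := ⟨h.1, hG⟩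
      have h1 : Within p.G 1 (⟨Vx.item (f+1) x, hok⟩ : p.VT) ⟨Vx.pil f true i x 0, h⟩ :=
        p.within_of_Ed (Ed.foot1 f i x)
      exact (h1.symm.trans (p.within_item' (f+1) x hok)).mono (by omega)
  | succ j ih =>
    have hj : j + 1 < p.k := h.2.2.2
    have hok : p.ok (Vx.pil f s i x j) := ⟨h.1, h.2.1, h.2.2.1, by omega⟩
    have h1 : Within p.G 1 (⟨Vx.pil f s i x j, hok⟩ : p.VT) ⟨Vx.pil f s i x (j+1), h⟩ :=
      p.within_of_Ed (Ed.pil f s i x j)
    exact (h1.symm.trans (ih hok)).mono (by omega)

theorem rres_eq (s : Bool) (δ : ℕ) (h0 : 0 < δ) (h : δ < p.T) :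
    p.rres (if s then p.P - δ else δ) = p.res δ := by
  cases s with
  | false => simpa [rres] using (p.sym δ h).2
  | true =>
    have h1 := p.P_sub δ h0 h
    have h2 : p.rres (p.P - δ) = p.res δ := by
      rw [rres, h1.2.2, min_comm]
      exact (p.sym δ h).2
    simpa using h2

/-- from the first block of a rail to the root -/
theorem within_rail0 (f : ℕ) (hf : f < p.k) (s : Bool) (i j x : ℕ) (hi : 1 ≤ i)
    (hj : j < p.k) (hx : p.HatOK i x) :
    Within p.G (p.k + (p.n0 * 2 ^ (p.nu * p.N) + 2 + p.k)) (p.nd f s (p.rr i j) x) p.root := by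
  have hiN := hx.1
  have hlev : p.lev (p.rr i j) = i := by
    have := p.lev_dn i j 0 hi hiN hj (Nat.zero_le _)
    simpa using this
  have hrr := p.rr_eq i j
  have hL := p.L_pos
  have hli := p.lam_mul_pos i hi
  have hpos : 0 < p.rr i j := by omega
  have hT : p.rr i j < p.T := by
    have h1 := p.rr_lt i j hi hj
    have h2 := p.o_strictMono.monotone (show i + 1 ≤ p.N + 1 by omega)
    unfold Par.T
    omega
  have hval := p.nd_val f s hf (p.rr i j) x hT hx.2.2.1 (by rw [hlev]; exact hx.2.2.2)
  have hok : p.ok (Vx.pil f s i x j) := ⟨hf, hi, hx, hj⟩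
  have hres := p.rres_eq s (p.rr i j) hpos hT
  have h1 : Within p.G 1 (⟨Vx.pil f s i x j, hok⟩ : p.VT) (p.nd f s (p.rr i j) x) := by
    apply p.within_of_Ed
    rw [hval, ndv, if_neg (by omega : ¬ p.rr i j = 0)]
    cases s with
    | false =>
      have h2 := Ed.rail0 (p := p) f i x j
      rw [show p.rres (p.rr i j) = p.res (p.rr i j) by simpa using hres] at h2
      simpa using h2
    | true =>
      have h2 := Ed.rail1 (p := p) f i x j
      rw [show p.rres (p.P - p.rr i j) = p.res (p.rr i j) by simpa using hres] at h2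
      simpa using h2
  exact (h1.symm.trans (p.within_pil f s i x j hok)).mono (by omega)

/-- the start of the hat of level `i` -/
theorem hat_start (i x : ℕ) (hi : i ≤ p.N) (hx : x < p.Xm) (hp : p.pres i x) :
    p.HatOK i (x / p.L ^ (i+1) * p.L ^ (i+1)) := by
  have h1 : x / p.L ^ (i+1) * p.L ^ (i+1) ≤ x := Nat.div_mul_le_self _ _
  refine ⟨hi, Dvd.intro_left _ rfl, lt_of_le_of_lt h1 hx, ?_⟩
  refine (p.pres_congr i x _ ?_).1 hp
  have : 0 < p.L ^ (i+1) := pow_pos p.L_pos _
  rw [Nat.mul_div_cancel _ this]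

/-- from a block of a rail to the root -/
theorem within_rail (f : ℕ) (hf : f < p.k) (s : Bool) (i j x : ℕ) (hi : 1 ≤ i) (hiN : i ≤ p.N)
    (hj : j < p.k) (hx : x < p.Xm) (hp : p.pres i x) :
    Within p.G (p.L + (p.k + (p.n0 * 2 ^ (p.nu * p.N) + 2 + p.k))) (p.nd f s (p.rr i j) x)
      p.root := by
  have hlev : p.lev (p.rr i j) = i := by
    have := p.lev_dn i j 0 hi hiN hj (Nat.zero_le _)
    simpa using this
  have hrr := p.rr_eq i j
  have hL := p.L_pos
  have hli := p.lam_mul_pos i hi
  have hpos : 0 < p.rr i j := by omega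
  have hT : p.rr i j < p.T := by
    have h1 := p.rr_lt i j hi hj
    have h2 := p.o_strictMono.monotone (show i + 1 ≤ p.N + 1 by omega)
    unfold Par.T
    omega
  have hres : p.res (p.rr i j) = p.lam * i := by
    have := p.res_dn i j 0 hi hiN hj (Nat.zero_le _)
    simpa using this
  have hHS := (p.fam).hs f s hf
  set h := x / p.L ^ (i+1) * p.L ^ (i+1) with hh
  have hhat : p.HatOK i h := p.hat_start i x hiN hx hp
  have hLi : 0 < p.L ^ i := pow_pos p.L_pos _
  have hLi1 : p.L ^ (i+1) = p.L ^ i * p.L := pow_succ _ _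
  have hhx : h ≤ x := Nat.div_mul_le_self _ _
  have hxh : x < h + p.L ^ (i+1) := by
    have := Nat.lt_div_mul_add (a := x) (pow_pos p.L_pos (i+1))
    omega
  -- all columns of the hat are present
  have hpres : ∀ z, h ≤ z → z < h + p.L ^ (i+1) → p.pres i z := by
    intro z h1 h2
    refine (p.pres_congr i x z ?_).1 hp
    have h3 : z / p.L ^ (i+1) = x / p.L ^ (i+1) := by
      rw [Nat.div_eq_iff (pow_pos p.L_pos _)]
      constructor
      · exact h1
      · have : 0 < p.L ^ (i+1) := pow_pos p.L_pos _
        omega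
    exact h3.symm
  have hsame : ∀ z z', h ≤ z → z < h + p.L ^ (i+1) → z < p.Xm → h ≤ z' → z' < h + p.L ^ (i+1) →
      z' < p.Xm → z / p.L ^ i = z' / p.L ^ i → p.nd f s (p.rr i j) z = p.nd f s (p.rr i j) z' := by
    intro z z' h1 h2 h3 h4 h5 h6 h7
    refine hHS.same _ z z' hT h3 h6 (by rw [hlev]; exact hpres z h1 h2)
      (by rw [hlev]; exact hpres z' h4 h5) ?_
    rw [hres, p.pow_lam_mul]
    exact h7
  have hstep : ∀ c, c < p.L → h + c * p.L ^ i ≤ x →
      Within p.G c (p.nd f s (p.rr i j) (h + c * p.L ^ i)) (p.nd f s (p.rr i j) h) := by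
    intro c
    induction c with
    | zero => intro _ _; simpa using Within.refl 0 _
    | succ c ih =>
      intro hc hcx
      have e1 : (c + 1) * p.L ^ i = c * p.L ^ i + p.L ^ i := by ring
      have e2 : (c + 1) * p.L ^ i ≤ (p.L - 1) * p.L ^ i := Nat.mul_le_mul_right _ (by omega)
      have e3 : (p.L - 1) * p.L ^ i + p.L ^ i = p.L ^ i * p.L := by
        obtain ⟨L', hL'⟩ : ∃ L', p.L = L' + 1 := ⟨p.L - 1, by omega⟩
        rw [hL']
        simp only [Nat.add_sub_cancel]
        ring
      rw [e1] at hcx ⊢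
      have h1 := ih (by omega) (by omega)
      set y := h + c * p.L ^ i + (p.L ^ i - 1) with hy
      have hy1 : y + 1 = h + (c * p.L ^ i + p.L ^ i) := by omega
      have h2 : p.nd f s (p.rr i j) y = p.nd f s (p.rr i j) (h + c * p.L ^ i) := by
        apply hsame
        · omega
        · rw [hLi1]; omega
        · omega
        · omega
        · rw [hLi1]; omega
        · omega
        · obtain ⟨u, hu⟩ : ∃ u, h = u * p.L ^ i := by
            refine ⟨x / p.L ^ (i+1) * p.L, ?_⟩
            rw [hh, hLi1]; ring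
          rw [hy, hu]
          have e4 : u * p.L ^ i + c * p.L ^ i + (p.L ^ i - 1) = (p.L ^ i - 1) + (u + c) * p.L ^ i := by
            ring
          have e5 : u * p.L ^ i + c * p.L ^ i = (u + c) * p.L ^ i := by ring
          rw [e4, e5, Nat.add_mul_div_right _ _ hLi, Nat.mul_div_cancel _ hLi,
            Nat.div_eq_of_lt (by omega)]
          omega
      have h3 : Within p.G 1 (p.nd f s (p.rr i j) y) (p.nd f s (p.rr i j) (y+1)) := by
        apply Within.of_eq_or_adj
        apply hHS.horiz _ _ hpos hT (by omega)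
        · rw [hlev]
          apply hpres
          · omega
          · rw [hLi1]; omega
        · right
          rw [hlev, hy1]
          rintro ⟨t, ht⟩
          have e6 : h + (c * p.L ^ i + p.L ^ i) = p.L ^ i * (x / p.L ^ (i+1) * p.L + c + 1) := by
            rw [hh, hLi1]; ring
          rw [e6, hLi1, mul_assoc] at ht
          have e7 := Nat.eq_of_mul_eq_mul_left hLi ht
          have e8 : (x / (p.L ^ i * p.L) * p.L + c + 1) % p.L = 0 := by
            rw [e7]; exact Nat.mul_mod_right _ _
          rw [show x / (p.L ^ i * p.L) * p.L + c + 1 = (c + 1) + x / (p.L ^ i * p.L) * p.L by ring,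
            Nat.add_mul_mod_self_right, Nat.mod_eq_of_lt (by omega)] at e8
          omega
      rw [h2, hy1] at h3
      exact (h3.symm.trans h1).mono (by omega)
  set c := (x - h) / p.L ^ i with hc
  have hcL : c < p.L := by
    rw [hc, Nat.div_lt_iff_lt_mul hLi]
    rw [hLi1] at hxh
    have : p.L * p.L ^ i = p.L ^ i * p.L := mul_comm _ _
    omega
  have hcx : h + c * p.L ^ i ≤ x := by
    have : c * p.L ^ i ≤ x - h := Nat.div_mul_le_self (x - h) (p.L ^ i)
    omega
  have h1 := hstep c hcL hcx
  have h2 : p.nd f s (p.rr i j) x = p.nd f s (p.rr i j) (h + c * p.L ^ i) := by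
    apply hsame
    · omega
    · omega
    · omega
    · omega
    · omega
    · omega
    · obtain ⟨u, hu⟩ : ∃ u, h = u * p.L ^ i := by
        refine ⟨x / p.L ^ (i+1) * p.L, ?_⟩
        rw [hh, hLi1]; ring
      have e0 : x = (x - h) + u * p.L ^ i := by omega
      have e1 : h + c * p.L ^ i = (u + c) * p.L ^ i := by rw [hu]; ring
      rw [e1, Nat.mul_div_cancel _ hLi]
      conv_lhs => rw [e0]
      rw [Nat.add_mul_div_right _ _ hLi]
      omega
  rw [h2]
  exact (h1.trans (p.within_rail0 f hf s i j h hi hj hhat)).mono (by omega)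

/-- vertical walk -/
theorem within_vert (f : ℕ) (hf : f < p.k) (s : Bool) (δ x n : ℕ) (hT : δ + n < p.T)
    (hx : x < p.Xm) (hp : p.pres (p.lev δ) x) :
    Within p.G n (p.nd f s δ x) (p.nd f s (δ + n) x) := by
  have hHS := (p.fam).hs f s hf
  induction n with
  | zero => exact Within.refl 0 _
  | succ n ih =>
    have h1 := ih (by omega)
    have h2 : Within p.G 1 (p.nd f s (δ + n) x) (p.nd f s (δ + n + 1) x) := by
      apply Within.of_adj
      apply hHS.vert _ _ (by omega) hx
      exact p.pres_mono _ _ _ (p.lev_mono (Nat.le_add_right _ _)) hp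
    exact h1.trans h2

/-- every vertex is at distance at most `4L` from the root -/
theorem within_root (hbig : 3 * (p.lam * (p.N+1)) + 2 * p.k + p.n0 * 2 ^ (p.nu * p.N) + 10 ≤ 2 * p.L)
    (v : p.VT) : Within p.G (4 * p.L) v p.root := by
  have hlN : ∀ i, i ≤ p.N → p.lam * i ≤ p.lam * p.N := fun i hi => Nat.mul_le_mul_left _ hi
  have e0 : p.lam * (p.N + 1) = p.lam * p.N + p.lam := by ring
  have hL := p.L_pos
  obtain ⟨v, hv⟩ := v
  cases v with
  | item f x => exact (p.within_item' f x hv).mono (by omega)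
  | side f => exact (p.within_side f hv).mono (by have : f ≤ p.k := hv; omega)
  | pil f s i x j => exact (p.within_pil f s i x j hv).mono (by have := hv.2.2.2; omega)
  | row f t b =>
    obtain ⟨s, δ, x, hδ, hδT, hx, hp, heq⟩ := p.row_is_nd f t b hv
    have hf : f < p.k := hv.1
    rw [← heq]
    have hle := p.lev_le δ
    by_cases h0 : p.lev δ = 0
    · -- level 0
      have hlam : δ < p.lam := by
        have := p.lt_o_lev_succ δ (by omega)
        rw [h0] at this
        exact this
      have hp0 : p.pres (p.lev 0) x := by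
        rw [p.lev_base 0 (by have := p.hlam; omega)]
        rw [h0] at hp
        exact hp
      have h1 := p.within_vert f hf s 0 x δ (by omega) hx hp0
      rw [Nat.zero_add] at h1
      have hval := p.nd_val f s hf 0 x (by omega) hx hp0
      have hok := p.nd_ok f s hf 0 x (by omega) hx hp0
      rw [ndv, if_pos rfl] at hval hok
      have h2 : p.nd f s 0 x = ⟨_, hok⟩ := Subtype.ext hval
      have h3 := p.within_item' _ _ hok
      rw [h2] at h1
      exact (h1.symm.trans h3).mono (by omega)
    · by_cases hN : p.lev δ ≤ p.N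
      · -- levels `1, …, N`
        have hi : 1 ≤ p.lev δ := by omega
        obtain ⟨j, r, hj, hr, hδe⟩ := p.row_form δ hi hN
        have hq := p.q_eq (p.lev δ)
        have hrr := p.rr_eq (p.lev δ) j
        have hlN' := hlN _ hN
        have hli := p.lam_mul_pos (p.lev δ) hi
        have hrail := p.within_rail f hf s (p.lev δ) j x hi hN hj hx hp
        have hlev : p.lev (p.rr (p.lev δ) j) = p.lev δ := by
          have := p.lev_dn (p.lev δ) j 0 hi hN hj (Nat.zero_le _)
          simpa using this
        have hT : p.rr (p.lev δ) j < p.T := by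
          have h1 := p.rr_lt (p.lev δ) j hi hj
          have h2 := p.o_strictMono.monotone (show p.lev δ + 1 ≤ p.N + 1 by omega)
          unfold Par.T
          omega
        rcases le_total δ (p.rr (p.lev δ) j) with hc | hc
        · have h1 := p.within_vert f hf s δ x (p.rr (p.lev δ) j - δ) (by omega) hx hp
          rw [Nat.add_sub_cancel' hc] at h1
          exact (h1.trans hrail).mono (by omega)
        · have h1 := p.within_vert f hf s (p.rr (p.lev δ) j) x (δ - p.rr (p.lev δ) j) (by omega) hx
            (by rw [hlev]; exact hp)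
          rw [Nat.add_sub_cancel' hc] at h1
          exact (h1.symm.trans hrail).mono (by omega)
      · -- level `N + 1`
        have hk := p.hk
        have hNN := p.hN
        have hlevN : p.lev δ = p.N + 1 := by omega
        have ho := p.o_lev_le δ
        rw [hlevN] at ho
        have hT : δ < p.o (p.N + 1) + p.L := hδT
        have hadd := p.rr_add p.N (p.k - 1)
        rw [Nat.sub_add_cancel hk, p.row0_k p.N hNN] at hadd
        have hrail := p.within_rail f hf s p.N (p.k - 1) x hNN le_rfl (by omega) hx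
          (p.pres_top _ _ le_rfl)
        have h1 := p.within_vert f hf s (p.rr p.N (p.k - 1)) x (δ - p.rr p.N (p.k - 1)) (by omega) hx
          (by
            have := p.lev_dn p.N (p.k - 1) 0 hNN le_rfl (by omega) (Nat.zero_le _)
            rw [Nat.sub_zero] at this
            rw [this]
            exact p.pres_top _ _ le_rfl)
        rw [Nat.add_sub_cancel' (by omega)] at h1
        exact (h1.symm.trans hrail).mono (by omega)

end Par

end Pool.Agent.MP3d
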