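import Mathlib

set_option autoImplicit false

namespace Pool.Agent.MP3d

/-- adjacency in the square lattice (natural coordinates) -/
def latAdj (p q : ℕ × ℕ) : Prop :=
  (p.2 = q.2 ∧ (p.1 + 1 = q.1 ∨ q.1 + 1 = p.1)) ∨ (p.1 = q.1 ∧ (p.2 + 1 = q.2 ∨ q.2 + 1 = p.2))

/-- `B` is a nonempty connected set of lattice points -/
def LatConn (B : Set (ℕ × ℕ)) : Prop :=
  B.Nonempty ∧ ∀ p ∈ B, ∀ q ∈ B, Relation.ReflTransGen (fun a b => latAdj a b ∧ b ∈ B) p q

namespace Grid

theorem latAdj_symm {p q : ℕ × ℕ} (h : latAdj p q) : latAdj q p := by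
  unfold latAdj at *; omega

theorem latAdj_ne {p q : ℕ × ℕ} (h : latAdj p q) : p ≠ q := by
  rintro rfl; unfold latAdj at h; omega

/-- the lattice graph -/
def Gam : SimpleGraph (ℕ × ℕ) where
  Adj p q := latAdj p q
  symm := ⟨fun _ _ h => latAdj_symm h⟩
  loopless := ⟨fun _ h => latAdj_ne h rfl⟩

/-- crossing number of the upward ray of `c` with the edge `p q` -/
def up (c p q : ℕ × ℕ) : ZMod 2 :=
  if p.2 = q.2 ∧ min p.1 q.1 = c.1 ∧ c.2 < p.2 then 1 else 0

/-- crossing number of the downward ray of `c` with the edge `p q` -/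
def dn (c p q : ℕ × ℕ) : ZMod 2 :=
  if p.2 = q.2 ∧ min p.1 q.1 + 1 = c.1 ∧ p.2 < c.2 then 1 else 0

/-- order of points -/
def Lt (p c : ℕ × ℕ) : ZMod 2 := if p.1 < c.1 ∨ (p.1 = c.1 ∧ c.2 < p.2) then 1 else 0

theorem Lt_add {p c : ℕ × ℕ} (h : p ≠ c) : Lt p c + Lt c p = 1 := by
  have h' : p.1 ≠ c.1 ∨ p.2 ≠ c.2 := by
    by_contra hc; push Not at hc; exact h (Prod.ext hc.1 hc.2)
  unfold Lt
  split_ifs <;> first | (exfalso; omega) | rfl

theorem up_add {p p' w w' : ℕ × ℕ} (he : latAdj p p') (hf : latAdj w w')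
    (h1 : p ≠ w) (h2 : p ≠ w') (h3 : p' ≠ w) (h4 : p' ≠ w') :
    up p w w' + up p' w w' = dn w p p' + dn w' p p' := by
  obtain ⟨p1, p2⟩ := p
  obtain ⟨q1, q2⟩ := p'
  obtain ⟨w1, w2⟩ := w
  obtain ⟨v1, v2⟩ := w'
  simp only [ne_eq, Prod.mk.injEq, latAdj, up, dn] at *
  rcases he with ⟨rfl, rfl | rfl⟩ | ⟨rfl, rfl | rfl⟩ <;>
  rcases hf with ⟨rfl, rfl | rfl⟩ | ⟨rfl, rfl | rfl⟩ <;>
  · simp only [true_and, Nat.left_eq_add, one_ne_zero, false_and, if_false,
      Nat.succ_ne_self, Nat.min_eq_left (Nat.le_succ _), Nat.min_eq_right (Nat.le_succ _),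
      min_self] at *
    try (split_ifs <;> first | (exfalso; omega) | rfl)

theorem up_dn {c w w' : ℕ × ℕ} (hf : latAdj w w') (h1 : w ≠ c) (h2 : w' ≠ c) :
    up c w w' + dn c w w' = Lt w c + Lt w' c := by
  obtain ⟨p1, p2⟩ := c
  obtain ⟨w1, w2⟩ := w
  obtain ⟨v1, v2⟩ := w'
  simp only [ne_eq, Prod.mk.injEq, latAdj, up, dn, Lt] at *
  split_ifs <;> first | (exfalso; omega) | rfl

/-- total crossing of the upward ray of `c` with a walk -/
def rr (c : ℕ × ℕ) : ∀ {a b : ℕ × ℕ}, Gam.Walk a b → ZMod 2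
  | _, _, .nil => 0
  | a, _, .cons (v := v) _ p => up c a v + rr c p

/-- total crossing of the downward ray of `c` with a walk -/
def dd (c : ℕ × ℕ) : ∀ {a b : ℕ × ℕ}, Gam.Walk a b → ZMod 2
  | _, _, .nil => 0
  | a, _, .cons (v := v) _ p => dn c a v + dd c p

theorem two_zero (x : ZMod 2) : x + x = 0 := CharTwo.add_self_eq_zero x

theorem rr_edge {p p' : ℕ × ℕ} (he : latAdj p p') : ∀ {a b : ℕ × ℕ} (f : Gam.Walk a b),
    p ∉ f.support → p' ∉ f.support → rr p f + rr p' f = dn a p p' + dn b p p' := by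
  intro a b f
  induction f with
  | nil => intro _ _; simp [rr, two_zero]
  | @cons u v w h q ih =>
    intro h1 h2
    simp only [SimpleGraph.Walk.support_cons, List.mem_cons, not_or] at h1 h2
    have hv : v ∈ q.support := q.start_mem_support
    have e1 := up_add (p := p) (p' := p') (w := u) (w' := v) he h h1.1
      (fun h' => h1.2 (h' ▸ hv)) h2.1 (fun h' => h2.2 (h' ▸ hv))
    have e2 := ih h1.2 h2.2
    simp only [rr]
    linear_combination e1 + e2 + two_zero (dn v p p')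

theorem rr_dd {a b : ℕ × ℕ} (f : Gam.Walk a b) : ∀ {c d : ℕ × ℕ} (e : Gam.Walk c d),
    (∀ x ∈ e.support, x ∉ f.support) → rr c f + rr d f = dd a e + dd b e := by
  intro c d e
  induction e with
  | nil => intro _; simp [dd, two_zero]
  | @cons u v w h q ih =>
    intro hd
    simp only [SimpleGraph.Walk.support_cons, List.mem_cons, forall_eq_or_imp] at hd
    have hv : v ∉ f.support := hd.2 v q.start_mem_support
    have e1 := rr_edge (p := u) (p' := v) h f hd.1 hv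
    have e2 := ih hd.2
    simp only [dd]
    linear_combination e1 + e2 - two_zero (rr v f)

theorem rr_Lt (c : ℕ × ℕ) : ∀ {a b : ℕ × ℕ} (f : Gam.Walk a b), c ∉ f.support →
    rr c f + dd c f = Lt a c + Lt b c := by
  intro a b f
  induction f with
  | nil => intro _; simp [rr, dd, two_zero]
  | @cons u v w h q ih =>
    intro h1
    simp only [SimpleGraph.Walk.support_cons, List.mem_cons, not_or] at h1
    have hv : v ∈ q.support := q.start_mem_support
    have e1 := up_dn (c := c) (w := u) (w' := v) h (fun h' => h1.1 h'.symm)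
      (fun h' => h1.2 (h' ▸ hv))
    have e2 := ih h1.2
    simp only [rr, dd]
    linear_combination e1 + e2 + two_zero (Lt v c)

/-- the elimination of `rr` : two disjoint walks `e : c → d`, `f : a → b` -/
theorem pair_eq {a b c d : ℕ × ℕ} (f : Gam.Walk a b) (e : Gam.Walk c d)
    (h : ∀ x ∈ e.support, x ∉ f.support) :
    dd c f + dd d f + dd a e + dd b e + Lt a c + Lt b c + Lt a d + Lt b d = 0 := by
  have h0 := rr_dd f e h
  have h1 := rr_Lt c f (h c e.start_mem_support)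
  have h2 := rr_Lt d f (h d e.end_mem_support)
  have h5 := two_zero (Lt a c)
  have h6 := two_zero (Lt b c)
  have h7 := two_zero (Lt a d)
  have h8 := two_zero (Lt b d)
  linear_combination h1 + h2 - h0 + h5 + h6 + h7 + h8

theorem comb5 (dl : Fin 5 → Fin 5 → Fin 5 → ZMod 2) (lt : Fin 5 → Fin 5 → ZMod 2)
    (E : ∀ i j k l : Fin 5, i ≠ j → k ≠ l → i ≠ k → i ≠ l → j ≠ k → j ≠ l →
      dl k i j + dl l i j + dl i k l + dl j k l + lt i k + lt j k + lt i l + lt j l = 0)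
    (A : ∀ i k : Fin 5, i ≠ k → lt i k + lt k i = 1) : False := by
  have h2 : (2 : ZMod 2) = 0 := rfl
  have key : (1 : ZMod 2) = 0 := by
    linear_combination
      E 0 1 2 3 (by decide) (by decide) (by decide) (by decide) (by decide) (by decide) + E 0 1
      2 4 (by decide) (by decide) (by decide) (by decide) (by decide) (by decide) + E 0 1 3 4
      (by decide) (by decide) (by decide) (by decide) (by decide) (by decide) + E 0 2 1 3 (by
      decide) (by decide) (by decide) (by decide) (by decide) (by decide) + E 0 2 1 4 (by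
      decide) (by decide) (by decide) (by decide) (by decide) (by decide) + E 0 2 3 4 (by
      decide) (by decide) (by decide) (by decide) (by decide) (by decide) + E 0 3 1 2 (by
      decide) (by decide) (by decide) (by decide) (by decide) (by decide) + E 0 3 1 4 (by
      decide) (by decide) (by decide) (by decide) (by decide) (by decide) + E 0 3 2 4 (by
      decide) (by decide) (by decide) (by decide) (by decide) (by decide) + E 0 4 1 2 (by
      decide) (by decide) (by decide) (by decide) (by decide) (by decide) + E 0 4 1 3 (by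
      decide) (by decide) (by decide) (by decide) (by decide) (by decide) + E 0 4 2 3 (by
      decide) (by decide) (by decide) (by decide) (by decide) (by decide) + E 1 2 3 4 (by
      decide) (by decide) (by decide) (by decide) (by decide) (by decide) + E 1 3 2 4 (by
      decide) (by decide) (by decide) (by decide) (by decide) (by decide) + E 1 4 2 3 (by
      decide) (by decide) (by decide) (by decide) (by decide) (by decide) - 2 * A 1 2 (by
      decide) - 2 * A 1 3 (by decide) - 2 * A 1 4 (by decide) - 3 * A 2 3 (by decide) - 3 * A 2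
      4 (by decide) - 3 * A 3 4 (by decide) - (dl 2 0 1 + dl 3 0 1 + dl 0 2 3 + dl 1 2 3 + dl 4
      0 1 + dl 0 2 4 + dl 1 2 4 + dl 0 3 4 + dl 1 3 4 + dl 1 0 2 + dl 3 0 2 + dl 0 1 3 + dl 2 1
      3 + dl 4 0 2 + dl 0 1 4 + dl 2 1 4 + dl 2 3 4 + dl 1 0 3 + dl 2 0 3 + dl 0 1 2 + dl 3 1 2
      + dl 4 0 3 + dl 3 1 4 + dl 3 2 4 + dl 1 0 4 + dl 2 0 4 + dl 4 1 2 + dl 3 0 4 + dl 4 1 3 +
      dl 4 2 3 + 3 * lt 0 1 + 3 * lt 0 2 + 3 * lt 0 3 + 3 * lt 0 4 + 1 * lt 1 2 + 1 * lt 1 3 + 1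
      * lt 1 4 + 7) * h2
  exact absurd key (by decide)

theorem comb33 (da db : Fin 3 → Fin 3 → Fin 3 → ZMod 2)
    (laa lbb lab lba : Fin 3 → Fin 3 → ZMod 2)
    (E : ∀ i j k l : Fin 3, i ≠ k → j ≠ l →
      da k i j + db l i j + da i k l + db j k l + laa i k + lba j k + lab i l + lbb j l = 0)
    (_ : ∀ i k : Fin 3, i ≠ k → laa i k + laa k i = 1)
    (BB : ∀ i k : Fin 3, i ≠ k → lbb i k + lbb k i = 1)
    (AB : ∀ i k : Fin 3, lab i k + lba k i = 1) : False := by
  have h2 : (2 : ZMod 2) = 0 := rfl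
  have key : (1 : ZMod 2) = 0 := by
    linear_combination
      E 0 0 1 1 (by decide) (by decide) + E 0 0 1 2 (by decide) (by decide) + E 0 1 1 0 (by
      decide) (by decide) + E 0 1 1 2 (by decide) (by decide) + E 0 2 1 0 (by decide) (by
      decide) + E 0 2 1 1 (by decide) (by decide) + E 0 0 2 1 (by decide) (by decide) + E 0 0 2
      2 (by decide) (by decide) + E 0 1 2 0 (by decide) (by decide) + E 0 1 2 2 (by decide) (by
      decide) + E 0 2 2 0 (by decide) (by decide) + E 0 2 2 1 (by decide) (by decide) + E 1 0 2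
      1 (by decide) (by decide) + E 1 0 2 2 (by decide) (by decide) + E 1 1 2 0 (by decide) (by
      decide) + E 1 1 2 2 (by decide) (by decide) + E 1 2 2 0 (by decide) (by decide) + E 1 2 2
      1 (by decide) (by decide) - 3 * BB 0 1 (by decide) - 3 * BB 0 2 (by decide) - 3 * BB 1 2
      (by decide) - 2 * AB 1 0 - 2 * AB 1 1 - 2 * AB 1 2 - 4 * AB 2 0 - 4 * AB 2 1 - 4 * AB 2 2
      - (da 1 0 0 + da 0 1 1 + da 0 1 2 + da 1 0 1 + da 0 1 0 + da 1 0 2 + da 2 0 0 + da 0 2 1 +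
      da 0 2 2 + da 2 0 1 + da 0 2 0 + da 2 0 2 + da 2 1 0 + da 1 2 1 + da 1 2 2 + da 2 1 1 + da
      1 2 0 + da 2 1 2 + db 1 0 0 + db 0 1 1 + db 2 0 0 + db 0 1 2 + db 0 0 1 + db 1 1 0 + db 2
      0 1 + db 1 1 2 + db 0 0 2 + db 2 1 0 + db 1 0 2 + db 2 1 1 + db 0 2 1 + db 0 2 2 + db 1 2
      0 + db 1 2 2 + db 2 2 0 + db 2 2 1 + 3 * laa 0 1 + 3 * laa 0 2 + 3 * laa 1 2 + 2 * lab 0 0
      + 2 * lab 0 1 + 2 * lab 0 2 + -2 * lab 2 0 + -2 * lab 2 1 + -2 * lab 2 2 + 13) * h2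
  exact absurd key (by decide)

/-- no system of five pairwise disjoint sets, pairwise joined by walks inside their unions -/
theorem core5 (c : Fin 5 → ℕ × ℕ) (D : Fin 5 → Set (ℕ × ℕ))
    (hdis : ∀ i j, i ≠ j → Disjoint (D i) (D j)) (hc : ∀ i, c i ∈ D i)
    (hw : ∀ i j, i ≠ j → ∃ w : Gam.Walk (c i) (c j), ∀ x ∈ w.support, x ∈ D i ∪ D j) : False := by
  classical
  choose w hws using hw
  have hd' : ∀ i j x, i ≠ j → x ∈ D i → x ∈ D j → False := fun i j x h h1 h2 =>
    Set.disjoint_left.mp (hdis i j h) h1 h2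
  refine comb5 (fun k i j => if h : i ≠ j then dd (c k) (w i j h) else 0)
    (fun i k => Lt (c i) (c k)) ?_ ?_
  · intro i j k l hij hkl hik hil hjk hjl
    simp only [hij, hkl, ne_eq, not_false_eq_true, dif_pos]
    refine pair_eq (w i j hij) (w k l hkl) ?_
    intro x hx hx'
    rcases hws k l hkl x hx with h1 | h1 <;> rcases hws i j hij x hx' with h2 | h2
    · exact hd' i k x hik h2 h1
    · exact hd' j k x hjk h2 h1
    · exact hd' i l x hil h2 h1
    · exact hd' j l x hjl h2 h1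
  · intro i k hik
    refine Lt_add ?_
    intro h
    exact hd' i k (c i) hik (hc i) (h ▸ hc k)

theorem core33 (c d : Fin 3 → ℕ × ℕ) (A B : Fin 3 → Set (ℕ × ℕ))
    (hA : ∀ i j, i ≠ j → Disjoint (A i) (A j)) (hB : ∀ i j, i ≠ j → Disjoint (B i) (B j))
    (hAB : ∀ i j, Disjoint (A i) (B j)) (hc : ∀ i, c i ∈ A i) (hd : ∀ i, d i ∈ B i)
    (hw : ∀ i j, ∃ w : Gam.Walk (c i) (d j), ∀ x ∈ w.support, x ∈ A i ∪ B j) : False := by
  classical
  choose w hws using hw
  have hA' : ∀ i j x, i ≠ j → x ∈ A i → x ∈ A j → False := fun i j x h h1 h2 =>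
    Set.disjoint_left.mp (hA i j h) h1 h2
  have hB' : ∀ i j x, i ≠ j → x ∈ B i → x ∈ B j → False := fun i j x h h1 h2 =>
    Set.disjoint_left.mp (hB i j h) h1 h2
  have hAB' : ∀ i j x, x ∈ A i → x ∈ B j → False := fun i j x h1 h2 =>
    Set.disjoint_left.mp (hAB i j) h1 h2
  refine comb33 (fun k i j => dd (c k) (w i j)) (fun k i j => dd (d k) (w i j))
    (fun i k => Lt (c i) (c k)) (fun i k => Lt (d i) (d k)) (fun i k => Lt (c i) (d k))
    (fun i k => Lt (d i) (c k)) ?_ ?_ ?_ ?_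
  · intro i j k l hik hjl
    refine pair_eq (w i j) (w k l) ?_
    intro x hx hx'
    rcases hws k l x hx with h1 | h1 <;> rcases hws i j x hx' with h2 | h2
    · exact hA' i k x hik h2 h1
    · exact hAB' k j x h1 h2
    · exact hAB' i l x h2 h1
    · exact hB' j l x hjl h2 h1
  · intro i k hik
    exact Lt_add fun h => hA' i k (c i) hik (hc i) (h ▸ hc k)
  · intro i k hik
    exact Lt_add fun h => hB' i k (d i) hik (hd i) (h ▸ hd k)
  · intro i k
    exact Lt_add fun h => hAB' i k (c i) (hc i) (h ▸ hd k)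

/-- walks inside connected sets of lattice points -/
theorem walk_of_conn {B : Set (ℕ × ℕ)} {p q : ℕ × ℕ} (hp : p ∈ B)
    (h : Relation.ReflTransGen (fun a b => latAdj a b ∧ b ∈ B) p q) :
    ∃ w : Gam.Walk p q, ∀ x ∈ w.support, x ∈ B := by
  induction h with
  | refl => exact ⟨.nil, by simpa using hp⟩
  | @tail b c _ hbc ih =>
    obtain ⟨w, hw⟩ := ih
    refine ⟨w.concat (show Gam.Adj b c from hbc.1), fun x hx => ?_⟩
    rw [SimpleGraph.Walk.support_concat] at hx
    simp only [List.mem_append, List.mem_singleton] at hx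
    rcases hx with hx | rfl
    · exact hw x hx
    · exact hbc.2

theorem walk_union {V : Type*} (G : SimpleGraph V) (B : V → Set (ℕ × ℕ))
    (hc : ∀ v, LatConn (B v))
    (ha : ∀ u v, G.Adj u v → ∃ p ∈ B u, ∃ q ∈ B v, latAdj p q) (S : Set V) :
    ∀ {u v : S} (_ : (G.induce S).Walk u v) (p q : ℕ × ℕ), p ∈ B u → q ∈ B v →
      ∃ w : Gam.Walk p q, ∀ x ∈ w.support, x ∈ ⋃ v ∈ S, B v := by
  intro u v wk
  induction wk with
  | @nil u =>
    intro p q hp hq
    obtain ⟨w, hw⟩ := walk_of_conn hp ((hc u).2 p hp q hq)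
    exact ⟨w, fun x hx => Set.mem_biUnion u.2 (hw x hx)⟩
  | @cons u v w h _ ih =>
    intro p q hp hq
    obtain ⟨p', hp', q', hq', hpq⟩ := ha u v h
    obtain ⟨w1, hw1⟩ := walk_of_conn hp ((hc u).2 p hp p' hp')
    obtain ⟨w2, hw2⟩ := ih q' q hq' hq
    refine ⟨w1.append (.cons (show Gam.Adj p' q' from hpq) w2), fun x hx => ?_⟩
    rw [SimpleGraph.Walk.mem_support_append_iff, SimpleGraph.Walk.support_cons,
      List.mem_cons] at hx
    rcases hx with hx | rfl | hx
    · exact Set.mem_biUnion u.2 (hw1 x hx)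
    · exact Set.mem_biUnion u.2 hp'
    · exact hw2 x hx

/-- walks between two adjacent connected pieces -/
theorem walk_two {V : Type*} (G : SimpleGraph V) (B : V → Set (ℕ × ℕ))
    (hc : ∀ v, LatConn (B v))
    (ha : ∀ u v, G.Adj u v → ∃ p ∈ B u, ∃ q ∈ B v, latAdj p q) (S T : Set V)
    (hS : (G.induce S).Connected) (hT : (G.induce T).Connected)
    (hST : ∃ x ∈ S, ∃ y ∈ T, G.Adj x y) (p q : ℕ × ℕ)
    (hp : p ∈ ⋃ v ∈ S, B v) (hq : q ∈ ⋃ v ∈ T, B v) :
    ∃ w : Gam.Walk p q, ∀ x ∈ w.support, x ∈ (⋃ v ∈ S, B v) ∪ (⋃ v ∈ T, B v) := by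
  obtain ⟨x, hx, y, hy, hxy⟩ := hST
  obtain ⟨p', hp', q', hq', hpq⟩ := ha x y hxy
  simp only [Set.mem_iUnion, exists_prop] at hp hq
  obtain ⟨u, hu, hpu⟩ := hp
  obtain ⟨v, hv, hqv⟩ := hq
  obtain ⟨wk1⟩ := hS.preconnected ⟨u, hu⟩ ⟨x, hx⟩
  obtain ⟨wk2⟩ := hT.preconnected ⟨y, hy⟩ ⟨v, hv⟩
  obtain ⟨w1, hw1⟩ := walk_union G B hc ha S wk1 p p' hpu hp'
  obtain ⟨w2, hw2⟩ := walk_union G B hc ha T wk2 q' q hq' hqv
  refine ⟨w1.append (.cons (show Gam.Adj p' q' from hpq) w2), fun z hz => ?_⟩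
  rw [SimpleGraph.Walk.mem_support_append_iff, SimpleGraph.Walk.support_cons,
    List.mem_cons] at hz
  rcases hz with hz | rfl | hz
  · exact Or.inl (hw1 z hz)
  · exact Or.inl (Set.mem_biUnion hx hp')
  · exact Or.inr (hw2 z hz)

theorem union_disjoint {V : Type*} (B : V → Set (ℕ × ℕ))
    (hd : ∀ u v, u ≠ v → Disjoint (B u) (B v)) (S T : Set V) (hST : Disjoint S T) :
    Disjoint (⋃ v ∈ S, B v) (⋃ v ∈ T, B v) := by
  simp only [Set.disjoint_iUnion_left, Set.disjoint_iUnion_right]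
  intro u hu v hv
  refine hd v u ?_
  rintro rfl
  exact Set.disjoint_left.mp hST ‹_› ‹_›

theorem exists_pt {V : Type*} (G : SimpleGraph V) (B : V → Set (ℕ × ℕ))
    (hc : ∀ v, LatConn (B v)) (S : Set V) (hS : (G.induce S).Connected) :
    ∃ p, p ∈ ⋃ v ∈ S, B v := by
  obtain ⟨⟨v, hv⟩⟩ := hS.nonempty
  obtain ⟨p, hp⟩ := (hc v).1
  exact ⟨p, Set.mem_biUnion hv hp⟩

end Grid

open Grid

theorem no_K5 {V : Type*} (G : SimpleGraph V) (B : V → Set (ℕ × ℕ))
    (hc : ∀ v, LatConn (B v)) (hd : ∀ u v, u ≠ v → Disjoint (B u) (B v))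
    (ha : ∀ u v, G.Adj u v → ∃ p ∈ B u, ∃ q ∈ B v, latAdj p q) :
    ¬ ∃ f : Fin 5 → Set V, (∀ i, (G.induce (f i)).Connected) ∧
          (∀ i j, i ≠ j → Disjoint (f i) (f j)) ∧
          (∀ i j, i ≠ j → ∃ x ∈ f i, ∃ y ∈ f j, G.Adj x y) := by
  rintro ⟨f, hf, hdis, hadj⟩
  choose c hcc using fun i => exists_pt G B hc (f i) (hf i)
  exact core5 c (fun i => ⋃ v ∈ f i, B v)
    (fun i j h => union_disjoint B hd _ _ (hdis i j h)) hcc
    (fun i j h => walk_two G B hc ha _ _ (hf i) (hf j) (hadj i j h) _ _ (hcc i) (hcc j))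

theorem no_K33 {V : Type*} (G : SimpleGraph V) (B : V → Set (ℕ × ℕ))
    (hc : ∀ v, LatConn (B v)) (hd : ∀ u v, u ≠ v → Disjoint (B u) (B v))
    (ha : ∀ u v, G.Adj u v → ∃ p ∈ B u, ∃ q ∈ B v, latAdj p q) :
    ¬ ∃ a b : Fin 3 → Set V,
          (∀ i, (G.induce (a i)).Connected ∧ (G.induce (b i)).Connected) ∧
          (∀ i j, i ≠ j → Disjoint (a i) (a j) ∧ Disjoint (b i) (b j)) ∧
          (∀ i j, Disjoint (a i) (b j) ∧ ∃ x ∈ a i, ∃ y ∈ b j, G.Adj x y) := by
  rintro ⟨a, b, hab, hdis, hadj⟩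
  choose c hcc using fun i => exists_pt G B hc (a i) (hab i).1
  choose d hdd using fun i => exists_pt G B hc (b i) (hab i).2
  exact core33 c d (fun i => ⋃ v ∈ a i, B v) (fun i => ⋃ v ∈ b i, B v)
    (fun i j h => union_disjoint B hd _ _ (hdis i j h).1)
    (fun i j h => union_disjoint B hd _ _ (hdis i j h).2)
    (fun i j => union_disjoint B hd _ _ (hadj i j).1) hcc hdd
    (fun i j => walk_two G B hc ha _ _ (hab i).1 (hab j).2 (hadj i j).2 _ _ (hcc i) (hdd j))

end Pool.Agent.MP3d
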