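import Pool.Agent.Lib.MP_3d7595_co.GraphA
import Pool.Agent.Lib.MP_3d7595_co.GridPlanar

set_option autoImplicit false

namespace Pool.Agent.MP3d

/-! ### connected pieces of the lattice -/

/-- one step inside `B` -/
def LStep (B : Set (ℕ × ℕ)) (a b : ℕ × ℕ) : Prop := latAdj a b ∧ b ∈ B

theorem hline {B : Set (ℕ × ℕ)} (h a : ℕ) : ∀ n : ℕ, (∀ x, a ≤ x → x ≤ a + n → (x, h) ∈ B) →
    Relation.ReflTransGen (LStep B) (a, h) (a + n, h) ∧
      Relation.ReflTransGen (LStep B) (a + n, h) (a, h) := by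
  intro n
  induction n with
  | zero => intro _; exact ⟨Relation.ReflTransGen.refl, Relation.ReflTransGen.refl⟩
  | succ n ih =>
    intro hB
    obtain ⟨h1, h2⟩ := ih (fun x hx hx' => hB x hx (by omega))
    refine ⟨h1.tail ⟨?_, hB _ (by omega) (by omega)⟩, h2.head ⟨?_, hB _ (by omega) (by omega)⟩⟩
    · exact Or.inl ⟨rfl, Or.inl rfl⟩
    · exact Or.inl ⟨rfl, Or.inr rfl⟩

theorem vline {B : Set (ℕ × ℕ)} (c a : ℕ) : ∀ n : ℕ, (∀ y, a ≤ y → y ≤ a + n → (c, y) ∈ B) →
    Relation.ReflTransGen (LStep B) (c, a) (c, a + n) ∧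
      Relation.ReflTransGen (LStep B) (c, a + n) (c, a) := by
  intro n
  induction n with
  | zero => intro _; exact ⟨Relation.ReflTransGen.refl, Relation.ReflTransGen.refl⟩
  | succ n ih =>
    intro hB
    obtain ⟨h1, h2⟩ := ih (fun x hx hx' => hB x hx (by omega))
    refine ⟨h1.tail ⟨?_, hB _ (by omega) (by omega)⟩, h2.head ⟨?_, hB _ (by omega) (by omega)⟩⟩
    · exact Or.inr ⟨rfl, Or.inl rfl⟩
    · exact Or.inr ⟨rfl, Or.inr rfl⟩

theorem latConn_center {B : Set (ℕ × ℕ)} (c : ℕ × ℕ) (hc : c ∈ B)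
    (h : ∀ z ∈ B, Relation.ReflTransGen (LStep B) c z ∧ Relation.ReflTransGen (LStep B) z c) :
    LatConn B :=
  ⟨⟨c, hc⟩, fun z hz w hw => (h z hz).2.trans (h w hw).1⟩

theorem hline' {B : Set (ℕ × ℕ)} (h a b : ℕ) (hab : a ≤ b)
    (hB : ∀ x, a ≤ x → x ≤ b → (x, h) ∈ B) :
    Relation.ReflTransGen (LStep B) (a, h) (b, h) ∧
      Relation.ReflTransGen (LStep B) (b, h) (a, h) := by
  obtain ⟨n, rfl⟩ := Nat.exists_eq_add_of_le hab
  exact hline h a n hB

theorem vline' {B : Set (ℕ × ℕ)} (c a b : ℕ) (hab : a ≤ b)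
    (hB : ∀ y, a ≤ y → y ≤ b → (c, y) ∈ B) :
    Relation.ReflTransGen (LStep B) (c, a) (c, b) ∧
      Relation.ReflTransGen (LStep B) (c, b) (c, a) := by
  obtain ⟨n, rfl⟩ := Nat.exists_eq_add_of_le hab
  exact vline c a n hB

theorem latConn_h {B : Set (ℕ × ℕ)} (h a b : ℕ) (hab : a ≤ b)
    (hB : ∀ z : ℕ × ℕ, z ∈ B ↔ (z.2 = h ∧ a ≤ z.1 ∧ z.1 ≤ b)) : LatConn B := by
  refine latConn_center (a, h) ((hB _).2 ⟨rfl, le_rfl, hab⟩) ?_
  rintro ⟨x, y⟩ hz
  obtain ⟨h1, h2, h3⟩ := (hB _).1 hz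
  simp only at h1 h2 h3
  subst h1
  exact hline' y a x h2 (fun x' h4 h5 => (hB _).2 ⟨rfl, h4, le_trans h5 h3⟩)

theorem latConn_v {B : Set (ℕ × ℕ)} (c a b : ℕ) (hab : a ≤ b)
    (hB : ∀ z : ℕ × ℕ, z ∈ B ↔ (z.1 = c ∧ a ≤ z.2 ∧ z.2 ≤ b)) : LatConn B := by
  refine latConn_center (c, a) ((hB _).2 ⟨rfl, le_rfl, hab⟩) ?_
  rintro ⟨x, y⟩ hz
  obtain ⟨h1, h2, h3⟩ := (hB _).1 hz
  simp only at h1 h2 h3
  subst h1
  exact vline' x a y h2 (fun x' h4 h5 => (hB _).2 ⟨rfl, h4, le_trans h5 h3⟩)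

/-- two multiples of `P` are equal or at distance at least `P` -/
theorem mul_tri (P f f' : ℕ) : f = f' ∨ f * P + P ≤ f' * P ∨ f' * P + P ≤ f * P := by
  rcases lt_trichotomy f f' with h | h | h
  · right; left
    have := Nat.mul_le_mul_right P h
    rw [Nat.succ_mul] at this
    exact this
  · left; exact h
  · right; right
    have := Nat.mul_le_mul_right P h
    rw [Nat.succ_mul] at this
    exact this

namespace Par
variable (p : Par)

open Classical in
/-- gap to the left of the first block of a hat -/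
noncomputable def gap (t b : ℕ) : ℕ :=
  if p.rlev t ≤ p.N ∧ p.L ^ (p.rlev t + 1) ∣ b * 2 ^ p.rres t then 1 else 0

/-- the block of lattice points of a potential vertex; the unit column `x` is drawn in the
lattice columns `2x+1` and `2x+2`, floor `f` is drawn at height `f*P` -/
def blk : Vx → Set (ℕ × ℕ)
  | Vx.row f t b => {z | z.2 = f * p.P + t ∧ 2 * (b * 2 ^ p.rres t) + 1 + p.gap t b ≤ z.1 ∧
      z.1 ≤ 2 * ((b+1) * 2 ^ p.rres t)}
  | Vx.item f x => {z | (z.2 = f * p.P ∧ 2 * x + 1 ≤ z.1 ∧ z.1 ≤ 2 * p.Xm ∧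
        ∀ x' ∈ p.GI, x < x' → z.1 ≤ 2 * x') ∨
      (∃ i, 1 ≤ i ∧ p.HatOK i x ∧ z.1 = 2 * x + 1 ∧
        ((f * p.P ≤ z.2 ∧ z.2 + p.q i ≤ f * p.P + p.rr i 0) ∨
         (z.2 ≤ f * p.P ∧ f * p.P + p.q i ≤ z.2 + p.rr i 0)))}
  | Vx.pil f s i x j => {z | z.1 = 2 * x + 1 ∧
      ((s = false ∧ f * p.P + p.rr i j < z.2 + p.q i ∧ z.2 ≤ f * p.P + p.rr i j) ∨
       (s = true ∧ (f+1) * p.P ≤ z.2 + p.rr i j ∧ z.2 + p.rr i j < (f+1) * p.P + p.q i))}
  | Vx.side f => {z | z.1 = 0 ∧ f * p.P ≤ z.2 ∧ z.2 < (f+1) * p.P}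

/-! ### numerical facts -/

theorem gap_le (t b : ℕ) : p.gap t b ≤ 1 := by
  unfold gap; split_ifs <;> omega

theorem lam_mul_le_o (i : ℕ) (hi : 1 ≤ i) : p.lam * i ≤ p.o i := by
  induction i, hi using Nat.le_induction with
  | base => rw [p.o_one, mul_one]
  | succ i hi ih =>
    rw [p.o_succ i hi]
    have h1 : p.q i ≤ p.k * p.q i := Nat.le_mul_of_pos_left _ p.hk
    have h2 := p.q_eq i
    have h3 := p.two_le_L
    have h4 : p.lam ≤ p.lam * i := Nat.le_mul_of_pos_right _ hi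
    rw [mul_add, mul_one]
    omega

theorem P_eq : p.P + 1 = 2 * p.o (p.N+1) + p.L := by
  have h3 := p.two_le_L
  unfold P
  omega

/-- the numerical facts about a pillar -/
theorem num (i j : ℕ) (hi : 1 ≤ i) (hiN : i ≤ p.N) (hj : j < p.k) :
    p.rr i 0 ≤ p.rr i j ∧ p.q i + p.o i ≤ p.rr i 0 + p.lam * i ∧ p.lam * i ≤ p.o i ∧
      p.rr i 0 < p.q i + p.o i ∧ p.q i ≤ p.rr i 0 ∧
      p.rr i j < p.o (i+1) ∧ p.o (i+1) ≤ p.o (p.N+1) ∧ p.P + 1 = 2 * p.o (p.N+1) + p.L ∧
      2 ≤ p.L ∧ 0 < p.q i := by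
  have h1 := p.rr_eq i j
  have h1' := p.rr_eq i 0
  have h2 := p.q_eq i
  have h3 := p.lam_mul_le_o i hi
  have h4 := p.rr_lt i j hi hj
  have h5 : p.o (i+1) ≤ p.o (p.N+1) := p.o_strictMono.monotone (by omega)
  have h6 := p.row0_zero i
  have h7 := p.o_le_row0 i j
  have h8 := p.lam_mul_pos i hi
  have h9 := p.P_eq
  have h10 := p.two_le_L
  refine ⟨by omega, by omega, h3, by omega, by omega, by omega, h5, h9, h10, p.q_pos i⟩

theorem rr_succ (i j : ℕ) : p.rr i (j+1) = p.rr i j + p.q i := by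
  have h1 := p.rr_eq i j
  have h1' := p.rr_eq i (j+1)
  have h2 := p.row0_succ i j
  omega

theorem rr_mono' (i j j' : ℕ) (h : j < j') : p.rr i j + p.q i ≤ p.rr i j' := by
  have h0 : p.rr i (j+1) ≤ p.rr i j' := by
    have h1 := p.rr_eq i (j+1)
    have h2 := p.rr_eq i j'
    have h3 := p.row0_mono i (show j + 1 ≤ j' from h)
    omega
  rw [p.rr_succ] at h0
  exact h0

theorem P_pos : 2 ≤ p.P := by
  have h1 := p.P_eq
  have h2 := p.o_top_pos
  have h3 := p.two_le_L
  omega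

/-! ### connectedness -/

theorem blk_conn (v : Vx) (h : p.ok v) : LatConn (p.blk v) := by
  cases v with
  | row f t b =>
    refine latConn_h (f * p.P + t) (2 * (b * 2 ^ p.rres t) + 1 + p.gap t b)
      (2 * ((b+1) * 2 ^ p.rres t)) ?_ (fun z => Iff.rfl)
    have h1 := p.gap_le t b
    have h2 : 0 < 2 ^ p.rres t := by positivity
    have h3 : (b + 1) * 2 ^ p.rres t = b * 2 ^ p.rres t + 2 ^ p.rres t := Nat.succ_mul _ _
    omega
  | item f x =>
    obtain ⟨hf, hx⟩ := h
    have hxX := (p.mem_GI_lt x hx).1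
    have hc : ((2 * x + 1, f * p.P) : ℕ × ℕ) ∈ p.blk (Vx.item f x) := by
      left
      refine ⟨rfl, le_rfl, by simp only; omega, ?_⟩
      intro x' _ h1
      simp only
      omega
    refine latConn_center (2 * x + 1, f * p.P) hc ?_
    rintro ⟨z1, z2⟩ hz
    rcases hz with ⟨h1, h2, h3, h4⟩ | ⟨i, hi, hh, h1, h2⟩
    · simp only at h1 h2 h3 h4
      subst h1
      refine hline' _ _ _ h2 ?_
      intro y h5 h6
      left
      refine ⟨rfl, h5, le_trans h6 h3, ?_⟩
      intro x' h7 h8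
      exact le_trans h6 (h4 x' h7 h8)
    · simp only at h1 h2
      subst h1
      rcases h2 with ⟨h2, h3⟩ | ⟨h2, h3⟩
      · refine vline' _ _ _ h2 ?_
        intro y h5 h6
        right
        refine ⟨i, hi, hh, rfl, Or.inl ⟨h5, ?_⟩⟩
        simp only
        omega
      · refine (vline' _ _ _ h2 ?_).symm
        intro y h5 h6
        right
        refine ⟨i, hi, hh, rfl, Or.inr ⟨h6, ?_⟩⟩
        simp only
        omega
  | pil f s i x j =>
    obtain ⟨hf, hi, hh, hj⟩ := h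
    have hn := p.num i j hi hh.1 hj
    have hm : (f + 1) * p.P = f * p.P + p.P := Nat.succ_mul f p.P
    cases s with
    | false =>
      refine latConn_v (2 * x + 1) (f * p.P + p.rr i j + 1 - p.q i) (f * p.P + p.rr i j)
        (by omega) ?_
      rintro ⟨z1, z2⟩
      simp only [blk, Set.mem_ofPred_eq, true_and, Bool.false_eq_true, false_and, or_false]
      constructor
      · rintro ⟨h1, h2, h3⟩
        exact ⟨h1, by omega, by omega⟩
      · rintro ⟨h1, h2, h3⟩
        exact ⟨h1, by omega, by omega⟩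
    | true =>
      refine latConn_v (2 * x + 1) ((f+1) * p.P - p.rr i j)
        ((f+1) * p.P + p.q i - 1 - p.rr i j) (by omega) ?_
      rintro ⟨z1, z2⟩
      simp only [blk, Set.mem_ofPred_eq, true_and, Bool.true_eq_false, false_and, false_or]
      constructor
      · rintro ⟨h1, h2, h3⟩
        exact ⟨h1, by omega, by omega⟩
      · rintro ⟨h1, h2, h3⟩
        refine ⟨h1, by omega, by omega⟩
  | side f =>
    have hm : (f + 1) * p.P = f * p.P + p.P := Nat.succ_mul f p.P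
    have hP := p.P_pos
    refine latConn_v 0 (f * p.P) ((f+1) * p.P - 1) (by omega) ?_
    rintro ⟨z1, z2⟩
    simp only [blk, Set.mem_ofPred_eq]
    constructor
    · rintro ⟨h1, h2, h3⟩
      exact ⟨h1, by omega, by omega⟩
    · rintro ⟨h1, h2, h3⟩
      exact ⟨h1, by omega, by omega⟩


/-! ### disjointness -/

/-- a row block above a hat start does not meet the column reserved for the pillars -/
theorem row_col (t b i x : ℕ) (hp : p.pres (p.rlev t) (b * 2 ^ p.rres t)) (hi : 1 ≤ i)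
    (hh : p.HatOK i x) (hlt : min t (p.P - t) < p.o (i+1))
    (h1 : 2 * (b * 2 ^ p.rres t) + 1 + p.gap t b ≤ 2 * x + 1)
    (h2 : 2 * x + 1 ≤ 2 * ((b+1) * 2 ^ p.rres t)) : False := by
  obtain ⟨hiN, hdvd, hX, hpx⟩ := hh
  have hR : 0 < 2 ^ p.rres t := by positivity
  have hb : x / 2 ^ p.rres t = b := by
    apply Nat.div_eq_of_lt_le
    · omega
    · omega
  have hlev : p.rlev t ≤ i := by
    have h3 := p.o_lev_le (min t (p.P - t))
    have h4 : p.o (p.lev (min t (p.P - t))) < p.o (i+1) := lt_of_le_of_lt h3 hlt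
    rw [p.o_strictMono.lt_iff_lt] at h4
    unfold rlev
    omega
  rcases Nat.lt_or_ge (p.rlev t) i with h3 | h3
  · have h4 : p.pres (p.lev (min t (p.P - t))) x := by
      rw [← p.pres_block (min t (p.P - t)) (b * 2 ^ p.rres t) x]
      · exact hp
      · show b * 2 ^ p.rres t / 2 ^ p.rres t = x / 2 ^ p.rres t
        rw [hb, Nat.mul_div_cancel _ hR]
    have h5 := (h4 i h3 hiN).1
    apply h5
    obtain ⟨m, rfl⟩ := hdvd
    have h6 : p.L ^ (i+1) * m / p.L ^ i = p.L * m := by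
      rw [pow_succ, mul_assoc]
      exact Nat.mul_div_cancel_left _ (pow_pos p.L_pos i)
    rw [h6]
    exact Nat.mul_mod_right _ _
  · have h4 : p.rlev t = i := le_antisymm hlev h3
    have h5 : p.rres t ≤ p.lam * i := by
      have h6 := p.res_le_lev (min t (p.P - t)) (by
        show 1 ≤ p.rlev t
        omega)
      have h7 : p.lev (min t (p.P - t)) = i := h4
      rw [h7] at h6
      exact h6
    have h6 : 2 ^ p.rres t ∣ x := by
      have h9 : 2 ^ p.rres t ∣ 2 ^ (p.lam * i) := pow_dvd_pow 2 h5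
      rw [p.pow_lam_mul] at h9
      exact dvd_trans h9 (dvd_trans (pow_dvd_pow _ (Nat.le_succ i)) hdvd)
    have h7 : b * 2 ^ p.rres t = x := by
      rw [← hb]
      exact Nat.div_mul_cancel h6
    have h8 : p.gap t b = 1 := by
      unfold gap
      rw [if_pos]
      rw [h4, h7]
      exact ⟨hiN, hdvd⟩
    omega

/-- the two coordinates of a common point, for use with `omega` -/
theorem disj_of (A B : Set (ℕ × ℕ)) (h : ∀ a b : ℕ, (a, b) ∈ A → (a, b) ∈ B → False) :
    Disjoint A B := by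
  rw [Set.disjoint_left]
  rintro ⟨a, b⟩ h1 h2
  exact h a b h1 h2

theorem disj_row_row (f t b f' t' b' : ℕ) (hu : p.ok (Vx.row f t b)) (hv : p.ok (Vx.row f' t' b'))
    (hne : Vx.row f t b ≠ Vx.row f' t' b') :
    Disjoint (p.blk (Vx.row f t b)) (p.blk (Vx.row f' t' b')) := by
  apply disj_of
  rintro z1 z2 ⟨h1, h2, h3⟩ ⟨h1', h2', h3'⟩
  simp only at h1 h2 h3 h1' h2' h3'
  obtain ⟨hf, ht, htP, -, -⟩ := hu
  obtain ⟨hf', ht', htP', -, -⟩ := hv
  have hff : f = f' := by
    rcases mul_tri p.P f f' with h | h | h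
    · exact h
    · omega
    · omega
  subst hff
  have htt : t = t' := by omega
  subst htt
  have h2R : 0 < 2 ^ p.rres t := by positivity
  have hbb : b ≠ b' := by
    rintro rfl
    exact hne rfl
  rcases Nat.lt_or_gt_of_ne hbb with h | h
  · have := Nat.mul_le_mul_right (2 ^ p.rres t) (show b + 1 ≤ b' from h)
    omega
  · have := Nat.mul_le_mul_right (2 ^ p.rres t) (show b' + 1 ≤ b from h)
    omega

theorem disj_row_item (f t b f' x : ℕ) (hu : p.ok (Vx.row f t b)) (hv : p.ok (Vx.item f' x)) :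
    Disjoint (p.blk (Vx.row f t b)) (p.blk (Vx.item f' x)) := by
  apply disj_of
  rintro z1 z2 ⟨h1, h2, h3⟩ h'
  simp only at h1 h2 h3
  obtain ⟨hf, ht, htP, hX, hp⟩ := hu
  rcases h' with ⟨h1', h2', h3', h4'⟩ | ⟨i, hi, hh, h1', h2'⟩
  · simp only at h1'
    rcases mul_tri p.P f f' with h | h | h
    · subst h; omega
    · omega
    · omega
  · simp only at h1' h2'
    have hn := p.num i 0 hi hh.1 p.hk
    subst h1'
    refine p.row_col t b i x hp hi hh ?_ h2 h3
    rcases mul_tri p.P f f' with h | h | h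
    · subst h
      have : t < p.o (i+1) := by
        have := p.o_strictMono (Nat.lt_succ_self i)
        omega
      omega
    · have : p.P - t < p.o (i+1) := by
        have := p.o_strictMono (Nat.lt_succ_self i)
        omega
      omega
    · omega

theorem disj_row_pil (f t b f' : ℕ) (s : Bool) (i x j : ℕ) (hu : p.ok (Vx.row f t b))
    (hv : p.ok (Vx.pil f' s i x j)) :
    Disjoint (p.blk (Vx.row f t b)) (p.blk (Vx.pil f' s i x j)) := by
  apply disj_of
  rintro z1 z2 ⟨h1, h2, h3⟩ ⟨h1', h2'⟩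
  simp only at h1 h2 h3 h1' h2'
  obtain ⟨hf, ht, htP, hX, hp⟩ := hu
  obtain ⟨hf', hi, hh, hj⟩ := hv
  have hn := p.num i j hi hh.1 hj
  have hm : (f' + 1) * p.P = f' * p.P + p.P := Nat.succ_mul f' p.P
  subst h1'
  refine p.row_col t b i x hp hi hh ?_ h2 h3
  rcases h2' with ⟨-, h4, h5⟩ | ⟨-, h4, h5⟩
  · have h6 : t < p.o (i+1) := by
      rcases mul_tri p.P f f' with h | h | h
      · subst h; omega
      · omega
      · omega
    omega
  · have h6 : p.P - t < p.o (i+1) := by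
      rcases mul_tri p.P f f' with h | h | h
      · subst h; omega
      · omega
      · omega
    omega

theorem disj_row_side (f t b f' : ℕ) :
    Disjoint (p.blk (Vx.row f t b)) (p.blk (Vx.side f')) := by
  apply disj_of
  rintro z1 z2 ⟨h1, h2, h3⟩ ⟨h1', h2'⟩
  simp only at h1 h2 h3 h1' h2'
  omega

theorem disj_item_item (f x f' x' : ℕ) (hu : p.ok (Vx.item f x)) (hv : p.ok (Vx.item f' x'))
    (hne : Vx.item f x ≠ Vx.item f' x') :
    Disjoint (p.blk (Vx.item f x)) (p.blk (Vx.item f' x')) := by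
  obtain ⟨hf, hx⟩ := hu
  obtain ⟨hf', hx'⟩ := hv
  apply disj_of
  intro z1 z2 h h'
  rcases h with ⟨h1, h2, h3, h4⟩ | ⟨i, hi, hh, h1, h2⟩
  · simp only at h1 h2 h3
    rcases h' with ⟨h1', h2', h3', h4'⟩ | ⟨i', hi', hh', h1', h2'⟩
    · simp only at h1' h2' h3'
      have hff : f = f' := by
        have := p.P_pos
        rcases mul_tri p.P f f' with h | h | h
        · exact h
        · omega
        · omega
      subst hff
      have hxx : x ≠ x' := by
        rintro rfl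
        exact hne rfl
      rcases Nat.lt_or_gt_of_ne hxx with h | h
      · have := h4 x' hx' h
        simp only at this
        omega
      · have := h4' x hx h
        simp only at this
        omega
    · simp only at h1' h2'
      have hn := p.num i' 0 hi' hh'.1 p.hk
      have hff : f = f' := by
        rcases mul_tri p.P f f' with h | h | h
        · exact h
        · omega
        · omega
      subst hff
      have hxx : x ≠ x' := by
        rintro rfl
        exact hne rfl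
      rcases Nat.lt_or_gt_of_ne hxx with h | h
      · have := h4 x' hx' h
        simp only at this
        omega
      · omega
  · simp only at h1 h2
    have hn := p.num i 0 hi hh.1 p.hk
    rcases h' with ⟨h1', h2', h3', h4'⟩ | ⟨i', hi', hh', h1', h2'⟩
    · simp only at h1' h2' h3'
      have hff : f = f' := by
        rcases mul_tri p.P f f' with h | h | h
        · exact h
        · omega
        · omega
      subst hff
      have hxx : x ≠ x' := by
        rintro rfl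
        exact hne rfl
      rcases Nat.lt_or_gt_of_ne hxx with h | h
      · omega
      · have := h4' x hx h
        simp only at this
        omega
    · simp only at h1' h2'
      have hn' := p.num i' 0 hi' hh'.1 p.hk
      have hxx : x = x' := by omega
      subst hxx
      have hff : f = f' := by
        rcases mul_tri p.P f f' with h | h | h
        · exact h
        · omega
        · omega
      subst hff
      exact hne rfl

theorem disj_item_pil (f x f' : ℕ) (s : Bool) (i' x' j : ℕ) (hu : p.ok (Vx.item f x))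
    (hv : p.ok (Vx.pil f' s i' x' j)) :
    Disjoint (p.blk (Vx.item f x)) (p.blk (Vx.pil f' s i' x' j)) := by
  obtain ⟨hf', hi', hh', hj⟩ := hv
  have hn' := p.num i' j hi' hh'.1 hj
  have hm : (f' + 1) * p.P = f' * p.P + p.P := Nat.succ_mul f' p.P
  apply disj_of
  rintro z1 z2 h ⟨h1', h2'⟩
  simp only at h1' h2'
  rcases h with ⟨h1, h2, h3, h4⟩ | ⟨i, hi, hh, h1, h2⟩
  · simp only at h1 h2 h3
    rcases mul_tri p.P f f' with h | h | h
    · subst h; omega
    · omega
    · omega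
  · simp only at h1 h2
    have hn := p.num i 0 hi hh.1 p.hk
    have hxx : x = x' := by omega
    subst hxx
    have hii := p.hat_unique i i' x hh hh'
    subst hii
    rcases mul_tri p.P f f' with h | h | h
    · subst h; omega
    · omega
    · have h5 := mul_tri p.P f (f'+1)
      rw [hm] at h5
      rcases h5 with h5 | h5 | h5
      · subst h5; omega
      · omega
      · omega

theorem disj_item_side (f x f' : ℕ) : Disjoint (p.blk (Vx.item f x)) (p.blk (Vx.side f')) := by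
  apply disj_of
  rintro z1 z2 h ⟨h1', h2'⟩
  simp only at h1' h2'
  rcases h with ⟨h1, h2, h3, h4⟩ | ⟨i, hi, hh, h1, h2⟩
  · simp only at h1 h2 h3
    omega
  · simp only at h1 h2
    omega

theorem disj_pil_pil (f : ℕ) (s : Bool) (i x j : ℕ) (f' : ℕ) (s' : Bool) (i' x' j' : ℕ)
    (hu : p.ok (Vx.pil f s i x j)) (hv : p.ok (Vx.pil f' s' i' x' j'))
    (hne : Vx.pil f s i x j ≠ Vx.pil f' s' i' x' j') :
    Disjoint (p.blk (Vx.pil f s i x j)) (p.blk (Vx.pil f' s' i' x' j')) := by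
  obtain ⟨hf, hi, hh, hj⟩ := hu
  obtain ⟨hf', hi', hh', hj'⟩ := hv
  apply disj_of
  rintro z1 z2 ⟨h1, h2⟩ ⟨h1', h2'⟩
  simp only at h1 h2 h1' h2'
  have hxx : x = x' := by omega
  subst hxx
  have hii := p.hat_unique i i' x hh hh'
  subst hii
  have hn := p.num i j hi hh.1 hj
  have hn' := p.num i j' hi hh.1 hj'
  have hm : (f + 1) * p.P = f * p.P + p.P := Nat.succ_mul f p.P
  have hm' : (f' + 1) * p.P = f' * p.P + p.P := Nat.succ_mul f' p.P
  have hff : f = f' := by
    rcases mul_tri p.P f f' with h | h | h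
    · exact h
    · omega
    · omega
  subst hff
  have hss : s = s' := by
    rcases h2 with ⟨h3, h4, h5⟩ | ⟨h3, h4, h5⟩ <;>
      rcases h2' with ⟨h3', h4', h5'⟩ | ⟨h3', h4', h5'⟩
    · rw [h3, h3']
    · omega
    · omega
    · rw [h3, h3']
  subst hss
  have hjj : j ≠ j' := by
    rintro rfl
    exact hne rfl
  rcases Nat.lt_or_gt_of_ne hjj with h | h
  · have := p.rr_mono' i j j' h
    omega
  · have := p.rr_mono' i j' j h
    omega

theorem disj_pil_side (f : ℕ) (s : Bool) (i x j f' : ℕ) :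
    Disjoint (p.blk (Vx.pil f s i x j)) (p.blk (Vx.side f')) := by
  apply disj_of
  rintro z1 z2 ⟨h1, h2⟩ ⟨h1', h2'⟩
  simp only at h1 h1'
  omega

theorem disj_side_side (f f' : ℕ) (hne : Vx.side f ≠ Vx.side f') :
    Disjoint (p.blk (Vx.side f)) (p.blk (Vx.side f')) := by
  apply disj_of
  rintro z1 z2 ⟨h1, h2, h3⟩ ⟨h1', h2', h3'⟩
  simp only at h1 h2 h3 h1' h2' h3'
  have hm : (f + 1) * p.P = f * p.P + p.P := Nat.succ_mul f p.P
  have hm' : (f' + 1) * p.P = f' * p.P + p.P := Nat.succ_mul f' p.P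
  rcases mul_tri p.P f f' with h | h | h
  · subst h
    exact hne rfl
  · omega
  · omega

theorem blk_disj (u v : Vx) (hu : p.ok u) (hv : p.ok v) (hne : u ≠ v) :
    Disjoint (p.blk u) (p.blk v) := by
  cases u with
  | row f t b =>
    cases v with
    | row f' t' b' => exact p.disj_row_row _ _ _ _ _ _ hu hv hne
    | item f' x' => exact p.disj_row_item _ _ _ _ _ hu hv
    | pil f' s' i' x' j' => exact p.disj_row_pil _ _ _ _ _ _ _ _ hu hv
    | side f' => exact p.disj_row_side _ _ _ _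
  | item f x =>
    cases v with
    | row f' t' b' => exact (p.disj_row_item _ _ _ _ _ hv hu).symm
    | item f' x' => exact p.disj_item_item _ _ _ _ hu hv hne
    | pil f' s' i' x' j' => exact p.disj_item_pil _ _ _ _ _ _ _ hu hv
    | side f' => exact p.disj_item_side _ _ _
  | pil f s i x j =>
    cases v with
    | row f' t' b' => exact (p.disj_row_pil _ _ _ _ _ _ _ _ hv hu).symm
    | item f' x' => exact (p.disj_item_pil _ _ _ _ _ _ _ hv hu).symm
    | pil f' s' i' x' j' => exact p.disj_pil_pil _ _ _ _ _ _ _ _ _ _ hu hv hne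
    | side f' => exact p.disj_pil_side _ _ _ _ _ _
  | side f =>
    cases v with
    | row f' t' b' => exact (p.disj_row_side _ _ _ _).symm
    | item f' x' => exact (p.disj_item_side _ _ _).symm
    | pil f' s' i' x' j' => exact (p.disj_pil_side _ _ _ _ _ _).symm
    | side f' => exact p.disj_side_side _ _ hne


/-! ### contacts -/

/-- the block over the unit column `x` contains the lattice column `2x+2` -/
theorem mem_row (f t x : ℕ) :
    ((2 * x + 2, f * p.P + t) : ℕ × ℕ) ∈ p.blk (Vx.row f t (x / 2 ^ p.rres t)) := by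
  have hR : 0 < 2 ^ p.rres t := by positivity
  have h1 : x / 2 ^ p.rres t * 2 ^ p.rres t ≤ x := Nat.div_mul_le_self _ _
  have h2 : x < (x / 2 ^ p.rres t + 1) * 2 ^ p.rres t := by
    have h3 := Nat.div_add_mod x (2 ^ p.rres t)
    have h4 := Nat.mod_lt x hR
    rw [mul_comm] at h3
    rw [Nat.succ_mul]
    omega
  have h3 := p.gap_le t (x / 2 ^ p.rres t)
  refine ⟨rfl, ?_, ?_⟩
  · simp only
    omega
  · simp only
    omega

theorem L_dvd_Xm : p.L ∣ p.Xm := by
  unfold Xm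
  exact dvd_mul_of_dvd_right (dvd_pow_self _ (by omega)) _

theorem lt_of_dvd (a b : ℕ) (ha : p.L ∣ a) (hb : p.L ∣ b) (h : a < b) : a + p.L ≤ b := by
  obtain ⟨m, rfl⟩ := ha
  obtain ⟨n, rfl⟩ := hb
  have h1 : m < n := lt_of_mul_lt_mul_left h (Nat.zero_le _)
  have h2 := Nat.mul_le_mul_left p.L (show m + 1 ≤ n from h1)
  rw [mul_add, mul_one] at h2
  exact h2

/-- the ground item of a base vertex contains the lattice columns `2x+2` -/
theorem mem_item (f a x : ℕ) (ha : p.BaseOK a) (h1 : a ≤ x) (h2 : x < a + p.L) :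
    ((2 * x + 2, f * p.P) : ℕ × ℕ) ∈ p.blk (Vx.item f a) := by
  obtain ⟨hd, hX, -⟩ := ha
  left
  have h3 := p.lt_of_dvd a p.Xm hd p.L_dvd_Xm hX
  refine ⟨rfl, by simp only; omega, by simp only; omega, ?_⟩
  intro x' hx' hlt
  have h4 := p.lt_of_dvd a x' hd (p.mem_GI_lt x' hx').2 hlt
  simp only
  omega

theorem blk_adj (u v : Vx) (hu : p.ok u) (hv : p.ok v) (h : p.Ed u v) :
    ∃ a ∈ p.blk u, ∃ b ∈ p.blk v, latAdj a b := by
  cases h with
  | vert f t x =>
    exact ⟨_, p.mem_row f t x, _, p.mem_row f (t+1) x, Or.inr ⟨rfl, Or.inl rfl⟩⟩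
  | horiz f t b h =>
    have hR : 0 < 2 ^ p.rres t := by positivity
    have hm : (b + 1) * 2 ^ p.rres t = b * 2 ^ p.rres t + 2 ^ p.rres t := Nat.succ_mul _ _
    have hm' : (b + 1 + 1) * 2 ^ p.rres t = (b + 1) * 2 ^ p.rres t + 2 ^ p.rres t :=
      Nat.succ_mul _ _
    have hg : p.gap t (b+1) = 0 := by
      unfold gap
      rw [if_neg]
      rintro ⟨h1, h2⟩
      rcases h with h | h
      · omega
      · exact h h2
    have hg' := p.gap_le t b
    refine ⟨(2 * ((b+1) * 2 ^ p.rres t), f * p.P + t), ⟨rfl, ?_, le_rfl⟩,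
      (2 * ((b+1) * 2 ^ p.rres t) + 1, f * p.P + t), ⟨rfl, ?_, ?_⟩, Or.inl ⟨rfl, Or.inl rfl⟩⟩
    · simp only
      omega
    · simp only
      omega
    · simp only
      omega
  | base0 f a x ha h1 h2 =>
    exact ⟨_, p.mem_item f a x ha h1 h2, _, p.mem_row f 1 x, Or.inr ⟨rfl, Or.inl rfl⟩⟩
  | base1 f a x ha h1 h2 =>
    have hm : (f + 1) * p.P = f * p.P + p.P := Nat.succ_mul f p.P
    have hP := p.P_pos
    refine ⟨_, p.mem_item (f+1) a x ha h1 h2, _, p.mem_row f (p.P-1) x,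
      Or.inr ⟨rfl, Or.inr ?_⟩⟩
    simp only
    omega
  | ground f x x' h =>
    obtain ⟨h1, h2, h3, h4⟩ := h
    have hx' := (p.mem_GI_lt x' h2).1
    refine ⟨(2 * x', f * p.P), Or.inl ⟨rfl, ?_, ?_, ?_⟩, (2 * x' + 1, f * p.P),
      Or.inl ⟨rfl, ?_, ?_, ?_⟩, Or.inl ⟨rfl, Or.inl rfl⟩⟩
    · simp only
      omega
    · simp only
      omega
    · intro z hz hxz
      simp only
      have := h4 z hz
      omega
    · simp only
      omega
    · simp only
      omega
    · intro z hz hxz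
      simp only
      omega
  | foot0 f i x =>
    obtain ⟨hf, hi, hh, hj⟩ := hv
    have hn := p.num i 0 hi hh.1 hj
    refine ⟨(2 * x + 1, f * p.P + (p.rr i 0 - p.q i)), Or.inr ⟨i, hi, hh, rfl, Or.inl ⟨?_, ?_⟩⟩,
      (2 * x + 1, f * p.P + (p.rr i 0 - p.q i) + 1), ⟨rfl, Or.inl ⟨rfl, ?_, ?_⟩⟩,
      Or.inr ⟨rfl, Or.inl rfl⟩⟩
    · simp only
      omega
    · simp only
      omega
    · simp only
      omega
    · simp only
      omega
  | foot1 f i x =>
    obtain ⟨hf, hi, hh, hj⟩ := hv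
    have hn := p.num i 0 hi hh.1 hj
    have hm : (f + 1) * p.P = f * p.P + p.P := Nat.succ_mul f p.P
    refine ⟨(2 * x + 1, (f+1) * p.P - (p.rr i 0 - p.q i)),
      Or.inr ⟨i, hi, hh, rfl, Or.inr ⟨?_, ?_⟩⟩,
      (2 * x + 1, (f+1) * p.P - (p.rr i 0 - p.q i) - 1), ⟨rfl, Or.inr ⟨rfl, ?_, ?_⟩⟩,
      Or.inr ⟨rfl, Or.inr ?_⟩⟩
    · simp only
      omega
    · simp only
      omega
    · simp only
      omega
    · simp only
      omega
    · simp only
      omega
  | pil f s i x j =>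
    obtain ⟨hf, hi, hh, hj⟩ := hv
    obtain ⟨-, -, -, hj0⟩ := hu
    have hn := p.num i j hi hh.1 hj0
    have hn' := p.num i (j+1) hi hh.1 hj
    have hr := p.rr_succ i j
    have hm : (f + 1) * p.P = f * p.P + p.P := Nat.succ_mul f p.P
    cases s with
    | false =>
      refine ⟨(2 * x + 1, f * p.P + p.rr i j), ⟨rfl, Or.inl ⟨rfl, ?_, le_rfl⟩⟩,
        (2 * x + 1, f * p.P + p.rr i j + 1), ⟨rfl, Or.inl ⟨rfl, ?_, ?_⟩⟩,
        Or.inr ⟨rfl, Or.inl rfl⟩⟩
      · simp only
        omega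
      · simp only
        omega
      · simp only
        omega
    | true =>
      refine ⟨(2 * x + 1, (f+1) * p.P - p.rr i j), ⟨rfl, Or.inr ⟨rfl, ?_, ?_⟩⟩,
        (2 * x + 1, (f+1) * p.P - p.rr i j - 1), ⟨rfl, Or.inr ⟨rfl, ?_, ?_⟩⟩,
        Or.inr ⟨rfl, Or.inr ?_⟩⟩
      · simp only
        omega
      · simp only
        omega
      · simp only
        omega
      · simp only
        omega
      · simp only
        omega
  | rail0 f i x j =>
    obtain ⟨hf, hi, hh, hj⟩ := hu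
    have hn := p.num i j hi hh.1 hj
    refine ⟨(2 * x + 1, f * p.P + p.rr i j), ⟨rfl, Or.inl ⟨rfl, ?_, le_rfl⟩⟩,
      _, p.mem_row f (p.rr i j) x, Or.inl ⟨rfl, Or.inl rfl⟩⟩
    simp only
    omega
  | rail1 f i x j =>
    obtain ⟨hf, hi, hh, hj⟩ := hu
    have hn := p.num i j hi hh.1 hj
    have hm : (f + 1) * p.P = f * p.P + p.P := Nat.succ_mul f p.P
    refine ⟨(2 * x + 1, (f+1) * p.P - p.rr i j), ⟨rfl, Or.inr ⟨rfl, ?_, ?_⟩⟩,
      _, p.mem_row f (p.P - p.rr i j) x, Or.inl ⟨?_, Or.inl rfl⟩⟩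
    · simp only
      omega
    · simp only
      omega
    · simp only
      omega
  | side f =>
    have hX := (p.mem_GI_lt 0 p.zero_mem_GI).1
    have hP := p.P_pos
    have hm : (f + 1) * p.P = f * p.P + p.P := Nat.succ_mul f p.P
    refine ⟨(0, f * p.P), ⟨rfl, le_rfl, ?_⟩, (1, f * p.P), Or.inl ⟨rfl, ?_, ?_, ?_⟩,
      Or.inl ⟨rfl, Or.inl rfl⟩⟩
    · simp only
      omega
    · simp only
      omega
    · simp only
      omega
    · intro z hz h0
      simp only
      omega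
  | spine f =>
    have hP := p.P_pos
    have hm : (f + 1) * p.P = f * p.P + p.P := Nat.succ_mul f p.P
    have hm' : (f + 1 + 1) * p.P = (f + 1) * p.P + p.P := Nat.succ_mul (f+1) p.P
    refine ⟨(0, (f+1) * p.P - 1), ⟨rfl, ?_, ?_⟩, (0, (f+1) * p.P), ⟨rfl, le_rfl, ?_⟩,
      Or.inr ⟨rfl, Or.inl ?_⟩⟩
    · simp only
      omega
    · simp only
      omega
    · simp only
      omega
    · simp only
      omega

theorem planar :
    (¬ ∃ f : Fin 5 → Set p.VT, (∀ i, (p.G.induce (f i)).Connected) ∧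
          (∀ i j, i ≠ j → Disjoint (f i) (f j)) ∧
          (∀ i j, i ≠ j → ∃ x ∈ f i, ∃ y ∈ f j, p.G.Adj x y)) ∧
    (¬ ∃ a b : Fin 3 → Set p.VT,
          (∀ i, (p.G.induce (a i)).Connected ∧ (p.G.induce (b i)).Connected) ∧
          (∀ i j, i ≠ j → Disjoint (a i) (a j) ∧ Disjoint (b i) (b j)) ∧
          (∀ i j, Disjoint (a i) (b j) ∧ ∃ x ∈ a i, ∃ y ∈ b j, p.G.Adj x y)) := by
  have hc : ∀ v : p.VT, LatConn (p.blk v.1) := fun v => p.blk_conn v.1 v.2
  have hd : ∀ u v : p.VT, u ≠ v → Disjoint (p.blk u.1) (p.blk v.1) :=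
    fun u v h => p.blk_disj u.1 v.1 u.2 v.2 (fun h' => h (Subtype.ext h'))
  have ha : ∀ u v : p.VT, p.G.Adj u v → ∃ a ∈ p.blk u.1, ∃ b ∈ p.blk v.1, latAdj a b := by
    intro u v h
    rw [p.adj_iff] at h
    rcases h.2 with h | h
    · exact p.blk_adj u.1 v.1 u.2 v.2 h
    · obtain ⟨a, ha, b, hb, hab⟩ := p.blk_adj v.1 u.1 v.2 u.2 h
      refine ⟨b, hb, a, ha, ?_⟩
      unfold latAdj at hab ⊢
      omega
  exact ⟨no_K5 p.G _ hc hd ha, no_K33 p.G _ hc hd ha⟩

end Par

end Pool.Agent.MP3d
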