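import Pool.Agent.Lib.MP_3d7595_co.Defs

set_option autoImplicit false

namespace Pool.Agent.MP3d

theorem exists_big (A B C : ℕ) : ∃ n, C ≤ n ∧ A * n + B ≤ 2 ^ n := by
  refine ⟨2 * (2 * A + B + C + 1), by omega, ?_⟩
  set m := 2 * A + B + C + 1 with hm
  have h1 : m + 1 ≤ 2 ^ m := Nat.lt_two_pow_self
  have h2 : (m + 1) * (m + 1) ≤ 2 ^ m * 2 ^ m := Nat.mul_le_mul h1 h1
  have h3 : 2 ^ m * 2 ^ m = 2 ^ (2 * m) := by rw [← pow_add]; congr 1; omega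
  have h4 : A * (2 * m) + B ≤ (m + 1) * (m + 1) := by
    have h5 : (m + 1) * (m + 1) = m * m + 2 * m + 1 := by ring
    have h6 : m * m = 2 * A * m + (B + C + 1) * m := by
      conv_lhs => rw [hm]
      rw [← hm]; ring
    have h7 : B ≤ (B + C + 1) * m := by
      calc B ≤ B + C + 1 := by omega
        _ ≤ (B + C + 1) * m := Nat.le_mul_of_pos_right _ (by omega)
    have h8 : A * (2 * m) = 2 * A * m := by ring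
    omega
  omega

theorem exists_params (c : ℕ) (hc : 1 ≤ c) : ∃ (p : Par) (R κ : ℕ),
    2 * (3 * c) * (2 * R + 5) ≤ 2 ^ R ∧ R < p.lam ∧ 2 ≤ p.lam ∧ 4 * (27 * c) < p.k ∧ 3 ≤ κ ∧
    κ ≤ p.lam ∧ 4 * (27 * c) + 27 * c * 2 ^ κ < p.n0 ∧
    2 * (4 * (27 * c) + 1) ^ (2 * (p.k * 2 ^ (R+2)) + 1) *
      (2 ^ (p.lam - κ) + 4 * (27 * c) * (2 * (p.k * 2 ^ (R+2)) + 1) + 1) < p.L ∧
    4 * (4 * (27 * c) + 1) ^ (2 * (p.k * 2 ^ (R+2)) + 2) * (27 * c * 2 ^ κ + 3) ≤ 2 ^ p.nu ∧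
    2 ^ (R+2) ≤ p.N ∧
    3 * (p.lam * (p.N+1)) + 2 * p.k + p.n0 * 2 ^ (p.nu * p.N) + 10 ≤ 2 * p.L := by
  obtain ⟨R, -, hR⟩ := exists_big (2 * (3 * c) * 2) (2 * (3 * c) * 5) 0
  set β := 27 * c with hβ
  set k := 4 * β + 1 with hk
  set M := 2 * (k * 2 ^ (R+2)) + 1 with hM
  obtain ⟨κ, hκ3, hκ⟩ := exists_big 0 (8 * (4 * β + 1) ^ M) 3
  obtain ⟨ν, -, hν⟩ := exists_big 0 (4 * (4 * β + 1) ^ (M + 1) * (β * 2 ^ κ + 3)) 0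
  set n0 := 4 * β + β * 2 ^ κ + 1 with hn0
  obtain ⟨lam, hlam, hl⟩ := exists_big (3 * (2 ^ (R+2) + 1))
    (8 * (4 * β + 1) ^ M * (4 * β * M + 1) + 2 * k + n0 * 2 ^ (ν * 2 ^ (R+2)) + 10)
    (R + 1 + 2 + κ + ν)
  have hNpos : 1 ≤ 2 ^ (R+2) := Nat.one_le_two_pow
  refine ⟨⟨2 ^ (R+2), k, lam, ν, n0, hNpos, by omega, by omega, by omega, by omega⟩, R, κ, ?_⟩
  have hM1 : 2 * (k * 2 ^ (R+2)) + 2 = M + 1 := by omega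
  refine ⟨?_, ?_, ?_, ?_, hκ3, ?_, ?_, ?_, ?_, le_rfl, ?_⟩
  · calc 2 * (3 * c) * (2 * R + 5) = 2 * (3 * c) * 2 * R + 2 * (3 * c) * 5 := by ring
      _ ≤ 2 ^ R := hR
  · show R < lam; omega
  · show 2 ≤ lam; omega
  · show 4 * β < k; omega
  · show κ ≤ lam; omega
  · show 4 * β + β * 2 ^ κ < n0; omega
  · show 2 * (4 * β + 1) ^ M * (2 ^ (lam - κ) + 4 * β * M + 1) < 2 ^ lam
    have h1 : 2 ^ κ * 2 ^ (lam - κ) = 2 ^ lam := by rw [← pow_add]; congr 1; omega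
    have h2 : 8 * (4 * β + 1) ^ M * 2 ^ (lam - κ) ≤ 2 ^ lam := by
      rw [← h1]; apply Nat.mul_le_mul_right; omega
    have h3 : 8 * (4 * β + 1) ^ M * (4 * β * M + 1) ≤ 2 ^ lam := by omega
    have h4 : 0 < 2 ^ lam := by positivity
    have h5 : 4 * (2 * (4 * β + 1) ^ M * (2 ^ (lam - κ) + 4 * β * M + 1)) =
      8 * (4 * β + 1) ^ M * 2 ^ (lam - κ) + 8 * (4 * β + 1) ^ M * (4 * β * M + 1) := by ring
    omega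
  · show 4 * (4 * β + 1) ^ (2 * (k * 2 ^ (R+2)) + 2) * (β * 2 ^ κ + 3) ≤ 2 ^ ν
    rw [hM1]
    omega
  · show 3 * (lam * (2 ^ (R+2) + 1)) + 2 * k + n0 * 2 ^ (ν * 2 ^ (R+2)) + 10 ≤ 2 * 2 ^ lam
    have h6 : 3 * (lam * (2 ^ (R+2) + 1)) = 3 * (2 ^ (R+2) + 1) * lam := by ring
    omega

end Pool.Agent.MP3d
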