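import Pool.Agent.Lib.MP_3d7595_co.Main
import Pool.Agent.Lib.MP_3d7595_co.B0
import Pool.Agent.Lib.MP_3d7595_co.Draw
import Pool.Agent.Lib.MP_3d7595_co.Dist
import Pool.Agent.Lib.MP_3d7595_co.Params

set_option autoImplicit false

namespace Pool.Agent.MP3d

section
variable {p : Par} {W : Type} [Fintype W] {H : SimpleGraph W} {n c : ℕ}
  {φ : p.VT → W × Fin n × Fin c}

theorem thin_of_embedding (hφ : Function.Injective φ) (S : Finset W) (hS : S.card ≤ 3) :
    Thin (fun v => ((φ v).2.1 : ℕ)) (3 * c) {v | (φ v).1 ∈ S} := by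
  classical
  intro m t
  have h1 : {u ∈ {v | (φ v).1 ∈ S} | m ≤ ((φ u).2.1 : ℕ) + t ∧ ((φ u).2.1 : ℕ) ≤ m + t}.ncard ≤
      (S ×ˢ (Finset.Icc (m - t) (m + t)) ×ˢ (Finset.range c) : Finset (W × ℕ × ℕ)).card := by
    rw [← Set.ncard_coe_finset]
    apply Set.ncard_le_ncard_of_injOn (fun u => ((φ u).1, ((φ u).2.1 : ℕ), ((φ u).2.2 : ℕ)))
    · rintro u ⟨hu1, hu2, hu3⟩
      simp only [Finset.coe_product, Set.mem_prod, Finset.mem_coe, Finset.mem_Icc,
        Finset.mem_range]
      exact ⟨hu1, ⟨by omega, hu3⟩, (φ u).2.2.2⟩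
    · intro u _ v _ huv
      simp only [Prod.mk.injEq] at huv
      apply hφ
      exact Prod.ext huv.1 (Prod.ext (Fin.ext huv.2.1) (Fin.ext huv.2.2))
  refine h1.trans ?_
  rw [Finset.card_product, Finset.card_product, Nat.card_Icc, Finset.card_range]
  have h2 : m + t + 1 - (m - t) ≤ 2 * t + 1 := by omega
  calc S.card * ((m + t + 1 - (m - t)) * c) ≤ 3 * ((2 * t + 1) * c) :=
        Nat.mul_le_mul hS (Nat.mul_le_mul_right _ h2)
    _ = 3 * c * (2 * t + 1) := by ring

end

theorem no_embedding (c : ℕ) (hc : 1 ≤ c) : ∃ p : Par, ¬ ∃ (W : Type) (_ : Fintype W)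
    (H : SimpleGraph W) (n : ℕ), NoK4 H ∧
      ∃ φ : p.VT → W × Fin n × Fin c, Function.Injective φ ∧
          ∀ u v, p.G.Adj u v →
            ((φ u).1 = (φ v).1 ∨ H.Adj (φ u).1 (φ v).1) ∧
            ((φ u).2.1 = (φ v).2.1 ∨ (SimpleGraph.pathGraph n).Adj (φ u).2.1 (φ v).2.1) := by
  obtain ⟨p, R, κ, hR, hRl, hl2, hk, hκ3, hκl, hn0, hPI, hnu, hN, hbig⟩ := exists_params c hc
  refine ⟨p, ?_⟩
  rintro ⟨W, _, H, n, hK4, φ, hφ, hadj⟩
  classical
  set h : p.VT → W := fun v => (φ v).1 with hh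
  set y : p.VT → ℕ := fun v => ((φ v).2.1 : ℕ) with hy
  have hlip : Lip p.G y := by
    intro u v huv
    rcases (hadj u v huv).2 with h1 | h1
    · have : y u = y v := congrArg Fin.val h1
      omega
    · rw [SimpleGraph.pathGraph_adj] at h1
      have h2 : (y u + 1 = y v) ∨ (y v + 1 = y u) := h1
      omega
  have hthin : ∀ S : Finset W, S.card ≤ 3 → Thin y (3 * c) {v | h v ∈ S} :=
    fun S hS => thin_of_embedding hφ S hS
  have hdist : ∀ v, y v ≤ y p.root + 4 * p.L ∧ y p.root ≤ y v + 4 * p.L :=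
    fun v => (p.within_root hbig v).lip hlip
  have hsmall : ∀ S : Finset W, S.card ≤ 3 → {v | h v ∈ S}.ncard ≤ 27 * c * p.L := by
    intro S hS
    have h1 := hthin S hS (y p.root) (4 * p.L)
    have h2 : {u ∈ {v | h v ∈ S} | y p.root ≤ y u + 4 * p.L ∧ y u ≤ y p.root + 4 * p.L} =
        {v | h v ∈ S} := by
      ext u
      constructor
      · intro hu; exact hu.1
      · intro hu
        exact ⟨hu, (hdist u).2, (hdist u).1⟩
    rw [h2] at h1
    refine h1.trans ?_
    have h3 := p.L_pos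
    calc 3 * c * (2 * (4 * p.L) + 1) ≤ 3 * c * (9 * p.L) := Nat.mul_le_mul_left _ (by omega)
      _ = 27 * c * p.L := by ring
  have st : Setup p p.G H h y (3 * c) R (27 * c) κ :=
    { noK4 := hK4
      hom := fun u v huv => (hadj u v huv).1
      lip := hlip
      thin := hthin
      small := hsmall
      hR := hR
      hRl := hRl
      hlam := hl2
      hβ := by omega
      hk := hk
      hκ := hκ3
      hκl := hκl
      hn0 := hn0
      hPI := hPI
      hnu := hnu
      hN := hN }
  have hconn : p.G.Connected := by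
    rw [SimpleGraph.connected_iff_exists_forall_reachable]
    exact ⟨p.root, fun v => by
      obtain ⟨w, -⟩ := p.within_root hbig v
      exact w.reachable.symm⟩
  obtain ⟨A, S, g, s, h0, hg1, hgk, hReg, hhat, hθ, hown, hbase⟩ := b0 st p.fam hconn
  have hsg := p.fam.hs g false hgk
  have hsg' := p.fam.hs (g-1) true (by omega)
  have hfl : ∀ x, p.nd (g-1) true 0 x = p.nd g false 0 x := by
    intro x
    have := p.fam.floor (g-1) x
    rwa [Nat.sub_add_cancel hg1] at this
  have hs : HS p p.G (p.nd (if s then g - 1 else g) s) := by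
    cases s
    · exact hsg
    · exact hsg'
  refine chain_false st hs (fun a => nbF p p.nd R g a) ?_ ?_ ?_ hReg hhat hθ hown hbase
  · intro a ha
    have h1 := nearBase_ncard hsg hRl ha
    have h2 := nearBase_ncard hsg' hRl ha
    have h3 := Set.ncard_union_le (nearBase p (p.nd g false) R a) (nearBase p (p.nd (g-1) true) R a)
    show (nbF p p.nd R g a).ncard ≤ _
    unfold nbF
    omega
  · intro a ha
    show _ ⊆ nbF p p.nd R g a
    unfold nbF
    cases s
    · exact Set.subset_union_left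
    · exact Set.subset_union_right
  · intro a ha X B hB h0B hd
    have hd' : Disjoint (nbF p p.nd R g a) X := hd
    unfold nbF at hd'
    rw [Set.disjoint_union_left] at hd'
    have h0' : p.nd g false 0 a ∈ B := by
      cases s
      · exact h0B
      · rw [← hfl]; exact h0B
    show nbF p p.nd R g a ⊆ B
    unfold nbF
    apply Set.union_subset
    · exact nearBase_sub hsg hRl ha hB h0' hd'.1
    · exact nearBase_sub hsg' hRl ha hB (by rw [hfl]; exact h0') hd'.2

end Pool.Agent.MP3d
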