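import Pool.Agent.Lib.MP_3d7595_co.GraphDef

set_option autoImplicit false

namespace Pool.Agent.MP3d

namespace Par
variable (p : Par)

/-! task H1 -/

/-! ### ground positions -/

theorem two_pow_nu : 2 ^ p.nu * 2 ^ (p.lam - p.nu) = p.L := by
  rw [← pow_add]
  unfold L
  congr 1
  have := p.hnu
  omega

theorem posF_lt (m x : ℕ) (hm : m ≤ p.N) (h : x ∈ p.posF m) :
    x + p.L ^ (p.N + 1 - m) ≤ p.Xm ∧ p.L ^ (p.N + 1 - m) ∣ x := by
  induction m generalizing x with
  | zero =>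
    simp only [posF, Finset.mem_image, Finset.mem_range] at h
    obtain ⟨v, hv, rfl⟩ := h
    rw [Nat.sub_zero]
    refine ⟨?_, Dvd.intro_left _ rfl⟩
    unfold Xm
    calc v * p.L ^ (p.N+1) + p.L ^ (p.N+1) = (v + 1) * p.L ^ (p.N+1) := by ring
      _ ≤ p.n0 * p.L ^ (p.N+1) := Nat.mul_le_mul_right _ hv
  | succ m ih =>
    simp only [posF, Finset.mem_image, Finset.mem_product, Finset.mem_range] at h
    obtain ⟨⟨y, u⟩, ⟨hy, hu⟩, rfl⟩ := h
    simp only at hy hu ⊢
    obtain ⟨h1, h2⟩ := ih y (by omega) hy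
    have e1 : p.N + 1 - (m + 1) = p.N - m := by omega
    have e2 : p.N + 1 - m = (p.N - m) + 1 := by omega
    rw [e1]
    rw [e2, pow_succ] at h1 h2
    have h3 : (u * 2 ^ (p.lam - p.nu) + 1) ≤ p.L := by
      have h4 : (u + 1) * 2 ^ (p.lam - p.nu) ≤ 2 ^ p.nu * 2 ^ (p.lam - p.nu) :=
        Nat.mul_le_mul_right _ hu
      rw [p.two_pow_nu] at h4
      have h5 : 1 ≤ 2 ^ (p.lam - p.nu) := Nat.one_le_two_pow
      calc u * 2 ^ (p.lam - p.nu) + 1 ≤ u * 2 ^ (p.lam - p.nu) + 2 ^ (p.lam - p.nu) := by omega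
        _ = (u + 1) * 2 ^ (p.lam - p.nu) := by ring
        _ ≤ p.L := h4
    constructor
    · calc y + u * 2 ^ (p.lam - p.nu) * p.L ^ (p.N - m) + p.L ^ (p.N - m)
          = y + p.L ^ (p.N - m) * (u * 2 ^ (p.lam - p.nu) + 1) := by ring
        _ ≤ y + p.L ^ (p.N - m) * p.L := by
            have := Nat.mul_le_mul_left (p.L ^ (p.N - m)) h3
            omega
        _ ≤ p.Xm := h1
    · exact Nat.dvd_add ((Dvd.intro _ rfl).trans h2) (Dvd.intro_left _ rfl)

theorem zero_mem_posF (m : ℕ) : 0 ∈ p.posF m := by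
  induction m with
  | zero =>
    simp only [posF, Finset.mem_image, Finset.mem_range]
    exact ⟨0, p.hn0, by simp⟩
  | succ m ih =>
    simp only [posF, Finset.mem_image, Finset.mem_product, Finset.mem_range]
    exact ⟨(0, 0), ⟨ih, by positivity⟩, by simp⟩

theorem mem_GI_lt (x : ℕ) (h : x ∈ p.GI) : x < p.Xm ∧ p.L ∣ x := by
  obtain ⟨h1, h2⟩ := p.posF_lt p.N x le_rfl h
  have e : p.N + 1 - p.N = 1 := by omega
  rw [e, pow_one] at h1 h2
  have := p.L_pos
  exact ⟨by omega, h2⟩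

theorem zero_mem_GI : 0 ∈ p.GI := p.zero_mem_posF _

theorem posF_mono (m : ℕ) : p.posF m ⊆ p.posF (m+1) := by
  intro x hx
  simp only [posF, Finset.mem_image, Finset.mem_product, Finset.mem_range]
  exact ⟨(x, 0), ⟨hx, by positivity⟩, by simp⟩

theorem posF_mono' (m m' : ℕ) (h : m ≤ m') : p.posF m ⊆ p.posF m' := by
  induction m', h using Nat.le_induction with
  | base => exact Finset.Subset.refl _
  | succ m' _ ih => exact ih.trans (p.posF_mono m')

theorem hat_mem_posF (d i x : ℕ) (hd : i + d = p.N) (h : p.HatOK i x) : x ∈ p.posF d := by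
  induction d generalizing i x with
  | zero =>
    obtain ⟨-, h2, h3, -⟩ := h
    have hi : i = p.N := by omega
    subst hi
    obtain ⟨v, rfl⟩ := h2
    simp only [posF, Finset.mem_image, Finset.mem_range]
    refine ⟨v, ?_, by ring⟩
    unfold Xm at h3
    rw [mul_comm] at h3
    exact lt_of_mul_lt_mul_right h3 (Nat.zero_le _)
  | succ d ih =>
    obtain ⟨h1, h2, h3, h4⟩ := h
    have hLp : 0 < p.L ^ (i+2) := Nat.pow_pos p.L_pos
    have hx' : p.HatOK (i+1) (x / p.L ^ (i+2) * p.L ^ (i+2)) := by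
      refine ⟨by omega, Dvd.intro_left _ rfl,
        lt_of_le_of_lt (Nat.div_mul_le_self _ _) h3, ?_⟩
      rw [p.pres_congr (i+1) _ x]
      · exact p.pres_mono i (i+1) x (Nat.le_succ _) h4
      · rw [Nat.mul_div_cancel _ hLp]
    have hmem := ih (i+1) _ (by omega) hx'
    have hdec := h4 (i+1) (Nat.lt_succ_self _) (by omega)
    obtain ⟨-, u, hu⟩ := hdec
    have hlt : (x / p.L ^ (i+1)) % p.L < p.L := Nat.mod_lt _ p.L_pos
    simp only [posF, Finset.mem_image, Finset.mem_product, Finset.mem_range]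
    refine ⟨(_, u), ⟨hmem, ?_⟩, ?_⟩
    · by_contra hcon
      push Not at hcon
      have h5 : 2 ^ (p.lam - p.nu) * 2 ^ p.nu ≤ 2 ^ (p.lam - p.nu) * u :=
        Nat.mul_le_mul_left _ hcon
      rw [← hu, mul_comm, p.two_pow_nu] at h5
      omega
    · simp only
      have e : p.N - d = i + 1 := by omega
      rw [e, mul_comm u, ← hu]
      have e1 : x / p.L ^ (i+2) = (x / p.L ^ (i+1)) / p.L := by
        rw [Nat.div_div_eq_div_mul, ← pow_succ]
      have e2 : x / p.L ^ (i+1) * p.L ^ (i+1) = x := Nat.div_mul_cancel h2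
      have e3 := Nat.div_add_mod (x / p.L ^ (i+1)) p.L
      rw [e1, pow_succ]
      calc x / p.L ^ (i+1) / p.L * (p.L ^ (i+1) * p.L) + x / p.L ^ (i+1) % p.L * p.L ^ (i+1)
          = (p.L * (x / p.L ^ (i+1) / p.L) + x / p.L ^ (i+1) % p.L) * p.L ^ (i+1) := by ring
        _ = x := by rw [e3, e2]

theorem hat_mem_GI (i x : ℕ) (h : p.HatOK i x) : x ∈ p.GI := by
  have h1 := p.hat_mem_posF (p.N - i) i x (by have := h.1; omega) h
  exact p.posF_mono' _ _ (Nat.sub_le _ _) h1

theorem card_posF (m : ℕ) : (p.posF m).card ≤ p.n0 * 2 ^ (p.nu * m) := by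
  induction m with
  | zero =>
    simp only [posF, mul_zero, pow_zero, mul_one]
    exact Finset.card_image_le.trans (by simp)
  | succ m ih =>
    simp only [posF]
    refine Finset.card_image_le.trans ?_
    rw [Finset.card_product, Finset.card_range]
    calc (p.posF m).card * 2 ^ p.nu ≤ p.n0 * 2 ^ (p.nu * m) * 2 ^ p.nu :=
          Nat.mul_le_mul_right _ ih
      _ = p.n0 * 2 ^ (p.nu * (m+1)) := by rw [mul_assoc, ← pow_add, mul_add, mul_one]

theorem card_GI : p.GI.card ≤ p.n0 * 2 ^ (p.nu * p.N) := p.card_posF p.N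

/-! ### finiteness -/

instance finite_VT : Finite p.VT := by
  classical
  let M : ℕ := p.k + p.P + p.Xm + p.N + 2
  let R : Finset ℕ := Finset.range M
  let S : Finset Vx :=
    ((R ×ˢ R ×ˢ R).image (fun a => Vx.row a.1 a.2.1 a.2.2)) ∪
    ((R ×ˢ R).image (fun a => Vx.item a.1 a.2)) ∪
    ((R ×ˢ (Finset.univ : Finset Bool) ×ˢ R ×ˢ R ×ˢ R).image
      (fun a => Vx.pil a.1 a.2.1 a.2.2.1 a.2.2.2.1 a.2.2.2.2)) ∪
    (R.image (fun a => Vx.side a))
  have hS : {v | p.ok v} ⊆ (S : Set Vx) := by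
    intro v hv
    rcases v with ⟨f, t, b⟩ | ⟨f, x⟩ | ⟨f, s, i, x, j⟩ | ⟨f⟩
    · obtain ⟨h1, h2, h3, h4, h5⟩ := hv
      have h6 : b ≤ b * 2 ^ p.rres t := Nat.le_mul_of_pos_right _ (by positivity)
      apply Finset.mem_coe.2
      simp only [S, Finset.mem_union, Finset.mem_image, Finset.mem_product]
      refine Or.inl (Or.inl (Or.inl ⟨(f, t, b), ⟨?_, ?_, ?_⟩, rfl⟩)) <;>
        simp only [R, M, Finset.mem_range] <;> omega
    · obtain ⟨h1, h2⟩ := hv
      have h3 := (p.mem_GI_lt x h2).1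
      apply Finset.mem_coe.2
      simp only [S, Finset.mem_union, Finset.mem_image, Finset.mem_product]
      refine Or.inl (Or.inl (Or.inr ⟨(f, x), ⟨?_, ?_⟩, rfl⟩)) <;>
        simp only [R, M, Finset.mem_range] <;> omega
    · obtain ⟨h1, h2, ⟨h3, -, h4, -⟩, h5⟩ := hv
      apply Finset.mem_coe.2
      simp only [S, Finset.mem_union, Finset.mem_image, Finset.mem_product]
      refine Or.inl (Or.inr ⟨(f, s, i, x, j), ⟨?_, Finset.mem_univ _, ?_, ?_, ?_⟩, rfl⟩) <;>
        simp only [R, M, Finset.mem_range] <;> omega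
    · have h1 : f ≤ p.k := hv
      apply Finset.mem_coe.2
      simp only [S, Finset.mem_union, Finset.mem_image]
      refine Or.inr ⟨f, ?_, rfl⟩
      simp only [R, M, Finset.mem_range]
      omega
  exact (S.finite_toSet.subset hS).to_subtype

theorem adj_iff (u v : p.VT) : p.G.Adj u v ↔ u ≠ v ∧ (p.Ed u.1 v.1 ∨ p.Ed v.1 u.1) :=
  SimpleGraph.fromRel_adj _ _ _

/-! ### the degree -/

theorem rres_step (t : ℕ) : p.rres (t+1) ≤ p.rres t + 1 ∧ p.rres t ≤ p.rres (t+1) + 1 := by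
  unfold rres
  have hm : min (t+1) (p.P - (t+1)) = min t (p.P - t) ∨
      min (t+1) (p.P - (t+1)) = min t (p.P - t) + 1 ∨
      min (t+1) (p.P - (t+1)) + 1 = min t (p.P - t) := by omega
  rcases hm with h | h | h
  · rw [h]
    omega
  · rw [h]
    exact p.res_step _
  · rw [← h]
    have := p.res_step (min (t+1) (p.P - (t+1)))
    exact ⟨this.2, this.1⟩

theorem div_step (x r r' : ℕ) (h1 : r' ≤ r + 1) (h2 : r ≤ r' + 1) :
    x / 2 ^ r' = x / 2 ^ r ∨ x / 2 ^ r' = x / 2 ^ r / 2 ∨ x / 2 ^ r' = 2 * (x / 2 ^ r) ∨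
      x / 2 ^ r' = 2 * (x / 2 ^ r) + 1 := by
  have h : r' = r ∨ r' = r + 1 ∨ r = r' + 1 := by omega
  rcases h with rfl | rfl | rfl
  · exact Or.inl rfl
  · right; left
    rw [pow_succ, Nat.div_div_eq_div_mul]
  · have e : x / 2 ^ (r' + 1) = x / 2 ^ r' / 2 := by
      rw [pow_succ, Nat.div_div_eq_div_mul]
    rw [e]
    omega

theorem three_le_P : 3 ≤ p.P := by
  have h1 := p.o_top_pos
  have h2 := p.two_le_L
  unfold P
  omega

theorem rres_one : p.rres 1 = p.lam - 1 := by
  unfold rres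
  have h := p.three_le_P
  have e : min 1 (p.P - 1) = 1 := by omega
  rw [e]
  exact p.res_base 1 p.hlam

theorem rres_P_sub_one : p.rres (p.P - 1) = p.lam - 1 := by
  unfold rres
  have h := p.three_le_P
  have e : min (p.P - 1) (p.P - (p.P - 1)) = 1 := by omega
  rw [e]
  exact p.res_base 1 p.hlam

theorem base_div (a x : ℕ) (ha : p.L ∣ a) (h1 : a ≤ x) (h2 : x < a + p.L) :
    x / 2 ^ (p.lam - 1) / 2 = a / p.L := by
  obtain ⟨c, rfl⟩ := ha
  have e : 2 ^ (p.lam - 1) * 2 = p.L := by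
    rw [← pow_succ]
    unfold L
    congr 1
    have := p.hlam
    omega
  rw [Nat.div_div_eq_div_mul, e, Nat.mul_div_cancel_left _ p.L_pos]
  rw [Nat.div_eq_iff p.L_pos]
  constructor
  · rw [mul_comm]; exact h1
  · have : c * p.L = p.L * c := mul_comm _ _
    have := p.L_pos
    omega

theorem rr_facts (i j : ℕ) (hi : 1 ≤ i) (hiN : i ≤ p.N) (hj : j < p.k) :
    p.lev (p.rr i j) = i ∧ p.res (p.rr i j) = p.lam * i ∧
      (p.rr i j - p.o i) / p.q i = j ∧ p.rr i j < p.T ∧ 0 < p.rr i j ∧ p.rr i j ≤ p.P := by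
  have h0 := p.lam_mul_pos i hi
  have h1 := p.rr_eq i j
  have h2 := p.q_eq i
  have h3 := p.rr_lt i j hi hj
  have h4 : p.o (i+1) ≤ p.o (p.N+1) := p.o_strictMono.monotone (by omega)
  have hL := p.two_le_L
  have hr : p.row0 i j = p.o i + j * p.q i := rfl
  have e : p.rr i j = p.row0 i j + (p.L + p.lam * i - 1) := by omega
  have hs : p.L + p.lam * i - 1 < p.q i := by omega
  refine ⟨?_, ?_, ?_, ?_, ?_, ?_⟩
  · rw [e]
    exact p.lev_row i j _ hi hiN hj hs
  · have := p.res_up i j 0 hi hiN hj (Nat.zero_le _)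
    simpa using this
  · have e2 : p.rr i j - p.o i = (p.L + p.lam * i - 1) + p.q i * j := by
      rw [e, hr, mul_comm j]
      omega
    rw [e2, Nat.add_mul_div_left _ _ (p.q_pos i), Nat.div_eq_of_lt hs, zero_add]
  · unfold T
    omega
  · omega
  · unfold P
    omega

/-- a list containing all the neighbours -/
noncomputable def nbL : Vx → List Vx
  | Vx.row f t b => [Vx.row f (t+1) b, Vx.row f (t+1) (b/2), Vx.row f (t+1) (2*b),
      Vx.row f (t+1) (2*b+1), Vx.row f (t-1) b, Vx.row f (t-1) (b/2), Vx.row f (t-1) (2*b),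
      Vx.row f (t-1) (2*b+1), Vx.row f t (b+1), Vx.row f t (b-1), Vx.item f (b/2*p.L),
      Vx.item (f+1) (b/2*p.L),
      Vx.pil f false (p.lev t) (b * 2 ^ p.res t) ((t - p.o (p.lev t)) / p.q (p.lev t)),
      Vx.pil f true (p.lev (p.P - t)) (b * 2 ^ p.res (p.P - t))
        ((p.P - t - p.o (p.lev (p.P - t))) / p.q (p.lev (p.P - t)))]
  | Vx.item f x => [Vx.row f 1 (2*(x/p.L)), Vx.row f 1 (2*(x/p.L)+1),
      Vx.row (f-1) (p.P-1) (2*(x/p.L)), Vx.row (f-1) (p.P-1) (2*(x/p.L)+1),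
      Vx.item f (Classical.epsilon (fun x' => p.consec x x')),
      Vx.item f (Classical.epsilon (fun x' => p.consec x' x)),
      Vx.pil f false (Classical.epsilon (fun i => p.HatOK i x)) x 0,
      Vx.pil (f-1) true (Classical.epsilon (fun i => p.HatOK i x)) x 0, Vx.side f]
  | Vx.pil f s i x j => [Vx.item f x, Vx.item (f+1) x, Vx.pil f s i x (j+1),
      Vx.pil f s i x (j-1), Vx.row f (p.rr i j) (x / 2 ^ p.rres (p.rr i j)),
      Vx.row f (p.P - p.rr i j) (x / 2 ^ p.rres (p.P - p.rr i j))]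
  | Vx.side f => [Vx.item f 0, Vx.side (f+1), Vx.side (f-1)]

theorem nbL_length (v : Vx) : (p.nbL v).length ≤ 14 := by
  rcases v with ⟨f, t, b⟩ | ⟨f, x⟩ | ⟨f, s, i, x, j⟩ | ⟨f⟩ <;> simp [nbL]

theorem eps_hat (i x : ℕ) (h : p.HatOK i x) :
    Classical.epsilon (fun i => p.HatOK i x) = i :=
  p.hat_unique _ _ x (Classical.epsilon_spec (p := fun i => p.HatOK i x) ⟨i, h⟩) h

theorem eps_next (x x' : ℕ) (h : p.consec x x') :
    Classical.epsilon (fun x' => p.consec x x') = x' := by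
  have h1 : p.consec x (Classical.epsilon (fun x' => p.consec x x')) :=
    Classical.epsilon_spec ⟨x', h⟩
  have h2 := h.2.2.2 _ h1.2.1
  have h3 := h1.2.2.2 _ h.2.1
  have h4 := h.2.2.1
  have h5 := h1.2.2.1
  omega

theorem eps_prev (x x' : ℕ) (h : p.consec x' x) :
    Classical.epsilon (fun x' => p.consec x' x) = x' := by
  have h1 : p.consec (Classical.epsilon (fun x' => p.consec x' x)) x :=
    Classical.epsilon_spec (p := fun x' => p.consec x' x) ⟨x', h⟩
  have h2 := h.2.2.2 _ h1.1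
  have h3 := h1.2.2.2 _ h.1
  have h4 := h.2.2.1
  have h5 := h1.2.2.1
  omega

theorem pil_row (i x : ℕ) (h : p.HatOK i x) :
    x / 2 ^ (p.lam * i) * 2 ^ (p.lam * i) = x := by
  apply Nat.div_mul_cancel
  rw [p.pow_lam_mul]
  exact (pow_dvd_pow _ (Nat.le_succ _)).trans h.2.1

theorem ed_mem (u v : Vx) (hu : p.ok u) (hv : p.ok v) (h : p.Ed u v) :
    v ∈ p.nbL u ∧ u ∈ p.nbL v := by
  cases h with
  | vert f t x =>
    obtain ⟨s1, s2⟩ := p.rres_step t
    constructor
    · rcases div_step x _ _ s1 s2 with e | e | e | e <;> rw [e] <;> simp [nbL]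
    · rcases div_step x _ _ s2 s1 with e | e | e | e <;> rw [e] <;> simp [nbL]
  | horiz f t b h => constructor <;> simp [nbL]
  | base0 f a x ha h1 h2 =>
    have e := p.base_div a x ha.1 h1 h2
    have ea : a / p.L * p.L = a := Nat.div_mul_cancel ha.1
    rw [p.rres_one]
    constructor
    · have e2 : x / 2 ^ (p.lam - 1) = 2 * (a / p.L) ∨
          x / 2 ^ (p.lam - 1) = 2 * (a / p.L) + 1 := by omega
      rcases e2 with e2 | e2 <;> rw [e2] <;> simp [nbL]
    · simp [nbL, e, ea]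
  | base1 f a x ha h1 h2 =>
    have e := p.base_div a x ha.1 h1 h2
    have ea : a / p.L * p.L = a := Nat.div_mul_cancel ha.1
    rw [p.rres_P_sub_one]
    constructor
    · have e2 : x / 2 ^ (p.lam - 1) = 2 * (a / p.L) ∨
          x / 2 ^ (p.lam - 1) = 2 * (a / p.L) + 1 := by omega
      rcases e2 with e2 | e2 <;> rw [e2] <;> simp [nbL]
    · simp [nbL, e, ea]
  | ground f x x' h =>
    constructor
    · have e := p.eps_next x x' h
      simp only [nbL]
      rw [e]
      simp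
    · have e := p.eps_prev x' x h
      simp only [nbL]
      rw [e]
      simp
  | foot0 f i x =>
    constructor
    · have e := p.eps_hat i x hv.2.2.1
      simp only [nbL]
      rw [e]
      simp
    · simp [nbL]
  | foot1 f i x =>
    constructor
    · have e := p.eps_hat i x hv.2.2.1
      simp only [nbL]
      rw [e]
      simp
    · simp [nbL]
  | pil f s i x j => constructor <;> simp [nbL]
  | rail0 f i x j =>
    obtain ⟨-, hi, hh, hj⟩ := hu
    obtain ⟨h1, h2, h3, h4, h5, h6⟩ := p.rr_facts i j hi hh.1 hj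
    constructor
    · simp [nbL]
    · have e : p.rres (p.rr i j) = p.lam * i := by
        unfold rres
        rw [(p.sym _ h4).2, h2]
      have ex := p.pil_row i x hh
      simp only [nbL]
      rw [h1, h2, h3, e, ex]
      simp
  | rail1 f i x j =>
    obtain ⟨-, hi, hh, hj⟩ := hu
    obtain ⟨h1, h2, h3, h4, h5, h6⟩ := p.rr_facts i j hi hh.1 hj
    constructor
    · simp [nbL]
    · have e0 : p.P - (p.P - p.rr i j) = p.rr i j := by omega
      have e : p.rres (p.P - p.rr i j) = p.lam * i := by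
        unfold rres
        rw [e0, min_comm, (p.sym _ h4).2, h2]
      have ex := p.pil_row i x hh
      simp only [nbL]
      rw [e0, h1, h2, h3, e, ex]
      simp
  | side f => constructor <;> simp [nbL]
  | spine f => constructor <;> simp [nbL]

theorem degree_le (v : p.VT) : (p.G.neighborSet v).ncard ≤ 100 := by
  classical
  have hinj : Set.InjOn (Subtype.val : p.VT → Vx) (p.G.neighborSet v) :=
    Subtype.val_injective.injOn
  have hsub : (Subtype.val : p.VT → Vx) '' (p.G.neighborSet v) ⊆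
      ((p.nbL v.1).toFinset : Set Vx) := by
    rintro _ ⟨w, hw, rfl⟩
    have hw' : p.G.Adj v w := hw
    have hw2 := (p.adj_iff v w).1 hw'
    apply Finset.mem_coe.2
    rw [List.mem_toFinset]
    rcases hw2.2 with h | h
    · exact (p.ed_mem _ _ v.2 w.2 h).1
    · exact (p.ed_mem _ _ w.2 v.2 h).2
  calc (p.G.neighborSet v).ncard
      = ((Subtype.val : p.VT → Vx) '' (p.G.neighborSet v)).ncard := hinj.ncard_image.symm
    _ ≤ ((p.nbL v.1).toFinset : Set Vx).ncard :=
        Set.ncard_le_ncard hsub (Finset.finite_toSet _)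
    _ = (p.nbL v.1).toFinset.card := Set.ncard_coe_finset _
    _ ≤ (p.nbL v.1).length := List.toFinset_card_le _
    _ ≤ 100 := (p.nbL_length v.1).trans (by norm_num)

end Par

end Pool.Agent.MP3d
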