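import Pool.Agent.Lib.MP_3d7595_co.GraphA

set_option autoImplicit false

namespace Pool.Agent.MP3d

namespace Par
variable (p : Par)

/-! task H2 -/

/-- the row at depth `δ` on the side `s` -/
theorem side_row (s : Bool) (δ : ℕ) (h0 : 0 < δ) (hδ : δ < p.T) :
    p.rlev (if s then p.P - δ else δ) = p.lev δ ∧ p.rres (if s then p.P - δ else δ) = p.res δ ∧
      0 < (if s then p.P - δ else δ) ∧ (if s then p.P - δ else δ) < p.P := by
  obtain ⟨h1, h2, h3⟩ := p.P_sub δ h0 hδ
  obtain ⟨h4, h5⟩ := p.sym δ hδ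
  cases s with
  | false => exact ⟨h4, h5, h0, by simp only [Bool.false_eq_true, if_false]; omega⟩
  | true =>
    simp only [if_true]
    refine ⟨?_, ?_, h1, h2⟩
    · unfold rlev
      rw [h3, min_comm]
      exact h4
    · unfold rres
      rw [h3, min_comm]
      exact h5

theorem base_ok (x : ℕ) (hx : x < p.Xm) (hp : p.pres 0 x) : p.BaseOK (x / p.L * p.L) := by
  have hLpos := p.L_pos
  refine ⟨dvd_mul_left _ _, lt_of_le_of_lt (Nat.div_mul_le_self _ _) hx, ?_⟩
  rw [p.pres_congr 0 (x / p.L * p.L) x]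
  · exact hp
  · rw [zero_add, pow_one, Nat.mul_div_cancel _ hLpos]

theorem nd_ok (f : ℕ) (s : Bool) (hf : f < p.k) (δ x : ℕ) (hδ : δ < p.T) (hx : x < p.Xm)
    (hp : p.pres (p.lev δ) x) : p.ok (p.ndv f s δ x) := by
  unfold ndv
  by_cases h0 : δ = 0
  · subst h0
    rw [if_pos rfl]
    rw [p.lev_base 0 p.hlam] at hp
    have hb := p.base_ok x hx hp
    refine ⟨?_, p.hat_mem_GI 0 _ ⟨Nat.zero_le _, ?_, hb.2.1, hb.2.2⟩⟩
    · cases s with
      | false => simp only [Bool.false_eq_true, if_false]; omega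
      | true => simp only [if_true]; omega
    · rw [zero_add, pow_one]; exact hb.1
  · rw [if_neg h0]
    obtain ⟨h1, h2, h3, h4⟩ := p.side_row s δ (Nat.pos_of_ne_zero h0) hδ
    refine ⟨hf, h3, h4, ?_, ?_⟩
    · rw [h2]
      exact lt_of_le_of_lt (Nat.div_mul_le_self _ _) hx
    · rw [h1, h2, p.pres_block δ (x / 2 ^ p.res δ * 2 ^ p.res δ) x]
      · exact hp
      · rw [Nat.mul_div_cancel _ (by positivity)]

theorem nd_val (f : ℕ) (s : Bool) (hf : f < p.k) (δ x : ℕ) (hδ : δ < p.T) (hx : x < p.Xm)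
    (hp : p.pres (p.lev δ) x) : (p.nd f s δ x).1 = p.ndv f s δ x := by
  unfold nd
  rw [dif_pos (p.nd_ok f s hf δ x hδ hx hp)]

theorem ndv_pos (f : ℕ) (s : Bool) (δ x : ℕ) (h0 : 0 < δ) :
    p.ndv f s δ x = Vx.row f (if s then p.P - δ else δ) (x / 2 ^ p.res δ) := by
  unfold ndv
  rw [if_neg h0.ne']

theorem ndv_zero (f : ℕ) (s : Bool) (x : ℕ) :
    p.ndv f s 0 x = Vx.item (if s then f + 1 else f) (x / p.L * p.L) := by
  unfold ndv
  rw [if_pos rfl]

theorem div_block (x a b : ℕ) (ha : 0 < a) : x / a * a / (a * b) = x / (a * b) := by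
  rw [← Nat.div_div_eq_div_mul, ← Nat.div_div_eq_div_mul, Nat.mul_div_cancel _ ha]

theorem res_le_top (δ : ℕ) : p.res δ ≤ p.lam * (p.N + 1) := by
  have h1 := p.lev_le δ
  rcases Nat.eq_zero_or_pos (p.lev δ) with h | h
  · have h2 := p.res_le δ
    rw [h] at h2
    exact h2.trans (Nat.mul_le_mul_left _ (by omega))
  · exact (p.res_le_lev δ h).trans (Nat.mul_le_mul_left _ h1)

theorem block_dvd (δ : ℕ) : ∃ b, p.L ^ (p.N + 1) = 2 ^ p.res δ * b := by
  rw [← p.pow_lam_mul]
  exact pow_dvd_pow 2 (p.res_le_top δ)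

theorem fam_hs (f : ℕ) (s : Bool) (hf : f < p.k) : HS p p.G (p.nd f s) := by
  have hLpos := p.L_pos
  have hTP : ∀ δ, 0 < δ → δ < p.T → δ < p.P := by
    intro δ h0 h
    have := (p.P_sub δ h0 h).1
    omega
  constructor
  · -- vert
    intro δ x hδ hx hp
    have hp' : p.pres (p.lev (δ+1)) x := p.pres_mono _ _ x (p.lev_mono (Nat.le_succ δ)) hp
    have hv1 := p.nd_val f s hf δ x (by omega) hx hp
    have hv2 := p.nd_val f s hf (δ+1) x hδ hx hp'
    rw [p.adj_iff]
    rcases Nat.eq_zero_or_pos δ with h0 | h0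
    · subst h0
      rw [zero_add] at hv2 hp' hδ ⊢
      rw [p.ndv_zero] at hv1
      rw [p.ndv_pos f s 1 x Nat.one_pos] at hv2
      rw [p.lev_base 0 p.hlam] at hp
      have hb := p.base_ok x hx hp
      have hle : x / p.L * p.L ≤ x := Nat.div_mul_le_self _ _
      have hlt : x < x / p.L * p.L + p.L := by
        have := Nat.lt_div_mul_add (a := x) hLpos
        omega
      refine ⟨?_, Or.inl ?_⟩
      · intro he
        have := congrArg Subtype.val he
        rw [hv1, hv2] at this
        exact Vx.noConfusion this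
      · rw [hv1, hv2]
        obtain ⟨-, h2, -, -⟩ := p.side_row s 1 Nat.one_pos hδ
        rw [← h2]
        cases s with
        | false => exact Ed.base0 f _ x hb hle hlt
        | true => exact Ed.base1 f _ x hb hle hlt
    · rw [p.ndv_pos f s δ x h0] at hv1
      rw [p.ndv_pos f s (δ+1) x (by omega)] at hv2
      obtain ⟨-, h1, h2, h3⟩ := p.side_row s δ h0 (by omega)
      obtain ⟨-, h4, h5, h6⟩ := p.side_row s (δ+1) (by omega) hδ
      have hP := hTP (δ+1) (by omega) hδ
      refine ⟨?_, ?_⟩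
      · intro he
        have := congrArg Subtype.val he
        rw [hv1, hv2] at this
        injection this with _ h7 _
        cases s with
        | false => simp only [Bool.false_eq_true, if_false] at h7; omega
        | true => simp only [if_true] at h7; omega
      · rw [hv1, hv2, ← h1, ← h4]
        cases s with
        | false => exact Or.inl (Ed.vert f δ x)
        | true =>
          right
          simp only [if_true]
          have h7 := Ed.vert (p := p) f (p.P - (δ+1)) x
          have h8 : p.P - (δ+1) + 1 = p.P - δ := by omega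
          rw [h8] at h7
          exact h7
  · -- horiz
    intro δ x h0 hδ hx hp hh
    have hp' : p.pres (p.lev δ) (x+1) := by
      rcases hh with hh | hh
      · rw [hh]; exact p.pres_top _ _ (by omega)
      · rw [p.pres_congr _ (x+1) x]
        · exact hp
        · exact Nat.succ_div_of_not_dvd hh
    have hv1 := p.nd_val f s hf δ x hδ (by omega) hp
    have hv2 := p.nd_val f s hf δ (x+1) hδ hx hp'
    rw [p.ndv_pos f s δ _ h0] at hv1 hv2
    by_cases hblk : 2 ^ p.res δ ∣ x + 1
    · right
      have h1 : (x+1) / 2 ^ p.res δ = x / 2 ^ p.res δ + 1 := Nat.succ_div_of_dvd hblk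
      rw [h1] at hv2
      rw [p.adj_iff]
      refine ⟨?_, Or.inl ?_⟩
      · intro he
        have := congrArg Subtype.val he
        rw [hv1, hv2] at this
        injection this with _ _ h7
        omega
      · rw [hv1, hv2]
        obtain ⟨h2, h3, -, -⟩ := p.side_row s δ h0 hδ
        apply Ed.horiz
        rw [h2, h3, ← h1, Nat.div_mul_cancel hblk]
        exact hh
    · left
      apply Subtype.ext
      rw [hv1, hv2, Nat.succ_div_of_not_dvd hblk]
  · -- inj
    intro δ δ' x x' hδ hδ' hx hx' hp hp' he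
    have h1 := congrArg Subtype.val he
    rw [p.nd_val f s hf δ x hδ hx hp, p.nd_val f s hf δ' x' hδ' hx' hp'] at h1
    rcases Nat.eq_zero_or_pos δ with h0 | h0
    · rcases Nat.eq_zero_or_pos δ' with h0' | h0'
      · subst h0 h0'
        rw [p.ndv_zero, p.ndv_zero] at h1
        injection h1 with _ h2
        refine ⟨rfl, ?_⟩
        rw [p.res_base 0 (Nat.zero_le _), Nat.sub_zero]
        exact Nat.eq_of_mul_eq_mul_right hLpos h2
      · exfalso
        subst h0
        rw [p.ndv_zero, p.ndv_pos f s δ' x' h0'] at h1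
        exact Vx.noConfusion h1
    · rcases Nat.eq_zero_or_pos δ' with h0' | h0'
      · exfalso
        subst h0'
        rw [p.ndv_zero, p.ndv_pos f s δ x h0] at h1
        exact Vx.noConfusion h1
      · rw [p.ndv_pos f s δ x h0, p.ndv_pos f s δ' x' h0'] at h1
        injection h1 with _ h2 h3
        have hP := hTP δ h0 hδ
        have hP' := hTP δ' h0' hδ'
        have h4 : δ = δ' := by
          cases s with
          | false => simpa using h2
          | true => simp only [if_true] at h2; omega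
        subst h4
        exact ⟨rfl, h3⟩
  · -- same
    intro δ x x' hδ hx hx' hp hp' he
    apply Subtype.ext
    rw [p.nd_val f s hf δ x hδ hx hp, p.nd_val f s hf δ x' hδ hx' hp']
    rcases Nat.eq_zero_or_pos δ with h0 | h0
    · subst h0
      rw [p.res_base 0 (Nat.zero_le _), Nat.sub_zero] at he
      have he' : x / p.L = x' / p.L := he
      rw [p.ndv_zero, p.ndv_zero, he']
    · rw [p.ndv_pos f s δ x h0, p.ndv_pos f s δ x' h0, he]

theorem fam : Fam p p.G p.nd := by
  have hLpos := p.L_pos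
  refine ⟨p.fam_hs, ?_, ?_, ?_, ?_⟩
  · -- mirror
    intro f s x hf hs hx
    have ho : 0 < p.o (p.N+1) :=
      lt_of_le_of_lt (Nat.zero_le _) (p.o_strictMono (show 0 < p.N+1 by omega))
    have hT : p.T = p.o (p.N+1) + p.L := rfl
    have hP : p.P = 2 * p.o (p.N+1) + p.L - 1 := rfl
    rw [p.row0_zero]
    have hpr : ∀ δ, p.o (p.N+1) ≤ δ → p.pres (p.lev δ) x := by
      intro δ h
      rw [p.lev_top δ h]
      exact p.pres_top _ _ (by omega)
    apply Subtype.ext
    rw [p.nd_val f true hf _ x (by omega) hx (hpr _ (by omega)),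
      p.nd_val f false hf _ x (by omega) hx (hpr _ (by omega)),
      p.ndv_pos f true _ x (by omega), p.ndv_pos f false _ x (by omega),
      p.res_top _ (by omega), p.res_top _ (by omega)]
    simp only [if_true, Bool.false_eq_true, if_false]
    congr 1
    omega
  · -- floor
    intro f x
    have h : p.ndv f true 0 x = p.ndv (f+1) false 0 x := by
      rw [p.ndv_zero, p.ndv_zero]
      simp
    unfold nd
    by_cases hok : p.ok (p.ndv f true 0 x)
    · have hok' : p.ok (p.ndv (f+1) false 0 x) := by rw [← h]; exact hok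
      rw [dif_pos hok, dif_pos hok']
      exact Subtype.ext h
    · have hok' : ¬ p.ok (p.ndv (f+1) false 0 x) := by rw [← h]; exact hok
      rw [dif_neg hok, dif_neg hok']
  · -- col
    refine ⟨fun v => match v.1 with
      | Vx.row _ t b => b * 2 ^ p.rres t / p.L ^ (p.N+1)
      | Vx.item _ x => x / p.L ^ (p.N+1)
      | Vx.pil _ _ _ _ _ => 0
      | Vx.side _ => 0, ?_⟩
    intro f s δ x hf hδ hx hp
    have hv := p.nd_val f s hf δ x hδ hx hp
    rcases Nat.eq_zero_or_pos δ with h0 | h0
    · subst h0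
      rw [p.ndv_zero] at hv
      simp only [hv]
      rw [pow_succ']
      exact div_block x p.L _ hLpos
    · rw [p.ndv_pos f s δ x h0] at hv
      simp only [hv]
      obtain ⟨-, h2, -, -⟩ := p.side_row s δ h0 hδ
      rw [h2]
      obtain ⟨b, hb⟩ := p.block_dvd δ
      rw [hb]
      exact div_block x _ b (by positivity)
  · -- stor
    refine ⟨fun v => match v.1 with
      | Vx.row f _ _ => f
      | Vx.item _ _ => 0
      | Vx.pil _ _ _ _ _ => 0
      | Vx.side _ => 0, ?_⟩
    intro f s δ x hf h0 hδ hx hp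
    have hv := p.nd_val f s hf δ x hδ hx hp
    rw [p.ndv_pos f s δ x h0] at hv
    simp only [hv]

/-- all row vertices are vertices of a half storey -/
theorem row_is_nd (f t b : ℕ) (h : p.ok (Vx.row f t b)) :
    ∃ s δ x, 0 < δ ∧ δ < p.T ∧ x < p.Xm ∧ p.pres (p.lev δ) x ∧
      p.nd f s δ x = ⟨Vx.row f t b, h⟩ := by
  obtain ⟨hf, ht0, htP, hb, hp⟩ := h
  have hhalf := p.P_half t ht0 htP
  have key : ∀ (s : Bool) (δ : ℕ), 0 < δ → δ < p.T → (if s then p.P - δ else δ) = t →
      ∃ s δ x, 0 < δ ∧ δ < p.T ∧ x < p.Xm ∧ p.pres (p.lev δ) x ∧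
        p.nd f s δ x = ⟨Vx.row f t b, ⟨hf, ht0, htP, hb, hp⟩⟩ := by
    intro s δ h0 hδ ht
    obtain ⟨h1, h2, -, -⟩ := p.side_row s δ h0 hδ
    rw [ht] at h1 h2
    have hp' : p.pres (p.lev δ) (b * 2 ^ p.rres t) := by rw [← h1]; exact hp
    refine ⟨s, δ, b * 2 ^ p.rres t, h0, hδ, hb, hp', ?_⟩
    apply Subtype.ext
    rw [p.nd_val f s hf δ _ hδ hb hp', p.ndv_pos f s δ _ h0, ht]
    change Vx.row f t (b * 2 ^ p.rres t / 2 ^ p.res δ) = Vx.row f t b
    rw [h2, Nat.mul_div_cancel _ (by positivity)]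
  rcases le_total t (p.P - t) with hle | hle
  · rw [min_eq_left hle] at hhalf
    exact key false t ht0 hhalf (by simp)
  · rw [min_eq_right hle] at hhalf
    exact key true (p.P - t) (by omega) hhalf (by simp only [if_true]; omega)

end Par

end Pool.Agent.MP3d
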