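import Pool.Agent.Lib.MP_3d7595_co.Table

set_option autoImplicit false

namespace Pool.Agent.MP3d

/-- all potential vertices -/
inductive Vx
  | row (f t b : ℕ)
  | item (f x : ℕ)
  | pil (f : ℕ) (s : Bool) (i x j : ℕ)
  | side (f : ℕ)
  deriving DecidableEq

namespace Par
variable (p : Par)

/-- resolution of row `t` of a storey -/
def rres (t : ℕ) : ℕ := p.res (min t (p.P - t))

/-- level of row `t` of a storey -/
def rlev (t : ℕ) : ℕ := p.lev (min t (p.P - t))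

/-- positions of the ground items: `m` digits have been chosen -/
noncomputable def posF : ℕ → Finset ℕ
  | 0 => (Finset.range p.n0).image (fun v => v * p.L ^ (p.N+1))
  | (m+1) => ((posF m) ×ˢ (Finset.range (2 ^ p.nu))).image
      (fun a => a.1 + a.2 * 2 ^ (p.lam - p.nu) * p.L ^ (p.N - m))

/-- positions of the ground items -/
noncomputable def GI : Finset ℕ := p.posF p.N

/-- which potential vertices are vertices -/
def ok : Vx → Prop
  | Vx.row f t b => f < p.k ∧ 0 < t ∧ t < p.P ∧ b * 2 ^ p.rres t < p.Xm ∧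
      p.pres (p.rlev t) (b * 2 ^ p.rres t)
  | Vx.item f x => f ≤ p.k ∧ x ∈ p.GI
  | Vx.pil f _ i x j => f < p.k ∧ 1 ≤ i ∧ p.HatOK i x ∧ j < p.k
  | Vx.side f => f ≤ p.k

/-- consecutive ground positions -/
def consec (x x' : ℕ) : Prop := x ∈ p.GI ∧ x' ∈ p.GI ∧ x < x' ∧ ∀ z ∈ p.GI, z ≤ x ∨ x' ≤ z

/-- the (directed) edges -/
inductive Ed : Vx → Vx → Prop
  | vert (f t x : ℕ) : Ed (Vx.row f t (x / 2 ^ p.rres t)) (Vx.row f (t+1) (x / 2 ^ p.rres (t+1)))
  | horiz (f t b : ℕ) (h : p.rlev t = p.N + 1 ∨ ¬ p.L ^ (p.rlev t + 1) ∣ (b+1) * 2 ^ p.rres t) :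
      Ed (Vx.row f t b) (Vx.row f t (b+1))
  | base0 (f a x : ℕ) (ha : p.BaseOK a) (h1 : a ≤ x) (h2 : x < a + p.L) :
      Ed (Vx.item f a) (Vx.row f 1 (x / 2 ^ p.rres 1))
  | base1 (f a x : ℕ) (ha : p.BaseOK a) (h1 : a ≤ x) (h2 : x < a + p.L) :
      Ed (Vx.item (f+1) a) (Vx.row f (p.P-1) (x / 2 ^ p.rres (p.P-1)))
  | ground (f x x' : ℕ) (h : p.consec x x') : Ed (Vx.item f x) (Vx.item f x')
  | foot0 (f i x : ℕ) : Ed (Vx.item f x) (Vx.pil f false i x 0)
  | foot1 (f i x : ℕ) : Ed (Vx.item (f+1) x) (Vx.pil f true i x 0)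
  | pil (f : ℕ) (s : Bool) (i x j : ℕ) : Ed (Vx.pil f s i x j) (Vx.pil f s i x (j+1))
  | rail0 (f i x j : ℕ) : Ed (Vx.pil f false i x j)
      (Vx.row f (p.rr i j) (x / 2 ^ p.rres (p.rr i j)))
  | rail1 (f i x j : ℕ) : Ed (Vx.pil f true i x j)
      (Vx.row f (p.P - p.rr i j) (x / 2 ^ p.rres (p.P - p.rr i j)))
  | side (f : ℕ) : Ed (Vx.side f) (Vx.item f 0)
  | spine (f : ℕ) : Ed (Vx.side f) (Vx.side (f+1))

/-- the vertex type -/
def VT : Type := {v : Vx // p.ok v}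

/-- the graph -/
def G : SimpleGraph p.VT := SimpleGraph.fromRel (fun u v => p.Ed u.1 v.1)

/-- the root -/
def root : p.VT := ⟨Vx.side 0, Nat.zero_le _⟩

/-- the vertex of the half storey `(f,s)` at depth `δ` over column `x`, as a potential vertex -/
def ndv (f : ℕ) (s : Bool) (δ x : ℕ) : Vx :=
  if δ = 0 then Vx.item (if s then f + 1 else f) (x / p.L * p.L)
  else Vx.row f (if s then p.P - δ else δ) (x / 2 ^ p.res δ)

open Classical in
/-- the vertex of the half storey `(f,s)` at depth `δ` over column `x` -/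
noncomputable def nd (f : ℕ) (s : Bool) (δ x : ℕ) : p.VT :=
  if h : p.ok (p.ndv f s δ x) then ⟨p.ndv f s δ x, h⟩ else p.root

end Par

end Pool.Agent.MP3d
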