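import Pool.Agent.Lib.MP_3d7595_co.Defs

set_option autoImplicit false

namespace Pool.Agent.MP3d

/-- moving along a path outside `X` -/
private theorem path_move {V : Type} {G : SimpleGraph V} {X A : Set V} (hA : Cl G X A) (f : ℕ → V)
    (n : ℕ) (hadj : ∀ i, i + 1 < n → G.Adj (f i) (f (i+1))) (hX : ∀ i < n, f i ∉ X) {i j : ℕ}
    (hi : i < n) (hj : j < n) (h : f i ∈ A) : f j ∈ A := by
  have key : ∀ i, i < n → (f i ∈ A ↔ f 0 ∈ A) := by
    intro i
    induction i with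
    | zero => intro _; exact Iff.rfl
    | succ i ih =>
      intro hi
      rw [← ih (by omega)]
      constructor
      · intro h
        exact hA.closed _ h _ (hadj i hi).symm (hX i (by omega))
      · intro h
        exact hA.closed _ h _ (hadj i hi) (hX (i+1) hi)
  rw [key j hj, ← key i hi]
  exact h

section
variable {V : Type} [Finite V] {G : SimpleGraph V} {nd : ℕ → ℕ → V} {L δ x w : ℕ} {X A : Set V}

private theorem ncard_split (L : ℕ) (P : ℕ → Prop) :
    {s | s < L ∧ P s}.ncard + {s | s < L ∧ ¬ P s}.ncard = L := by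
  classical
  have h1 : {s | s < L ∧ P s} = ((Finset.range L).filter P : Set ℕ) := by
    ext s; simp
  have h2 : {s | s < L ∧ ¬ P s} = ((Finset.range L).filter (fun s => ¬ P s) : Set ℕ) := by
    ext s; simp
  rw [h1, h2, Set.ncard_coe_finset, Set.ncard_coe_finset,
    Finset.card_filter_add_card_filter_not, Finset.card_range]

private theorem finite_lt (L : ℕ) (P : ℕ → Prop) : {s | s < L ∧ P s}.Finite :=
  (Set.finite_lt_nat L).subset (fun _ h => h.1)

/-- few rows are hit by `X` -/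
theorem free_rows (hg : GridAt G nd L δ x w) (hgood : Good nd L X δ x w) (hw : 0 < w) :
    3 * L < 4 * {s | s < L ∧ rowIn nd Xᶜ (δ+s) x w}.ncard := by
  classical
  have hsplit := ncard_split L (fun s => rowIn nd Xᶜ (δ+s) x w)
  have hbad : ∀ s, ¬ rowIn nd Xᶜ (δ+s) x w → ∃ y, y < w ∧ nd (δ+s) (x+y) ∈ X := by
    intro s hs
    by_contra h
    apply hs
    intro y hy
    rw [Set.mem_compl_iff]
    intro hX
    exact h ⟨y, hy, hX⟩
  let g : ℕ → ℕ := fun s => if h : ∃ y, y < w ∧ nd (δ+s) (x+y) ∈ X then h.choose else 0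
  have hg1 : ∀ s, ¬ rowIn nd Xᶜ (δ+s) x w → g s < w ∧ nd (δ+s) (x+g s) ∈ X := by
    intro s hs
    have h := hbad s hs
    simp only [g, dif_pos h]
    exact h.choose_spec
  have h1 : {s | s < L ∧ ¬ rowIn nd Xᶜ (δ+s) x w}.ncard ≤ (X ∩ cellSet nd L δ x w).ncard := by
    apply Set.ncard_le_ncard_of_injOn (fun s => nd (δ+s) (x+g s))
    · intro s hs
      obtain ⟨h2, h3⟩ := hg1 s hs.2
      exact ⟨h3, s, g s, hs.1, h2, rfl⟩
    · intro s hs s' hs' heq
      exact (hg.inj s (g s) s' (g s') hs.1 (hg1 s hs.2).1 hs'.1 (hg1 s' hs'.2).1 heq).1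
  unfold Good at hgood
  omega

/-- few columns are hit by `X` -/
theorem bad_cols (hg : GridAt G nd L δ x w) :
    {z | z < w ∧ ∃ s, s < L ∧ nd (δ+s) (x+z) ∈ X}.ncard ≤ (X ∩ cellSet nd L δ x w).ncard := by
  classical
  let g : ℕ → ℕ := fun z => if h : ∃ s, s < L ∧ nd (δ+s) (x+z) ∈ X then h.choose else 0
  have hg1 : ∀ z, (∃ s, s < L ∧ nd (δ+s) (x+z) ∈ X) → g z < L ∧ nd (δ+g z) (x+z) ∈ X := by
    intro z h
    simp only [g, dif_pos h]
    exact h.choose_spec
  apply Set.ncard_le_ncard_of_injOn (fun z => nd (δ+g z) (x+z))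
  · intro z hz
    obtain ⟨h2, h3⟩ := hg1 z hz.2
    exact ⟨h3, g z, z, h2, hz.1, rfl⟩
  · intro z hz z' hz' heq
    exact (hg.inj (g z) z (g z') z' (hg1 z hz.2).1 hz.1 (hg1 z' hz'.2).1 hz'.1 heq).2

theorem exists_free_col (hg : GridAt G nd L δ x w) (hgood : Good nd L X δ x w) (hw : L ≤ w) :
    ∃ z < w, ∀ s < L, nd (δ+s) (x+z) ∉ X := by
  have h1 := bad_cols (X := X) hg
  have hsplit := ncard_split w (fun z => ∃ s, s < L ∧ nd (δ+s) (x+z) ∈ X)
  unfold Good at hgood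
  have h2 : 0 < {z | z < w ∧ ¬ ∃ s, s < L ∧ nd (δ+s) (x+z) ∈ X}.ncard := by
    by_contra h
    have h3 : 4 * {z | z < w ∧ ∃ s, s < L ∧ nd (δ+s) (x+z) ∈ X}.ncard < L :=
      lt_of_le_of_lt (Nat.mul_le_mul_left 4 h1) hgood
    omega
  obtain ⟨z, hz, hz'⟩ := (Set.ncard_pos (finite_lt w _)).mp h2
  refine ⟨z, hz, fun s hs hX => hz' ⟨s, hs, hX⟩⟩

private theorem row_move (hg : GridAt G nd L δ x w) (hA : Cl G X A) {s : ℕ} (hs : s < L)
    (hrow : rowIn nd Xᶜ (δ+s) x w) {z z' : ℕ} (hz : z < w) (hz' : z' < w)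
    (h : nd (δ+s) (x+z) ∈ A) : nd (δ+s) (x+z') ∈ A :=
  path_move hA (fun z => nd (δ+s) (x+z)) w (fun i hi => hg.horiz s i hs hi)
    (fun i hi => hrow i hi) hz hz' h

private theorem col_move (hg : GridAt G nd L δ x w) (hA : Cl G X A) {z : ℕ} (hz : z < w)
    (hcol : ∀ s < L, nd (δ+s) (x+z) ∉ X) {s s' : ℕ} (hs : s < L) (hs' : s' < L)
    (h : nd (δ+s) (x+z) ∈ A) : nd (δ+s') (x+z) ∈ A :=
  path_move hA (fun s => nd (δ+s) (x+z)) L (fun i hi => hg.vert i z hi hz) hcol hs hs' h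

/-- if every free row is inside `A` then `A` owns the cell -/
private theorem own_of_rows (hg : GridAt G nd L δ x w) (hgood : Good nd L X δ x w) (hw : 0 < w)
    (h : ∀ s < L, rowIn nd Xᶜ (δ+s) x w → rowIn nd A (δ+s) x w) : Own nd L A δ x w := by
  have h1 := free_rows hg hgood hw
  have h2 : {s | s < L ∧ rowIn nd Xᶜ (δ+s) x w}.ncard ≤ {s | s < L ∧ rowIn nd A (δ+s) x w}.ncard :=
    Set.ncard_le_ncard (fun s hs => ⟨hs.1, h s hs.1 hs.2⟩) (finite_lt L _)
  unfold Own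
  omega

private theorem exists_row_of_own (h : Own nd L A δ x w) : ∃ s < L, rowIn nd A (δ+s) x w := by
  unfold Own at h
  have h1 : 0 < {s | s < L ∧ rowIn nd A (δ+s) x w}.ncard := by omega
  obtain ⟨s, hs, hs'⟩ := (Set.ncard_pos (finite_lt L _)).mp h1
  exact ⟨s, hs, hs'⟩

theorem own_iff_col (hg : GridAt G nd L δ x w) (hgood : Good nd L X δ x w) (hw : L ≤ w)
    (hA : Cl G X A) {z : ℕ} (hz : z < w) (hcol : ∀ s < L, nd (δ+s) (x+z) ∉ X) {s : ℕ} (hs : s < L) :
    Own nd L A δ x w ↔ nd (δ+s) (x+z) ∈ A := by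
  constructor
  · intro h
    obtain ⟨s', hs', hrow⟩ := exists_row_of_own h
    exact col_move hg hA hz hcol hs' hs (hrow z hz)
  · intro h
    apply own_of_rows hg hgood (by omega)
    intro s' hs' hrow z' hz'
    exact row_move hg hA hs' hrow hz hz' (col_move hg hA hz hcol hs hs' h)

theorem own_iff_row (hg : GridAt G nd L δ x w) (hgood : Good nd L X δ x w) (hw : L ≤ w)
    (hA : Cl G X A) {s : ℕ} (hs : s < L) (hrow : rowIn nd Xᶜ (δ+s) x w) {z : ℕ} (hz : z < w) :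
    Own nd L A δ x w ↔ nd (δ+s) (x+z) ∈ A := by
  obtain ⟨z0, hz0, hcol⟩ := exists_free_col hg hgood hw
  rw [own_iff_col hg hgood hw hA hz0 hcol hs]
  exact ⟨fun h => row_move hg hA hs hrow hz0 hz h, fun h => row_move hg hA hs hrow hz hz0 h⟩

theorem lateral (hg : GridAt G nd L δ x w) (hg' : GridAt G nd L δ (x+w) w)
    (hadj : ∀ s < L, G.Adj (nd (δ+s) (x+w-1)) (nd (δ+s) (x+w)))
    (hgood : Good nd L X δ x w) (hgood' : Good nd L X δ (x+w) w) (hL : 0 < L) (hw : L ≤ w)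
    (hA : Cl G X A) :
    Own nd L A δ x w ↔ Own nd L A δ (x+w) w := by
  have h1 := free_rows hg hgood (by omega)
  have h2 := free_rows hg' hgood' (by omega)
  -- a common free row
  have hU : {s | s < L ∧ rowIn nd Xᶜ (δ+s) x w}.ncard ≤ L := by
    have := ncard_split L (fun s => rowIn nd Xᶜ (δ+s) x w)
    omega
  have h3 : 0 < ({s | s < L ∧ rowIn nd Xᶜ (δ+s) x w} ∩
      {s | s < L ∧ rowIn nd Xᶜ (δ+s) (x+w) w}).ncard := by
    have h4 := Set.ncard_union_add_ncard_inter {s | s < L ∧ rowIn nd Xᶜ (δ+s) x w}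
      {s | s < L ∧ rowIn nd Xᶜ (δ+s) (x+w) w} (finite_lt L _) (finite_lt L _)
    have h5 : ({s | s < L ∧ rowIn nd Xᶜ (δ+s) x w} ∪
        {s | s < L ∧ rowIn nd Xᶜ (δ+s) (x+w) w}).ncard ≤ L := by
      have h6 : ({s | s < L ∧ rowIn nd Xᶜ (δ+s) x w} ∪
        {s | s < L ∧ rowIn nd Xᶜ (δ+s) (x+w) w}) ⊆ (Finset.range L : Set ℕ) := by
        intro s hs
        rcases hs with hs | hs <;> simpa using hs.1
      have h7 := Set.ncard_le_ncard h6 (Finset.finite_toSet _)
      rwa [Set.ncard_coe_finset, Finset.card_range] at h7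
    omega
  obtain ⟨s, ⟨hs, hr⟩, ⟨_, hr'⟩⟩ := (Set.ncard_pos ((finite_lt L _).inter_of_left _)).mp h3
  rw [own_iff_row hg hgood hw hA hs hr (z := w - 1) (by omega),
    own_iff_row hg' hgood' hw hA hs hr' (z := 0) (by omega)]
  have hadj' := hadj s hs
  have e : x + w - 1 = x + (w - 1) := by omega
  rw [e] at hadj'
  rw [add_zero]
  constructor
  · intro h
    refine hA.closed _ h _ hadj' ?_
    have := hr' 0 (by omega)
    rwa [add_zero] at this
  · intro h
    exact hA.closed _ h _ hadj'.symm (hr (w - 1) (by omega))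

theorem exists_comp {Z : Set V} (hg : GridAt G nd L δ x w) (hgood : Good nd L Z δ x w)
    (hL : 0 < L) (hw : L ≤ w) : ∃ C, IsComp G Z C ∧ Own nd L C δ x w := by
  have hw0 : 0 < w := by omega
  have h1 := free_rows hg hgood hw0
  have h2 : 0 < {s | s < L ∧ rowIn nd Zᶜ (δ+s) x w}.ncard := by omega
  obtain ⟨s, hs, hrow⟩ := (Set.ncard_pos (finite_lt L _)).mp h2
  have hv0 : nd (δ+s) (x+0) ∈ Zᶜ := hrow 0 hw0
  set v0 : (Zᶜ : Set V) := ⟨nd (δ+s) (x+0), hv0⟩ with hv0def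
  set c : (G.induce Zᶜ).ConnectedComponent := (G.induce Zᶜ).connectedComponentMk v0 with hc
  have hcomp : IsComp G Z (Subtype.val '' c.supp) := by
    refine ⟨?_, ?_, ?_⟩
    · have hconn : ((G.induce Zᶜ).induce c.supp).Connected := c.connected_toSimpleGraph
      let φ : (G.induce Zᶜ).induce c.supp →g G.induce (Subtype.val '' c.supp) :=
        { toFun := fun v => ⟨v.1.1, v.1, v.2, rfl⟩
          map_rel' := fun {a b} h => h }
      have : Nonempty (Subtype.val '' c.supp : Set V) := ⟨⟨v0.1, v0, rfl, rfl⟩⟩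
      refine SimpleGraph.Connected.mk ?_
      rintro ⟨_, u, hu, rfl⟩ ⟨_, v, hv, rfl⟩
      exact (hconn.preconnected ⟨u, hu⟩ ⟨v, hv⟩).map φ
    · rw [Set.disjoint_left]
      rintro _ ⟨v, _, rfl⟩ hZ
      exact v.2 hZ
    · rintro _ ⟨v, hv, rfl⟩ b hadj hb
      refine ⟨⟨b, hb⟩, ?_, rfl⟩
      rw [SimpleGraph.ConnectedComponent.mem_supp_iff] at hv ⊢
      rw [← hv]
      exact SimpleGraph.ConnectedComponent.sound (SimpleGraph.Adj.reachable (G := G.induce Zᶜ)
        (show (G.induce Zᶜ).Adj ⟨b, hb⟩ v from hadj.symm))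
  refine ⟨Subtype.val '' c.supp, hcomp, ?_⟩
  rw [own_iff_row hg hgood hw ⟨hcomp.disj, hcomp.closed⟩ hs hrow hw0]
  exact ⟨v0, rfl, rfl⟩

theorem comp_sub {Z C : Set V} (hg : GridAt G nd L δ x w) (hXZ : X ⊆ Z)
    (hL : 0 < L) (hw : 0 < w) (hA : Cl G X A) (hC : IsComp G Z C)
    (hoA : Own nd L A δ x w) (hoC : Own nd L C δ x w) : C ⊆ A := by
  -- a common row
  have h3 : 0 < ({s | s < L ∧ rowIn nd A (δ+s) x w} ∩ {s | s < L ∧ rowIn nd C (δ+s) x w}).ncard := by
    have h4 := Set.ncard_union_add_ncard_inter {s | s < L ∧ rowIn nd A (δ+s) x w}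
      {s | s < L ∧ rowIn nd C (δ+s) x w} (finite_lt L _) (finite_lt L _)
    have h5 : ({s | s < L ∧ rowIn nd A (δ+s) x w} ∪
        {s | s < L ∧ rowIn nd C (δ+s) x w}).ncard ≤ L := by
      have h6 : ({s | s < L ∧ rowIn nd A (δ+s) x w} ∪
        {s | s < L ∧ rowIn nd C (δ+s) x w}) ⊆ (Finset.range L : Set ℕ) := by
        intro s hs
        rcases hs with hs | hs <;> simpa using hs.1
      have h7 := Set.ncard_le_ncard h6 (Finset.finite_toSet _)
      rwa [Set.ncard_coe_finset, Finset.card_range] at h7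
    unfold Own at hoA hoC
    omega
  obtain ⟨s, ⟨_, hr⟩, ⟨_, hr'⟩⟩ := (Set.ncard_pos ((finite_lt L _).inter_of_left _)).mp h3
  have hvA := hr 0 hw
  have hvC := hr' 0 hw
  intro u hu
  have hreach := hC.conn.preconnected ⟨_, hvC⟩ ⟨u, hu⟩
  obtain ⟨p⟩ := hreach
  have key : ∀ (a b : C) (_ : (G.induce C).Walk a b), (a : V) ∈ A → (b : V) ∈ A := by
    intro a b q
    induction q with
    | nil => exact id
    | @cons a b c hab _ ih =>
      intro ha
      apply ih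
      have hab' : G.Adj (a : V) (b : V) := hab
      exact hA.closed _ ha _ hab' (fun hX => Set.disjoint_left.mp hC.disj b.2 (hXZ hX))
  exact key _ _ p hvA

/-- reversing the order of the rows does not change anything -/
theorem own_reverse {nd' : ℕ → ℕ → V} {δ' : ℕ}
    (h : ∀ s < L, ∀ z < w, nd' (δ'+s) (x+z) = nd (δ+(L-1-s)) (x+z)) :
    Own nd' L A δ' x w ↔ Own nd L A δ x w := by
  have h1 : {s | s < L ∧ rowIn nd' A (δ'+s) x w}.ncard =
      {s | s < L ∧ rowIn nd A (δ+s) x w}.ncard := by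
    apply Set.ncard_congr (fun s _ => L - 1 - s)
    · rintro s ⟨hs, hr⟩
      refine ⟨by omega, fun y hy => ?_⟩
      rw [← h s hs y hy]
      exact hr y hy
    · rintro s s' ⟨hs, _⟩ ⟨hs', _⟩ heq
      omega
    · rintro s ⟨hs, hr⟩
      refine ⟨L - 1 - s, ⟨by omega, fun y hy => ?_⟩, by omega⟩
      rw [h (L - 1 - s) (by omega) y hy, show L - 1 - (L - 1 - s) = s by omega]
      exact hr y hy
  unfold Own
  rw [h1]

theorem cellSet_reverse {nd' : ℕ → ℕ → V} {δ' : ℕ}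
    (h : ∀ s < L, ∀ z < w, nd' (δ'+s) (x+z) = nd (δ+(L-1-s)) (x+z)) :
    cellSet nd' L δ' x w = cellSet nd L δ x w := by
  ext v
  constructor
  · rintro ⟨s, y, hs, hy, rfl⟩
    exact ⟨L - 1 - s, y, by omega, hy, h s hs y hy⟩
  · rintro ⟨s, y, hs, hy, rfl⟩
    refine ⟨L - 1 - s, y, by omega, hy, ?_⟩
    rw [h (L - 1 - s) (by omega) y hy, show L - 1 - (L - 1 - s) = s by omega]

end

/-- counting with pairwise disjoint sets -/
theorem count_disjoint {V : Type} [Finite V] {ι : Type} (I : Finset ι) (B : ι → Set V) (Z : Set V)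
    (m M : ℕ) (hZ : Z.ncard ≤ M) (hd : ∀ i ∈ I, ∀ j ∈ I, i ≠ j → Disjoint (B i) (B j))
    (hB : ∀ i ∈ I, m ≤ (Z ∩ B i).ncard) : I.card * m ≤ M := by
  classical
  have : Fintype V := Fintype.ofFinite V
  have h1 : ∑ i ∈ I, (Z ∩ B i).toFinset.card ≤ Z.toFinset.card := by
    rw [← Finset.card_biUnion]
    · apply Finset.card_le_card
      intro v hv
      rw [Finset.mem_biUnion] at hv
      obtain ⟨i, _, hv⟩ := hv
      rw [Set.mem_toFinset] at hv ⊢
      exact hv.1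
    · intro i hi j hj hij
      refine Finset.disjoint_left.mpr ?_
      intro v hv hv'
      rw [Set.mem_toFinset] at hv hv'
      exact Set.disjoint_left.mp (hd i hi j hj hij) hv.2 hv'.2
  have h2 : I.card * m ≤ ∑ i ∈ I, (Z ∩ B i).toFinset.card := by
    rw [← smul_eq_mul]
    apply Finset.card_nsmul_le_sum
    intro i hi
    rw [← Set.ncard_eq_toFinset_card']
    exact hB i hi
  rw [← Set.ncard_eq_toFinset_card'] at h1
  omega

theorem IsComp.cl {V : Type} {G : SimpleGraph V} {X A : Set V} (h : IsComp G X A) : Cl G X A :=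
  ⟨h.disj, h.closed⟩

end Pool.Agent.MP3d
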