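import Pool.Agent.Lib.MP_3d7595_co.Defs

set_option autoImplicit false

namespace Pool.Agent.MP3d

section
variable {V : Type} [Finite V] {G : SimpleGraph V} {hn : ℕ → ℕ → V} {R E : ℕ} {X A : Set V}

omit [Finite V] in
theorem hub_zero (hh : Hub G hn E) {z : ℕ} (hz : z < 2 ^ E) : hn 0 z = hn 0 0 := by
  refine hh.same 0 z 0 (Nat.zero_le _) hz (by positivity) ?_
  simp [Nat.div_eq_of_lt hz]

theorem near_ncard (hh : Hub G hn E) (hRE : R ≤ E) : (near hn R E).ncard < 2 ^ (R+1) := by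
  classical
  set S : Finset V := (Finset.range (R+1)).biUnion fun t =>
    (Finset.range (2 ^ t)).image fun b => hn t (2 ^ (E-t) * b) with hS
  have hsub : near hn R E ⊆ (S : Set V) := by
    rintro v ⟨t, z, ht, hz, rfl⟩
    have htE : t ≤ E := ht.trans hRE
    have hpow : 2 ^ E = 2 ^ (E-t) * 2 ^ t := by rw [← pow_add, Nat.sub_add_cancel htE]
    have hb : z / 2 ^ (E-t) < 2 ^ t := by
      rw [Nat.div_lt_iff_lt_mul (by positivity), mul_comm, ← hpow]; exact hz
    simp only [hS, Finset.coe_biUnion, Set.mem_iUnion, Finset.coe_range, Set.mem_Iio,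
      Finset.coe_image, Set.mem_image, exists_prop]
    refine ⟨t, by omega, z / 2 ^ (E-t), hb, ?_⟩
    refine hh.same t _ z htE ?_ hz ?_
    · exact lt_of_le_of_lt (Nat.mul_div_le z _) hz
    · rw [Nat.mul_div_cancel_left _ (by positivity)]
  have hcard : S.card ≤ ∑ t ∈ Finset.range (R+1), 2 ^ t := by
    refine Finset.card_biUnion_le.trans (Finset.sum_le_sum fun t _ => ?_)
    exact Finset.card_image_le.trans (by simp)
  have hsum : ∑ t ∈ Finset.range (R+1), 2 ^ t = 2 ^ (R+1) - 1 := by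
    have := Nat.geomSum_eq (m := 2) le_rfl (R+1)
    simpa using this
  have h1 : (near hn R E).ncard ≤ S.card := by
    rw [← Set.ncard_coe_finset]
    exact Set.ncard_le_ncard hsub (Finset.finite_toSet S)
  have h2 : 0 < 2 ^ (R+1) := by positivity
  omega

omit [Finite V] in
theorem hub_lip (hh : Hub G hn E) {y : V → ℕ} (hy : Lip G y) {z : ℕ} (hz : z < 2 ^ E) :
    ∀ t, t ≤ E → y (hn 0 0) ≤ y (hn t z) + t ∧ y (hn t z) ≤ y (hn 0 0) + t := by
  intro t
  induction t with
  | zero => intro _; rw [hub_zero hh hz]; simp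
  | succ t ih =>
    intro ht
    have h1 := ih (by omega)
    have h2 := hy _ _ (hh.vert t z (by omega) hz)
    omega

theorem hub_count (hh : Hub G hn E) {y : V → ℕ} (hy : Lip G y) {c : ℕ}
    (hX : Thin y c X) {t : ℕ} (ht : t ≤ E) :
    {z | z < 2 ^ E ∧ hn t z ∈ X}.ncard ≤ c * (2 * t + 1) * 2 ^ (E-t) := by
  classical
  set s : Finset ℕ := (Finset.range (2 ^ E)).filter (fun z => hn t z ∈ X) with hs
  have e : {z | z < 2 ^ E ∧ hn t z ∈ X} = (s : Set ℕ) := by ext z; simp [hs]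
  rw [e, Set.ncard_coe_finset]
  have h1 : (s.image (hn t)).card ≤ c * (2 * t + 1) := by
    refine le_trans ?_ (hX (y (hn 0 0)) t)
    rw [← Set.ncard_coe_finset]
    refine Set.ncard_le_ncard ?_ (Set.toFinite _)
    intro v hv
    simp only [Finset.coe_image, Set.mem_image, hs, Finset.coe_filter, Finset.mem_range,
      Set.mem_ofPred_eq] at hv
    obtain ⟨z, ⟨hz, hzX⟩, rfl⟩ := hv
    exact ⟨hzX, hub_lip hh hy hz t ht⟩
  have h2 := Finset.card_le_mul_card_image (f := hn t) s (2 ^ (E-t)) (by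
    intro a ha
    simp only [Finset.mem_image] at ha
    obtain ⟨z0, hz0, rfl⟩ := ha
    have hz0' : z0 < 2 ^ E := by
      have := (Finset.mem_filter.mp hz0).1; simpa using this
    have hsub : (s.filter fun x => hn t x = hn t z0) ⊆
        Finset.Ico (z0 / 2 ^ (E-t) * 2 ^ (E-t)) ((z0 / 2 ^ (E-t) + 1) * 2 ^ (E-t)) := by
      intro z hz
      have hz1 := (Finset.mem_filter.mp hz).1
      have hz2 := (Finset.mem_filter.mp hz).2
      have hz' : z < 2 ^ E := by
        have := (Finset.mem_filter.mp hz1).1; simpa using this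
      have h3 := hh.inj t z z0 ht hz' hz0' hz2
      rw [Finset.mem_Ico, ← h3]
      refine ⟨Nat.div_mul_le_self _ _, ?_⟩
      rw [mul_comm]
      exact Nat.lt_mul_div_succ z (by positivity)
    refine (Finset.card_le_card hsub).trans ?_
    rw [Nat.card_Ico, add_mul, one_mul, Nat.add_sub_cancel_left])
  calc s.card ≤ 2 ^ (E-t) * (s.image (hn t)).card := h2
    _ ≤ 2 ^ (E-t) * (c * (2 * t + 1)) := Nat.mul_le_mul_left _ h1
    _ = _ := by ring

theorem sum_bound (R : ℕ) : ∀ E, R ≤ E →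
    ∑ t ∈ Finset.Ioc R E, (2 * t + 1) * 2 ^ (E-t) + (2 * E + 5) ≤ (2 * R + 5) * 2 ^ (E-R) := by
  intro E hE
  induction E, hE using Nat.le_induction with
  | base => simp
  | succ E hE ih =>
    have h1 : Finset.Ioc R (E+1) = insert (E+1) (Finset.Ioc R E) := by
      ext x; simp only [Finset.mem_Ioc, Finset.mem_insert]; omega
    rw [h1, Finset.sum_insert (by simp)]
    have h2 : ∑ t ∈ Finset.Ioc R E, (2 * t + 1) * 2 ^ (E+1-t) =
        2 * ∑ t ∈ Finset.Ioc R E, (2 * t + 1) * 2 ^ (E-t) := by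
      rw [Finset.mul_sum]
      refine Finset.sum_congr rfl fun t ht => ?_
      have : E + 1 - t = (E - t) + 1 := by
        have := (Finset.mem_Ioc.mp ht).2; omega
      rw [this, pow_succ]; ring
    have h3 : E + 1 - R = (E - R) + 1 := by omega
    rw [h2, h3, pow_succ]
    simp only [Nat.sub_self, pow_zero, mul_one]
    nlinarith [ih]

/-- a column of the expansion which is free of `X` from depth `R+1` on and avoids a given bad set -/
theorem hub_free (hh : Hub G hn E) (hRE : R ≤ E) {y : V → ℕ} (hy : Lip G y) {c : ℕ}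
    (hX : Thin y c X) (hR : 2 * c * (2 * R + 5) ≤ 2 ^ R) (Bad : Set ℕ) (hfin : Bad.Finite)
    (hBad : 4 * Bad.ncard < 2 ^ E) :
    ∃ z < 2 ^ E, z ∉ Bad ∧ ∀ t, R < t → t ≤ E → hn t z ∉ X := by
  classical
  by_contra hcon
  push Not at hcon
  have hsub : (Set.Iio (2 ^ E) : Set ℕ) ⊆
      Bad ∪ ⋃ t ∈ Finset.Ioc R E, {z | z < 2 ^ E ∧ hn t z ∈ X} := by
    intro z hz
    by_cases hb : z ∈ Bad
    · exact Or.inl hb
    · obtain ⟨t, h1, h2, h3⟩ := hcon z hz hb
      refine Or.inr ?_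
      simp only [Set.mem_iUnion, exists_prop]
      exact ⟨t, Finset.mem_Ioc.mpr ⟨h1, h2⟩, hz, h3⟩
  have hfin2 : (⋃ t ∈ Finset.Ioc R E, {z | z < 2 ^ E ∧ hn t z ∈ X}).Finite := by
    refine Set.Finite.biUnion (Finset.finite_toSet _) fun t _ => ?_
    exact (Set.finite_Iio (2 ^ E)).subset fun z hz => hz.1
  have h1 : 2 ^ E ≤ Bad.ncard + (⋃ t ∈ Finset.Ioc R E, {z | z < 2 ^ E ∧ hn t z ∈ X}).ncard := by
    have := Set.ncard_le_ncard hsub (hfin.union hfin2)
    have h0 : (Set.Iio (2 ^ E) : Set ℕ).ncard = 2 ^ E := by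
      rw [show (Set.Iio (2 ^ E) : Set ℕ) = ((Finset.range (2 ^ E) : Finset ℕ) : Set ℕ) by
        ext; simp, Set.ncard_coe_finset, Finset.card_range]
    rw [h0] at this
    exact this.trans (Set.ncard_union_le _ _)
  have h2 : (⋃ t ∈ Finset.Ioc R E, {z | z < 2 ^ E ∧ hn t z ∈ X}).ncard ≤
      ∑ t ∈ Finset.Ioc R E, c * (2 * t + 1) * 2 ^ (E-t) := by
    have hgen : ∀ s : Finset ℕ, (∀ t ∈ s, t ≤ E) →
        (⋃ t ∈ s, {z | z < 2 ^ E ∧ hn t z ∈ X}).ncard ≤
          ∑ t ∈ s, c * (2 * t + 1) * 2 ^ (E-t) := by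
      intro s
      induction s using Finset.induction_on with
      | empty => intro _; simp
      | @insert a s ha ih =>
        intro hs
        rw [Finset.set_biUnion_insert, Finset.sum_insert ha]
        refine (Set.ncard_union_le _ _).trans (Nat.add_le_add ?_ (ih fun t ht => hs t
          (Finset.mem_insert_of_mem ht)))
        exact hub_count hh hy hX (hs a (Finset.mem_insert_self _ _))
    exact hgen _ fun t ht => (Finset.mem_Ioc.mp ht).2
  have h3 : ∑ t ∈ Finset.Ioc R E, c * (2 * t + 1) * 2 ^ (E-t) =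
      c * ∑ t ∈ Finset.Ioc R E, (2 * t + 1) * 2 ^ (E-t) := by
    rw [Finset.mul_sum]; exact Finset.sum_congr rfl fun t _ => by ring
  have h4 := sum_bound R E hRE
  have h5 : 2 * (c * ((2 * R + 5) * 2 ^ (E-R))) ≤ 2 ^ E := by
    have : 2 ^ E = 2 ^ R * 2 ^ (E-R) := by rw [← pow_add]; congr 1; omega
    rw [this]
    calc 2 * (c * ((2 * R + 5) * 2 ^ (E-R))) = (2 * c * (2 * R + 5)) * 2 ^ (E-R) := by ring
      _ ≤ _ := Nat.mul_le_mul_right _ hR
  have h6 : c * ∑ t ∈ Finset.Ioc R E, (2 * t + 1) * 2 ^ (E-t) ≤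
      c * ((2 * R + 5) * 2 ^ (E-R)) := Nat.mul_le_mul_left _ (by omega)
  have h7 : 0 < 2 ^ E := by positivity
  rw [h3] at h2
  omega

theorem near_sub (hh : Hub G hn E) (hRE : R ≤ E) (hA : Cl G X A) (h0 : hn 0 0 ∈ A)
    (hd : Disjoint (near hn R E) X) : near hn R E ⊆ A := by
  have key : ∀ t, t ≤ R → ∀ z, z < 2 ^ E → hn t z ∈ A := by
    intro t
    induction t with
    | zero => intro _ z hz; rw [hub_zero hh hz]; exact h0
    | succ t ih =>
      intro ht z hz
      exact hA.closed _ (ih (by omega) z hz) _ (hh.vert t z (by omega) hz)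
        (Set.disjoint_left.mp hd ⟨t+1, z, ht, hz, rfl⟩)
  rintro v ⟨t, z, ht, hz, rfl⟩
  exact key t ht z hz

/-- if the near set is free of `X`, then along a column which is free from depth `R+1` on the
hub is in `A` iff the vertex at depth `E` is -/
theorem hub_col (hh : Hub G hn E) (hRE : R ≤ E) (hA : Cl G X A)
    (hd : Disjoint (near hn R E) X) {z : ℕ} (hz : z < 2 ^ E)
    (hfree : ∀ t, R < t → t ≤ E → hn t z ∉ X) : hn 0 0 ∈ A ↔ hn E z ∈ A := by
  have hX : ∀ t, t ≤ E → hn t z ∉ X := by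
    intro t ht
    rcases le_or_gt t R with h | h
    · exact Set.disjoint_left.mp hd ⟨t, z, h, hz, rfl⟩
    · exact hfree t h ht
  have key : ∀ t, t ≤ E → (hn 0 z ∈ A ↔ hn t z ∈ A) := by
    intro t
    induction t with
    | zero => intro _; rfl
    | succ t ih =>
      intro ht
      rw [ih (by omega)]
      have hadj := hh.vert t z (by omega) hz
      exact ⟨fun h => hA.closed _ h _ hadj (hX _ ht),
        fun h => hA.closed _ h _ hadj.symm (hX _ (by omega))⟩
  rw [← hub_zero hh hz]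
  exact key E le_rfl

end

end Pool.Agent.MP3d
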