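import Pool.Agent.Lib.MP_3d7595_co.HatA
import Pool.Agent.Lib.MP_3d7595_co.Grid
import Pool.Agent.Lib.MP_3d7595_co.HubL

set_option autoImplicit false

namespace Pool.Agent.MP3d

section arith
variable {p : Par}

theorem le_lam_mul {R i : ℕ} (hRl : R < p.lam) (hi : 1 ≤ i) : R ≤ p.lam * i :=
  le_trans hRl.le (Nat.le_mul_of_pos_right _ hi)

/-- `L^(i+1)` divides the number of columns -/
theorem dvd_XmB {i : ℕ} (hi : i ≤ p.N) : p.L ^ (i+1) ∣ p.Xm :=
  dvd_mul_of_dvd_right (pow_dvd_pow _ (by omega)) _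

/-- the columns of a hat -/
theorem hat_col {i h x : ℕ} (hh : p.HatOK i h) (h1 : h ≤ x) (h2 : x < h + p.L ^ (i+1)) :
    x < p.Xm ∧ p.pres i x := by
  obtain ⟨hiN, hd, hX, hp⟩ := hh
  constructor
  · have h3 : h + p.L ^ (i+1) ≤ p.Xm := by
      obtain ⟨a, ha⟩ := hd
      obtain ⟨b, hb⟩ := dvd_XmB (p := p) hiN
      rw [ha, hb] at hX ⊢
      have h4 : a < b := lt_of_mul_lt_mul_left hX (Nat.zero_le _)
      calc p.L ^ (i+1) * a + p.L ^ (i+1) = p.L ^ (i+1) * (a + 1) := by ring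
        _ ≤ p.L ^ (i+1) * b := Nat.mul_le_mul_left _ h4
    omega
  · rw [p.pres_congr i x h]
    · exact hp
    · obtain ⟨a, ha⟩ := hd
      have hpos : 0 < p.L ^ (i+1) := pow_pos p.L_pos _
      have h4 : h / p.L ^ (i+1) = a := by rw [ha]; exact Nat.mul_div_cancel_left _ hpos
      rw [h4]
      apply Nat.div_eq_of_lt_le
      · rw [mul_comm, ← ha]; exact h1
      · calc x < h + p.L ^ (i+1) := h2
          _ = (a + 1) * p.L ^ (i+1) := by rw [ha]; ring

theorem band_lt {i v z : ℕ} (hv : v < p.L) (hz : z < p.L ^ i) : v * p.L ^ i + z < p.L ^ (i+1) := by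
  calc v * p.L ^ i + z < v * p.L ^ i + p.L ^ i := by omega
    _ = (v + 1) * p.L ^ i := by ring
    _ ≤ p.L * p.L ^ i := Nat.mul_le_mul_right _ hv
    _ = p.L ^ (i+1) := by ring

end arith

section geo
variable {p : Par} {V : Type} [Finite V] {G : SimpleGraph V} {nd : ℕ → ℕ → V}
  {y : V → ℕ} {c R : ℕ} {X A : Set V}

theorem nearRail_ncard (hs : HS p G nd) (hRl : R < p.lam) {i j x : ℕ} (hi : 1 ≤ i)
    (h : p.CellOK i j x) (hiN : i ≤ p.N) : (nearRail p nd R i j x).ncard ≤ 2 ^ (R+2) := by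
  have h1 := near_ncard (hub_up hs hi h hiN) (le_lam_mul hRl hi)
  have h2 := near_ncard (hub_dn hs hi h hiN) (le_lam_mul hRl hi)
  have h3 : 2 ^ (R+2) = 2 ^ (R+1) + 2 ^ (R+1) := by ring
  unfold nearRail
  refine (Set.ncard_union_le _ _).trans ?_
  omega

theorem nearBase_ncard (hs : HS p G nd) (hRl : R < p.lam) {a : ℕ} (h : p.BaseOK a) :
    2 * (nearBase p nd R a).ncard ≤ 2 ^ (R+2) := by
  have h1 := near_ncard (hub_base hs h) hRl.le
  have h3 : 2 ^ (R+2) = 2 ^ (R+1) + 2 ^ (R+1) := by ring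
  unfold nearBase
  omega

theorem nearBase_sub (hs : HS p G nd) (hRl : R < p.lam) {a : ℕ} (h : p.BaseOK a) (hA : Cl G X A)
    (h0 : nd 0 a ∈ A) (hd : Disjoint (nearBase p nd R a) X) : nearBase p nd R a ⊆ A :=
  near_sub (hub_base hs h) hRl.le hA h0 hd

theorem rail_dn (hs : HS p G nd) (hy : Lip G y) (hX : Thin y c X)
    (hR : 2 * c * (2 * R + 5) ≤ 2 ^ R) (hRl : R < p.lam) (hA : Cl G X A)
    {i j x : ℕ} (hi : 1 ≤ i) (h : p.CellOK i j x) (hiN : i ≤ p.N)
    (hgood : good p nd X i j x) (hd : Disjoint (nearRail p nd R i j x) X) :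
    own p nd A i j x ↔ nd (p.rr i j) x ∈ A := by
  have hub := hub_dn hs hi h hiN
  have hg := gridAt hs h
  have hRE := le_lam_mul hRl hi
  have hd' : Disjoint (near (fun t z => nd (p.rr i j - t) (x+z)) R (p.lam * i)) X :=
    hd.mono_left Set.subset_union_right
  have hbad := bad_cols (X := X) hg
  have hgood' : 4 * (X ∩ cellSet nd p.L (p.row0 i j) x (p.L ^ i)).ncard < p.L := hgood
  have hLp := p.L_le_pow i hi
  obtain ⟨z, hz, hzB, hzf⟩ := hub_free hub hRE hy hX hR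
    {z | z < p.L ^ i ∧ ∃ s, s < p.L ∧ nd (p.row0 i j+s) (x+z) ∈ X}
    (Set.Finite.subset (Set.finite_lt_nat (p.L ^ i)) (fun z hz => hz.1))
    (by rw [p.pow_lam_mul]; omega)
  have h1 := hub_col hub hRE hA hd' hz hzf
  rw [p.pow_lam_mul] at hz
  have hcol : ∀ s < p.L, nd (p.row0 i j + s) (x+z) ∉ X := by
    intro s hs' hmem
    exact hzB ⟨hz, s, hs', hmem⟩
  have hs1 : p.L - 1 < p.L := by have := p.L_pos; omega
  have h2 := own_iff_col hg hgood hLp hA hz hcol hs1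
  have h3 : own p nd A i j x ↔ nd (p.row0 i j + (p.L - 1)) (x+z) ∈ A := h2
  rw [h3, ← p.rr_sub i j]
  simp only [Nat.sub_zero, add_zero] at h1
  exact h1.symm

theorem rail_up (hs : HS p G nd) (hy : Lip G y) (hX : Thin y c X)
    (hR : 2 * c * (2 * R + 5) ≤ 2 ^ R) (hRl : R < p.lam) (hA : Cl G X A)
    {i j x : ℕ} (hi : 1 ≤ i) (h : p.CellOK i j x) (hiN : i ≤ p.N) (hj : j + 1 < p.k)
    (hgood : good p nd X i (j+1) x) (hd : Disjoint (nearRail p nd R i j x) X) :
    own p nd A i (j+1) x ↔ nd (p.rr i j) x ∈ A := by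
  have hub := hub_up hs hi h hiN
  have h' : p.CellOK i (j+1) x := ⟨Or.inl ⟨hi, hiN, hj⟩, h.2⟩
  have hg := gridAt hs h'
  have hRE := le_lam_mul hRl hi
  have hd' : Disjoint (near (fun t z => nd (p.rr i j + t) (x+z)) R (p.lam * i)) X :=
    hd.mono_left Set.subset_union_left
  have hbad := bad_cols (X := X) hg
  have hgood' : 4 * (X ∩ cellSet nd p.L (p.row0 i (j+1)) x (p.L ^ i)).ncard < p.L := hgood
  have hLp := p.L_le_pow i hi
  obtain ⟨z, hz, hzB, hzf⟩ := hub_free hub hRE hy hX hR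
    {z | z < p.L ^ i ∧ ∃ s, s < p.L ∧ nd (p.row0 i (j+1)+s) (x+z) ∈ X}
    (Set.Finite.subset (Set.finite_lt_nat (p.L ^ i)) (fun z hz => hz.1))
    (by rw [p.pow_lam_mul]; omega)
  have h1 := hub_col hub hRE hA hd' hz hzf
  rw [p.pow_lam_mul] at hz
  have hcol : ∀ s < p.L, nd (p.row0 i (j+1) + s) (x+z) ∉ X := by
    intro s hs' hmem
    exact hzB ⟨hz, s, hs', hmem⟩
  have h2 := own_iff_col hg hgood hLp hA hz hcol p.L_pos
  have h3 : own p nd A i (j+1) x ↔ nd (p.row0 i (j+1) + 0) (x+z) ∈ A := h2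
  rw [h3, ← p.rr_add i j]
  simp only [add_zero] at h1 ⊢
  exact h1.symm

/-- from the last rail of a hat to the cell above the hat -/
theorem rail_top (hs : HS p G nd) (hy : Lip G y) (hX : Thin y c X)
    (hR : 2 * c * (2 * R + 5) ≤ 2 ^ R) (hRl : R < p.lam) (hA : Cl G X A)
    {i v h : ℕ} (hi : 1 ≤ i) (hh : p.HatOK i h) (hv : v < p.L)
    (hgood : good p nd X (i+1) 0 h)
    (hd : Disjoint (nearRail p nd R i (p.k-1) (h + v * p.L ^ i)) X) :
    own p nd A (i+1) 0 h ↔ nd (p.rr i (p.k-1)) (h + v * p.L ^ i) ∈ A := by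
  have hk := p.hk
  have hc := hat_cell (j := p.k-1) hi hh (by omega) hv
  have hiN := hh.1
  have hub := hub_up hs hi hc hiN
  have h' := hat_above hh
  have hg := gridAt hs h'
  have hRE := le_lam_mul hRl hi
  have hd' : Disjoint (near (fun t z => nd (p.rr i (p.k-1) + t) (h + v * p.L ^ i+z)) R (p.lam * i))
      X := hd.mono_left Set.subset_union_left
  have hbad := bad_cols (X := X) hg
  have hgood' : 4 * (X ∩ cellSet nd p.L (p.row0 (i+1) 0) h (p.L ^ (i+1))).ncard < p.L := hgood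
  have hLp := p.L_le_pow i hi
  set B := {z | z < p.L ^ (i+1) ∧ ∃ s, s < p.L ∧ nd (p.row0 (i+1) 0+s) (h+z) ∈ X} with hB
  have hBf : B.Finite := Set.Finite.subset (Set.finite_lt_nat (p.L ^ (i+1))) (fun z hz => hz.1)
  have hB' : ({z | z < p.L ^ i ∧ ∃ s, s < p.L ∧
      nd (p.row0 (i+1) 0+s) (h + v * p.L ^ i + z) ∈ X} : Set ℕ).ncard ≤ B.ncard := by
    refine Set.ncard_le_ncard_of_injOn (fun z => v * p.L ^ i + z) ?_ ?_ hBf
    · rintro z ⟨hz, s, hs', hm⟩
      refine ⟨band_lt hv hz, s, hs', ?_⟩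
      rw [← add_assoc]
      exact hm
    · intro a _ b _ hab
      exact Nat.add_left_cancel hab
  obtain ⟨z, hz, hzB, hzf⟩ := hub_free hub hRE hy hX hR
    {z | z < p.L ^ i ∧ ∃ s, s < p.L ∧ nd (p.row0 (i+1) 0+s) (h + v * p.L ^ i + z) ∈ X}
    (Set.Finite.subset (Set.finite_lt_nat (p.L ^ i)) (fun z hz => hz.1))
    (by rw [p.pow_lam_mul]; omega)
  have h1 := hub_col hub hRE hA hd' hz hzf
  rw [p.pow_lam_mul] at hz
  have hcol : ∀ s < p.L, nd (p.row0 (i+1) 0 + s) (h + (v * p.L ^ i+z)) ∉ X := by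
    intro s hs' hmem
    rw [← add_assoc] at hmem
    exact hzB ⟨hz, s, hs', hmem⟩
  have h2 := own_iff_col hg hgood (p.L_le_pow (i+1) (by omega)) hA (band_lt hv hz) hcol p.L_pos
  have h3 : own p nd A (i+1) 0 h ↔ nd (p.row0 (i+1) 0 + 0) (h + (v * p.L ^ i+z)) ∈ A := h2
  have h4 : p.row0 (i+1) 0 = p.rr i (p.k-1) + p.lam * i := by
    rw [p.rr_add i (p.k-1), p.row0_zero, Nat.sub_add_cancel hk, p.row0_k i hi]
  rw [h3, h4, ← add_assoc h]
  simp only [add_zero] at h1 ⊢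
  exact h1.symm

theorem base_up (hs : HS p G nd) (hy : Lip G y) (hX : Thin y c X)
    (hR : 2 * c * (2 * R + 5) ≤ 2 ^ R) (hRl : R < p.lam) (hA : Cl G X A)
    {a : ℕ} (h : p.BaseOK a) (hgood : good p nd X 1 0 a)
    (hd : Disjoint (nearBase p nd R a) X) :
    own p nd A 1 0 a ↔ nd 0 a ∈ A := by
  have hub := hub_base hs h
  have hg := gridAt hs (base_cell h)
  have hbad := bad_cols (X := X) hg
  have hgood' : 4 * (X ∩ cellSet nd p.L (p.row0 1 0) a (p.L ^ 1)).ncard < p.L := hgood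
  have hLp := p.L_le_pow 1 le_rfl
  have hLL : 2 ^ p.lam = p.L ^ 1 := by rw [pow_one]; rfl
  obtain ⟨z, hz, hzB, hzf⟩ := hub_free hub hRl.le hy hX hR
    {z | z < p.L ^ 1 ∧ ∃ s, s < p.L ∧ nd (p.row0 1 0+s) (a+z) ∈ X}
    (Set.Finite.subset (Set.finite_lt_nat (p.L ^ 1)) (fun z hz => hz.1))
    (by rw [hLL]; omega)
  have h1 := hub_col hub hRl.le hA hd hz hzf
  rw [hLL] at hz
  have hcol : ∀ s < p.L, nd (p.row0 1 0 + s) (a+z) ∉ X := by
    intro s hs' hmem
    exact hzB ⟨hz, s, hs', hmem⟩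
  have h2 := own_iff_col hg hgood hLp hA hz hcol p.L_pos
  have h3 : own p nd A 1 0 a ↔ nd (p.row0 1 0 + 0) (a+z) ∈ A := h2
  rw [h3, p.row0_zero, p.o_one]
  simp only [add_zero] at h1 ⊢
  exact h1.symm

theorem lateral_hat (hs : HS p G nd) (hA : Cl G X A) {i j v h : ℕ} (hi : 1 ≤ i)
    (hh : p.HatOK i h) (hj : j < p.k) (hv : v + 1 < p.L)
    (h1 : good p nd X i j (h + v * p.L ^ i)) (h2 : good p nd X i j (h + (v+1) * p.L ^ i)) :
    own p nd A i j (h + v * p.L ^ i) ↔ own p nd A i j (h + (v+1) * p.L ^ i) := by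
  have hc1 := hat_cell hi hh hj (show v < p.L by omega)
  have hc2 := hat_cell hi hh hj hv
  have he : h + (v+1) * p.L ^ i = h + v * p.L ^ i + p.L ^ i := by ring
  rw [he] at h2 hc2 ⊢
  have hpos : 0 < p.L ^ i := pow_pos p.L_pos _
  refine lateral (gridAt hs hc1) (gridAt hs hc2) ?_ h1 h2 p.L_pos (p.L_le_pow i hi) hA
  intro s hs'
  obtain ⟨hres, hlev, hT⟩ := p.res_cell i j s _ hc1 hs'
  have hband := band_lt (p := p) (i := i) (v := v) (z := p.L ^ i - 1) (by omega) (by omega)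
  have hband2 := band_lt (p := p) (i := i) (v := v+1) (z := 0) (by omega) (by omega)
  have he2 : (v+1) * p.L ^ i = v * p.L ^ i + p.L ^ i := by ring
  have hx1 := hat_col (x := h + v * p.L ^ i + p.L ^ i - 1) hh (by omega) (by omega)
  have hx2 := hat_col (x := h + v * p.L ^ i + p.L ^ i) hh (by omega) (by omega)
  have hsucc : h + v * p.L ^ i + p.L ^ i - 1 + 1 = h + v * p.L ^ i + p.L ^ i := by omega
  have hpos0 : 0 < p.row0 i j + s := by
    have h3 : 0 < p.o i := lt_of_le_of_lt (Nat.zero_le _) (p.o_strictMono (show 0 < i by omega))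
    have h4 : p.o i ≤ p.row0 i j := Nat.le_add_right _ _
    omega
  have h3 := hs.horiz (p.row0 i j + s) (h + v * p.L ^ i + p.L ^ i - 1) hpos0 hT
    (by rw [hsucc]; exact hx2.1) (by rw [hlev]; exact hx1.2) (by
      right
      rw [hlev, hsucc]
      intro hdv
      have h5 : p.L ^ (i+1) ∣ v * p.L ^ i + p.L ^ i := by
        rw [add_assoc] at hdv
        exact (Nat.dvd_add_right hh.2.1).mp hdv
      have h6 := Nat.le_of_dvd (by omega) h5
      omega)
  rw [hsucc] at h3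
  rcases h3 with h3 | h3
  · exfalso
    have h4 := hs.inj _ _ _ _ hT hT hx1.1 hx2.1 (by rw [hlev]; exact hx1.2)
      (by rw [hlev]; exact hx2.2) h3
    have h5 := h4.2
    rw [hres, pow_zero, Nat.div_one, Nat.div_one] at h5
    omega
  · exact h3

theorem lateral_top (hs : HS p G nd) (hA : Cl G X A) {v : ℕ} (hv : v + 1 < p.n0)
    (h1 : good p nd X (p.N+1) 0 (v * p.L ^ (p.N+1)))
    (h2 : good p nd X (p.N+1) 0 ((v+1) * p.L ^ (p.N+1))) :
    own p nd A (p.N+1) 0 (v * p.L ^ (p.N+1)) ↔ own p nd A (p.N+1) 0 ((v+1) * p.L ^ (p.N+1)) := by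
  have hc1 := top_cell (p := p) (show v < p.n0 by omega)
  have hc2 := top_cell (p := p) hv
  have he : (v+1) * p.L ^ (p.N+1) = v * p.L ^ (p.N+1) + p.L ^ (p.N+1) := by ring
  rw [he] at h2 hc2 ⊢
  have hpos : 0 < p.L ^ (p.N+1) := pow_pos p.L_pos _
  refine lateral (gridAt hs hc1) (gridAt hs hc2) ?_ h1 h2 p.L_pos (p.L_le_pow _ (by omega)) hA
  intro s hs'
  obtain ⟨hres, hlev, hT⟩ := p.res_cell (p.N+1) 0 s _ hc1 hs'
  have hx2 : v * p.L ^ (p.N+1) + p.L ^ (p.N+1) < p.Xm := hc2.2.2.1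
  have hx1 : v * p.L ^ (p.N+1) + p.L ^ (p.N+1) - 1 < p.Xm := by omega
  have hsucc : v * p.L ^ (p.N+1) + p.L ^ (p.N+1) - 1 + 1 = v * p.L ^ (p.N+1) + p.L ^ (p.N+1) := by
    omega
  have hpos0 : 0 < p.row0 (p.N+1) 0 + s := by
    have h3 : 0 < p.o (p.N+1) :=
      lt_of_le_of_lt (Nat.zero_le _) (p.o_strictMono (show 0 < p.N+1 by omega))
    have h4 : p.o (p.N+1) ≤ p.row0 (p.N+1) 0 := Nat.le_add_right _ _
    omega
  have hpr : ∀ x, p.pres (p.lev (p.row0 (p.N+1) 0 + s)) x := by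
    intro x
    rw [hlev]
    exact p.pres_top _ _ (by omega)
  have h3 := hs.horiz (p.row0 (p.N+1) 0 + s) (v * p.L ^ (p.N+1) + p.L ^ (p.N+1) - 1) hpos0 hT
    (by rw [hsucc]; exact hx2) (hpr _) (Or.inl hlev)
  rw [hsucc] at h3
  rcases h3 with h3 | h3
  · exfalso
    have h4 := hs.inj _ _ _ _ hT hT hx1 hx2 (hpr _) (hpr _) h3
    have h5 := h4.2
    rw [hres, pow_zero, Nat.div_one, Nat.div_one] at h5
    omega
  · exact h3

theorem vertical (hs : HS p G nd) (hy : Lip G y) (hX : Thin y c X)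
    (hR : 2 * c * (2 * R + 5) ≤ 2 ^ R) (hRl : R < p.lam) (hA : Cl G X A)
    {i j x : ℕ} (hi : 1 ≤ i) (h : p.CellOK i j x) (hiN : i ≤ p.N) (hj : j + 1 < p.k)
    (h1 : good p nd X i j x) (h2 : good p nd X i (j+1) x)
    (hd : Disjoint (nearRail p nd R i j x) X) :
    own p nd A i j x ↔ own p nd A i (j+1) x := by
  rw [rail_dn hs hy hX hR hRl hA hi h hiN h1 hd, rail_up hs hy hX hR hRl hA hi h hiN hj h2 hd]

/-- in a clean hat all cells are good -/
theorem clean_good {i j v h : ℕ} (hi : 1 ≤ i) (hh : p.HatOK i h)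
    (hc : 4 * (X ∩ region p nd i h).ncard < p.L) (hj : j < p.k) (hv : v < p.L) :
    good p nd X i j (h + v * p.L ^ i) := by
  have h1 : (X ∩ cellSet nd p.L (p.row0 i j) (h + v * p.L ^ i) (p.L ^ i)).ncard ≤
      (X ∩ region p nd i h).ncard :=
    Set.ncard_le_ncard (Set.inter_subset_inter_right _ (cell_region hi hh hj hv)) (Set.toFinite _)
  unfold good Good
  omega

/-- in a clean hat there is a band whose near sets are free of `X` -/
theorem exists_band (hs : HS p G nd) (hRl : R < p.lam) {i h : ℕ} (hi : 1 ≤ i) (hh : p.HatOK i h)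
    (hc : 4 * (X ∩ region p nd i h).ncard < p.L) :
    ∃ v < p.L, ∀ j < p.k, Disjoint (nearRail p nd R i j (h + v * p.L ^ i)) X := by
  by_contra hcon
  push Not at hcon
  have hch : ∀ v : ℕ, ∃ j, ∃ u, v < p.L → j < p.k ∧ u ∈ nearRail p nd R i j (h + v * p.L ^ i) ∧
      u ∈ X := by
    intro v
    by_cases hv : v < p.L
    · obtain ⟨j, hj, hnd⟩ := hcon v hv
      rw [Set.not_disjoint_iff] at hnd
      obtain ⟨u, hu1, hu2⟩ := hnd
      exact ⟨j, u, fun _ => ⟨hj, hu1, hu2⟩⟩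
    · exact ⟨0, nd 0 0, fun hv' => absurd hv' hv⟩
  choose J U hJU using hch
  have h1 : (Set.Iio p.L).ncard ≤ (X ∩ region p nd i h).ncard := by
    apply Set.ncard_le_ncard_of_injOn U
    · intro v hv
      obtain ⟨hj, hu1, hu2⟩ := hJU v hv
      exact ⟨hu2, nearRail_region hRl hi hh hj hv hu1⟩
    · intro v hv v' hv' huv
      by_contra hne
      obtain ⟨hj, hu1, hu2⟩ := hJU v hv
      obtain ⟨hj', hu1', hu2'⟩ := hJU v' hv'
      have h3 := nears_disjoint hs hRl hi hh hj hv hj' hv' hne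
      rw [Set.disjoint_left] at h3
      apply h3 hu1
      rw [huv]
      exact hu1'
  rw [Set.ncard_eq_toFinset_card'] at h1
  simp only [Set.toFinset_Iio, Nat.card_Iio] at h1
  omega

theorem lateral_iter (hs : HS p G nd) (hA : Cl G X A) {i j h : ℕ} (hi : 1 ≤ i)
    (hh : p.HatOK i h) (hc : 4 * (X ∩ region p nd i h).ncard < p.L) (hj : j < p.k) (v : ℕ)
    (hv : v < p.L) :
    own p nd A i j (h + v * p.L ^ i) ↔ own p nd A i j h := by
  induction v with
  | zero => rw [zero_mul, add_zero]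
  | succ v ih =>
    rw [← ih (by omega)]
    exact (lateral_hat hs hA hi hh hj hv (clean_good hi hh hc hj (by omega))
      (clean_good hi hh hc hj hv)).symm

theorem vertical_iter (hs : HS p G nd) (hy : Lip G y) (hX : Thin y c X)
    (hR : 2 * c * (2 * R + 5) ≤ 2 ^ R) (hRl : R < p.lam) (hA : Cl G X A)
    {i v h : ℕ} (hi : 1 ≤ i) (hh : p.HatOK i h)
    (hc : 4 * (X ∩ region p nd i h).ncard < p.L) (hv : v < p.L)
    (hd : ∀ j < p.k, Disjoint (nearRail p nd R i j (h + v * p.L ^ i)) X) (j : ℕ) (hj : j < p.k) :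
    own p nd A i j (h + v * p.L ^ i) ↔ own p nd A i 0 (h + v * p.L ^ i) := by
  induction j with
  | zero => rfl
  | succ j ih =>
    rw [← ih (by omega)]
    exact (vertical hs hy hX hR hRl hA hi (hat_cell hi hh (by omega) hv) hh.1 hj
      (clean_good hi hh hc (by omega) hv) (clean_good hi hh hc hj hv) (hd j (by omega))).symm

/-- in a clean hat all cells have the same owners -/
theorem hat_all (hs : HS p G nd) (hy : Lip G y) (hX : Thin y c X)
    (hR : 2 * c * (2 * R + 5) ≤ 2 ^ R) (hRl : R < p.lam) (hA : Cl G X A)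
    {i j v h : ℕ} (hi : 1 ≤ i) (hh : p.HatOK i h)
    (hc : 4 * (X ∩ region p nd i h).ncard < p.L) (hj : j < p.k) (hv : v < p.L) :
    own p nd A i j (h + v * p.L ^ i) ↔ own p nd A i 0 h := by
  have hk := p.hk
  obtain ⟨w, hw, hd⟩ := exists_band hs hRl hi hh hc
  rw [lateral_iter hs hA hi hh hc hj v hv, ← lateral_iter hs hA hi hh hc hj w hw,
    vertical_iter hs hy hX hR hRl hA hi hh hc hw hd j hj,
    lateral_iter hs hA hi hh hc (by omega) w hw]

/-- a clean hat and the cell above it -/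
theorem hat_parent (hs : HS p G nd) (hy : Lip G y) (hX : Thin y c X)
    (hR : 2 * c * (2 * R + 5) ≤ 2 ^ R) (hRl : R < p.lam) (hA : Cl G X A)
    {i h : ℕ} (hi : 1 ≤ i) (hh : p.HatOK i h)
    (hc : 4 * (X ∩ region p nd i h).ncard < p.L) (hgood : good p nd X (i+1) 0 h) :
    own p nd A (i+1) 0 h ↔ own p nd A i 0 h := by
  have hk := p.hk
  obtain ⟨w, hw, hd⟩ := exists_band hs hRl hi hh hc
  have hk1 : p.k - 1 < p.k := by omega
  rw [rail_top hs hy hX hR hRl hA hi hh hw hgood (hd _ hk1),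
    ← rail_dn hs hy hX hR hRl hA hi (hat_cell hi hh hk1 hw) hh.1 (clean_good hi hh hc hk1 hw)
      (hd _ hk1), hat_all hs hy hX hR hRl hA hi hh hc hk1 hw]

/-- a clean hat and the base vertices under it -/
theorem giant (hs : HS p G nd) (hy : Lip G y) (hX : Thin y c X)
    (hR : 2 * c * (2 * R + 5) ≤ 2 ^ R) (hRl : R < p.lam) (hA : Cl G X A)
    {i h a : ℕ} (hi : 1 ≤ i) (hh : p.HatOK i h)
    (hc : 4 * (X ∩ region p nd i h).ncard < p.L) (ha : p.BaseOK a) (h1 : h ≤ a)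
    (h2 : a < h + p.L ^ (i+1)) :
    good p nd X 1 0 a ∧ (own p nd A 1 0 a ↔ own p nd A i 0 h) := by
  have hk := p.hk
  induction i, hi using Nat.le_induction generalizing h with
  | base =>
    obtain ⟨b, hb⟩ := ha.1
    obtain ⟨d, hd⟩ := hh.2.1
    have hLpos := p.L_pos
    have hd2 : h = p.L * (p.L * d) := by rw [hd]; ring
    have h3 : p.L * d ≤ b := by
      rw [hb, hd2] at h1
      exact Nat.le_of_mul_le_mul_left h1 hLpos
    obtain ⟨v, rfl⟩ := Nat.exists_eq_add_of_le h3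
    have hv : v < p.L := by
      have h4 : p.L * (p.L * d + v) < p.L * (p.L * d + p.L) := by
        calc p.L * (p.L * d + v) = a := hb.symm
          _ < h + p.L ^ 2 := h2
          _ = p.L * (p.L * d + p.L) := by rw [hd2]; ring
      have h5 := lt_of_mul_lt_mul_left h4 (Nat.zero_le _)
      omega
    have hav : a = h + v * p.L ^ 1 := by rw [hb, hd2]; ring
    rw [hav]
    exact ⟨clean_good le_rfl hh hc (by omega) hv,
      hat_all hs hy hX hR hRl hA le_rfl hh hc (by omega) hv⟩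
  | succ i hi ih =>
    obtain ⟨v, hv, hdec, h3, h4⟩ := base_child hh ha h1 h2
    have hh' := hat_child hh hv hdec
    have hc' : 4 * (X ∩ region p nd i (h + v * p.L ^ (i+1))).ncard < p.L := by
      have h5 : (X ∩ region p nd i (h + v * p.L ^ (i+1))).ncard ≤
          (X ∩ region p nd (i+1) h).ncard :=
        Set.ncard_le_ncard (Set.inter_subset_inter_right _ (region_child hv)) (Set.toFinite _)
      omega
    obtain ⟨h6, h7⟩ := ih hh' hc' h3 h4
    refine ⟨h6, ?_⟩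
    have hi1 : 1 ≤ i + 1 := by omega
    rw [h7, ← hat_parent hs hy hX hR hRl hA hi hh' hc'
      (clean_good hi1 hh hc (by omega) hv),
      hat_all hs hy hX hR hRl hA hi1 hh hc (by omega) hv]

end geo

end Pool.Agent.MP3d
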