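import Pool.Agent.Lib.MP_3d7595_co.Table

set_option autoImplicit false

namespace Pool.Agent.MP3d

section basic
variable {p : Par} {V : Type} {G : SimpleGraph V} {nd : ℕ → ℕ → V}

/-! auxiliary arithmetic -/

theorem Lpow_pos (p : Par) (i : ℕ) : 0 < p.L ^ i := Nat.pow_pos p.L_pos

theorem blk_lt {m x y M : ℕ} (hd : m ∣ x) (hM : m ∣ M) (hx : x < M) (hy : y < m) : x + y < M := by
  obtain ⟨a, rfl⟩ := hd
  obtain ⟨b, rfl⟩ := hM
  have hab : a < b := Nat.lt_of_mul_lt_mul_left hx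
  calc m * a + y < m * a + m := by omega
    _ = m * (a+1) := by ring
    _ ≤ m * b := Nat.mul_le_mul_left _ hab

theorem dvd_Xm (p : Par) {i : ℕ} (hi : i ≤ p.N + 1) : p.L ^ i ∣ p.Xm :=
  (pow_dvd_pow _ hi).trans (Dvd.intro_left _ rfl)

theorem add_lt_Xm {i x y : ℕ} (hi : i ≤ p.N + 1) (hd : p.L ^ i ∣ x) (hx : x < p.Xm)
    (hy : y < p.L ^ i) : x + y < p.Xm := blk_lt hd (dvd_Xm p hi) hx hy

theorem div_add_blk {m x y : ℕ} (hd : m ∣ x) (hy : y < m) : (x + y) / m = x / m := by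
  obtain ⟨a, rfl⟩ := hd
  have hm : 0 < m := by omega
  rw [Nat.mul_add_div hm, Nat.div_eq_of_lt hy, Nat.mul_div_cancel_left _ hm]; rfl

theorem div_add_pow {i i' x y : ℕ} (hii : i ≤ i') (hd : p.L ^ i ∣ x) (hy : y < p.L ^ i) :
    (x + y) / p.L ^ i' = x / p.L ^ i' := by
  obtain ⟨e, rfl⟩ := Nat.exists_eq_add_of_le hii
  rw [pow_add, ← Nat.div_div_eq_div_mul, ← Nat.div_div_eq_div_mul, div_add_blk hd hy]

theorem pres_add {i x y : ℕ} (hd : p.L ^ i ∣ x) (hy : y < p.L ^ i) :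
    p.pres i (x + y) ↔ p.pres i x :=
  p.pres_congr i _ _ (div_add_pow (Nat.le_succ i) hd hy)

theorem pres_add' {i x y : ℕ} (hd : p.L ^ (i+1) ∣ x) (hy : y < p.L ^ (i+1)) :
    p.pres i (x + y) ↔ p.pres i x :=
  p.pres_congr i _ _ (div_add_pow le_rfl hd hy)

theorem mul_add_lt {m v L y : ℕ} (hv : v < L) (hy : y < m) : v * m + y < L * m := by
  calc v * m + y < v * m + m := by omega
    _ = (v+1) * m := by ring
    _ ≤ L * m := Nat.mul_le_mul_right _ hv

theorem mul_pow_lt {i v : ℕ} (hv : v < p.L) : v * p.L ^ i < p.L ^ (i+1) := by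
  have := mul_add_lt (m := p.L ^ i) hv (Lpow_pos p i)
  rw [pow_succ, Nat.mul_comm (p.L ^ i)]
  omega

theorem mul_pow_add_lt {i v y : ℕ} (hv : v < p.L) (hy : y < p.L ^ i) :
    v * p.L ^ i + y < p.L ^ (i+1) := by
  have := mul_add_lt (m := p.L ^ i) hv hy
  rw [pow_succ, Nat.mul_comm (p.L ^ i)]
  omega

theorem o_le_T {i : ℕ} (hi : i ≤ p.N) : p.o (i+1) < p.T := by
  have h1 : p.o (i+1) ≤ p.o (p.N+1) := p.o_strictMono.monotone (by omega)
  have := p.L_pos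
  unfold Par.T; omega

theorem add_div_dvd {m x z : ℕ} (hd : m ∣ x) : (x + z) / m = x / m + z / m :=
  Nat.add_div_of_dvd_right hd

theorem pow_sub_dvd {i t x : ℕ} (hd : p.L ^ i ∣ x) : 2 ^ (p.lam * i - t) ∣ x := by
  rw [← p.pow_lam_mul] at hd
  exact (pow_dvd_pow 2 (Nat.sub_le _ _)).trans hd

theorem gridAt (hs : HS p G nd) {i j x : ℕ} (h : p.CellOK i j x) :
    GridAt G nd p.L (p.row0 i j) x (p.L ^ i) := by
  obtain ⟨hij, hd, hx, hp⟩ := id h
  have hi : i ≤ p.N + 1 := by omega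
  have hi1 : 1 ≤ i := by omega
  have hlt : ∀ y, y < p.L ^ i → x + y < p.Xm := fun y hy => add_lt_Xm hi hd hx hy
  have hpr : ∀ s y, s < p.L → y < p.L ^ i → p.pres (p.lev (p.row0 i j + s)) (x + y) := by
    intro s y hs' hy
    rw [(p.res_cell i j s x h hs').2.1]
    exact (pres_add hd hy).2 hp
  have hinj : ∀ s y s' y', s < p.L → y < p.L ^ i → s' < p.L → y' < p.L ^ i →
      nd (p.row0 i j + s) (x+y) = nd (p.row0 i j + s') (x+y') → s = s' ∧ y = y' := by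
    intro s y s' y' h1 h2 h3 h4 he
    have := hs.inj _ _ _ _ (p.res_cell i j s x h h1).2.2 (p.res_cell i j s' x h h3).2.2
      (hlt _ h2) (hlt _ h4) (hpr _ _ h1 h2) (hpr _ _ h3 h4) he
    rw [(p.res_cell i j s x h h1).1, pow_zero, Nat.div_one, Nat.div_one] at this
    omega
  refine ⟨?_, ?_, hinj⟩
  · intro s y h1 h2
    have := hs.vert (p.row0 i j + s) (x+y) (p.res_cell i j (s+1) x h h1).2.2 (hlt _ h2)
      (hpr _ _ (by omega) h2)
    exact this
  · intro s y h1 h2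
    have hlev := (p.res_cell i j s x h h1).2.1
    have hpos : 0 < p.row0 i j + s := by
      have h3 : p.o 1 ≤ p.o i := p.o_strictMono.monotone hi1
      have h4 := p.hlam
      rw [p.o_one] at h3
      unfold Par.row0; omega
    have h5 := hs.horiz (p.row0 i j + s) (x+y) hpos (p.res_cell i j s x h h1).2.2
      (hlt (y+1) h2) (hpr _ _ h1 (by omega)) (by
        rw [hlev]
        by_cases hN : i = p.N + 1
        · exact Or.inl hN
        · right
          intro hdv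
          have h6 : p.L ^ i ∣ x + (y + 1) := (pow_dvd_pow _ (Nat.le_succ i)).trans hdv
          have h7 : p.L ^ i ∣ y + 1 := (Nat.dvd_add_right hd).1 h6
          exact absurd (Nat.le_of_dvd (Nat.succ_pos y) h7) (by omega))
    rcases h5 with h5 | h5
    · exfalso
      have := hinj s y s (y+1) h1 (by omega) h1 h2 h5
      omega
    · exact h5

theorem hub_up (hs : HS p G nd) {i j x : ℕ} (hi : 1 ≤ i) (h : p.CellOK i j x) (hiN : i ≤ p.N) :
    Hub G (fun t z => nd (p.rr i j + t) (x+z)) (p.lam * i) := by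
  obtain ⟨hij, hd, hx, hp⟩ := id h
  have hj : j < p.k := by omega
  have hlt : ∀ y, y < 2 ^ (p.lam * i) → x + y < p.Xm := fun y hy =>
    add_lt_Xm (by omega) hd hx (by rwa [p.pow_lam_mul] at hy)
  have hE := p.lam_mul_pos i hi
  have hlev0 := p.lev_up i j 0 hi hiN hj (by omega)
  have hlev : ∀ t, i ≤ p.lev (p.rr i j + t) := by
    intro t
    have h1 := p.lev_mono (show p.rr i j + 0 ≤ p.rr i j + t by omega)
    rw [hlev0] at h1
    exact h1
  have hpr : ∀ t y, y < 2 ^ (p.lam * i) → p.pres (p.lev (p.rr i j + t)) (x + y) := by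
    intro t y hy
    rw [p.pow_lam_mul] at hy
    exact p.pres_mono i _ _ (hlev t) ((pres_add hd hy).2 hp)
  have hT : ∀ t, t ≤ p.lam * i → p.rr i j + t < p.T := by
    intro t ht
    have h1 := p.rr_lt i j hi hj
    have h2 := o_le_T hiN
    omega
  refine ⟨?_, ?_, ?_⟩
  · intro t z ht hz
    exact hs.vert (p.rr i j + t) (x+z) (hT (t+1) ht) (hlt _ hz) (hpr _ _ hz)
  · intro t z z' ht hz hz' he
    have h1 := (hs.inj _ _ _ _ (hT t ht) (hT t ht) (hlt _ hz) (hlt _ hz') (hpr _ _ hz)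
      (hpr _ _ hz') he).2
    rw [p.res_up i j t hi hiN hj ht, add_div_dvd (pow_sub_dvd hd), add_div_dvd (pow_sub_dvd hd)] at h1
    omega
  · intro t z z' ht hz hz' he
    refine hs.same _ _ _ (hT t ht) (hlt _ hz) (hlt _ hz') (hpr _ _ hz) (hpr _ _ hz') ?_
    rw [p.res_up i j t hi hiN hj ht, add_div_dvd (pow_sub_dvd hd), add_div_dvd (pow_sub_dvd hd), he]

theorem hub_dn (hs : HS p G nd) {i j x : ℕ} (hi : 1 ≤ i) (h : p.CellOK i j x) (hiN : i ≤ p.N) :
    Hub G (fun t z => nd (p.rr i j - t) (x+z)) (p.lam * i) := by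
  obtain ⟨hij, hd, hx, hp⟩ := id h
  have hj : j < p.k := by omega
  have hlt : ∀ y, y < 2 ^ (p.lam * i) → x + y < p.Xm := fun y hy =>
    add_lt_Xm (by omega) hd hx (by rwa [p.pow_lam_mul] at hy)
  have hrr : p.lam * i + 1 ≤ p.rr i j := by
    have h1 := p.rr_eq i j
    have h2 := p.two_le_L
    omega
  have hpr : ∀ t y, t ≤ p.lam * i → y < 2 ^ (p.lam * i) →
      p.pres (p.lev (p.rr i j - t)) (x + y) := by
    intro t y ht hy
    rw [p.pow_lam_mul] at hy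
    rw [p.lev_dn i j t hi hiN hj ht]
    exact (pres_add hd hy).2 hp
  have hT : ∀ t, p.rr i j - t < p.T := by
    intro t
    have h1 := p.rr_lt i j hi hj
    have h2 := o_le_T hiN
    omega
  refine ⟨?_, ?_, ?_⟩
  · intro t z ht hz
    have h1 : p.rr i j - (t+1) + 1 = p.rr i j - t := by omega
    have h2 := hs.vert (p.rr i j - (t+1)) (x+z) (by rw [h1]; exact hT t) (hlt _ hz)
      (hpr _ _ (by omega) hz)
    rw [h1] at h2
    exact h2.symm
  · intro t z z' ht hz hz' he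
    have h1 := (hs.inj _ _ _ _ (hT t) (hT t) (hlt _ hz) (hlt _ hz') (hpr _ _ ht hz)
      (hpr _ _ ht hz') he).2
    rw [p.res_dn i j t hi hiN hj ht, add_div_dvd (pow_sub_dvd hd), add_div_dvd (pow_sub_dvd hd)] at h1
    omega
  · intro t z z' ht hz hz' he
    refine hs.same _ _ _ (hT t) (hlt _ hz) (hlt _ hz') (hpr _ _ ht hz) (hpr _ _ ht hz') ?_
    rw [p.res_dn i j t hi hiN hj ht, add_div_dvd (pow_sub_dvd hd), add_div_dvd (pow_sub_dvd hd), he]

theorem hub_base (hs : HS p G nd) {a : ℕ} (h : p.BaseOK a) :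
    Hub G (fun t z => nd t (a+z)) p.lam := by
  obtain ⟨hd, hx, hp⟩ := id h
  have hd1 : p.L ^ 1 ∣ a := by rwa [pow_one]
  have hL1 : 2 ^ p.lam = p.L ^ 1 := by rw [pow_one]; rfl
  have hlt : ∀ y, y < 2 ^ p.lam → a + y < p.Xm := fun y hy =>
    add_lt_Xm (by omega) hd1 hx (by rwa [hL1] at hy)
  have hpr : ∀ t y, y < 2 ^ p.lam → p.pres (p.lev t) (a + y) := by
    intro t y hy
    rw [hL1] at hy
    exact p.pres_mono 0 _ _ (Nat.zero_le _) ((pres_add' (i := 0) (by simpa using hd) (by simpa using hy)).2 hp)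
  have hT : ∀ t, t ≤ p.lam → t < p.T := by
    intro t ht
    have h1 : p.o 1 ≤ p.o (p.N+1) := p.o_strictMono.monotone (by omega)
    have h2 := p.L_pos
    rw [p.o_one] at h1
    unfold Par.T; omega
  have hdv : ∀ t, 2 ^ (p.lam - t) ∣ a := fun t =>
    (pow_dvd_pow 2 (Nat.sub_le _ _)).trans (show 2 ^ p.lam ∣ a from hd)
  refine ⟨?_, ?_, ?_⟩
  · intro t z ht hz
    exact hs.vert t (a+z) (hT (t+1) ht) (hlt _ hz) (hpr _ _ hz)
  · intro t z z' ht hz hz' he
    have h1 := (hs.inj _ _ _ _ (hT t ht) (hT t ht) (hlt _ hz) (hlt _ hz') (hpr _ _ hz)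
      (hpr _ _ hz') he).2
    rw [p.res_base t ht, add_div_dvd (hdv t), add_div_dvd (hdv t)] at h1
    omega
  · intro t z z' ht hz hz' he
    refine hs.same _ _ _ (hT t ht) (hlt _ hz) (hlt _ hz') (hpr _ _ hz) (hpr _ _ hz') ?_
    rw [p.res_base t ht, add_div_dvd (hdv t), add_div_dvd (hdv t), he]

/-! arithmetic of hats and cells -/

/-- the bands of a hat are cells -/
theorem hat_cell {i j v h : ℕ} (hi : 1 ≤ i) (hh : p.HatOK i h) (hj : j < p.k) (hv : v < p.L) :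
    p.CellOK i j (h + v * p.L ^ i) := by
  obtain ⟨hiN, hd, hx, hp⟩ := hh
  have hvl := mul_pow_lt (p := p) (i := i) hv
  exact ⟨Or.inl ⟨hi, hiN, hj⟩, dvd_add ((pow_dvd_pow _ (Nat.le_succ i)).trans hd) (dvd_mul_left _ _),
    add_lt_Xm (by omega) hd hx hvl, (pres_add' hd hvl).2 hp⟩

/-- the cell above a hat -/
theorem hat_above {i h : ℕ} (hh : p.HatOK i h) : p.CellOK (i+1) 0 h := by
  obtain ⟨hiN, hd, hx, hp⟩ := hh
  refine ⟨?_, hd, hx, p.pres_mono i _ _ (Nat.le_succ i) hp⟩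
  have := p.hk
  omega

theorem top_cell {v : ℕ} (hv : v < p.n0) : p.CellOK (p.N+1) 0 (v * p.L ^ (p.N+1)) :=
  ⟨Or.inr ⟨rfl, rfl⟩, dvd_mul_left _ _, Nat.mul_lt_mul_of_pos_right hv (Lpow_pos p _),
    p.pres_top _ _ (Nat.le_succ _)⟩

theorem top_hat {v : ℕ} (hv : v < p.n0) : p.HatOK p.N (v * p.L ^ (p.N+1)) :=
  ⟨le_rfl, dvd_mul_left _ _, Nat.mul_lt_mul_of_pos_right hv (Lpow_pos p _), p.pres_top _ _ le_rfl⟩

/-- the hat under a decorated band -/
theorem hat_child {i v h : ℕ} (hh : p.HatOK (i+1) h) (hv : v < p.L) (hd : p.dec v) :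
    p.HatOK i (h + v * p.L ^ (i+1)) := by
  obtain ⟨hiN, hdv, hx, hp⟩ := hh
  have hvl := mul_pow_lt (p := p) (i := i+1) hv
  refine ⟨by omega, dvd_add ((pow_dvd_pow _ (Nat.le_succ (i+1))).trans hdv) (dvd_mul_left _ _),
    add_lt_Xm (by omega) hdv hx hvl, (p.pres_succ i _ hiN).2 ⟨(pres_add' hdv hvl).2 hp, ?_⟩⟩
  obtain ⟨c, rfl⟩ := hdv
  have : p.L ^ (i+1+1) * c + v * p.L ^ (i+1) = p.L ^ (i+1) * (p.L * c + v) := by ring
  rw [this, Nat.mul_div_cancel_left _ (Lpow_pos p _), Nat.mul_add_mod, Nat.mod_eq_of_lt hv]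
  exact hd

/-- a base vertex is a hat of level 0 -/
theorem hat_zero {a : ℕ} : p.HatOK 0 a ↔ p.BaseOK a := by
  unfold Par.HatOK Par.BaseOK
  simp

/-- a base vertex under the hat `(i+1,h)` is under one of its children -/
theorem base_child {i h a : ℕ} (hh : p.HatOK (i+1) h) (ha : p.BaseOK a) (h1 : h ≤ a)
    (h2 : a < h + p.L ^ (i+2)) :
    ∃ v < p.L, p.dec v ∧ h + v * p.L ^ (i+1) ≤ a ∧ a < h + v * p.L ^ (i+1) + p.L ^ (i+1) := by
  obtain ⟨hiN, hdv, hx, hp⟩ := hh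
  refine ⟨(a / p.L ^ (i+1)) % p.L, Nat.mod_lt _ p.L_pos, ha.2.2 (i+1) (Nat.succ_pos i) hiN, ?_⟩
  obtain ⟨c, rfl⟩ := hdv
  have e0 : p.L ^ (i+1+1) = p.L ^ (i+1) * p.L := pow_succ _ _
  have e1 : a / p.L ^ (i+1) / p.L = c := by
    rw [Nat.div_div_eq_div_mul, ← e0]
    apply Nat.div_eq_of_lt_le
    · rw [Nat.mul_comm]; exact h1
    · calc a < p.L ^ (i+1+1) * c + p.L ^ (i+2) := h2
        _ = (c+1) * p.L ^ (i+1+1) := by ring
  have e2 : p.L * c + (a / p.L ^ (i+1)) % p.L = a / p.L ^ (i+1) := by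
    conv_rhs => rw [← Nat.div_add_mod (a / p.L ^ (i+1)) p.L, e1]
  have e3 : p.L ^ (i+1+1) * c + (a / p.L ^ (i+1)) % p.L * p.L ^ (i+1) =
      p.L ^ (i+1) * (a / p.L ^ (i+1)) := by
    conv_rhs => rw [← e2]
    ring
  rw [e3]
  have e4 := Nat.lt_mul_div_succ a (Lpow_pos p (i+1))
  rw [Nat.mul_add, Nat.mul_one] at e4
  exact ⟨Nat.mul_div_le _ _, e4⟩

theorem base_cell {a : ℕ} (ha : p.BaseOK a) : p.CellOK 1 0 a := by
  obtain ⟨hd, hx, hp⟩ := ha
  exact ⟨Or.inl ⟨le_rfl, p.hN, p.hk⟩, by rwa [pow_one], hx, p.pres_mono 0 1 _ (Nat.zero_le _) hp⟩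

/-! regions -/

theorem region_child {i v h : ℕ} (hv : v < p.L) :
    region p nd i (h + v * p.L ^ (i+1)) ⊆ region p nd (i+1) h := by
  rintro u ⟨δ, x, h1, h2, h3, h4, rfl⟩
  have e1 : p.o (i+1) < p.o (i+1+1) := p.o_strictMono (Nat.lt_succ_self _)
  have e2 : v * p.L ^ (i+1) + p.L ^ (i+1) ≤ p.L ^ (i+1+1) := by
    calc v * p.L ^ (i+1) + p.L ^ (i+1) = (v+1) * p.L ^ (i+1) := by ring
      _ ≤ p.L * p.L ^ (i+1) := Nat.mul_le_mul_right _ hv
      _ = p.L ^ (i+1+1) := by ring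
  exact ⟨δ, x, by omega, by omega, by omega, h4, rfl⟩

theorem row_lt {i j s : ℕ} (hi : 1 ≤ i) (hj : j < p.k) (hs : s < p.q i) :
    p.row0 i j + s < p.o (i+1) := by
  have h1 := p.row0_le i (j+1) hi hj
  rw [p.row0_succ] at h1
  omega

theorem L_lt_q {i : ℕ} (hi : 1 ≤ i) : p.L < p.q i := by
  have h1 := p.q_eq i
  have h2 := p.lam_mul_pos i hi
  omega

theorem cell_region {i j v h : ℕ} (hi : 1 ≤ i) (hh : p.HatOK i h) (hj : j < p.k) (hv : v < p.L) :
    cellSet nd p.L (p.row0 i j) (h + v * p.L ^ i) (p.L ^ i) ⊆ region p nd i h := by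
  obtain ⟨hiN, hd, hx, hp⟩ := hh
  rintro u ⟨s, y, hs, hy, rfl⟩
  have hsq : s < p.q i := hs.trans (L_lt_q hi)
  have h2 := mul_pow_add_lt (p := p) hv hy
  refine ⟨p.row0 i j + s, h + v * p.L ^ i + y, row_lt hi hj hsq, by omega, by omega, ?_, rfl⟩
  rw [p.lev_row i j s hi hiN hj hsq, Nat.add_assoc]
  exact (pres_add' hd h2).2 hp

/-- description of the near sets -/
theorem mem_nearRail {R i j x : ℕ} {u : V} (hR : R < p.lam) (hi : 1 ≤ i) (hiN : i ≤ p.N)
    (hj : j < p.k) (hu : u ∈ nearRail p nd R i j x) :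
    ∃ δ z, δ < p.o (i+1) ∧ p.lev δ = i ∧ z < p.L ^ i ∧ u = nd δ (x+z) := by
  have hl : p.lam ≤ p.lam * i := Nat.le_mul_of_pos_right _ hi
  have h1 := p.rr_lt i j hi hj
  rcases hu with ⟨t, z, ht, hz, rfl⟩ | ⟨t, z, ht, hz, rfl⟩
  · exact ⟨p.rr i j + t, z, by omega, p.lev_up i j t hi hiN hj (by omega),
      by rwa [p.pow_lam_mul] at hz, rfl⟩
  · exact ⟨p.rr i j - t, z, by omega, p.lev_dn i j t hi hiN hj (by omega),
      by rwa [p.pow_lam_mul] at hz, rfl⟩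

theorem nearRail_region {R i j v h : ℕ} (hR : R < p.lam) (hi : 1 ≤ i) (hh : p.HatOK i h)
    (hj : j < p.k) (hv : v < p.L) :
    nearRail p nd R i j (h + v * p.L ^ i) ⊆ region p nd i h := by
  obtain ⟨hiN, hd, hx, hp⟩ := hh
  intro u hu
  obtain ⟨δ, z, h1, h2, hz, rfl⟩ := mem_nearRail hR hi hiN hj hu
  have h3 := mul_pow_add_lt (p := p) hv hz
  refine ⟨δ, h + v * p.L ^ i + z, h1, by omega, by omega, ?_, rfl⟩
  rw [h2, Nat.add_assoc]
  exact (pres_add' hd h3).2 hp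

theorem lev_lt_of {i δ : ℕ} (h : δ < p.o (i+1)) : p.lev δ ≤ i := by
  by_contra hc
  have h1 : p.o (i+1) ≤ p.o (p.lev δ) := p.o_strictMono.monotone (by omega)
  have h2 := p.o_lev_le δ
  omega

theorem div_pow_of_div {a b x x' : ℕ} (hab : a ≤ b) (h : x / 2 ^ a = x' / 2 ^ a) :
    x / 2 ^ b = x' / 2 ^ b := by
  obtain ⟨e, rfl⟩ := Nat.exists_eq_add_of_le hab
  rw [pow_add, ← Nat.div_div_eq_div_mul, ← Nat.div_div_eq_div_mul, h]

/-- regions of distinct hats of the same level are disjoint -/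
theorem region_disjoint (hs : HS p G nd) {i h h' : ℕ} (hh : p.HatOK i h) (hh' : p.HatOK i h')
    (hne : h ≠ h') : Disjoint (region p nd i h) (region p nd i h') := by
  rw [Set.disjoint_left]
  rintro u ⟨δ, x, h1, h2, h3, h4, rfl⟩ ⟨δ', x', h1', h2', h3', h4', he⟩
  obtain ⟨hiN, hd, hx, hp⟩ := hh
  obtain ⟨-, hd', hx', hp'⟩ := hh'
  have hT := o_le_T hiN
  obtain ⟨y, rfl⟩ := Nat.exists_eq_add_of_le h2
  obtain ⟨y', rfl⟩ := Nat.exists_eq_add_of_le h2'
  have hy : y < p.L ^ (i+1) := by omega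
  have hy' : y' < p.L ^ (i+1) := by omega
  have h5 := hs.inj δ δ' _ _ (by omega) (by omega) (add_lt_Xm (by omega) hd hx hy)
    (add_lt_Xm (by omega) hd' hx' hy') h4 h4' he
  have h6 : p.res δ ≤ p.lam * (i+1) :=
    (p.res_le δ).trans (Nat.mul_le_mul_left _ (by have := lev_lt_of h1; omega))
  have h7 := div_pow_of_div h6 h5.2
  rw [p.pow_lam_mul, div_add_blk hd hy, div_add_blk hd' hy'] at h7
  apply hne
  rw [← Nat.div_mul_cancel hd, ← Nat.div_mul_cancel hd', h7]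

/-- cells in a hat with different `(j,v)` are disjoint -/
theorem cells_disjoint (hs : HS p G nd) {i h j v j' v' : ℕ} (hi : 1 ≤ i) (hh : p.HatOK i h)
    (hj : j < p.k) (hv : v < p.L) (hj' : j' < p.k) (hv' : v' < p.L) (hne : (j, v) ≠ (j', v')) :
    Disjoint (cellSet nd p.L (p.row0 i j) (h + v * p.L ^ i) (p.L ^ i))
      (cellSet nd p.L (p.row0 i j') (h + v' * p.L ^ i) (p.L ^ i)) := by
  have hc := hat_cell hi hh hj hv
  have hc' := hat_cell hi hh hj' hv'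
  obtain ⟨hiN, hd, hx, hp⟩ := hh
  rw [Set.disjoint_left]
  rintro u ⟨s, y, h1, h2, rfl⟩ ⟨s', y', h1', h2', he⟩
  have hw := mul_pow_add_lt (p := p) hv h2
  have hw' := mul_pow_add_lt (p := p) hv' h2'
  have hr := p.res_cell i j s _ hc h1
  have hr' := p.res_cell i j' s' _ hc' h1'
  have h5 := hs.inj _ _ _ _ hr.2.2 hr'.2.2
    (by rw [Nat.add_assoc]; exact add_lt_Xm (by omega) hd hx hw)
    (by rw [Nat.add_assoc]; exact add_lt_Xm (by omega) hd hx hw')
    (by rw [hr.2.1, Nat.add_assoc]; exact (pres_add' hd hw).2 hp)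
    (by rw [hr'.2.1, Nat.add_assoc]; exact (pres_add' hd hw').2 hp) he
  rw [hr.1, pow_zero, Nat.div_one, Nat.div_one] at h5
  obtain ⟨h6, h7⟩ := h5
  have hsq : s < p.q i := h1.trans (L_lt_q hi)
  have hsq' : s' < p.q i := h1'.trans (L_lt_q hi)
  have e1 : j = j' := by
    have h8 : s + p.q i * j = s' + p.q i * j' := by
      unfold Par.row0 at h6
      have a1 : j * p.q i = p.q i * j := Nat.mul_comm _ _
      have a2 : j' * p.q i = p.q i * j' := Nat.mul_comm _ _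
      omega
    have h9 := congrArg (fun m => m / p.q i) h8
    simp only [Nat.add_mul_div_left _ _ (p.q_pos i), Nat.div_eq_of_lt hsq,
      Nat.div_eq_of_lt hsq'] at h9
    omega
  have e2 : v = v' := by
    have h8 : y + p.L ^ i * v = y' + p.L ^ i * v' := by
      have a1 : v * p.L ^ i = p.L ^ i * v := Nat.mul_comm _ _
      have a2 : v' * p.L ^ i = p.L ^ i * v' := Nat.mul_comm _ _
      omega
    have h9 := congrArg (fun m => m / p.L ^ i) h8
    simp only [Nat.add_mul_div_left _ _ (Lpow_pos p i), Nat.div_eq_of_lt h2,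
      Nat.div_eq_of_lt h2'] at h9
    omega
  exact hne (by rw [e1, e2])

theorem topcells_disjoint (hs : HS p G nd) {v v' : ℕ} (hv : v < p.n0) (hv' : v' < p.n0)
    (hne : v ≠ v') :
    Disjoint (cellSet nd p.L (p.row0 (p.N+1) 0) (v * p.L ^ (p.N+1)) (p.L ^ (p.N+1)))
      (cellSet nd p.L (p.row0 (p.N+1) 0) (v' * p.L ^ (p.N+1)) (p.L ^ (p.N+1))) := by
  have hc := top_cell hv
  have hc' := top_cell hv'
  rw [Set.disjoint_left]
  rintro u ⟨s, y, h1, h2, rfl⟩ ⟨s', y', h1', h2', he⟩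
  have hr := p.res_cell (p.N+1) 0 s _ hc h1
  have hr' := p.res_cell (p.N+1) 0 s' _ hc' h1'
  have h5 := hs.inj _ _ _ _ hr.2.2 hr'.2.2
    (mul_add_lt hv h2) (mul_add_lt hv' h2')
    (by rw [hr.2.1]; exact p.pres_top _ _ (Nat.le_succ _))
    (by rw [hr'.2.1]; exact p.pres_top _ _ (Nat.le_succ _)) he
  rw [hr.1, pow_zero, Nat.div_one, Nat.div_one] at h5
  apply hne
  have h8 : y + p.L ^ (p.N+1) * v = y' + p.L ^ (p.N+1) * v' := by
    have a1 : v * p.L ^ (p.N+1) = p.L ^ (p.N+1) * v := Nat.mul_comm _ _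
    have a2 : v' * p.L ^ (p.N+1) = p.L ^ (p.N+1) * v' := Nat.mul_comm _ _
    omega
  have h9 := congrArg (fun m => m / p.L ^ (p.N+1)) h8
  simp only [Nat.add_mul_div_left _ _ (Lpow_pos p (p.N+1)), Nat.div_eq_of_lt h2,
    Nat.div_eq_of_lt h2'] at h9
  omega

/-- the near sets of different bands of a hat are disjoint -/
theorem nears_disjoint (hs : HS p G nd) {R i h j v j' v' : ℕ} (hR : R < p.lam) (hi : 1 ≤ i)
    (hh : p.HatOK i h) (hj : j < p.k) (hv : v < p.L) (hj' : j' < p.k) (hv' : v' < p.L)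
    (hne : v ≠ v') :
    Disjoint (nearRail p nd R i j (h + v * p.L ^ i)) (nearRail p nd R i j' (h + v' * p.L ^ i)) := by
  obtain ⟨hiN, hd, hx, hp⟩ := hh
  rw [Set.disjoint_left]
  intro u hu hu'
  obtain ⟨δ, y, h1, h3, h2, rfl⟩ := mem_nearRail hR hi hiN hj hu
  obtain ⟨δ', y', h1', h3', h2', he⟩ := mem_nearRail hR hi hiN hj' hu'
  have hT := o_le_T hiN
  have hw := mul_pow_add_lt (p := p) hv h2
  have hw' := mul_pow_add_lt (p := p) hv' h2'
  have h5 := hs.inj δ δ' _ _ (by omega) (by omega)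
    (by rw [Nat.add_assoc]; exact add_lt_Xm (by omega) hd hx hw)
    (by rw [Nat.add_assoc]; exact add_lt_Xm (by omega) hd hx hw')
    (by rw [h3, Nat.add_assoc]; exact (pres_add' hd hw).2 hp)
    (by rw [h3', Nat.add_assoc]; exact (pres_add' hd hw').2 hp) he
  have h6 : p.res δ ≤ p.lam * i := by
    have := p.res_le_lev δ (by omega)
    rwa [h3] at this
  have h7 := div_pow_of_div h6 h5.2
  have hdi : p.L ^ i ∣ h := (pow_dvd_pow _ (Nat.le_succ i)).trans hd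
  have e : ∀ w y, y < p.L ^ i → (h + w * p.L ^ i + y) / p.L ^ i = h / p.L ^ i + w := by
    intro w y hy
    rw [div_add_blk (dvd_add hdi (dvd_mul_left _ _)) hy, add_div_dvd hdi,
      Nat.mul_div_cancel _ (Lpow_pos p i)]
  rw [p.pow_lam_mul, e v y h2, e v' y' h2'] at h7
  omega

end basic

end Pool.Agent.MP3d
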