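import Pool.Agent.Lib.MP_3d7595_co.Setup

set_option autoImplicit false

namespace Pool.Agent.MP3d

section defs
variable (p : Par) {V : Type} (nd : ℕ → ℕ → V)

open Classical in
/-- the heights owned by `C` -/
noncomputable def Fset (C : Set V) (i h0 : ℕ) : Finset ℕ :=
  (Finset.range p.L).filter (fun v => own p nd C i 0 (h0 + v * p.L ^ i))

open Classical in
/-- the heights with a cell which is not good -/
noncomputable def BadH (Z : Set V) (i h0 : ℕ) : Finset ℕ :=
  (Finset.range p.L).filter (fun v => ∃ j < p.k, ¬ good p nd Z i j (h0 + v * p.L ^ i))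

open Classical in
/-- the heights with a near set hit by `Z` -/
noncomputable def HitH (R : ℕ) (Z : Set V) (i h0 : ℕ) : Finset ℕ :=
  (Finset.range p.L).filter (fun v => ∃ j < p.k, ¬ Disjoint (nearRail p nd R i j (h0 + v * p.L ^ i)) Z)

end defs

section
variable {p : Par} {V : Type} {nd : ℕ → ℕ → V} {R : ℕ}

theorem mem_Fset {C : Set V} {i h0 v : ℕ} :
    v ∈ Fset p nd C i h0 ↔ v < p.L ∧ own p nd C i 0 (h0 + v * p.L ^ i) := by
  unfold Fset; simp

theorem Fset_sub {C : Set V} {i h0 : ℕ} : Fset p nd C i h0 ⊆ Finset.range p.L := by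
  intro v hv
  exact Finset.mem_range.mpr (mem_Fset.mp hv).1

theorem mem_BadH {Z : Set V} {i h0 v : ℕ} :
    v ∈ BadH p nd Z i h0 ↔ v < p.L ∧ ∃ j < p.k, ¬ good p nd Z i j (h0 + v * p.L ^ i) := by
  unfold BadH; simp

theorem mem_HitH {Z : Set V} {i h0 v : ℕ} :
    v ∈ HitH p nd R Z i h0 ↔
      v < p.L ∧ ∃ j < p.k, ¬ Disjoint (nearRail p nd R i j (h0 + v * p.L ^ i)) Z := by
  unfold HitH; simp

end

section
variable {p : Par} {V : Type} [Finite V] {G : SimpleGraph V} {nd : ℕ → ℕ → V} {R β : ℕ}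

theorem L_four {p : Par} (hl : 2 ≤ p.lam) : 4 * 2 ^ (p.lam - 2) = p.L := by
  unfold Par.L
  calc 4 * 2 ^ (p.lam - 2) = 2 ^ 2 * 2 ^ (p.lam - 2) := by norm_num
    _ = 2 ^ (2 + (p.lam - 2)) := (pow_add 2 2 _).symm
    _ = 2 ^ p.lam := by congr 1; omega

theorem bad_card (hs : HS p G nd) (hl : 2 ≤ p.lam) {Z : Set V} (hZ : Z.ncard ≤ β * p.L) {i h0 : ℕ}
    (hi : 1 ≤ i) (hh : p.HatOK i h0) : (BadH p nd Z i h0).card ≤ 4 * β := by
  have hL := L_four hl
  have hpos : 0 < 2 ^ (p.lam - 2) := Nat.pow_pos (by norm_num)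
  have h1 := count_disjoint (BadH p nd Z i h0)
    (fun v => ⋃ j, ⋃ (_ : j < p.k), cellSet nd p.L (p.row0 i j) (h0 + v * p.L ^ i) (p.L ^ i))
    Z (2 ^ (p.lam - 2)) (β * p.L) hZ ?_ ?_
  · rw [← hL] at h1
    have h2 : (BadH p nd Z i h0).card * 2 ^ (p.lam - 2) ≤ (4 * β) * 2 ^ (p.lam - 2) := by
      calc (BadH p nd Z i h0).card * 2 ^ (p.lam - 2) ≤ β * (4 * 2 ^ (p.lam - 2)) := h1
        _ = (4 * β) * 2 ^ (p.lam - 2) := by ring
    exact Nat.le_of_mul_le_mul_right h2 hpos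
  · intro v hv v' hv' hne
    rw [mem_BadH] at hv hv'
    rw [Set.disjoint_left]
    intro a ha ha'
    simp only [Set.mem_iUnion] at ha ha'
    obtain ⟨j, hj, ha⟩ := ha
    obtain ⟨j', hj', ha'⟩ := ha'
    have := cells_disjoint hs hi hh hj hv.1 hj' hv'.1 (by
      intro h; exact hne (congrArg Prod.snd h))
    exact Set.disjoint_left.mp this ha ha'
  · intro v hv
    rw [mem_BadH] at hv
    obtain ⟨hvL, j, hj, hg⟩ := hv
    unfold good Good at hg
    have h2 : (Z ∩ cellSet nd p.L (p.row0 i j) (h0 + v * p.L ^ i) (p.L ^ i)).ncard ≤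
        (Z ∩ ⋃ j, ⋃ (_ : j < p.k), cellSet nd p.L (p.row0 i j) (h0 + v * p.L ^ i) (p.L ^ i)).ncard := by
      apply Set.ncard_le_ncard _ (Set.toFinite _)
      apply Set.inter_subset_inter_right
      intro a ha
      simp only [Set.mem_iUnion]
      exact ⟨j, hj, ha⟩
    show 2 ^ (p.lam - 2) ≤ _
    omega

theorem bad_k (hs : HS p G nd) (hl : 2 ≤ p.lam) {Z : Set V} (hZ : Z.ncard ≤ β * p.L) {i h0 : ℕ}
    (hi : 1 ≤ i) (hh : p.HatOK i h0)
    (hb : ∀ j < p.k, ∃ v < p.L, ¬ good p nd Z i j (h0 + v * p.L ^ i)) : p.k ≤ 4 * β := by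
  have hL := L_four hl
  have hpos : 0 < 2 ^ (p.lam - 2) := Nat.pow_pos (by norm_num)
  have h1 := count_disjoint (Finset.range p.k)
    (fun j => ⋃ v, ⋃ (_ : v < p.L), cellSet nd p.L (p.row0 i j) (h0 + v * p.L ^ i) (p.L ^ i))
    Z (2 ^ (p.lam - 2)) (β * p.L) hZ ?_ ?_
  · rw [← hL, Finset.card_range] at h1
    have h2 : p.k * 2 ^ (p.lam - 2) ≤ (4 * β) * 2 ^ (p.lam - 2) := by
      calc p.k * 2 ^ (p.lam - 2) ≤ β * (4 * 2 ^ (p.lam - 2)) := h1
        _ = (4 * β) * 2 ^ (p.lam - 2) := by ring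
    exact Nat.le_of_mul_le_mul_right h2 hpos
  · intro j hj j' hj' hne
    rw [Finset.mem_range] at hj hj'
    rw [Set.disjoint_left]
    intro a ha ha'
    simp only [Set.mem_iUnion] at ha ha'
    obtain ⟨v, hv, ha⟩ := ha
    obtain ⟨v', hv', ha'⟩ := ha'
    have := cells_disjoint hs hi hh hj hv hj' hv' (by
      intro h; exact hne (congrArg Prod.fst h))
    exact Set.disjoint_left.mp this ha ha'
  · intro j hj
    rw [Finset.mem_range] at hj
    obtain ⟨v, hv, hg⟩ := hb j hj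
    unfold good Good at hg
    have h2 : (Z ∩ cellSet nd p.L (p.row0 i j) (h0 + v * p.L ^ i) (p.L ^ i)).ncard ≤
        (Z ∩ ⋃ v, ⋃ (_ : v < p.L), cellSet nd p.L (p.row0 i j) (h0 + v * p.L ^ i) (p.L ^ i)).ncard := by
      apply Set.ncard_le_ncard _ (Set.toFinite _)
      apply Set.inter_subset_inter_right
      intro a ha
      simp only [Set.mem_iUnion]
      exact ⟨v, hv, ha⟩
    show 2 ^ (p.lam - 2) ≤ _
    omega

/-- few heights are hit -/
theorem hit_card (hs : HS p G nd) (hRl : R < p.lam) {Z : Set V} {i h0 θ : ℕ}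
    (hθ : (Z ∩ region p nd i h0).ncard ≤ θ)
    (hi : 1 ≤ i) (hh : p.HatOK i h0) : (HitH p nd R Z i h0).card ≤ θ := by
  have h1 := count_disjoint (HitH p nd R Z i h0)
    (fun v => ⋃ j, ⋃ (_ : j < p.k), nearRail p nd R i j (h0 + v * p.L ^ i))
    (Z ∩ region p nd i h0) 1 θ hθ ?_ ?_
  · omega
  · intro v hv v' hv' hne
    rw [mem_HitH] at hv hv'
    rw [Set.disjoint_left]
    intro a ha ha'
    simp only [Set.mem_iUnion] at ha ha'
    obtain ⟨j, hj, ha⟩ := ha
    obtain ⟨j', hj', ha'⟩ := ha'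
    have := nears_disjoint hs hRl hi hh hj hv.1 hj' hv'.1 hne
    exact Set.disjoint_left.mp this ha ha'
  · intro v hv
    rw [mem_HitH] at hv
    obtain ⟨hvL, j, hj, hg⟩ := hv
    rw [Set.not_disjoint_iff] at hg
    obtain ⟨a, ha, haZ⟩ := hg
    have hm : a ∈ (Z ∩ region p nd i h0) ∩
        ⋃ j, ⋃ (_ : j < p.k), nearRail p nd R i j (h0 + v * p.L ^ i) := by
      refine ⟨⟨haZ, nearRail_region hRl hi hh hj hvL ha⟩, ?_⟩
      simp only [Set.mem_iUnion]
      exact ⟨j, hj, ha⟩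
    have := Set.ncard_ne_zero_of_mem hm (Set.toFinite _)
    exact Nat.one_le_iff_ne_zero.mpr this

theorem good_mono {X Z : Set V} (hXZ : X ⊆ Z) {i j x : ℕ} (hg : good p nd Z i j x) :
    good p nd X i j x := by
  unfold good Good at hg ⊢
  have : (X ∩ cellSet nd p.L (p.row0 i j) x (p.L ^ i)).ncard ≤
      (Z ∩ cellSet nd p.L (p.row0 i j) x (p.L ^ i)).ncard :=
    Set.ncard_le_ncard (Set.inter_subset_inter_left _ hXZ) (Set.toFinite _)
  omega

omit [Finite V] in
theorem own_mono {A B : Set V} (hAB : A ⊆ B) {i j x : ℕ} (hg : own p nd A i j x) :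
    own p nd B i j x := by
  unfold own Own at hg ⊢
  have hfin : {s | s < p.L ∧ rowIn nd B (p.row0 i j + s) x (p.L ^ i)}.Finite :=
    (Set.finite_lt_nat p.L).subset (fun s hs => hs.1)
  have : {s | s < p.L ∧ rowIn nd A (p.row0 i j + s) x (p.L ^ i)}.ncard ≤
      {s | s < p.L ∧ rowIn nd B (p.row0 i j + s) x (p.L ^ i)}.ncard :=
    Set.ncard_le_ncard (fun s hs => ⟨hs.1, fun z hz => hAB (hs.2 z hz)⟩) hfin
  omega

theorem Fset_prop (hs : HS p G nd) {X A : Set V} (hA : Cl G X A) {i h0 : ℕ} (hi : 1 ≤ i)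
    (hh : p.HatOK i h0) {v : ℕ} (hv : v + 1 < p.L) (h1 : v ∉ BadH p nd X i h0)
    (h2 : v + 1 ∉ BadH p nd X i h0) : v ∈ Fset p nd A i h0 ↔ v + 1 ∈ Fset p nd A i h0 := by
  rw [mem_BadH] at h1 h2
  push Not at h1 h2
  rw [mem_Fset, mem_Fset]
  have hk := p.hk
  have := lateral_hat hs hA hi hh (j := 0) (by omega) hv (h1 (by omega) 0 (by omega))
    (h2 hv 0 (by omega))
  rw [this]
  constructor
  · rintro ⟨_, h⟩; exact ⟨hv, h⟩
  · rintro ⟨_, h⟩; exact ⟨by omega, h⟩

theorem BadH_mono {X Z : Set V} (hXZ : X ⊆ Z) {i h0 v : ℕ} (hv : v ∉ BadH p nd Z i h0) :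
    v ∉ BadH p nd X i h0 := by
  rw [mem_BadH] at hv ⊢
  rintro ⟨h1, j, hj, h2⟩
  exact hv ⟨h1, j, hj, fun h3 => h2 (good_mono hXZ h3)⟩

end

section
variable {p : Par} {V W : Type} [Finite V] [DecidableEq W] {G : SimpleGraph V} {H : SimpleGraph W}
  {h : V → W} {y : V → ℕ} {c R β κ : ℕ} {nd : ℕ → ℕ → V}

theorem one (st : Setup p G H h y c R β κ) (hs : HS p G nd) {i h0 : ℕ} (hi : 1 ≤ i)
    (hh : p.HatOK i h0) {C : Set V} {S : Finset W} (hR : Region G H h C S)
    (hF : 4 * β < (Fset p nd C i h0).card) :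
    ∃ (C' : Set V) (S' : Finset W) (d : W), Region G H h C' S' ∧ C' ⊆ C ∧ d ∈ h '' C ∧ d ∉ h '' C' ∧
      d ∈ S' ∧ S' ⊆ insert d S ∧
      (Fset p nd C i h0).card ≤ 4 * β + (4 * β + 1) * (Fset p nd C' i h0).card ∧
      Fset p nd C' i h0 ⊆ Fset p nd C i h0 := by
  obtain ⟨d, hd, hstep⟩ := step st.noK4 st.hom hR
  have hSc : (insert d S).card ≤ 3 := (Finset.card_insert_le _ _).trans (by have := hR.card; omega)
  have hXZ : {v | h v ∈ S} ⊆ {v | h v ∈ insert d S} := by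
    intro v hv
    exact Finset.mem_insert_of_mem hv
  have hsmall := st.small _ hSc
  have hbad := bad_card hs st.hlam hsmall hi hh
  obtain ⟨a, m, hm, ham, hrun, hcard⟩ := exists_run p.L (4 * β) (Fset p nd C i h0)
    (BadH p nd {v | h v ∈ insert d S} i h0) Fset_sub hbad
    (fun v hv h1 h2 => Fset_prop hs hR.comp.cl hi hh hv (BadH_mono hXZ h1) (BadH_mono hXZ h2)) hF
  obtain ⟨ha1, ha2⟩ := hrun a le_rfl (by omega)
  have hk := p.hk
  have haL : a < p.L := by omega
  have hcell := hat_cell hi hh (j := 0) (by omega) haL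
  have hgood : good p nd {v | h v ∈ insert d S} i 0 (h0 + a * p.L ^ i) := by
    rw [mem_BadH] at ha2
    push Not at ha2
    exact ha2 haL 0 (by omega)
  have hgrid := gridAt hs hcell
  have hLw := p.L_le_pow i hi
  obtain ⟨C', hC', hown⟩ := exists_comp hgrid hgood p.L_pos hLw
  have hsub : C' ⊆ C := comp_sub hgrid hXZ p.L_pos (by have := p.L_pos; omega) hR.comp.cl hC'
    ((mem_Fset.mp ha1).2) hown
  obtain ⟨S', hS'1, hS'2, hS'3⟩ := hstep C' hC' hsub
  refine ⟨C', S', d, hS'3, hsub, hd, ?_, hS'2, hS'1, ?_, ?_⟩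
  · rintro ⟨v, hv, rfl⟩
    exact Set.disjoint_left.mp hC'.disj hv (Finset.mem_insert_self _ _)
  · refine hcard.trans ?_
    have hrun' : ∀ t, t < m → a + t ∈ Fset p nd C' i h0 := by
      intro t
      induction t with
      | zero =>
        intro _
        exact mem_Fset.mpr ⟨haL, hown⟩
      | succ t ih =>
        intro ht
        have h1 := ih (by omega)
        exact (Fset_prop hs hC'.cl hi hh (by omega) (hrun (a+t) (by omega) (by omega)).2
          (hrun (a+t+1) (by omega) (by omega)).2).mp h1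
    have hmle : m ≤ (Fset p nd C' i h0).card := by
      calc m = ((Finset.range m).image (fun t => a + t)).card := by
            rw [Finset.card_image_of_injective _ (fun x y hxy => by simpa using hxy),
              Finset.card_range]
        _ ≤ (Fset p nd C' i h0).card := by
            apply Finset.card_le_card
            intro v hv
            rw [Finset.mem_image] at hv
            obtain ⟨t, ht, rfl⟩ := hv
            exact hrun' t (Finset.mem_range.mp ht)
    have := Nat.mul_le_mul_left (4 * β + 1) hmle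
    omega
  · intro v hv
    rw [mem_Fset] at hv ⊢
    exact ⟨hv.1, own_mono hsub hv.2⟩

/-- the label `ℓ` hits a near set of the line at height `v` -/
def Hits (p : Par) {V W : Type} (h : V → W) (nd : ℕ → ℕ → V) (R i h0 : ℕ) (ℓ : W) (v : ℕ) : Prop :=
  ∃ j < p.k, ∃ u ∈ nearRail p nd R i j (h0 + v * p.L ^ i), h u = ℓ

omit [DecidableEq W] in
theorem dich (st : Setup p G H h y c R β κ) (hs : HS p G nd) {i h0 : ℕ} (hi : 1 ≤ i)
    (hh : p.HatOK i h0) {C : Set V} {S : Finset W} (hS : S.card ≤ 3)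
    (hC : Cl G {v | h v ∈ S} C) {Old : Finset W} {d : W} (hSd : ∀ ℓ ∈ S, ℓ = d ∨ ℓ ∈ Old) :
    (∀ v ∈ Fset p nd C i h0, v ∉ HitH p nd R {v | h v ∈ Old} i h0 →
      v ∉ BadH p nd {v | h v ∈ S} i h0 → Hits p h nd R i h0 d v) ∨
    (∀ v < p.L, v ∉ Fset p nd C i h0 → v ∉ HitH p nd R {v | h v ∈ Old} i h0 →
      v ∉ BadH p nd {v | h v ∈ S} i h0 → Hits p h nd R i h0 d v) := by
  by_contra hcon
  push Not at hcon
  obtain ⟨⟨v1, h1F, h1H, h1B, h1n⟩, v2, h2L, h2F, h2H, h2B, h2n⟩ := hcon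
  have hk := p.hk
  have key : ∀ v < p.L, v ∉ HitH p nd R {v | h v ∈ Old} i h0 → v ∉ BadH p nd {v | h v ∈ S} i h0 →
      ¬ Hits p h nd R i h0 d v → ∀ j < p.k,
      (own p nd C i j (h0 + v * p.L ^ i) ↔ own p nd C i 0 (h0 + v * p.L ^ i)) := by
    intro v hv hH hB hn j
    rw [mem_BadH] at hB
    push Not at hB
    have hgd := hB hv
    have hdis : ∀ j < p.k, Disjoint (nearRail p nd R i j (h0 + v * p.L ^ i)) {v | h v ∈ S} := by
      intro j hj
      rw [Set.disjoint_left]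
      intro u hu huS
      rcases hSd _ huS with h3 | h3
      · exact hn ⟨j, hj, u, hu, h3⟩
      · apply hH
        rw [mem_HitH]
        exact ⟨hv, j, hj, Set.not_disjoint_iff.mpr ⟨u, hu, h3⟩⟩
    induction j with
    | zero => intro _; rfl
    | succ j ih =>
      intro hj
      rw [← ih (by omega)]
      exact (vertical hs st.lip (st.thin S hS) st.hR st.hRl hC hi (hat_cell hi hh (by omega) hv)
        hh.1 hj (hgd j (by omega)) (hgd (j+1) hj) (hdis j (by omega))).symm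
  have hlat : ∀ j < p.k, ∃ v < p.L, ¬ good p nd {v | h v ∈ S} i j (h0 + v * p.L ^ i) := by
    intro j hj
    by_contra hall
    push Not at hall
    have hiter : ∀ v, v < p.L → (own p nd C i j (h0 + v * p.L ^ i) ↔
        own p nd C i j (h0 + 0 * p.L ^ i)) := by
      intro v
      induction v with
      | zero => intro _; rfl
      | succ v ih =>
        intro hv
        rw [← ih (by omega)]
        exact (lateral_hat hs hC hi hh hj hv (hall v (by omega)) (hall (v+1) hv)).symm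
    rw [mem_Fset] at h1F h2F
    have h3 := (key v1 h1F.1 h1H h1B h1n j hj).mpr h1F.2
    have h4 := (hiter v1 h1F.1).mp h3
    have h5 := (hiter v2 h2L).mpr h4
    exact h2F ⟨h2L, (key v2 h2L h2H h2B h2n j hj).mp h5⟩
  have := bad_k hs st.hlam (st.small S hS) hi hh hlat
  have := st.hk
  omega

omit [DecidableEq W] in
theorem hits_card (hs : HS p G nd) (hRl : R < p.lam) {i h0 : ℕ} (hi : 1 ≤ i)
    (hh : p.HatOK i h0) {v : ℕ} (hv : v < p.L) (D : Finset W)
    (hD : ∀ ℓ ∈ D, Hits p h nd R i h0 ℓ v) : D.card ≤ p.k * 2 ^ (R+2) := by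
  classical
  have h1 : D ⊆ ((Finset.range p.k).biUnion
      (fun j => (Set.toFinite (nearRail p nd R i j (h0 + v * p.L ^ i))).toFinset)).image h := by
    intro ℓ hℓ
    obtain ⟨j, hj, u, hu, rfl⟩ := hD ℓ hℓ
    rw [Finset.mem_image]
    refine ⟨u, ?_, rfl⟩
    rw [Finset.mem_biUnion]
    exact ⟨j, Finset.mem_range.mpr hj, by simpa using hu⟩
  refine (Finset.card_le_card h1).trans (Finset.card_image_le.trans ?_)
  have h2 := Finset.card_biUnion_le_card_mul (Finset.range p.k)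
    (fun j => (Set.toFinite (nearRail p nd R i j (h0 + v * p.L ^ i))).toFinset) (2 ^ (R+2)) (by
      intro j hj
      rw [← Set.ncard_eq_toFinset_card]
      exact nearRail_ncard hs hRl hi (hat_cell hi hh (Finset.mem_range.mp hj) hv) hh.1)
  rwa [Finset.card_range] at h2

/-- the hypothesis that the main step fails -/
def NA (p : Par) {V W : Type} (G : SimpleGraph V) (H : SimpleGraph W) (h : V → W) (nd : ℕ → ℕ → V)
    (b M i h0 : ℕ) (A : Set V) : Prop :=
  ∀ (C : Set V) (S : Finset W), Region G H h C S → C ⊆ A → (∀ ℓ ∈ S, ℓ ∈ h '' A) →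
    p.L ≤ 2 * (b + 1) ^ M * ((Fset p nd C i h0).card + 1) → False

theorem one' (st : Setup p G H h y c R β κ) (hs : HS p G nd) {i h0 : ℕ} (hi : 1 ≤ i)
    (hh : p.HatOK i h0) {A : Set V} {Old : Finset W} {M : ℕ}
    (hNA : NA p G H h nd (4 * β) M i h0 A) {C : Set V} {S : Finset W} (hR : Region G H h C S)
    (hCA : C ⊆ A) (hS : ∀ ℓ ∈ S, ℓ ∈ Old ∨ ℓ ∈ h '' A) {n : ℕ} (hn : n + 1 ≤ M)
    (hsz : p.L ≤ 2 * (4 * β + 1) ^ n * ((Fset p nd C i h0).card + 1))
    (hF : 4 * β < (Fset p nd C i h0).card) :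
    ∃ (C' : Set V) (S' : Finset W) (d : W), Region G H h C' S' ∧ C' ⊆ C ∧ d ∈ h '' C ∧ d ∉ h '' C' ∧
      (∀ ℓ ∈ S', ℓ ∈ Old ∨ ℓ ∈ h '' A) ∧
      p.L ≤ 2 * (4 * β + 1) ^ (n+1) * ((Fset p nd C' i h0).card + 1) ∧
      Fset p nd C' i h0 ⊆ Fset p nd C i h0 ∧
      ((∀ v ∈ Fset p nd C' i h0, v ∉ HitH p nd R {v | h v ∈ Old} i h0 →
        v ∉ BadH p nd {v | h v ∈ S'} i h0 → Hits p h nd R i h0 d v) ∨
      (∀ v < p.L, v ∉ Fset p nd C' i h0 → v ∉ HitH p nd R {v | h v ∈ Old} i h0 →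
        v ∉ BadH p nd {v | h v ∈ S'} i h0 → Hits p h nd R i h0 d v)) := by
  obtain ⟨C', S', d, hR', hsub, hd, hd', hdS', hS', hcard, hFsub⟩ := one st hs hi hh hR hF
  have hS'2 : ∀ ℓ ∈ S', ℓ ∈ Old ∨ ℓ ∈ h '' A := by
    intro ℓ hℓ
    rcases Finset.mem_insert.mp (hS' hℓ) with h1 | h1
    · right; rw [h1]; exact Set.image_mono hCA hd
    · exact hS ℓ h1
  have hsz' : p.L ≤ 2 * (4 * β + 1) ^ (n+1) * ((Fset p nd C' i h0).card + 1) := by
    refine hsz.trans ?_
    have h1 : (Fset p nd C i h0).card + 1 ≤ (4 * β + 1) * ((Fset p nd C' i h0).card + 1) := by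
      have : (4 * β + 1) * ((Fset p nd C' i h0).card + 1) =
        (4 * β + 1) * (Fset p nd C' i h0).card + (4 * β + 1) := by ring
      omega
    calc 2 * (4 * β + 1) ^ n * ((Fset p nd C i h0).card + 1)
        ≤ 2 * (4 * β + 1) ^ n * ((4 * β + 1) * ((Fset p nd C' i h0).card + 1)) :=
          Nat.mul_le_mul_left _ h1
      _ = 2 * (4 * β + 1) ^ (n+1) * ((Fset p nd C' i h0).card + 1) := by ring
  refine ⟨C', S', d, hR', hsub, hd, hd', hS'2, hsz', hFsub, ?_⟩
  -- some label of `S'` is old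
  have hex : ∃ x ∈ S', x ∉ h '' A := by
    by_contra hcon
    push Not at hcon
    apply hNA C' S' hR' (hsub.trans hCA) hcon
    refine hsz'.trans ?_
    apply Nat.mul_le_mul_right
    apply Nat.mul_le_mul_left
    exact Nat.pow_le_pow_right (by omega) hn
  obtain ⟨x, hxS, hxA⟩ := hex
  have hxd : x ≠ d := by
    rintro rfl
    exact hxA (Set.image_mono hCA hd)
  have hxOld : x ∈ Old := (hS'2 x hxS).resolve_right hxA
  have hS'eq : ({d, x} : Finset W) = S' := by
    apply Finset.eq_of_subset_of_card_le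
    · intro z hz
      rw [Finset.mem_insert, Finset.mem_singleton] at hz
      rcases hz with rfl | rfl
      · exact hdS'
      · exact hxS
    · rw [Finset.card_pair (Ne.symm hxd)]
      exact hR'.card
  apply dich st hs hi hh (by have := hR'.card; omega) hR'.comp.cl
  intro ℓ hℓ
  rw [← hS'eq, Finset.mem_insert, Finset.mem_singleton] at hℓ
  rcases hℓ with rfl | rfl
  · exact Or.inl rfl
  · exact Or.inr hxOld

theorem main1 (st : Setup p G H h y c R β κ) (hs : HS p G nd) {i h0 : ℕ} (hi : 1 ≤ i)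
    (hh : p.HatOK i h0) {A : Set V} {Old : Finset W} (hA : Region G H h A Old) {θ M : ℕ}
    (hθ : ({v | h v ∈ Old} ∩ region p nd i h0).ncard ≤ θ)
    (hown : ∀ v < p.L, own p nd A i 0 (h0 + v * p.L ^ i))
    (hM : M = 2 * (p.k * 2 ^ (R+2)) + 1)
    (hPI : 2 * (4 * β + 1) ^ M * (θ + 4 * β * M + 1) < p.L) :
    ∃ (C : Set V) (S : Finset W), Region G H h C S ∧ C ⊆ A ∧ (∀ ℓ ∈ S, ℓ ∈ h '' A) ∧
      p.L ≤ 2 * (4 * β + 1) ^ M * ((Fset p nd C i h0).card + 1) := by
  by_contra hcon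
  have hNA : NA p G H h nd (4 * β) M i h0 A := by
    intro C S h1 h2 h3 h4
    exact hcon ⟨C, S, h1, h2, h3, h4⟩
  have hbM : 1 ≤ M := by omega
  -- size facts
  have hbig : ∀ n ≤ M, ∀ C : Set V,
      p.L ≤ 2 * (4 * β + 1) ^ n * ((Fset p nd C i h0).card + 1) →
      θ + 4 * β * M < (Fset p nd C i h0).card := by
    intro n hn C hsz
    have h1 : 2 * (4 * β + 1) ^ n * ((Fset p nd C i h0).card + 1) ≤
        2 * (4 * β + 1) ^ M * ((Fset p nd C i h0).card + 1) := by
      apply Nat.mul_le_mul_right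
      apply Nat.mul_le_mul_left
      exact Nat.pow_le_pow_right (by omega) hn
    have h2 := lt_of_lt_of_le hPI (hsz.trans h1)
    have h3 := lt_of_mul_lt_mul_left h2 (Nat.zero_le _)
    omega
  have hβM : 4 * β ≤ 4 * β * M := Nat.le_mul_of_pos_right _ (by omega)
  -- the minimal state
  let P : ℕ → Prop := fun n => ∃ (C : Set V) (S : Finset W), C.ncard = n ∧ Region G H h C S ∧ C ⊆ A ∧
    (∀ ℓ ∈ S, ℓ ∈ Old ∨ ℓ ∈ h '' A) ∧ p.L ≤ 2 * (Fset p nd C i h0).card
  have hP : ∃ n, P n := by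
    refine ⟨_, A, Old, rfl, hA, subset_rfl, fun ℓ hℓ => Or.inl hℓ, ?_⟩
    have : Fset p nd A i h0 = Finset.range p.L := by
      apply Finset.Subset.antisymm Fset_sub
      intro v hv
      rw [Finset.mem_range] at hv
      exact mem_Fset.mpr ⟨hv, hown v hv⟩
    rw [this, Finset.card_range]
    omega
  classical
  obtain ⟨C0, S0, hC0n, hR0, hC0A, hS0, hsz0⟩ := Nat.find_spec hP
  have hmin : ∀ (C : Set V) (S : Finset W), Region G H h C S → C ⊆ C0 → C ≠ C0 →
      (∀ ℓ ∈ S, ℓ ∈ Old ∨ ℓ ∈ h '' A) → 2 * (Fset p nd C i h0).card < p.L := by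
    intro C S h1 h2 h3 h4
    by_contra h5
    have h6 : C.ncard < C0.ncard := Set.ncard_lt_ncard (h2.ssubset_of_ne h3) (Set.toFinite _)
    rw [hC0n] at h6
    exact Nat.find_min hP h6 ⟨C, S, rfl, h1, h2.trans hC0A, h4, by omega⟩
  have hsz0' : p.L ≤ 2 * (4 * β + 1) ^ 0 * ((Fset p nd C0 i h0).card + 1) := by
    rw [pow_zero]; omega
  -- the induction
  have hind : ∀ n, 1 ≤ n → n ≤ M → ∃ (C : Set V) (S : Finset W) (Da Db : Finset W)
      (Ex F1 : Finset ℕ), Region G H h C S ∧ C ⊆ A ∧ (∀ ℓ ∈ S, ℓ ∈ Old ∨ ℓ ∈ h '' A) ∧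
      p.L ≤ 2 * (4 * β + 1) ^ n * ((Fset p nd C i h0).card + 1) ∧
      Da.card + Db.card = n ∧ (∀ ℓ ∈ Da, ℓ ∉ h '' C) ∧ (∀ ℓ ∈ Db, ℓ ∉ h '' C) ∧
      Ex.card ≤ θ + 4 * β * n ∧ HitH p nd R {v | h v ∈ Old} i h0 ⊆ Ex ∧
      (∀ ℓ ∈ Da, ∀ v ∈ Fset p nd C i h0, v ∉ Ex → Hits p h nd R i h0 ℓ v) ∧
      (∀ ℓ ∈ Db, ∀ v < p.L, v ∉ F1 → v ∉ Ex → Hits p h nd R i h0 ℓ v) ∧
      Fset p nd C i h0 ⊆ F1 ∧ 2 * F1.card < p.L := by
    intro n hn1
    induction n, hn1 using Nat.le_induction with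
    | base =>
      intro _
      obtain ⟨C', S', d, hR', hsub, hd, hd', hS', hsz', hFsub, hab⟩ :=
        one' st hs hi hh hNA hR0 hC0A hS0 (n := 0) hbM hsz0'
          (by have := hbig 0 (by omega) C0 hsz0'; omega)
      have hne : C' ≠ C0 := by
        rintro rfl; exact hd' hd
      have hbc := bad_card hs st.hlam (st.small S' (by have := hR'.card; omega)) hi hh
      have hhc := hit_card hs st.hRl hθ hi hh
      have hEx : (HitH p nd R {v | h v ∈ Old} i h0 ∪ BadH p nd {v | h v ∈ S'} i h0).card ≤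
          θ + 4 * β * 1 := by
        refine (Finset.card_union_le _ _).trans ?_
        omega
      rcases hab with hab | hab
      · refine ⟨C', S', {d}, ∅, HitH p nd R {v | h v ∈ Old} i h0 ∪ BadH p nd {v | h v ∈ S'} i h0,
          Fset p nd C' i h0, hR', hsub.trans hC0A, hS', hsz', by simp, ?_, by simp, hEx,
          Finset.subset_union_left, ?_, by simp, subset_rfl,
          hmin C' S' hR' hsub hne hS'⟩
        · intro ℓ hℓ
          rw [Finset.mem_singleton] at hℓ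
          rw [hℓ]; exact hd'
        · intro ℓ hℓ v hv hvE
          rw [Finset.mem_singleton] at hℓ
          rw [hℓ]
          rw [Finset.mem_union, not_or] at hvE
          exact hab v hv hvE.1 hvE.2
      · refine ⟨C', S', ∅, {d}, HitH p nd R {v | h v ∈ Old} i h0 ∪ BadH p nd {v | h v ∈ S'} i h0,
          Fset p nd C' i h0, hR', hsub.trans hC0A, hS', hsz', by simp, by simp, ?_, hEx,
          Finset.subset_union_left, by simp, ?_, subset_rfl,
          hmin C' S' hR' hsub hne hS'⟩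
        · intro ℓ hℓ
          rw [Finset.mem_singleton] at hℓ
          rw [hℓ]; exact hd'
        · intro ℓ hℓ v hv hvF hvE
          rw [Finset.mem_singleton] at hℓ
          rw [hℓ]
          rw [Finset.mem_union, not_or] at hvE
          exact hab v hv hvF hvE.1 hvE.2
    | succ n hn1 ih =>
      intro hnM
      obtain ⟨C, S, Da, Db, Ex, F1, hR, hCA, hS, hsz, hDn, hDa, hDb, hExc, hHE, hDaH, hDbH, hFF1, hF1⟩ :=
        ih (by omega)
      obtain ⟨C', S', d, hR', hsub, hd, hd', hS', hsz', hFsub, hab⟩ :=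
        one' st hs hi hh hNA hR hCA hS (n := n) hnM hsz
          (by have := hbig n (by omega) C hsz; omega)
      have hbc := bad_card hs st.hlam (st.small S' (by have := hR'.card; omega)) hi hh
      have hEx : (Ex ∪ BadH p nd {v | h v ∈ S'} i h0).card ≤ θ + 4 * β * (n + 1) := by
        refine (Finset.card_union_le _ _).trans ?_
        have : 4 * β * (n + 1) = 4 * β * n + 4 * β := by ring
        omega
      have hdDa : d ∉ Da := fun h1 => hDa d h1 hd
      have hdDb : d ∉ Db := fun h1 => hDb d h1 hd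
      have himg : h '' C' ⊆ h '' C := Set.image_mono hsub
      rcases hab with hab | hab
      · refine ⟨C', S', insert d Da, Db, Ex ∪ BadH p nd {v | h v ∈ S'} i h0, F1, hR',
          hsub.trans hCA, hS', hsz', ?_, ?_, fun ℓ hℓ h1 => hDb ℓ hℓ (himg h1), hEx,
          hHE.trans Finset.subset_union_left, ?_, ?_, hFsub.trans hFF1, hF1⟩
        · rw [Finset.card_insert_of_notMem hdDa]; omega
        · intro ℓ hℓ
          rcases Finset.mem_insert.mp hℓ with rfl | hℓ
          · exact hd'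
          · exact fun h1 => hDa ℓ hℓ (himg h1)
        · intro ℓ hℓ v hv hvE
          rw [Finset.mem_union, not_or] at hvE
          rcases Finset.mem_insert.mp hℓ with rfl | hℓ
          · exact hab v hv (fun h1 => hvE.1 (hHE h1)) hvE.2
          · exact hDaH ℓ hℓ v (hFsub hv) hvE.1
        · intro ℓ hℓ v hv hvF hvE
          rw [Finset.mem_union, not_or] at hvE
          exact hDbH ℓ hℓ v hv hvF hvE.1
      · refine ⟨C', S', Da, insert d Db, Ex ∪ BadH p nd {v | h v ∈ S'} i h0, F1, hR',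
          hsub.trans hCA, hS', hsz', ?_, fun ℓ hℓ h1 => hDa ℓ hℓ (himg h1), ?_, hEx,
          hHE.trans Finset.subset_union_left, ?_, ?_, hFsub.trans hFF1, hF1⟩
        · rw [Finset.card_insert_of_notMem hdDb]; omega
        · intro ℓ hℓ
          rcases Finset.mem_insert.mp hℓ with rfl | hℓ
          · exact hd'
          · exact fun h1 => hDb ℓ hℓ (himg h1)
        · intro ℓ hℓ v hv hvE
          rw [Finset.mem_union, not_or] at hvE
          exact hDaH ℓ hℓ v (hFsub hv) hvE.1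
        · intro ℓ hℓ v hv hvF hvE
          rw [Finset.mem_union, not_or] at hvE
          rcases Finset.mem_insert.mp hℓ with rfl | hℓ
          · exact hab v hv (fun h1 => hvF (hFF1 (hFsub h1))) (fun h1 => hvE.1 (hHE h1)) hvE.2
          · exact hDbH ℓ hℓ v hv hvF hvE.1
  obtain ⟨C, S, Da, Db, Ex, F1, hR, hCA, hS, hsz, hDn, hDa, hDb, hExc, hHE, hDaH, hDbH, hFF1, hF1⟩ :=
    hind M hbM le_rfl
  have hFbig := hbig M le_rfl C hsz
  -- a height for the labels of type (a)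
  have ha : Da.card ≤ p.k * 2 ^ (R+2) := by
    have : ∃ v ∈ Fset p nd C i h0, v ∉ Ex := by
      by_contra hall
      push Not at hall
      have := Finset.card_le_card (fun v hv => hall v hv : Fset p nd C i h0 ⊆ Ex)
      omega
    obtain ⟨v, hv, hvE⟩ := this
    exact hits_card hs st.hRl hi hh (mem_Fset.mp hv).1 Da (fun ℓ hℓ => hDaH ℓ hℓ v hv hvE)
  have hb : Db.card ≤ p.k * 2 ^ (R+2) := by
    have : ∃ v ∈ Finset.range p.L, v ∉ F1 ∪ Ex := by
      by_contra hall
      push Not at hall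
      have h1 := Finset.card_le_card (fun v hv => hall v hv : Finset.range p.L ⊆ F1 ∪ Ex)
      have h2 := Finset.card_union_le F1 Ex
      rw [Finset.card_range] at h1
      have h3 : 1 ≤ (4 * β + 1) ^ M := Nat.one_le_pow _ _ (by omega)
      have h4 : 2 * 1 * (θ + 4 * β * M + 1) ≤ 2 * (4 * β + 1) ^ M * (θ + 4 * β * M + 1) := by
        apply Nat.mul_le_mul_right
        exact Nat.mul_le_mul_left _ h3
      omega
    obtain ⟨v, hv, hvE⟩ := this
    rw [Finset.mem_range] at hv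
    rw [Finset.mem_union, not_or] at hvE
    exact hits_card hs st.hRl hi hh hv Db (fun ℓ hℓ => hDbH ℓ hℓ v hv hvE.1 hvE.2)
  omega

theorem main2 (st : Setup p G H h y c R β κ) (hs : HS p G nd) {i h0 : ℕ}
    (hh : p.HatOK (i+1) h0) {C : Set V} {S : Finset W} (hR : Region G H h C S) {M : ℕ}
    (hM : M = 2 * (p.k * 2 ^ (R+2)) + 1)
    (hF : 4 * β < (Fset p nd C (i+1) h0).card)
    (hsz : p.L ≤ 2 * (4 * β + 1) ^ M * ((Fset p nd C (i+1) h0).card + 1)) :
    ∃ v < p.L, p.dec v ∧ own p nd C (i+1) 0 (h0 + v * p.L ^ (i+1)) ∧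
      good p nd {v | h v ∈ S} (i+1) 0 (h0 + v * p.L ^ (i+1)) ∧
      ({v | h v ∈ S} ∩ region p nd i (h0 + v * p.L ^ (i+1))).ncard ≤ 2 ^ (p.lam - κ) := by
  have hSc : S.card ≤ 3 := by have := hR.card; omega
  have hsmall := st.small S hSc
  have hbad := bad_card hs st.hlam hsmall (by omega : 1 ≤ i + 1) hh
  obtain ⟨a, m, hm, ham, hrun, hcard⟩ := exists_run p.L (4 * β) (Fset p nd C (i+1) h0)
    (BadH p nd {v | h v ∈ S} (i+1) h0) Fset_sub hbad
    (fun v hv h1 h2 => Fset_prop hs hR.comp.cl (by omega) hh hv h1 h2) hF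
  set g := 2 ^ (p.lam - p.nu) with hg
  set D := β * 2 ^ κ with hD
  have hgpos : 0 < g := Nat.pow_pos (by norm_num)
  have hLg : 2 ^ p.nu * g = p.L := by
    rw [hg, ← pow_add]; unfold Par.L; congr 1; have := p.hnu; omega
  have hnu := st.hnu
  have hM1 : 2 * (p.k * 2 ^ (R+2)) + 2 = M + 1 := by omega
  rw [hM1] at hnu
  have h1 : 4 * (4 * β + 1) ^ (M+1) * (D + 3) * g ≤ 2 * (4 * β + 1) ^ (M+1) * (m + 1) := by
    calc 4 * (4 * β + 1) ^ (M+1) * (D + 3) * g ≤ 2 ^ p.nu * g := Nat.mul_le_mul_right _ hnu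
      _ = p.L := hLg
      _ ≤ 2 * (4 * β + 1) ^ M * ((Fset p nd C (i+1) h0).card + 1) := hsz
      _ ≤ 2 * (4 * β + 1) ^ M * ((4 * β + 1) * (m + 1)) := by
          apply Nat.mul_le_mul_left
          have : (4 * β + 1) * (m + 1) = (4 * β + 1) * m + (4 * β + 1) := by ring
          omega
      _ = 2 * (4 * β + 1) ^ (M+1) * (m + 1) := by ring
  have h2 : 2 * (4 * β + 1) ^ (M+1) * (2 * ((D + 3) * g)) ≤ 2 * (4 * β + 1) ^ (M+1) * (m + 1) := by
    calc 2 * (4 * β + 1) ^ (M+1) * (2 * ((D + 3) * g)) = 4 * (4 * β + 1) ^ (M+1) * (D + 3) * g := by ring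
      _ ≤ _ := h1
  have h3 : 2 * ((D + 3) * g) ≤ m + 1 := by
    apply Nat.le_of_mul_le_mul_left h2
    positivity
  have h4 : (D + 2) * g ≤ m := by
    have : (D + 3) * g = (D + 2) * g + g := by ring
    omega
  have h5 := card_dec g a m D hgpos h4
  set I := (Finset.Ico a (a+m)).filter (fun v => v ≠ 0 ∧ g ∣ v) with hI
  have hIv : ∀ v ∈ I, a ≤ v ∧ v < a + m ∧ v < p.L ∧ p.dec v := by
    intro v hv
    rw [hI, Finset.mem_filter, Finset.mem_Ico] at hv
    exact ⟨hv.1.1, hv.1.2, by omega, hv.2.1, hv.2.2⟩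
  have hex : ∃ v ∈ I, ({v | h v ∈ S} ∩ region p nd i (h0 + v * p.L ^ (i+1))).ncard ≤
      2 ^ (p.lam - κ) := by
    by_contra hall
    push Not at hall
    have h6 := count_disjoint I (fun v => region p nd i (h0 + v * p.L ^ (i+1)))
      {v | h v ∈ S} (2 ^ (p.lam - κ) + 1) (β * p.L) hsmall ?_ ?_
    · have hLκ : 2 ^ κ * 2 ^ (p.lam - κ) = p.L := by
        rw [← pow_add]; unfold Par.L; congr 1; have := st.hκl; omega
      rw [← hLκ] at h6
      have h7 : (D + 1) * (2 ^ (p.lam - κ) + 1) ≤ D * 2 ^ (p.lam - κ) := by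
        calc (D + 1) * (2 ^ (p.lam - κ) + 1) ≤ I.card * (2 ^ (p.lam - κ) + 1) :=
              Nat.mul_le_mul_right _ h5
          _ ≤ β * (2 ^ κ * 2 ^ (p.lam - κ)) := h6
          _ = D * 2 ^ (p.lam - κ) := by rw [hD]; ring
      have h8 : ∀ x y : ℕ, x * y < (x + 1) * (y + 1) := fun x y => by nlinarith
      exact absurd h7 (not_le.mpr (h8 D (2 ^ (p.lam - κ))))
    · intro v hv v' hv' hne
      have hv1 := hIv v hv
      have hv1' := hIv v' hv'
      apply region_disjoint hs (hat_child hh hv1.2.2.1 hv1.2.2.2) (hat_child hh hv1'.2.2.1 hv1'.2.2.2)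
      intro heq
      apply hne
      have : v * p.L ^ (i+1) = v' * p.L ^ (i+1) := by omega
      exact Nat.eq_of_mul_eq_mul_right (Nat.pow_pos p.L_pos) this
    · intro v hv
      have := hall v hv
      show 2 ^ (p.lam - κ) + 1 ≤ _
      omega
  obtain ⟨v, hvI, hv⟩ := hex
  obtain ⟨h6, h7, h8, h9⟩ := hIv v hvI
  obtain ⟨h10, h11⟩ := hrun v h6 h7
  rw [mem_BadH] at h11
  push Not at h11
  have hk := p.hk
  exact ⟨v, h8, h9, (mem_Fset.mp h10).2, h11 h8 0 (by omega), hv⟩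

/-- the chain of hats -/
theorem chain (st : Setup p G H h y c R β κ) (hs : HS p G nd) (nb : ℕ → Set V)
    (hnb1 : ∀ a, p.BaseOK a → (nb a).ncard ≤ 2 ^ (R+2))
    (hnb2 : ∀ a, p.BaseOK a → nearBase p nd R a ⊆ nb a)
    (hnb3 : ∀ a, p.BaseOK a → ∀ X A : Set V, Cl G X A → nd 0 a ∈ A → Disjoint (nb a) X → nb a ⊆ A)
    (i : ℕ) : ∀ (A : Set V) (S : Finset W) (h0 m : ℕ), Region G H h A S → p.HatOK i h0 →
      (1 ≤ i → ({v | h v ∈ S} ∩ region p nd i h0).ncard ≤ 2 ^ (p.lam - κ) ∧ own p nd A i 0 h0) →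
      1 ≤ m → (∀ a, p.BaseOK a → h0 ≤ a → a < h0 + p.L ^ (i+1) →
        m ≤ (h '' (nb a) \ h '' A).ncard) → m + i ≤ 2 ^ (R+2) := by
  induction i with
  | zero =>
    intro A S h0 m hR hh _ hm hbase
    have hb := hat_zero.mp hh
    have h1 := hbase h0 hb le_rfl (by have := p.L_pos; simp; omega)
    have h2 : (h '' (nb h0) \ h '' A).ncard ≤ (h '' (nb h0)).ncard :=
      Set.ncard_le_ncard Set.sdiff_subset (Set.toFinite _)
    have h3 : (h '' (nb h0)).ncard ≤ (nb h0).ncard := Set.ncard_image_le (Set.toFinite _)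
    have h4 := hnb1 h0 hb
    omega
  | succ i ih =>
    intro A S h0 m hR hh hcl hm hbase
    obtain ⟨hθ, hown⟩ := hcl (by omega)
    have hk := p.hk
    have hi1 : 1 ≤ i + 1 := by omega
    have hθL : 4 * 2 ^ (p.lam - κ) < p.L := by
      have hLκ : 2 ^ κ * 2 ^ (p.lam - κ) = p.L := by
        rw [← pow_add]; unfold Par.L; congr 1; have := st.hκl; omega
      have h8 : 2 ^ 3 ≤ 2 ^ κ := Nat.pow_le_pow_right (by norm_num) st.hκ
      have hpos : 0 < 2 ^ (p.lam - κ) := Nat.pow_pos (by norm_num)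
      have : 2 ^ 3 * 2 ^ (p.lam - κ) ≤ 2 ^ κ * 2 ^ (p.lam - κ) := Nat.mul_le_mul_right _ h8
      omega
    have hSc : S.card ≤ 3 := by have := hR.card; omega
    have hownall : ∀ v < p.L, own p nd A (i+1) 0 (h0 + v * p.L ^ (i+1)) := by
      intro v hv
      exact (hat_all hs st.lip (st.thin S hSc) st.hR st.hRl hR.comp.cl hi1 hh (by omega)
        (by omega) hv).mpr hown
    obtain ⟨C, S', hR', hCA, hS', hsz⟩ := main1 st hs hi1 hh hR hθ hownall rfl st.hPI
    have hF : 4 * β < (Fset p nd C (i+1) h0).card := by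
      have h2 := lt_of_lt_of_le st.hPI hsz
      have h3 := lt_of_mul_lt_mul_left h2 (Nat.zero_le _)
      have h4 : 4 * β ≤ 4 * β * (2 * (p.k * 2 ^ (R+2)) + 1) := Nat.le_mul_of_pos_right _ (by omega)
      omega
    obtain ⟨v, hvL, hdec, hownv, hgoodv, hθ'⟩ := main2 st hs hh hR' rfl hF hsz
    have hh' := hat_child hh hvL hdec
    have hSc' : S'.card ≤ 3 := by have := hR'.card; omega
    have hX' := st.thin S' hSc'
    have hcl' : 1 ≤ i → own p nd C i 0 (h0 + v * p.L ^ (i+1)) := by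
      intro hi
      exact (hat_parent hs st.lip hX' st.hR st.hRl hR'.comp.cl hi hh' (by omega) hgoodv).mp hownv
    have key := ih C S' (h0 + v * p.L ^ (i+1)) (m+1) hR' hh' (fun hi => ⟨hθ', hcl' hi⟩) (by omega) ?_
    · omega
    intro a ha h1 h2
    -- the base vertex `a` is below `h0`
    have ha1 : h0 ≤ a := by omega
    have ha2 : a < h0 + p.L ^ (i+1+1) := by
      have h3 : (v + 1) * p.L ^ (i+1) ≤ p.L * p.L ^ (i+1) := Nat.mul_le_mul_right _ hvL
      have h4 : (v + 1) * p.L ^ (i+1) = v * p.L ^ (i+1) + p.L ^ (i+1) := by ring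
      have h5 : p.L * p.L ^ (i+1) = p.L ^ (i+1+1) := by ring
      omega
    have hmA := hbase a ha ha1 ha2
    -- `C` owns the cell above `a`
    have hgo : good p nd {v | h v ∈ S'} 1 0 a ∧ own p nd C 1 0 a := by
      rcases Nat.eq_zero_or_pos i with rfl | hi
      · have haeq : a = h0 + v * p.L ^ (0+1) := by
          have hb0 := (hat_zero.mp hh').1
          obtain ⟨e, he⟩ := hb0
          obtain ⟨e', he'⟩ := ha.1
          rw [he] at h1 h2 ⊢
          rw [he'] at h1 h2 ⊢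
          have h6 : e ≤ e' := Nat.le_of_mul_le_mul_left h1 p.L_pos
          have h7 : p.L * e' < p.L * (e + 1) := by
            calc p.L * e' < p.L * e + p.L ^ (0+1) := h2
              _ = p.L * (e + 1) := by ring
          have h8 := lt_of_mul_lt_mul_left h7 (Nat.zero_le _)
          have : e' = e := by omega
          rw [this]
        rw [haeq]
        exact ⟨hgoodv, hownv⟩
      · obtain ⟨h6, h7⟩ := giant hs st.lip hX' st.hR st.hRl hR'.comp.cl hi hh' (by omega) ha h1 h2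
        exact ⟨h6, h7.mpr (hcl' hi)⟩
    -- some label of `S'` hits `nb a`
    have hhit : ∃ u ∈ nb a, h u ∈ S' := by
      by_contra hno
      push Not at hno
      have hd : Disjoint (nb a) {v | h v ∈ S'} := by
        rw [Set.disjoint_left]
        intro u hu huS
        exact hno u hu huS
      have hd2 : Disjoint (nearBase p nd R a) {v | h v ∈ S'} := hd.mono_left (hnb2 a ha)
      have h6 := (base_up hs st.lip hX' st.hR st.hRl hR'.comp.cl ha hgo.1 hd2).mp hgo.2
      have h7 := hnb3 a ha _ _ hR'.comp.cl h6 hd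
      have h8 : (h '' (nb a) \ h '' A).Nonempty := by
        rw [← Set.ncard_pos (Set.toFinite _)]
        omega
      obtain ⟨ℓ, ⟨u, hu, rfl⟩, hℓ⟩ := h8
      exact hℓ ⟨u, hCA (h7 hu), rfl⟩
    obtain ⟨u, hu, huS⟩ := hhit
    have hnotC : h u ∉ h '' C := by
      rintro ⟨w, hw, hwu⟩
      apply Set.disjoint_left.mp hR'.comp.disj hw
      show h w ∈ S'
      rw [hwu]; exact huS
    have hsub : insert (h u) (h '' (nb a) \ h '' A) ⊆ h '' (nb a) \ h '' C := by
      rw [Set.insert_subset_iff]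
      refine ⟨⟨⟨u, hu, rfl⟩, hnotC⟩, ?_⟩
      intro ℓ hℓ
      exact ⟨hℓ.1, fun h9 => hℓ.2 (Set.image_mono hCA h9)⟩
    have h9 := Set.ncard_le_ncard hsub (Set.toFinite _)
    rw [Set.ncard_insert_of_notMem (fun h10 => h10.2 (hS' _ huS)) (Set.toFinite _)] at h9
    omega

/-- the chain of hats gives a contradiction -/
theorem chain_false (st : Setup p G H h y c R β κ) (hs : HS p G nd) (nb : ℕ → Set V)
    (hnb1 : ∀ a, p.BaseOK a → (nb a).ncard ≤ 2 ^ (R+2))
    (hnb2 : ∀ a, p.BaseOK a → nearBase p nd R a ⊆ nb a)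
    (hnb3 : ∀ a, p.BaseOK a → ∀ X A : Set V, Cl G X A → nd 0 a ∈ A → Disjoint (nb a) X → nb a ⊆ A)
    {A : Set V} {S : Finset W} {h0 : ℕ} (hR : Region G H h A S) (hh : p.HatOK p.N h0)
    (hθ : ({v | h v ∈ S} ∩ region p nd p.N h0).ncard ≤ 2 ^ (p.lam - κ))
    (hown : own p nd A p.N 0 h0)
    (hbase : ∀ a, p.BaseOK a → h0 ≤ a → a < h0 + p.L ^ (p.N+1) →
      ¬ Disjoint (nb a) {v | h v ∈ S}) : False := by
  have := chain st hs nb hnb1 hnb2 hnb3 p.N A S h0 1 hR hh (fun _ => ⟨hθ, hown⟩) le_rfl (by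
    intro a ha h1 h2
    have h3 := hbase a ha h1 h2
    rw [Set.not_disjoint_iff] at h3
    obtain ⟨u, hu, huS⟩ := h3
    have hm : h u ∈ h '' (nb a) \ h '' A := by
      refine ⟨⟨u, hu, rfl⟩, ?_⟩
      rintro ⟨w, hw, hwu⟩
      apply Set.disjoint_left.mp hR.comp.disj hw
      show h w ∈ S
      rw [hwu]; exact huS
    exact Nat.one_le_iff_ne_zero.mpr (Set.ncard_ne_zero_of_mem hm (Set.toFinite _)))
  have := st.hN
  omega

end

end Pool.Agent.MP3d
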