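import Mathlib

set_option autoImplicit false

namespace Pool.Agent.MP3d

theorem exists_run (L b : ℕ) (F Bad : Finset ℕ) (hF : F ⊆ Finset.range L) (hBad : Bad.card ≤ b)
    (hprop : ∀ v, v + 1 < L → v ∉ Bad → v + 1 ∉ Bad → (v ∈ F ↔ v + 1 ∈ F)) (hFb : b < F.card) :
    ∃ a m, 0 < m ∧ a + m ≤ L ∧ (∀ v, a ≤ v → v < a + m → v ∈ F ∧ v ∉ Bad) ∧
      F.card ≤ b + (b+1) * m := by
  classical
  set φ : ℕ → ℕ := fun v => (Bad.filter (fun w => w < v)).card with hφ
  have hmaps : ∀ v ∈ F \ Bad, φ v ∈ Finset.range (b+1) := by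
    intro v _
    rw [Finset.mem_range]
    exact lt_of_le_of_lt ((Finset.card_filter_le _ _).trans hBad) (Nat.lt_succ_self b)
  set s : ℕ → Finset ℕ := fun c => (F \ Bad).filter (fun v => φ v = c) with hs
  obtain ⟨c, -, hcmax⟩ := Finset.exists_max_image (Finset.range (b+1)) (fun c => (s c).card)
    ⟨0, Finset.mem_range.2 (Nat.succ_pos b)⟩
  have hsum : (F \ Bad).card = ∑ c ∈ Finset.range (b+1), (s c).card :=
    Finset.card_eq_sum_card_fiberwise hmaps
  have hle : (F \ Bad).card ≤ (b+1) * (s c).card := by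
    rw [hsum]
    refine (Finset.sum_le_card_nsmul _ _ _ hcmax).trans ?_
    simp
  have hFB : F.card ≤ (F \ Bad).card + b := by
    have h1 := Finset.card_le_card_sdiff_add_card (s := F) (t := Bad)
    omega
  have hne : (s c).Nonempty := by
    rw [← Finset.card_pos]
    rcases Nat.eq_zero_or_pos (s c).card with h0 | h0
    · rw [h0] at hle; omega
    · exact h0
  set a := (s c).min' hne with ha
  set t := (s c).max' hne with ht
  have hamem : a ∈ s c := Finset.min'_mem _ _
  have htmem : t ∈ s c := Finset.max'_mem _ _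
  have hat : a ≤ t := Finset.min'_le _ _ htmem
  have hmem : ∀ v ∈ s c, v ∈ F ∧ v ∉ Bad ∧ φ v = c := by
    intro v hv
    rw [hs, Finset.mem_filter, Finset.mem_sdiff] at hv
    exact ⟨hv.1.1, hv.1.2, hv.2⟩
  have hnb : ∀ v, a ≤ v → v ≤ t → v ∉ Bad := by
    intro v h1 h2 hv
    rcases Nat.lt_or_ge v t with h3 | h3
    · have hlt : φ a < φ t := by
        refine Finset.card_lt_card ?_
        rw [Finset.ssubset_iff_of_subset]
        · refine ⟨v, Finset.mem_filter.2 ⟨hv, h3⟩, ?_⟩
          rw [Finset.mem_filter]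
          rintro ⟨-, h4⟩
          omega
        · intro w hw
          rw [Finset.mem_filter] at hw ⊢
          exact ⟨hw.1, lt_of_lt_of_le hw.2 hat⟩
      have h5 := (hmem a hamem).2.2
      have h6 := (hmem t htmem).2.2
      omega
    · have h4 : v = t := le_antisymm h2 h3
      rw [h4] at hv
      exact (hmem t htmem).2.1 hv
  have htL : t < L := Finset.mem_range.1 (hF (hmem t htmem).1)
  have hinF : ∀ n, a + n ≤ t → a + n ∈ F := by
    intro n
    induction n with
    | zero => intro _; exact (hmem a hamem).1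
    | succ n ih =>
      intro h1
      have h2 := ih (by omega)
      have h3 := (hprop (a+n) (by omega) (hnb (a+n) (by omega) (by omega))
        (hnb (a+n+1) (by omega) (by omega))).1 h2
      exact h3
  refine ⟨a, t - a + 1, Nat.succ_pos _, by omega, ?_, ?_⟩
  · intro v h1 h2
    have h3 : v ≤ t := by omega
    refine ⟨?_, hnb v h1 h3⟩
    have := hinF (v - a) (by omega)
    rwa [Nat.add_sub_cancel' h1] at this
  · have hcard : (s c).card ≤ t - a + 1 := by
      have h1 : s c ⊆ Finset.Icc a t := by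
        intro v hv
        exact Finset.mem_Icc.2 ⟨Finset.min'_le _ _ hv, Finset.le_max' _ _ hv⟩
      have h2 := Finset.card_le_card h1
      rw [Nat.card_Icc] at h2
      omega
    have h3 : (b+1) * (s c).card ≤ (b+1) * (t - a + 1) := Nat.mul_le_mul_left _ hcard
    omega

theorem card_dec (g a m D : ℕ) (hg : 0 < g) (hm : (D + 2) * g ≤ m) :
    D < ((Finset.Ico a (a+m)).filter (fun v => v ≠ 0 ∧ g ∣ v)).card := by
  have h1 : ((Finset.range (D+1)).image (fun j => (a / g + 1 + j) * g)).card = D + 1 := by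
    rw [Finset.card_image_of_injective, Finset.card_range]
    intro x y hxy
    have h2 : a / g + 1 + x = a / g + 1 + y := Nat.eq_of_mul_eq_mul_right hg hxy
    omega
  have h2 : (Finset.range (D+1)).image (fun j => (a / g + 1 + j) * g) ⊆
      (Finset.Ico a (a+m)).filter (fun v => v ≠ 0 ∧ g ∣ v) := by
    intro v hv
    rw [Finset.mem_image] at hv
    obtain ⟨j, hj, rfl⟩ := hv
    rw [Finset.mem_range] at hj
    have h3 : a / g * g ≤ a := Nat.div_mul_le_self a g
    have h4 : a < (a / g + 1) * g := by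
      have := Nat.lt_mul_div_succ a hg
      rwa [mul_comm] at this
    rw [Finset.mem_filter, Finset.mem_Ico]
    have h5 : (a / g + 1) * g ≤ (a / g + 1 + j) * g := Nat.mul_le_mul_right _ (by omega)
    have h6 : j * g ≤ D * g := Nat.mul_le_mul_right _ (by omega)
    have h7 : (a / g + 1 + j) * g = a / g * g + g + j * g := by ring
    have h8 : (D + 2) * g = D * g + 2 * g := by ring
    refine ⟨⟨by omega, by omega⟩, ?_, Dvd.intro_left _ rfl⟩
    have : 0 < (a / g + 1 + j) * g := by positivity
    omega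
  have h3 := Finset.card_le_card h2
  omega

end Pool.Agent.MP3d
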