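import Mathlib

set_option autoImplicit false

namespace Pool.Agent.MP3d

/-- `H` has no `K4` minor (same form as in the frozen statement) -/
def NoK4 {W : Type*} (H : SimpleGraph W) : Prop :=
  ¬ ∃ f : Fin 4 → Set W, (∀ i, (H.induce (f i)).Connected) ∧
            (∀ i j, i ≠ j → Disjoint (f i) (f j)) ∧
            (∀ i j, i ≠ j → ∃ x ∈ f i, ∃ y ∈ f j, H.Adj x y)

namespace SepAux

variable {W : Type*}

/-- a connected set -/
def SCon (G : SimpleGraph W) (s : Set W) : Prop := (G.induce s).Connected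

theorem SCon.union {G : SimpleGraph W} {s t : Set W} (hs : SCon G s) (ht : SCon G t)
    (h : (s ∩ t).Nonempty) : SCon G (s ∪ t) :=
  SimpleGraph.induce_union_connected hs.preconnected ht.preconnected h

theorem SCon.union_adj {G : SimpleGraph W} {s t : Set W} (hs : SCon G s) (ht : SCon G t)
    {v w : W} (hv : v ∈ s) (hw : w ∈ t) (h : G.Adj v w) : SCon G (s ∪ t) :=
  SimpleGraph.connected_induce_union hs.preconnected ht.preconnected hv hw h

theorem con_singleton (G : SimpleGraph W) (a : W) : SCon G {a} := by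
  unfold SCon
  have hne : Nonempty ({a} : Set W) := ⟨⟨a, rfl⟩⟩
  refine ⟨?_⟩
  rintro ⟨u, hu⟩ ⟨v, hv⟩
  have hu' : u = a := hu
  have hv' : v = a := hv
  subst hu'
  subst hv'
  exact SimpleGraph.Reachable.refl _

theorem SCon.mono {G G' : SimpleGraph W} (h : G ≤ G') {s : Set W} (hs : SCon G s) : SCon G' s := by
  unfold SCon at *
  refine SimpleGraph.Connected.mono ?_ hs
  intro a b hab
  exact h hab

/-- first hitting lemma -/
theorem first_hit_walk {G : SimpleGraph W} (S T : Set W) (a b : W) (p : G.Walk a b)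
    (hp : ∀ v ∈ p.support, v ∈ S) (ha : a ∉ T) (hb : b ∈ T) :
    ∃ C : Set W, C ⊆ S \ T ∧ SCon G C ∧ a ∈ C ∧ ∃ c ∈ C, ∃ t ∈ S ∩ T, G.Adj c t := by
  induction p with
  | nil => exact absurd hb ha
  | @cons u v w h q ih =>
    by_cases hv : v ∈ T
    · refine ⟨{u}, ?_, con_singleton G u, rfl, u, rfl, v, ⟨?_, hv⟩, h⟩
      · intro z hz
        have hz' : z = u := hz
        subst hz'
        exact ⟨hp _ (by simp), ha⟩
      · exact hp _ (by simp)
    · obtain ⟨C, hC, hcon, hvC, c, hc, t, ht, hct⟩ :=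
        ih (fun z hz => hp z (by simp [hz])) hv hb
      refine ⟨{u} ∪ C, ?_, (con_singleton G u).union_adj hcon rfl hvC h, Or.inl rfl, c, Or.inr hc,
        t, ht, hct⟩
      rintro z (hz | hz)
      · have hz' : z = u := hz
        subst hz'
        exact ⟨hp _ (by simp), ha⟩
      · exact hC hz

theorem first_hit {G : SimpleGraph W} {S : Set W} (hS : SCon G S) (T : Set W) {a : W}
    (haS : a ∈ S) (haT : a ∉ T) {b : W} (hbS : b ∈ S) (hbT : b ∈ T) :
    ∃ C : Set W, C ⊆ S \ T ∧ SCon G C ∧ a ∈ C ∧ ∃ c ∈ C, ∃ t ∈ S ∩ T, G.Adj c t := by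
  obtain ⟨p⟩ := hS.preconnected ⟨a, haS⟩ ⟨b, hbS⟩
  let f : (G.induce S) →g G := (SimpleGraph.Embedding.induce S).toHom
  refine first_hit_walk S T a b (p.map f) ?_ haT hbT
  intro v hv
  erw [SimpleGraph.Walk.support_map] at hv
  obtain ⟨z, _, rfl⟩ := List.mem_map.1 hv
  exact z.2

/-- the state of the two path argument -/
def St (G : SimpleGraph W) (Z : Set W) (x w : W) : Prop :=
  ∃ A B : Set W, A ⊆ Z ∧ B ⊆ Z ∧ SCon G A ∧ SCon G B ∧ x ∈ A ∧ x ∈ B ∧ w ∈ A ∧ w ∉ B ∧
    (∃ b ∈ B, G.Adj b w) ∧ (∀ z, z ∈ A → z ∈ B → z = x)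

theorem step {G : SimpleGraph W} {Z : Set W} {x w w' : W} (hwx : w ≠ x) (hw'x : w' ≠ x)
    (hww' : G.Adj w w') (hst : St G Z x w)
    (hC : ∃ C : Set W, C ⊆ Z ∧ SCon G C ∧ x ∈ C ∧ w' ∈ C ∧ w ∉ C) : St G Z x w' := by
  obtain ⟨A, B, hAZ, hBZ, hA, hB, hxA, hxB, hwA, hwB, ⟨b, hb, hbw⟩, hAB⟩ := hst
  obtain ⟨C, hCZ, hCc, hxC, hw'C, hwC⟩ := hC
  by_cases hw'B : w' ∈ B
  · refine ⟨B, A, hBZ, hAZ, hB, hA, hxB, hxA, hw'B, ?_, ⟨w, hwA, hww'⟩, fun z h1 h2 => hAB z h2 h1⟩
    intro h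
    exact hw'x (hAB w' h hw'B)
  -- component of x in A minus w
  have hxw : x ∉ ({w} : Set W) := fun h => hwx (by simpa using Eq.symm h)
  obtain ⟨X0, hX0A, hX0c, hxX0, c0, hc0, t0, ht0, hct0⟩ := first_hit hA {w} hxA hxw hwA rfl
  have ht0w : t0 = w := ht0.2
  subst ht0w
  by_cases hw'X : ∃ X1 : Set W, X1 ⊆ A \ {t0} ∧ SCon G X1 ∧ x ∈ X1 ∧ w' ∈ X1
  · obtain ⟨X1, hX1A, hX1c, hxX1, hw'X1⟩ := hw'X
    refine ⟨X1, B ∪ {t0}, fun z hz => hAZ (hX1A hz).1, ?_, hX1c,
      hB.union_adj (con_singleton G t0) hb rfl hbw, hxX1, Or.inl hxB, hw'X1, ?_,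
      ⟨t0, Or.inr rfl, hww'⟩, ?_⟩
    · rintro z (hz | hz)
      · exact hBZ hz
      · have : z = t0 := hz
        subst this
        exact hAZ hwA
    · rintro (hz | hz)
      · exact hw'B hz
      · exact (hX1A hw'X1).2 hz
    · rintro z hz (hz2 | hz2)
      · exact hAB z (hX1A hz).1 hz2
      · exact absurd hz2 (hX1A hz).2
  · -- w' is outside of A_x ∪ B; walk in C
    have hw'T : w' ∉ X0 ∪ B := by
      rintro (h | h)
      · exact hw'X ⟨X0, hX0A, hX0c, hxX0, h⟩
      · exact hw'B h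
    obtain ⟨D, hDC, hDc, hw'D, c, hcD, t, ht, hct⟩ :=
      first_hit hCc (X0 ∪ B) hw'C hw'T hxC (Or.inl hxX0)
    have hDw : t0 ∉ D := fun h => hwC (hDC h).1
    have hDX : ∀ z ∈ D, z ∉ X0 := fun z hz h => (hDC hz).2 (Or.inl h)
    have hDB : ∀ z ∈ D, z ∉ B := fun z hz h => (hDC hz).2 (Or.inr h)
    have hX0w : t0 ∉ X0 := fun h => (hX0A h).2 rfl
    rcases ht.2 with htX | htB
    · refine ⟨X0 ∪ D, B ∪ {t0}, ?_, ?_, hX0c.union_adj hDc htX hcD hct.symm,
        hB.union_adj (con_singleton G t0) hb rfl hbw, Or.inl hxX0, Or.inl hxB, Or.inr hw'D, ?_,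
        ⟨t0, Or.inr rfl, hww'⟩, ?_⟩
      · rintro z (hz | hz)
        · exact hAZ (hX0A hz).1
        · exact hCZ (hDC hz).1
      · rintro z (hz | hz)
        · exact hBZ hz
        · have : z = t0 := hz
          subst this
          exact hAZ hwA
      · rintro (hz | hz)
        · exact hw'B hz
        · have : w' = t0 := hz
          subst this
          exact hDw hw'D
      · rintro z (hz | hz) (hz2 | hz2)
        · exact hAB z (hX0A hz).1 hz2
        · have : z = t0 := hz2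
          subst this
          exact absurd hz hX0w
        · exact absurd hz2 (hDB z hz)
        · have : z = t0 := hz2
          subst this
          exact absurd hz hDw
    · refine ⟨B ∪ D, X0 ∪ {t0}, ?_, ?_, hB.union_adj hDc htB hcD hct.symm,
        hX0c.union_adj (con_singleton G t0) hc0 rfl hct0, Or.inl hxB, Or.inl hxX0, Or.inr hw'D, ?_,
        ⟨t0, Or.inr rfl, hww'⟩, ?_⟩
      · rintro z (hz | hz)
        · exact hBZ hz
        · exact hCZ (hDC hz).1
      · rintro z (hz | hz)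
        · exact hAZ (hX0A hz).1
        · have : z = t0 := hz
          subst this
          exact hAZ hwA
      · rintro (hz | hz)
        · exact hDX _ hw'D hz
        · have : w' = t0 := hz
          subst this
          exact hDw hw'D
      · rintro z (hz | hz) (hz2 | hz2)
        · exact hAB z (hX0A hz2).1 hz
        · have : z = t0 := hz2
          subst this
          exact absurd hz hwB
        · exact absurd hz2 (hDX z hz)
        · have : z = t0 := hz2
          subst this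
          exact absurd hz hDw

theorem chain {G : SimpleGraph W} {Z : Set W} {x e : W}
    (hsep : ∀ d, d ≠ x → d ≠ e → ∃ C : Set W, C ⊆ Z ∧ SCon G C ∧ x ∈ C ∧ e ∈ C ∧ d ∉ C)
    {w : W} (q : G.Walk w e) (hq : q.IsPath) (hqZ : ∀ v ∈ q.support, v ∈ Z)
    (hqx : x ∉ q.support) (hst : St G Z x w) : St G Z x e := by
  induction q with
  | nil => exact hst
  | @cons u v e' h q ih =>
    rw [SimpleGraph.Walk.cons_isPath_iff] at hq
    have hvx : v ≠ x := by
      rintro rfl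
      exact hqx (by simp)
    have hux : u ≠ x := by
      rintro rfl
      exact hqx (by simp)
    have hue : u ≠ e' := by
      rintro rfl
      exact hq.2 (by simp)
    refine ih hsep hq.1 (fun z hz => hqZ z (by simp [hz])) (fun h => hqx (by simp [h]))
      (step hux hvx h hst ?_)
    obtain ⟨C, hCZ, hCc, hxC, heC, huC⟩ := hsep u hux hue
    refine ⟨C ∪ {z | z ∈ q.support}, ?_, ?_, Or.inl hxC, Or.inr (by simp), ?_⟩
    · rintro z (hz | hz)
      · exact hCZ hz
      · exact hqZ z (by simp [show z ∈ q.support from hz])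
    · exact hCc.union (SimpleGraph.Walk.connected_induce_support q) ⟨e', heC, by simp⟩
    · rintro (hz | hz)
      · exact huC hz
      · exact hq.2 hz

end SepAux

open SepAux in
theorem sep {W : Type*} (H : SimpleGraph W) (hK4 : NoK4 H)
    (Y : Set W) (hY : (H.induce Y).Connected) (x e : W) (hx : x ∉ Y) (he : e ∉ Y) (hxe : x ≠ e)
    (hxY : ∃ y ∈ Y, H.Adj x y) (heY : ∃ y ∈ Y, H.Adj e y)
    (Q : Set W) (hQ : (H.induce Q).Connected) (hxQ : x ∈ Q) (heQ : e ∈ Q) (hQY : Disjoint Q Y) :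
    ∃ d ∈ Y, ∀ Y' : Set W, Y' ⊆ Y → d ∉ Y' → (H.induce Y').Connected →
      (∃ y ∈ Y', H.Adj x y) → (∃ y ∈ Y', H.Adj e y) → False := by
  classical
  by_contra hno0
  have hno : ∀ d ∈ Y, ∃ Y' : Set W, Y' ⊆ Y ∧ d ∉ Y' ∧ (H.induce Y').Connected ∧
      (∃ y ∈ Y', H.Adj x y) ∧ (∃ y ∈ Y', H.Adj e y) := by
    intro d hd
    by_contra hc
    exact hno0 ⟨d, hd, fun Y' h1 h2 h3 h4 h5 => hc ⟨Y', h1, h2, h3, h4, h5⟩⟩
  -- the graph without the edge x e
  let G : SimpleGraph W :=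
    { Adj := fun a b => H.Adj a b ∧ (a ∈ Y ∨ b ∈ Y)
      symm := ⟨fun a b h => ⟨h.1.symm, h.2.symm⟩⟩
      loopless := ⟨fun a h => H.loopless.irrefl a h.1⟩ }
  have hGH : G ≤ H := fun a b h => h.1
  have hGxe : ∀ a b, G.Adj a b → a = x → b = e → False := by
    rintro a b h rfl rfl
    rcases h.2 with h | h
    · exact hx h
    · exact he h
  have conY : ∀ Y' : Set W, Y' ⊆ Y → (H.induce Y').Connected → SCon G Y' := by
    intro Y' hY' hc
    unfold SCon
    refine SimpleGraph.Connected.mono ?_ hc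
    rintro ⟨a, ha⟩ ⟨b, hb⟩ hab
    exact ⟨hab, Or.inl (hY' ha)⟩
  let Z : Set W := Y ∪ {x, e}
  have ext : ∀ Y' : Set W, Y' ⊆ Y → (H.induce Y').Connected → (∃ y ∈ Y', H.Adj x y) →
      (∃ y ∈ Y', H.Adj e y) → SCon G (({x} ∪ Y') ∪ {e}) := by
    rintro Y' hY' hc ⟨y1, hy1, h1⟩ ⟨y2, hy2, h2⟩
    have c1 : SCon G ({x} ∪ Y') :=
      (con_singleton G x).union_adj (conY Y' hY' hc) rfl hy1 ⟨h1, Or.inr (hY' hy1)⟩
    exact c1.union_adj (con_singleton G e) (Or.inr hy2) rfl ⟨h2.symm, Or.inl (hY' hy2)⟩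
  have hsep : ∀ d, d ≠ x → d ≠ e →
      ∃ C : Set W, C ⊆ Z ∧ SCon G C ∧ x ∈ C ∧ e ∈ C ∧ d ∉ C := by
    intro d hdx hde
    by_cases hdY : d ∈ Y
    · obtain ⟨Y', hY', hdY', hc, h1, h2⟩ := hno d hdY
      refine ⟨({x} ∪ Y') ∪ {e}, ?_, ext Y' hY' hc h1 h2, by simp, by simp, ?_⟩
      · rintro z ((hz | hz) | hz)
        · exact Or.inr (Or.inl hz)
        · exact Or.inl (hY' hz)
        · exact Or.inr (Or.inr hz)
      · rintro ((hz | hz) | hz)
        · exact hdx hz
        · exact hdY' hz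
        · exact hde hz
    · refine ⟨({x} ∪ Y) ∪ {e}, ?_, ext Y subset_rfl hY hxY heY, by simp, by simp, ?_⟩
      · rintro z ((hz | hz) | hz)
        · exact Or.inr (Or.inl hz)
        · exact Or.inl hz
        · exact Or.inr (Or.inr hz)
      · rintro ((hz | hz) | hz)
        · exact hdx hz
        · exact hdY hz
        · exact hde hz
  -- the initial path
  have hst : St G Z x e := by
    have hc := ext Y subset_rfl hY hxY heY
    obtain ⟨p0⟩ := hc.preconnected ⟨x, by simp⟩ ⟨e, by simp⟩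
    let f : (G.induce (({x} ∪ Y) ∪ {e})) →g G :=
      (SimpleGraph.Embedding.induce (({x} ∪ Y) ∪ {e})).toHom
    let p1 : G.Walk x e := p0.map f
    have hp1 : ∀ v ∈ p1.support, v ∈ Z := by
      intro v hv
      have hv2 : v ∈ (p0.map f).support := hv
      erw [SimpleGraph.Walk.support_map] at hv2
      obtain ⟨z, _, rfl⟩ := List.mem_map.1 hv2
      have h3 : (z : W) ∈ (({x} ∪ Y) ∪ {e} : Set W) := z.2
      rcases h3 with (hz | hz) | hz
      · exact Or.inr (Or.inl hz)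
      · exact Or.inl hz
      · exact Or.inr (Or.inr hz)
    have hp2 : ∀ v ∈ p1.bypass.support, v ∈ Z := fun v hv => hp1 v (p1.support_bypass_subset_support hv)
    have hpath := p1.bypass_isPath
    generalize p1.bypass = p at hp2 hpath
    cases p with
    | nil => exact absurd rfl hxe
    | @cons _ w _ h q =>
      rw [SimpleGraph.Walk.cons_isPath_iff] at hpath
      refine chain hsep q hpath.1 (fun v hv => hp2 v (by simp [hv])) hpath.2 ?_
      have hwx : w ≠ x := by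
        rintro rfl
        exact hpath.2 (by simp)
      have hxZ : x ∈ Z := Or.inr (Or.inl rfl)
      have hwZ : w ∈ Z := hp2 w (by simp)
      refine ⟨{x} ∪ {w}, {x}, ?_, ?_, (con_singleton G x).union_adj (con_singleton G w) rfl rfl h,
        con_singleton G x, by simp, by simp, by simp, hwx, ⟨x, rfl, h⟩, fun z _ hz => hz⟩
      · rintro z (hz | hz)
        · have : z = x := hz
          subst this
          exact hxZ
        · have : z = w := hz
          subst this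
          exact hwZ
      · intro z hz
        have : z = x := hz
        subst this
        exact hxZ
  obtain ⟨A, B, hAZ, hBZ, hA, hB, hxA, hxB, heA, heB, ⟨b, hb, hbe⟩, hAB⟩ := hst
  have hZ : ∀ z ∈ Z, z ≠ x → z ≠ e → z ∈ Y := by
    rintro z (hz | hz | hz) h1 h2
    · exact hz
    · exact absurd hz h1
    · exact absurd hz h2
  -- second set
  have hbx : b ≠ x := by
    rintro rfl
    exact hGxe _ _ hbe rfl rfl
  obtain ⟨DB, hDB, hDBc, hbDB, c1, hc1, t1, ht1, hct1⟩ := first_hit hB {x} hb hbx hxB rfl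
  have ht1x : t1 = x := ht1.2
  subst ht1x
  have hDBY : DB ⊆ Y := fun z hz =>
    hZ z (hBZ (hDB hz).1) (hDB hz).2 (fun h => heB (h ▸ (hDB hz).1))
  -- first set
  obtain ⟨D1, hD1, hD1c, heD1, c2, hc2, t2, ht2, hct2⟩ :=
    first_hit hA {t1} heA (fun h => hxe (Eq.symm h)) hxA rfl
  have ht2x : t2 = t1 := ht2.2
  subst ht2x
  have hc2e : c2 ≠ e := by
    rintro rfl
    exact hGxe _ _ hct2.symm rfl rfl
  obtain ⟨DA, hDA, hDAc, hc2DA, c3, hc3, t3, ht3, hct3⟩ := first_hit hD1c {e} hc2 hc2e heD1 rfl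
  have ht3e : t3 = e := ht3.2
  subst ht3e
  have hDAY : DA ⊆ Y := fun z hz =>
    hZ z (hAZ (hD1 (hDA hz).1).1) (hD1 (hDA hz).1).2 (hDA hz).2
  have hdis : ∀ z, z ∈ DA → z ∉ DB := by
    intro z h1 h2
    exact (hDB h2).2 (hAB z (hD1 (hDA h1).1).1 (hDB h2).1)
  -- enlarge DA inside Y
  have hDAH : SCon H DA := hDAc.mono hGH
  have hDBH : SCon H DB := hDBc.mono hGH
  obtain ⟨E, hE, hEc, hcE, c4, hc4, t4, ht4, hct4⟩ :=
    first_hit (show SCon H Y from hY) DB (hDAY hc2DA) (hdis _ hc2DA) (hDBY hbDB) hbDB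
  have hA1 : SCon H (DA ∪ E) := hDAH.union hEc ⟨c2, hc2DA, hcE⟩
  have hA1Y : ∀ z ∈ DA ∪ E, z ∈ Y := by
    rintro z (hz | hz)
    · exact hDAY hz
    · exact (hE hz).1
  have hA1B : ∀ z ∈ DA ∪ E, z ∉ DB := by
    rintro z (hz | hz)
    · exact hdis z hz
    · exact (hE hz).2
  -- the set Q'
  obtain ⟨Q', hQ', hQ'c, heQ', c5, hc5, t5, ht5, hct5⟩ :=
    first_hit (show SCon H Q from hQ) {t2} heQ (fun h => hxe (Eq.symm h)) hxQ rfl
  have ht5x : t5 = t2 := ht5.2
  subst ht5x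
  have hQ'Y : ∀ z ∈ Q', z ∉ Y := fun z hz h => Set.disjoint_left.1 hQY (hQ' hz).1 h
  apply hK4
  have d01 : Disjoint (DA ∪ E) DB := Set.disjoint_left.2 hA1B
  have d02 : Disjoint (DA ∪ E) {t5} := Set.disjoint_left.2 (fun z hz h => by
    have : z = t5 := h
    subst this
    exact hx (hA1Y _ hz))
  have d03 : Disjoint (DA ∪ E) Q' := Set.disjoint_left.2 (fun z hz h => hQ'Y z h (hA1Y z hz))
  have d12 : Disjoint DB {t5} := Set.disjoint_left.2 (fun z hz h => by
    have : z = t5 := h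
    subst this
    exact hx (hDBY hz))
  have d13 : Disjoint DB Q' := Set.disjoint_left.2 (fun z hz h => hQ'Y z h (hDBY hz))
  have d23 : Disjoint ({t5} : Set W) Q' := Set.disjoint_left.2 (fun z hz h => by
    have : z = t5 := hz
    subst this
    exact (hQ' h).2 rfl)
  have a01 : ∃ u ∈ DA ∪ E, ∃ v ∈ DB, H.Adj u v := ⟨c4, Or.inr hc4, t4, ht4.2, hct4⟩
  have a02 : ∃ u ∈ DA ∪ E, ∃ v ∈ ({t5} : Set W), H.Adj u v :=
    ⟨c2, Or.inl hc2DA, t5, rfl, hGH hct2⟩
  have a03 : ∃ u ∈ DA ∪ E, ∃ v ∈ Q', H.Adj u v := ⟨c3, Or.inl hc3, t3, heQ', hGH hct3⟩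
  have a12 : ∃ u ∈ DB, ∃ v ∈ ({t5} : Set W), H.Adj u v := ⟨c1, hc1, t5, rfl, hGH hct1⟩
  have a13 : ∃ u ∈ DB, ∃ v ∈ Q', H.Adj u v := ⟨b, hbDB, t3, heQ', hGH hbe⟩
  have a23 : ∃ u ∈ ({t5} : Set W), ∃ v ∈ Q', H.Adj u v := ⟨t5, rfl, c5, hc5, hct5.symm⟩
  have sw : ∀ s t : Set W, (∃ u ∈ s, ∃ v ∈ t, H.Adj u v) → ∃ u ∈ t, ∃ v ∈ s, H.Adj u v := by
    rintro s t ⟨u, hu, v, hv, h⟩
    exact ⟨v, hv, u, hu, h.symm⟩
  refine ⟨![DA ∪ E, DB, {t5}, Q'], ?_, ?_, ?_⟩
  · intro i
    fin_cases i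
    · exact hA1
    · exact hDBH
    · exact con_singleton H t5
    · exact hQ'c
  · intro i j hij
    fin_cases i <;> fin_cases j
    · exact absurd rfl hij
    · exact d01
    · exact d02
    · exact d03
    · exact d01.symm
    · exact absurd rfl hij
    · exact d12
    · exact d13
    · exact d02.symm
    · exact d12.symm
    · exact absurd rfl hij
    · exact d23
    · exact d03.symm
    · exact d13.symm
    · exact d23.symm
    · exact absurd rfl hij
  · intro i j hij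
    fin_cases i <;> fin_cases j
    · exact absurd rfl hij
    · exact a01
    · exact a02
    · exact a03
    · exact sw _ _ a01
    · exact absurd rfl hij
    · exact a12
    · exact a13
    · exact sw _ _ a02
    · exact sw _ _ a12
    · exact absurd rfl hij
    · exact a23
    · exact sw _ _ a03
    · exact sw _ _ a13
    · exact sw _ _ a23
    · exact absurd rfl hij

end Pool.Agent.MP3d
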