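import Pool.Agent.Lib.MP_3d7595_co.Defs
import Pool.Agent.Lib.MP_3d7595_co.Sep

set_option autoImplicit false

namespace Pool.Agent.MP3d

namespace StepAux

/-- the image of a connected set is connected -/
theorem image_conn {V W : Type} {G : SimpleGraph V} {H : SimpleGraph W}
    {h : V → W} (hom : ∀ u v, G.Adj u v → h u = h v ∨ H.Adj (h u) (h v))
    {A : Set V} (hA : (G.induce A).Connected) : (H.induce (h '' A)).Connected := by
  have key : ∀ (u v : A), (G.induce A).Walk u v →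
      (H.induce (h '' A)).Reachable ⟨h u, Set.mem_image_of_mem h u.2⟩
        ⟨h v, Set.mem_image_of_mem h v.2⟩ := by
    intro u v w
    induction w with
    | nil => exact SimpleGraph.Reachable.refl _
    | @cons u v w hadj _ ih =>
      refine SimpleGraph.Reachable.trans ?_ ih
      rcases hom u v (by simpa using hadj) with h1 | h1
      · have h2 : (⟨h u, Set.mem_image_of_mem h u.2⟩ : (h '' A : Set W)) =
          ⟨h v, Set.mem_image_of_mem h v.2⟩ := Subtype.ext h1
        rw [h2]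
      · exact SimpleGraph.Adj.reachable (by simpa using h1)
  obtain ⟨⟨a, ha⟩⟩ := hA.nonempty
  have : Nonempty (h '' A : Set W) := ⟨⟨h a, Set.mem_image_of_mem h ha⟩⟩
  refine SimpleGraph.Connected.mk ?_
  rintro ⟨_, u, hu, rfl⟩ ⟨_, v, hv, rfl⟩
  obtain ⟨w⟩ := hA.preconnected ⟨u, hu⟩ ⟨v, hv⟩
  exact key _ _ w

theorem adjLab_adj {V W : Type} {G : SimpleGraph V} {H : SimpleGraph W}
    {h : V → W} (hom : ∀ u v, G.Adj u v → h u = h v ∨ H.Adj (h u) (h v))
    {A : Set V} {x : W} (hx : x ∉ h '' A) (hl : AdjLab G h A x) : ∃ y ∈ h '' A, H.Adj x y := by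
  obtain ⟨a, ha, v, hav, rfl⟩ := hl
  rcases hom a v hav with h1 | h1
  · exact absurd (h1 ▸ Set.mem_image_of_mem h ha) hx
  · exact ⟨h a, Set.mem_image_of_mem h ha, h1.symm⟩

theorem adjLab_mono {V W : Type} {G : SimpleGraph V} {h : V → W} {C A : Set V} (hCA : C ⊆ A)
    {x : W} (hl : AdjLab G h C x) : AdjLab G h A x := by
  obtain ⟨a, ha, v, hav, hv⟩ := hl
  exact ⟨a, hCA ha, v, hav, hv⟩

theorem not_mem_image {V W : Type} {G : SimpleGraph V} {h : V → W} {A : Set V} {S : Finset W}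
    (hc : IsComp G {v | h v ∈ S} A) {x : W} (hx : x ∈ S) : x ∉ h '' A := by
  rintro ⟨a, ha, rfl⟩
  exact Set.disjoint_left.1 hc.disj ha hx

/-- the link of a pair `x, d` -/
theorem link_of_sep {W : Type} {H : SimpleGraph W} {Y : Set W} (hY : (H.induce Y).Connected)
    {x e : W} (heY : ∃ y ∈ Y, H.Adj e y)
    {Q : Set W} (hQ : (H.induce Q).Connected) (hxQ : x ∈ Q) (heQ : e ∈ Q) (hQY : Disjoint Q Y)
    {d : W} (hd : d ∈ Y)
    (hsep : ∀ Y' : Set W, Y' ⊆ Y → d ∉ Y' → (H.induce Y').Connected →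
      (∃ y ∈ Y', H.Adj x y) → (∃ y ∈ Y', H.Adj e y) → False)
    {Z : Set W} (hZY : Z ⊆ Y) (hdZ : d ∉ Z) (hZ : (H.induce Z).Connected)
    (hxZ : ∃ y ∈ Z, H.Adj x y) :
    ∃ Q' : Set W, (H.induce Q').Connected ∧ x ∈ Q' ∧ d ∈ Q' ∧ Disjoint Q' Z := by
  classical
  set F : Set (Set W) := {Z' | Z ⊆ Z' ∧ Z' ⊆ Y ∧ d ∉ Z' ∧ (H.induce Z').Connected} with hF
  have hZF : Z ∈ F := ⟨subset_rfl, hZY, hdZ, hZ⟩
  obtain ⟨⟨z0, hz0⟩⟩ := hZ.nonempty
  set K : Set W := ⋃₀ F with hK
  have hZK : Z ⊆ K := Set.subset_sUnion_of_mem hZF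
  have hKY : K ⊆ Y := Set.sUnion_subset (fun Z' h => h.2.1)
  have hdK : d ∉ K := by
    rintro ⟨Z', h1, h2⟩
    exact h1.2.2.1 h2
  have hKc : (H.induce K).Connected := by
    refine SimpleGraph.induce_sUnion_connected_of_pairwise_not_disjoint ⟨Z, hZF⟩ ?_ ?_
    · intro s t hs ht
      exact ⟨z0, hs.1 hz0, ht.1 hz0⟩
    · intro s hs
      exact hs.2.2.2
  have hclosed : ∀ y ∈ K, ∀ w ∈ Y, w ≠ d → H.Adj y w → w ∈ K := by
    rintro y ⟨Z', h1, h2⟩ w hw hwd hyw
    refine ⟨Z' ∪ {w}, ⟨h1.1.trans Set.subset_union_left, Set.union_subset h1.2.1 (by simpa using hw),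
      ?_, ?_⟩, Or.inr rfl⟩
    · rintro (h3 | h3)
      · exact h1.2.2.1 h3
      · exact hwd h3.symm
    · exact SimpleGraph.connected_induce_union h1.2.2.2.preconnected (by simp) h2 rfl hyw
  have hYK : (H.induce (Y \ K)).Connected := by
    have key : ∀ (u v : Y), (H.induce Y).Walk u v → ∀ (hu : u.1 ∉ K) (hv : v.1 = d),
        (H.induce (Y \ K)).Reachable ⟨u.1, u.2, hu⟩ ⟨d, hd, hdK⟩ := by
      intro u v w
      induction w with
      | @nil u =>
        intro hu hv
        have : (⟨u.1, u.2, hu⟩ : (Y \ K : Set W)) = ⟨d, hd, hdK⟩ := Subtype.ext hv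
        rw [this]
      | @cons u v w hadj _ ih =>
        intro hu hw
        have hadj' : H.Adj u.1 v.1 := by simpa using hadj
        by_cases hud : u.1 = d
        · have : (⟨u.1, u.2, hu⟩ : (Y \ K : Set W)) = ⟨d, hd, hdK⟩ := Subtype.ext hud
          rw [this]
        · have hv : v.1 ∉ K := fun hv => hu (hclosed v.1 hv u.1 u.2 hud hadj'.symm)
          refine SimpleGraph.Reachable.trans ?_ (ih hv hw)
          exact SimpleGraph.Adj.reachable (by simpa using hadj')
    have : Nonempty (Y \ K : Set W) := ⟨⟨d, hd, hdK⟩⟩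
    refine SimpleGraph.Connected.mk ?_
    rintro ⟨u, hu, huK⟩ ⟨v, hv, hvK⟩
    obtain ⟨w1⟩ := hY.preconnected ⟨u, hu⟩ ⟨d, hd⟩
    obtain ⟨w2⟩ := hY.preconnected ⟨v, hv⟩ ⟨d, hd⟩
    exact (key _ _ w1 huK rfl).trans (key _ _ w2 hvK rfl).symm
  obtain ⟨y, hyY, hey⟩ := heY
  obtain ⟨z, hzZ, hxz⟩ := hxZ
  have hyK : y ∉ K := fun h => hsep K hKY hdK hKc ⟨z, hZK hzZ, hxz⟩ ⟨y, h, hey⟩
  refine ⟨Q ∪ (Y \ K), ?_, Or.inl hxQ, Or.inr ⟨hd, hdK⟩, ?_⟩
  · exact SimpleGraph.connected_induce_union hQ.preconnected hYK.preconnected heQ ⟨hyY, hyK⟩ hey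
  · rw [Set.disjoint_left]
    rintro u (hu | hu) huZ
    · exact Set.disjoint_left.1 hQY hu (hZY huZ)
    · exact hu.2 (hZK huZ)

theorem region_of {V W : Type} [DecidableEq W] {G : SimpleGraph V} {H : SimpleGraph W}
    {h : V → W} {S : Finset W} {d : W} {C : Set V}
    (hC : IsComp G {v | h v ∈ insert d S} C)
    (hS : ∀ x ∈ S, ∀ e ∈ S, AdjLab G h C x → AdjLab G h C e → x = e)
    (hlink : ∀ x ∈ S, AdjLab G h C x → AdjLab G h C d →
      ∃ Q : Set W, (H.induce Q).Connected ∧ x ∈ Q ∧ d ∈ Q ∧ Disjoint Q (h '' C)) :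
    ∃ S' : Finset W, S' ⊆ insert d S ∧ d ∈ S' ∧ Region G H h C S' := by
  classical
  refine ⟨insert d (S.filter (fun x => AdjLab G h C x)), ?_, Finset.mem_insert_self _ _, ?_, ?_, ?_⟩
  · exact Finset.insert_subset_insert _ (Finset.filter_subset _ _)
  · refine ⟨hC.conn, ?_, ?_⟩
    · refine Set.disjoint_of_subset_right ?_ hC.disj
      intro v hv
      exact Finset.insert_subset_insert _ (Finset.filter_subset _ _) hv
    · intro a ha b hab hb
      by_cases h1 : h b ∈ insert d S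
      · exfalso
        apply hb
        show h b ∈ insert d (S.filter (fun x => AdjLab G h C x))
        rcases Finset.mem_insert.1 h1 with h2 | h2
        · exact Finset.mem_insert.2 (Or.inl h2)
        · exact Finset.mem_insert.2 (Or.inr (Finset.mem_filter.2 ⟨h2, a, ha, b, hab, rfl⟩))
      · exact hC.closed a ha b hab h1
  · have h1 : (S.filter (fun x => AdjLab G h C x)).card ≤ 1 := by
      rw [Finset.card_le_one]
      intro x hx e he
      rw [Finset.mem_filter] at hx he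
      exact hS x hx.1 e he.1 hx.2 he.2
    exact (Finset.card_insert_le _ _).trans (by omega)
  · intro x hx e he hxe hlx hle
    rw [Finset.mem_insert, Finset.mem_filter] at hx he
    rcases hx with rfl | ⟨hxS, -⟩
    · rcases he with rfl | ⟨heS, -⟩
      · exact absurd rfl hxe
      · obtain ⟨Q, h1, h2, h3, h4⟩ := hlink e heS hle hlx
        exact ⟨Q, h1, h3, h2, h4⟩
    · rcases he with rfl | ⟨heS, -⟩
      · exact hlink x hxS hlx hle
      · exact absurd (hS x hxS e heS hlx hle) hxe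

end StepAux

open StepAux in
theorem step {V W : Type} [DecidableEq W] {G : SimpleGraph V} {H : SimpleGraph W}
    {h : V → W} (hK4 : NoK4 H) (hom : ∀ u v, G.Adj u v → h u = h v ∨ H.Adj (h u) (h v))
    {A : Set V} {S : Finset W} (hR : Region G H h A S) :
    ∃ d ∈ h '' A, ∀ C : Set V, IsComp G {v | h v ∈ insert d S} C → C ⊆ A →
      ∃ S' : Finset W, S' ⊆ insert d S ∧ d ∈ S' ∧ Region G H h C S' := by
  classical
  have hY := image_conn hom hR.comp.conn
  have hdC : ∀ d : W, ∀ C : Set V, IsComp G {v | h v ∈ insert d S} C → d ∉ h '' C := by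
    intro d C hC
    exact not_mem_image hC (Finset.mem_insert_self _ _)
  have hxC : ∀ d : W, ∀ C : Set V, IsComp G {v | h v ∈ insert d S} C → ∀ x ∈ S, x ∉ h '' C := by
    intro d C hC x hx
    exact not_mem_image hC (Finset.mem_insert_of_mem hx)
  by_cases h2 : ∃ x ∈ S, ∃ e ∈ S, x ≠ e ∧ AdjLab G h A x ∧ AdjLab G h A e
  · obtain ⟨x, hx, e, he, hxe, hlx, hle⟩ := h2
    obtain ⟨Q, hQ, hxQ, heQ, hQY⟩ := hR.link x hx e he hxe hlx hle
    have hxY := not_mem_image hR.comp hx
    have heY := not_mem_image hR.comp he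
    obtain ⟨d, hd, hsep⟩ := sep H hK4 (h '' A) hY x e hxY heY hxe (adjLab_adj hom hxY hlx)
      (adjLab_adj hom heY hle) Q hQ hxQ heQ hQY
    have hSeq : ∀ z ∈ S, z = x ∨ z = e := by
      intro z hz
      by_contra hne
      push Not at hne
      have h3 : ({z, x, e} : Finset W) ⊆ S := by
        intro w hw
        simp only [Finset.mem_insert, Finset.mem_singleton] at hw
        rcases hw with rfl | rfl | rfl <;> assumption
      have h4 : ({z, x, e} : Finset W).card = 3 := by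
        rw [Finset.card_insert_of_notMem, Finset.card_insert_of_notMem, Finset.card_singleton]
        · simpa using hxe
        · simp [hne.1, hne.2]
      have h5 := Finset.card_le_card h3
      have h6 := hR.card
      omega
    refine ⟨d, hd, fun C hC hCA => ?_⟩
    have hZY : h '' C ⊆ h '' A := Set.image_mono hCA
    have hZ := image_conn hom hC.conn
    have hnot : ¬ (AdjLab G h C x ∧ AdjLab G h C e) := by
      rintro ⟨h3, h4⟩
      exact hsep (h '' C) hZY (hdC d C hC) hZ (adjLab_adj hom (hxC d C hC x hx) h3)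
        (adjLab_adj hom (hxC d C hC e he) h4)
    refine region_of hC ?_ ?_
    · intro u hu w hw hlu hlw
      rcases hSeq u hu with rfl | rfl
      · rcases hSeq w hw with rfl | rfl
        · rfl
        · exact absurd ⟨hlu, hlw⟩ hnot
      · rcases hSeq w hw with rfl | rfl
        · exact absurd ⟨hlw, hlu⟩ hnot
        · rfl
    · intro u hu hlu _
      rcases hSeq u hu with rfl | rfl
      · exact link_of_sep hY (adjLab_adj hom heY hle) hQ hxQ heQ hQY hd hsep hZY (hdC d C hC) hZ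
          (adjLab_adj hom (hxC d C hC _ hu) hlu)
      · exact link_of_sep hY (adjLab_adj hom hxY hlx) hQ heQ hxQ hQY hd
          (fun Y' a1 a2 a3 a4 a5 => hsep Y' a1 a2 a3 a5 a4) hZY (hdC d C hC) hZ
          (adjLab_adj hom (hxC d C hC _ hu) hlu)
  · have h2' : ∀ x ∈ S, ∀ e ∈ S, AdjLab G h A x → AdjLab G h A e → x = e := by
      intro x hx e he hlx hle
      by_contra hxe
      exact h2 ⟨x, hx, e, he, hxe, hlx, hle⟩
    by_cases h1 : ∃ x ∈ S, AdjLab G h A x
    · obtain ⟨x, hx, hlx⟩ := h1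
      obtain ⟨d, hd, hxd⟩ := adjLab_adj hom (not_mem_image hR.comp hx) hlx
      refine ⟨d, hd, fun C hC hCA => ?_⟩
      refine region_of hC ?_ ?_
      · intro u hu w hw hlu hlw
        exact h2' u hu w hw (adjLab_mono hCA hlu) (adjLab_mono hCA hlw)
      · intro u hu hlu _
        have hux : u = x := h2' u hu x hx (adjLab_mono hCA hlu) hlx
        subst hux
        refine ⟨{u, d}, SimpleGraph.induce_pair_connected_of_adj hxd, by simp, by simp, ?_⟩
        rw [Set.disjoint_left]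
        rintro w (rfl | rfl) hw
        · exact hxC d C hC _ hu hw
        · exact hdC _ C hC hw
    · obtain ⟨⟨a, ha⟩⟩ := hR.comp.conn.nonempty
      refine ⟨h a, Set.mem_image_of_mem h ha, fun C hC hCA => ?_⟩
      refine region_of hC ?_ ?_
      · intro u hu w hw hlu hlw
        exact h2' u hu w hw (adjLab_mono hCA hlu) (adjLab_mono hCA hlw)
      · intro u hu hlu _
        exact absurd ⟨u, hu, adjLab_mono hCA hlu⟩ h1

end Pool.Agent.MP3d
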