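import Pool.Agent.Lib.MP_3d7595_co.Hat
import Pool.Agent.Lib.MP_3d7595_co.StepL
import Pool.Agent.Lib.MP_3d7595_co.Run

set_option autoImplicit false

namespace Pool.Agent.MP3d

/-- the hypotheses on the product structure, with the constants used in the argument -/
structure Setup (p : Par) {V W : Type} (G : SimpleGraph V) (H : SimpleGraph W) (h : V → W)
    (y : V → ℕ) (c R β κ : ℕ) : Prop where
  noK4 : NoK4 H
  hom : ∀ u v, G.Adj u v → h u = h v ∨ H.Adj (h u) (h v)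
  lip : Lip G y
  thin : ∀ S : Finset W, S.card ≤ 3 → Thin y c {v | h v ∈ S}
  small : ∀ S : Finset W, S.card ≤ 3 → {v | h v ∈ S}.ncard ≤ β * p.L
  hR : 2 * c * (2 * R + 5) ≤ 2 ^ R
  hRl : R < p.lam
  hlam : 2 ≤ p.lam
  hβ : 1 ≤ β
  hk : 4 * β < p.k
  hκ : 3 ≤ κ
  hκl : κ ≤ p.lam
  hn0 : 4 * β + β * 2 ^ κ < p.n0
  hPI : 2 * (4 * β + 1) ^ (2 * (p.k * 2 ^ (R+2)) + 1) *
    (2 ^ (p.lam - κ) + 4 * β * (2 * (p.k * 2 ^ (R+2)) + 1) + 1) < p.L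
  hnu : 4 * (4 * β + 1) ^ (2 * (p.k * 2 ^ (R+2)) + 2) * (β * 2 ^ κ + 3) ≤ 2 ^ p.nu
  hN : 2 ^ (R+2) ≤ p.N

end Pool.Agent.MP3d
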