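import Pool.Agent.Lib.MP_3d7595_co.Defs

set_option autoImplicit false

namespace Pool.Agent.MP3d

namespace Par
variable (p : Par)

theorem two_le_L : 2 ≤ p.L := by
  have h : 2 ^ 1 ≤ 2 ^ p.lam := Nat.pow_le_pow_right (by norm_num) p.hlam
  simpa [L] using h

theorem L_pos : 0 < p.L := lt_of_lt_of_le (by norm_num) p.two_le_L

theorem pow_lam_mul (i : ℕ) : 2 ^ (p.lam * i) = p.L ^ i := by
  rw [pow_mul]; rfl

theorem L_le_pow (i : ℕ) (hi : 1 ≤ i) : p.L ≤ p.L ^ i := by
  have h := Nat.pow_le_pow_right p.L_pos hi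
  simpa using h

theorem q_pos (i : ℕ) : 0 < p.q i := by
  have h := p.two_le_L
  unfold q
  omega

/-- use this with omega (atoms `p.lam * i`, `p.L`) -/
theorem q_eq (i : ℕ) : p.q i + 1 = p.L + 2 * (p.lam * i) := by
  have h := p.two_le_L
  unfold q
  omega

theorem o_zero : p.o 0 = 0 := rfl

theorem o_one : p.o 1 = p.lam := rfl

theorem o_succ (i : ℕ) (hi : 1 ≤ i) : p.o (i+1) = p.o i + p.k * p.q i := by
  obtain ⟨m, rfl⟩ : ∃ m, i = m + 1 := ⟨i - 1, by omega⟩
  rfl

theorem o_strictMono : StrictMono p.o := by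
  apply strictMono_nat_of_lt_succ
  intro n
  rcases Nat.eq_zero_or_pos n with rfl | hn
  · rw [o_zero, zero_add, o_one]
    exact p.hlam
  · rw [p.o_succ n hn]
    have h := Nat.mul_pos p.hk (p.q_pos n)
    omega

theorem row0_zero (i : ℕ) : p.row0 i 0 = p.o i := by
  simp [row0]

theorem row0_succ (i j : ℕ) : p.row0 i (j+1) = p.row0 i j + p.q i := by
  unfold row0
  ring

theorem row0_k (i : ℕ) (hi : 1 ≤ i) : p.row0 i p.k = p.o (i+1) := by
  rw [p.o_succ i hi]
  rfl

theorem row0_mono (i : ℕ) : Monotone (p.row0 i) := by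
  intro j j' h
  unfold row0
  exact Nat.add_le_add_left (Nat.mul_le_mul_right _ h) _

theorem row0_le (i j : ℕ) (hi : 1 ≤ i) (hj : j ≤ p.k) : p.row0 i j ≤ p.o (i+1) := by
  rw [← p.row0_k i hi]
  exact p.row0_mono i hj

theorem o_le_row0 (i j : ℕ) : p.o i ≤ p.row0 i j := by
  unfold row0
  exact Nat.le_add_right _ _

theorem row0_add_lt (i j s : ℕ) (hi : 1 ≤ i) (hj : j < p.k) (hs : s < p.q i) :
    p.row0 i j + s < p.o (i+1) := by
  have h := p.row0_le i (j+1) hi hj
  rw [p.row0_succ] at h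
  omega

theorem rr_eq (i j : ℕ) : p.rr i j + 1 = p.row0 i j + p.L + p.lam * i := by
  have h := p.two_le_L
  unfold rr row0
  omega

theorem rr_add (i j : ℕ) : p.rr i j + p.lam * i = p.row0 i (j+1) := by
  have h1 := p.rr_eq i j
  have h2 := p.q_eq i
  rw [p.row0_succ]
  omega

theorem rr_sub (i j : ℕ) : p.rr i j - p.lam * i = p.row0 i j + (p.L - 1) := by
  have h1 := p.rr_eq i j
  have h2 := p.two_le_L
  omega

theorem rr_lt (i j : ℕ) (hi : 1 ≤ i) (hj : j < p.k) : p.rr i j + p.lam * i ≤ p.o (i+1) := by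
  rw [p.rr_add]
  exact p.row0_le i (j+1) hi hj

theorem lam_mul_pos (i : ℕ) (hi : 1 ≤ i) : 1 ≤ p.lam * i := by
  exact Nat.mul_pos p.hlam hi

theorem lev_le (δ : ℕ) : p.lev δ ≤ p.N + 1 := by
  exact Nat.findGreatest_le _

theorem lev_mono : Monotone p.lev := by
  intro a b h
  unfold lev
  exact Nat.findGreatest_mono_left (fun n hn => le_trans hn h) _

theorem o_lev_le (δ : ℕ) : p.o (p.lev δ) ≤ δ := by
  have h : (fun i => p.o i ≤ δ) (Nat.findGreatest (fun i => p.o i ≤ δ) (p.N + 1)) :=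
    Nat.findGreatest_spec (P := fun i => p.o i ≤ δ) (m := 0) (Nat.zero_le _) (Nat.zero_le _)
  exact h

theorem lt_o_lev_succ (δ : ℕ) (h : p.lev δ ≤ p.N) : δ < p.o (p.lev δ + 1) := by
  have h1 : ¬ (p.o (p.lev δ + 1) ≤ δ) :=
    Nat.findGreatest_is_greatest (P := fun i => p.o i ≤ δ) (n := p.N + 1)
      (Nat.lt_succ_self _) (Nat.succ_le_succ h)
  omega

theorem lev_eq (i δ : ℕ) (hi : i ≤ p.N) (h1 : p.o i ≤ δ) (h2 : δ < p.o (i+1)) : p.lev δ = i := by
  have ha : i ≤ p.lev δ := Nat.le_findGreatest (by omega) h1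
  have hb : p.lev δ < i + 1 := by
    rw [← p.o_strictMono.lt_iff_lt]
    exact lt_of_le_of_lt (p.o_lev_le δ) h2
  omega

theorem lev_top (δ : ℕ) (h : p.o (p.N+1) ≤ δ) : p.lev δ = p.N + 1 := by
  have ha : p.N + 1 ≤ p.lev δ := Nat.le_findGreatest le_rfl h
  have hb := p.lev_le δ
  omega

theorem lev_base (δ : ℕ) (h : δ < p.lam) : p.lev δ = 0 := by
  apply p.lev_eq 0 δ (Nat.zero_le _) (Nat.zero_le _)
  rw [zero_add, o_one]
  exact h

theorem lev_row (i j s : ℕ) (hi : 1 ≤ i) (hiN : i ≤ p.N) (hj : j < p.k) (hs : s < p.q i) :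
    p.lev (p.row0 i j + s) = i := by
  apply p.lev_eq i _ hiN
  · exact le_trans (p.o_le_row0 i j) (Nat.le_add_right _ _)
  · exact p.row0_add_lt i j s hi hj hs

/-- every row of a level `1 ≤ i ≤ N` is `row0 i j + s` -/
theorem row_form (δ : ℕ) (h1 : 1 ≤ p.lev δ) (h2 : p.lev δ ≤ p.N) :
    ∃ j s, j < p.k ∧ s < p.q (p.lev δ) ∧ δ = p.row0 (p.lev δ) j + s := by
  have ha := p.o_lev_le δ
  have hb := p.lt_o_lev_succ δ h2
  rw [p.o_succ _ h1] at hb
  set i := p.lev δ with hidef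
  refine ⟨(δ - p.o i) / p.q i, (δ - p.o i) % p.q i, ?_, Nat.mod_lt _ (p.q_pos i), ?_⟩
  · rw [Nat.div_lt_iff_lt_mul (p.q_pos i)]
    omega
  · unfold row0
    have hd := Nat.div_add_mod (δ - p.o i) (p.q i)
    rw [mul_comm] at hd
    omega

theorem row_mod (i j s : ℕ) (hs : s < p.q i) :
    (p.row0 i j + s - p.o i) % p.q i = s := by
  have : p.row0 i j + s - p.o i = s + j * p.q i := by
    unfold row0
    omega
  rw [this, Nat.add_mul_mod_self_right, Nat.mod_eq_of_lt hs]

theorem res_row (i j s : ℕ) (hi : 1 ≤ i) (hiN : i ≤ p.N) (hj : j < p.k) (hs : s < p.q i) :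
    p.res (p.row0 i j + s) =
      if s < p.L then 0 else min (s - p.L + 1) (2 * (p.lam * i) - 1 - (s - p.L)) := by
  have hl := p.lev_row i j s hi hiN hj hs
  unfold res
  rw [hl, p.row_mod i j s hs]
  rw [if_neg (by omega), if_neg (by omega)]

theorem res_top (δ : ℕ) (h : p.o (p.N+1) ≤ δ) : p.res δ = 0 := by
  have hl := p.lev_top δ h
  unfold res
  rw [hl]
  simp

theorem L_le_q (i : ℕ) (hi : 1 ≤ i) : p.L < p.q i := by
  have h1 := p.q_eq i
  have h2 := p.lam_mul_pos i hi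
  omega

/-- the first row of a period has resolution 0 -/
theorem res_row0 (i j : ℕ) (hi : 1 ≤ i) (hiN : i ≤ p.N) (hj : j ≤ p.k) :
    p.res (p.row0 i j) = 0 := by
  rcases Nat.lt_or_ge j p.k with hj' | hj'
  · have h := p.res_row i j 0 hi hiN hj' (p.q_pos i)
    rw [add_zero] at h
    rw [h, if_pos p.L_pos]
  · have hjk : j = p.k := le_antisymm hj hj'
    subst hjk
    rw [p.row0_k i hi]
    rcases Nat.lt_or_ge i p.N with hN | hN
    · have h := p.res_row (i+1) 0 0 (by omega) (by omega) (lt_of_lt_of_le Nat.zero_lt_one p.hk)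
        (p.q_pos _)
      rw [p.row0_zero, add_zero] at h
      rw [h, if_pos p.L_pos]
    · have : i = p.N := le_antisymm hiN hN
      subst this
      exact p.res_top _ le_rfl

theorem res_base (δ : ℕ) (h : δ ≤ p.lam) : p.res δ = p.lam - δ := by
  rcases Nat.lt_or_ge δ p.lam with h' | h'
  · have hl := p.lev_base δ h'
    unfold res
    rw [hl]
    simp
  · have he : δ = p.lam := le_antisymm h h'
    subst he
    have h0 := p.res_row0 1 0 le_rfl p.hN (Nat.zero_le _)
    rw [p.row0_zero, p.o_one] at h0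
    rw [h0]
    omega

/-- rows of cells have resolution 0 -/
theorem res_cell (i j s x : ℕ) (h : p.CellOK i j x) (hs : s < p.L) :
    p.res (p.row0 i j + s) = 0 ∧ p.lev (p.row0 i j + s) = i ∧ p.row0 i j + s < p.T := by
  obtain ⟨h1, -, -, -⟩ := h
  rcases h1 with ⟨hi, hiN, hj⟩ | ⟨hi, hj⟩
  · have hq : s < p.q i := lt_trans hs (p.L_le_q i hi)
    refine ⟨?_, p.lev_row i j s hi hiN hj hq, ?_⟩
    · rw [p.res_row i j s hi hiN hj hq, if_pos hs]
    · have h2 := p.row0_add_lt i j s hi hj hq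
      have h3 : p.o (i+1) ≤ p.o (p.N+1) := p.o_strictMono.monotone (by omega)
      unfold T
      omega
  · subst hi
    subst hj
    rw [p.row0_zero]
    refine ⟨p.res_top _ (Nat.le_add_right _ _), p.lev_top _ (Nat.le_add_right _ _), ?_⟩
    unfold T
    omega

theorem lev_up (i j t : ℕ) (hi : 1 ≤ i) (hiN : i ≤ p.N) (hj : j < p.k) (ht : t < p.lam * i) :
    p.lev (p.rr i j + t) = i := by
  have h1 := p.rr_eq i j
  have h2 := p.q_eq i
  have h3 := p.two_le_L
  have h4 := p.lam_mul_pos i hi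
  have h5 : p.rr i j + t = p.row0 i j + (p.L + p.lam * i - 1 + t) := by omega
  rw [h5]
  exact p.lev_row i j _ hi hiN hj (by omega)

theorem lev_dn (i j t : ℕ) (hi : 1 ≤ i) (hiN : i ≤ p.N) (hj : j < p.k) (ht : t ≤ p.lam * i) :
    p.lev (p.rr i j - t) = i := by
  have h1 := p.rr_eq i j
  have h2 := p.q_eq i
  have h3 := p.two_le_L
  have h4 := p.lam_mul_pos i hi
  have h5 : p.rr i j - t = p.row0 i j + (p.L + p.lam * i - 1 - t) := by omega
  rw [h5]
  exact p.lev_row i j _ hi hiN hj (by omega)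

theorem res_up (i j t : ℕ) (hi : 1 ≤ i) (hiN : i ≤ p.N) (hj : j < p.k) (ht : t ≤ p.lam * i) :
    p.res (p.rr i j + t) = p.lam * i - t := by
  have h1 := p.rr_eq i j
  have h2 := p.q_eq i
  have h3 := p.two_le_L
  have h4 := p.lam_mul_pos i hi
  rcases Nat.lt_or_ge t (p.lam * i) with ht' | ht'
  · have h5 : p.rr i j + t = p.row0 i j + (p.L + p.lam * i - 1 + t) := by omega
    rw [h5, p.res_row i j _ hi hiN hj (by omega), if_neg (by omega)]
    omega
  · have h6 : t = p.lam * i := le_antisymm ht ht'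
    rw [h6, p.rr_add, p.res_row0 i (j+1) hi hiN hj]
    omega

theorem res_dn (i j t : ℕ) (hi : 1 ≤ i) (hiN : i ≤ p.N) (hj : j < p.k) (ht : t ≤ p.lam * i) :
    p.res (p.rr i j - t) = p.lam * i - t := by
  have h1 := p.rr_eq i j
  have h2 := p.q_eq i
  have h3 := p.two_le_L
  have h4 := p.lam_mul_pos i hi
  have h5 : p.rr i j - t = p.row0 i j + (p.L + p.lam * i - 1 - t) := by omega
  rw [h5, p.res_row i j _ hi hiN hj (by omega)]
  split_ifs with h6 <;> omega

theorem res_step (δ : ℕ) : p.res (δ+1) ≤ p.res δ + 1 ∧ p.res δ ≤ p.res (δ+1) + 1 := by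
  rcases Nat.lt_or_ge δ p.lam with h0 | h0
  · rw [p.res_base δ h0.le, p.res_base (δ+1) h0]
    omega
  · have h1 : 1 ≤ p.lev δ := by
      by_contra hc
      have hz : p.lev δ = 0 := by omega
      have h2 := p.lt_o_lev_succ δ (by omega)
      rw [hz, zero_add, p.o_one] at h2
      omega
    rcases Nat.lt_or_ge p.N (p.lev δ) with h2 | h2
    · have h3 : p.lev δ = p.N + 1 := le_antisymm (p.lev_le δ) h2
      have h4 := p.o_lev_le δ
      rw [h3] at h4
      rw [p.res_top δ h4, p.res_top (δ+1) (by omega)]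
      omega
    · obtain ⟨j, s, hj, hs, hδ⟩ := p.row_form δ h1 h2
      generalize p.lev δ = i at *
      have hr := p.res_row i j s h1 h2 hj hs
      rw [← hδ] at hr
      have hq := p.q_eq i
      have hL := p.two_le_L
      have hm := p.lam_mul_pos i h1
      rcases Nat.lt_or_ge (s+1) (p.q i) with h3 | h3
      · have hr' := p.res_row i j (s+1) h1 h2 hj h3
        rw [← add_assoc, ← hδ] at hr'
        rw [hr, hr']
        split_ifs <;> omega
      · have h4 : δ + 1 = p.row0 i (j+1) := by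
          rw [p.row0_succ]
          omega
        rw [h4, p.res_row0 i (j+1) h1 h2 hj, hr]
        split_ifs <;> omega

theorem res_le_lev (δ : ℕ) (h : 1 ≤ p.lev δ) : p.res δ ≤ p.lam * p.lev δ := by
  unfold res
  split_ifs <;> omega

theorem res_le (δ : ℕ) : p.res δ ≤ p.lam * (p.lev δ + 1) := by
  rcases Nat.eq_zero_or_pos (p.lev δ) with h | h
  · rw [h, zero_add, mul_one]
    unfold res
    rw [if_pos h]
    omega
  · have h1 := p.res_le_lev δ h
    rw [mul_add, mul_one]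
    omega

/-- mirrored rows -/
theorem sym (δ : ℕ) (h : δ < p.T) :
    p.lev (min δ (p.P - δ)) = p.lev δ ∧ p.res (min δ (p.P - δ)) = p.res δ := by
  rcases Nat.lt_or_ge (p.P - δ) δ with h1 | h1
  · have hL := p.two_le_L
    have h2 : p.o (p.N+1) ≤ δ := by
      unfold P T at *
      omega
    have h3 : p.o (p.N+1) ≤ p.P - δ := by
      unfold P T at *
      omega
    rw [min_eq_right h1.le, p.lev_top _ h2, p.lev_top _ h3, p.res_top _ h2, p.res_top _ h3]
    exact ⟨rfl, rfl⟩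
  · rw [min_eq_left h1]
    exact ⟨rfl, rfl⟩

theorem o_top_pos : 1 ≤ p.o (p.N + 1) := by
  have h : p.o 0 < p.o (p.N + 1) := p.o_strictMono (Nat.succ_pos _)
  rw [p.o_zero] at h
  exact h

theorem P_sub (δ : ℕ) (h0 : 0 < δ) (h : δ < p.T) :
    0 < p.P - δ ∧ p.P - δ < p.P ∧ p.P - (p.P - δ) = δ := by
  have h1 := p.o_top_pos
  have h2 := p.two_le_L
  unfold P T at *
  omega

/-- every row of a storey is, from one of the two sides, at depth `< T` -/
theorem P_half (t : ℕ) (h0 : 0 < t) (h : t < p.P) : min t (p.P - t) < p.T := by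
  have h1 := p.o_top_pos
  have h2 := p.two_le_L
  unfold P T at *
  omega

/-! presence -/

theorem pres_mono (i i' x : ℕ) (h : i ≤ i') (hp : p.pres i x) : p.pres i' x := by
  intro m hm hmN
  exact hp m (lt_of_le_of_lt h hm) hmN

theorem pres_top (i x : ℕ) (h : p.N ≤ i) : p.pres i x := by
  intro m hm hmN
  omega

theorem div_pow_congr (i m x x' : ℕ) (hm : i < m) (h : x / p.L ^ (i+1) = x' / p.L ^ (i+1)) :
    x / p.L ^ m = x' / p.L ^ m := by
  have h1 : p.L ^ m = p.L ^ (i+1) * p.L ^ (m - (i+1)) := by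
    rw [← pow_add]
    congr 1
    omega
  rw [h1, ← Nat.div_div_eq_div_mul, ← Nat.div_div_eq_div_mul, h]

theorem pres_congr (i x x' : ℕ) (h : x / p.L ^ (i+1) = x' / p.L ^ (i+1)) :
    p.pres i x ↔ p.pres i x' := by
  unfold pres
  refine forall_congr' fun m => ?_
  refine forall_congr' fun hm => ?_
  rw [p.div_pow_congr i m x x' hm h]

/-- presence at level `i` in terms of level `i+1` and one digit -/
theorem pres_succ (i x : ℕ) (h : i + 1 ≤ p.N) :
    p.pres i x ↔ p.pres (i+1) x ∧ p.dec ((x / p.L ^ (i+1)) % p.L) := by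
  constructor
  · intro hp
    exact ⟨p.pres_mono i (i+1) x (Nat.le_succ _) hp, hp (i+1) (Nat.lt_succ_self _) h⟩
  · rintro ⟨h1, h2⟩ m hm hmN
    rcases Nat.lt_or_ge (i+1) m with h3 | h3
    · exact h1 m h3 hmN
    · have h4 : m = i + 1 := by omega
      subst h4
      exact h2

theorem digit_zero (i x : ℕ) (h : p.L ^ (i+1) ∣ x) : (x / p.L ^ i) % p.L = 0 := by
  obtain ⟨c, rfl⟩ := h
  have h1 : p.L ^ (i+1) * c = p.L ^ i * (p.L * c) := by
    rw [pow_succ, mul_assoc]
  rw [h1, Nat.mul_div_cancel_left _ (Nat.pow_pos p.L_pos)]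
  exact Nat.mul_mod_right _ _

theorem hat_le (i i' x : ℕ) (h : p.HatOK i x) (h' : p.HatOK i' x) : i' ≤ i := by
  by_contra hc
  obtain ⟨-, -, -, hp⟩ := h
  obtain ⟨hN, hd, -, -⟩ := h'
  have h1 := hp i' (by omega) hN
  exact h1.1 (p.digit_zero i' x hd)

/-- a hat start has a unique level -/
theorem hat_unique (i i' x : ℕ) (h : p.HatOK i x) (h' : p.HatOK i' x) : i = i' :=
  le_antisymm (p.hat_le i' i x h' h) (p.hat_le i i' x h h')

/-- the same block at depth `δ` means same presence -/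
theorem pres_block (δ x x' : ℕ) (h : x / 2 ^ p.res δ = x' / 2 ^ p.res δ) :
    p.pres (p.lev δ) x ↔ p.pres (p.lev δ) x' := by
  apply p.pres_congr
  have h1 : p.L ^ (p.lev δ + 1) = 2 ^ p.res δ * 2 ^ (p.lam * (p.lev δ + 1) - p.res δ) := by
    rw [← pow_add, ← p.pow_lam_mul]
    congr 1
    have := p.res_le δ
    omega
  rw [h1, ← Nat.div_div_eq_div_mul, ← Nat.div_div_eq_div_mul, h]

end Par

end Pool.Agent.MP3d
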